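import Pool.Agent.Lib.Sm.L.Stmt

/-!
SMITH, block L: from the twists by monic squarefree `D` prime to the bad primes, for all the curves
`y ^ 2 = x (x - a) (x - b)`, to the twists by all squarefree polynomials.
-/

set_option autoImplicit false

open Polynomial Pool.Agent

namespace Pool.Agent.Sm.L

variable {k : Type} [Field k]

private lemma allD_no4_aux {a : k[X]} {e : k[X]} (he : e ≠ 0) (h : ∀ (c : k) (f : k[X]), a ≠ C c * f ^ 2)
    (c : k) (f : k[X]) : e ^ 2 * a ≠ C c * f ^ 2 := by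
  intro h1
  by_cases hc : c = 0
  · rw [hc, C_0, zero_mul] at h1
    have h2 : a = 0 := (mul_eq_zero.1 h1).resolve_left (pow_ne_zero 2 he)
    exact h 0 0 (by rw [h2]; simp)
  · have hcu : IsUnit (C c : k[X]) := isUnit_C.2 (isUnit_iff_ne_zero.2 hc)
    have h2 : e ^ 2 ∣ f ^ 2 := by
      have : e ^ 2 ∣ C c * f ^ 2 := ⟨a, h1.symm⟩
      exact (hcu.dvd_mul_left).1 this
    have h3 : e ∣ f := (IsIntegrallyClosed.pow_dvd_pow_iff two_ne_zero).1 h2
    obtain ⟨g, rfl⟩ := h3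
    refine h c g (mul_left_cancel₀ (pow_ne_zero 2 he) ?_)
    rw [h1]
    ring

/-- The hypothesis is invariant under twists. -/
theorem No4.twist {α β : k[X]} (h : No4 α β) {e : k[X]} (he : e ≠ 0) :
    No4 (e * α) (e * β) where
  n0 c f := by
    have := allD_no4_aux he h.n0 c f
    rwa [show e * α * (e * β) = e ^ 2 * (α * β) by ring]
  n1 c f := by
    have := allD_no4_aux he h.n1 c f
    rwa [show e * α * (e * α - e * β) = e ^ 2 * (α * (α - β)) by ring]
  n2 c f := by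
    have := allD_no4_aux he h.n2 c f
    rwa [show e * β * (e * β - e * α) = e ^ 2 * (β * (β - α)) by ring]

theorem good_mul (α β e D : k[X]) (j : ℕ) : Good (e * α) (e * β) j D ↔ Good α β j (e * D) := by
  unfold Good
  rw [show D * (e * α) = e * D * α by ring, show D * (e * β) = e * D * β by ring]

private lemma allD_finite [Finite k] (n : ℕ) : {D : k[X] | D.natDegree ≤ n}.Finite := by
  have h : {D : k[X] | D.natDegree ≤ n} ⊆ (degreeLT k (n + 1) : Set k[X]) := by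
    intro D hD
    rw [SetLike.mem_coe, mem_degreeLT]
    exact lt_of_le_of_lt degree_le_natDegree (by exact_mod_cast Nat.lt_succ_of_le hD)
  refine Set.Finite.subset ?_ h
  have : Finite (degreeLT k (n + 1)) := Finite.of_equiv _ (degreeLTEquiv k (n + 1)).toEquiv.symm
  exact Set.toFinite _

/-- From monic squarefree `D` prime to the bad primes to all squarefree `D`. -/
theorem all_squarefree [Finite k]
    (hmain : ∀ a b : k[X], No4 a b → ∀ ε : ℝ, 0 < ε → ∃ j₀ : ℕ, ∀ j ≥ j₀, ∃ n₀ : ℕ, ∀ n ≥ n₀,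
      (Nat.card {D : k[X] // D.Monic ∧ Squarefree D ∧ IsCoprime D (a * b * (a - b)) ∧
        D.natDegree = n ∧ ¬ Good a b j D} : ℝ) ≤ ε * (Nat.card k : ℝ) ^ n)
    (hlow : ∃ c : ℝ, 0 < c ∧ ∃ n₁ : ℕ, ∀ n ≥ n₁, c * (Nat.card k : ℝ) ^ n ≤
      (Nat.card {D : k[X] // Squarefree D ∧ D.natDegree = n} : ℝ))
    (α β : k[X]) (h4 : No4 α β) (ε : ℝ) (hε : 0 < ε) :
    ∃ j n₀ : ℕ, ∀ n ≥ n₀,
      (Nat.card {D : k[X] // Squarefree D ∧ D.natDegree = n ∧ ¬ Good α β j D} : ℝ) ≤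
        ε * (Nat.card {D : k[X] // Squarefree D ∧ D.natDegree = n} : ℝ) := by
  classical
  obtain ⟨c₀, hc₀, n₁, hlow⟩ := hlow
  have hα : α ≠ 0 := fun h => h4.n0 0 0 (by rw [h]; simp)
  have hβ : β ≠ 0 := fun h => h4.n0 0 0 (by rw [h]; simp)
  have hαβ : α - β ≠ 0 := fun h => h4.n1 0 0 (by rw [h]; simp)
  set M : k[X] := α * β * (α - β) with hM
  have hM0 : M ≠ 0 := mul_ne_zero (mul_ne_zero hα hβ) hαβ
  -- the finite set of the multipliers `e = c D₁`
  have hfin : {e : k[X] | e ≠ 0 ∧ e ∣ M}.Finite := by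
    refine Set.Finite.subset (allD_finite M.natDegree) ?_
    rintro e ⟨_, he⟩
    exact natDegree_le_of_dvd he hM0
  set Es := hfin.toFinset with hEs
  set N : ℝ := (Es.card : ℝ) + 1 with hN
  have hN0 : 0 < N := by positivity
  set ε' : ℝ := ε * c₀ / N with hε'
  have hε'0 : 0 < ε' := by positivity
  have hmem : ∀ e ∈ Es, e ≠ 0 ∧ e ∣ M := fun e he => by simpa [hEs] using he
  have hj : ∀ e : k[X], ∃ j₀ : ℕ, e ∈ Es → ∀ j ≥ j₀, ∃ n₀ : ℕ, ∀ n ≥ n₀,
      (Nat.card {D : k[X] // D.Monic ∧ Squarefree D ∧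
        IsCoprime D (e * α * (e * β) * (e * α - e * β)) ∧
        D.natDegree = n ∧ ¬ Good (e * α) (e * β) j D} : ℝ) ≤ ε' * (Nat.card k : ℝ) ^ n := by
    intro e
    by_cases he : e ∈ Es
    · obtain ⟨j₀, h⟩ := hmain (e * α) (e * β) (h4.twist (hmem e he).1) ε' hε'0
      exact ⟨j₀, fun _ => h⟩
    · exact ⟨0, fun h => absurd h he⟩
  choose j₀ hj₀ using hj
  set j := Es.sup j₀ with hjdef
  have hn : ∀ e : k[X], ∃ n₀ : ℕ, e ∈ Es → ∀ n ≥ n₀,
      (Nat.card {D : k[X] // D.Monic ∧ Squarefree D ∧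
        IsCoprime D (e * α * (e * β) * (e * α - e * β)) ∧
        D.natDegree = n ∧ ¬ Good (e * α) (e * β) j D} : ℝ) ≤ ε' * (Nat.card k : ℝ) ^ n := by
    intro e
    by_cases he : e ∈ Es
    · obtain ⟨n₀, h⟩ := hj₀ e he j (Finset.le_sup he)
      exact ⟨n₀, fun _ => h⟩
    · exact ⟨0, fun h => absurd h he⟩
  choose n₀ hn₀ using hn
  refine ⟨j, Es.sup n₀ + M.natDegree + n₁, fun n hnn => ?_⟩
  -- finiteness
  have hq1 : (1 : ℝ) ≤ (Nat.card k : ℝ) := by
    have : 1 ≤ Nat.card k := Nat.card_pos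
    exact_mod_cast this
  -- the sets
  let B : Set k[X] := {D | Squarefree D ∧ D.natDegree = n ∧ ¬ Good α β j D}
  let T : k[X] → Set k[X] := fun e => {D | D.Monic ∧ Squarefree D ∧
        IsCoprime D (e * α * (e * β) * (e * α - e * β)) ∧
        D.natDegree = n - e.natDegree ∧ ¬ Good (e * α) (e * β) j D}
  have hTfin : ∀ e, (T e).Finite := fun e =>
    (allD_finite (n - e.natDegree)).subset fun D hD => hD.2.2.2.1.le
  have hsub : B ⊆ ⋃ e ∈ Es, (fun D => e * D) '' T e := by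
    rintro D ⟨hsq, hdeg, hbad⟩
    have hD0 : D ≠ 0 := hsq.ne_zero
    set c := D.leadingCoeff with hc
    have hc0 : c ≠ 0 := leadingCoeff_ne_zero.2 hD0
    set D' : k[X] := D * C c⁻¹ with hD'
    have hD'm : D'.Monic := monic_mul_leadingCoeff_inv hD0
    have hCu : IsUnit (C c⁻¹ : k[X]) := isUnit_C.2 (isUnit_iff_ne_zero.2 (inv_ne_zero hc0))
    have hD'sq : Squarefree D' := by
      refine hsq.squarefree_of_dvd ?_
      exact (hCu.mul_right_dvd).2 dvd_rfl
    have hDD' : D = C c * D' := by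
      rw [hD', mul_left_comm, ← C_mul, mul_inv_cancel₀ hc0, C_1, mul_one]
    set D₁ : k[X] := normalize (gcd D' M) with hD₁
    have hg0 : gcd D' M ≠ 0 := fun h => hM0 ((gcd_eq_zero_iff _ _).1 h).2
    have hD₁m : D₁.Monic := monic_normalize hg0
    have hD₁D : D₁ ∣ D' := (normalize_associated _).dvd.trans (gcd_dvd_left _ _)
    have hD₁M : D₁ ∣ M := (normalize_associated _).dvd.trans (gcd_dvd_right _ _)
    obtain ⟨D₂, hD₂⟩ := hD₁D
    have hD₂m : D₂.Monic := hD₁m.of_mul_monic_left (hD₂ ▸ hD'm)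
    have hD₂sq : Squarefree D₂ := hD'sq.squarefree_of_dvd ⟨D₁, by rw [hD₂]; ring⟩
    have hcop12 : IsCoprime D₁ D₂ := by
      have := hD'sq
      rw [hD₂] at this
      exact (squarefree_mul_iff.1 this).1.isCoprime
    have hcopM : IsCoprime D₂ M := by
      rw [← gcd_isUnit_iff]
      have h1 : gcd D₂ M ∣ D₁ := by
        have h2 : gcd D₂ M ∣ gcd D' M :=
          dvd_gcd ((gcd_dvd_left _ _).trans ⟨D₁, by rw [hD₂]; ring⟩) (gcd_dvd_right _ _)
        exact h2.trans (normalize_associated _).symm.dvd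
      exact hcop12.isUnit_of_dvd' h1 (gcd_dvd_left _ _)
    set e : k[X] := C c * D₁ with he
    have hCcu : IsUnit (C c : k[X]) := isUnit_C.2 (isUnit_iff_ne_zero.2 hc0)
    have he0 : e ≠ 0 := mul_ne_zero (C_ne_zero.2 hc0) hD₁m.ne_zero
    have heM : e ∣ M := (hCcu.mul_left_dvd).2 hD₁M
    have heE : e ∈ Es := by
      rw [hEs, Set.Finite.mem_toFinset]
      exact ⟨he0, heM⟩
    have hDe : D = e * D₂ := by rw [hDD', hD₂, he]; ring
    have hdege : e.natDegree + D₂.natDegree = n := by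
      rw [← natDegree_mul he0 hD₂m.ne_zero, ← hDe, hdeg]
    refine Set.mem_biUnion heE ⟨D₂, ⟨hD₂m, hD₂sq, ?_, by omega, ?_⟩, hDe.symm⟩
    · have h1 : e * α * (e * β) * (e * α - e * β) = e ^ 3 * M := by rw [hM]; ring
      rw [h1]
      refine IsCoprime.mul_right (IsCoprime.pow_right ?_) hcopM
      rw [he]
      exact (isCoprime_mul_unit_left_right hCcu _ _).2 hcop12.symm
    · rw [good_mul, ← hDe]
      exact hbad
  have hB : (B.ncard : ℝ) ≤ ∑ e ∈ Es, ((T e).ncard : ℝ) := by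
    have h1 : (⋃ e ∈ Es, (fun D => e * D) '' T e).Finite :=
      Set.Finite.biUnion Es.finite_toSet fun e _ => (hTfin e).image _
    have h2 : B.ncard ≤ (⋃ e ∈ Es, (fun D => e * D) '' T e).ncard := Set.ncard_le_ncard hsub h1
    have h3 : (⋃ e ∈ Es, (fun D => e * D) '' T e).ncard ≤
        ∑ e ∈ Es, ((fun D => e * D) '' T e).ncard := by
      have := Finset.set_ncard_biUnion_le Es fun e => (fun D => e * D) '' T e
      simpa using this
    have h4 : ∑ e ∈ Es, ((fun D => e * D) '' T e).ncard ≤ ∑ e ∈ Es, (T e).ncard :=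
      Finset.sum_le_sum fun e _ => Set.ncard_image_le (hTfin e)
    exact_mod_cast h2.trans (h3.trans h4)
  have hT : ∀ e ∈ Es, ((T e).ncard : ℝ) ≤ ε' * (Nat.card k : ℝ) ^ n := by
    intro e he
    have hdeg : e.natDegree ≤ M.natDegree := natDegree_le_of_dvd (hmem e he).2 hM0
    have h1 : n₀ e ≤ Es.sup n₀ := Finset.le_sup he
    have h2 := hn₀ e he (n - e.natDegree) (by omega)
    refine le_trans h2 (mul_le_mul_of_nonneg_left ?_ hε'0.le)
    exact pow_le_pow_right₀ hq1 (Nat.sub_le _ _)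
  have hfinal : (B.ncard : ℝ) ≤ ε * (Nat.card {D : k[X] // Squarefree D ∧ D.natDegree = n} : ℝ) := by
    calc (B.ncard : ℝ) ≤ ∑ e ∈ Es, ((T e).ncard : ℝ) := hB
      _ ≤ ∑ _e ∈ Es, ε' * (Nat.card k : ℝ) ^ n := Finset.sum_le_sum hT
      _ = (Es.card : ℝ) * (ε' * (Nat.card k : ℝ) ^ n) := by rw [Finset.sum_const, nsmul_eq_mul]
      _ ≤ N * (ε' * (Nat.card k : ℝ) ^ n) := by
          refine mul_le_mul_of_nonneg_right ?_ (by positivity)
          rw [hN]; linarith
      _ = ε * (c₀ * (Nat.card k : ℝ) ^ n) := by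
          rw [hε']
          field_simp
      _ ≤ _ := mul_le_mul_of_nonneg_left (hlow n (by omega)) hε.le
  exact hfinal

end Pool.Agent.Sm.L
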