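import Pool.Agent.Lib.Sm.L.AllD

/-!
SMITH, block L: the decomposition `D = e * D₂` of the squarefree polynomials, `e` a divisor of
`α β (α - β)` and `D₂` monic and prime to `α β (α - β)`; the distribution of a property of the
curves `y ^ 2 = x (x - a) (x - b)` on all squarefree twists with a place of multiplicative
reduction.
-/

set_option autoImplicit false

open Polynomial Pool.Agent

namespace Pool.Agent.Sm.L

variable {k : Type} [Field k]

private lemma allP_finite [Finite k] (n : ℕ) : {D : k[X] | D.natDegree ≤ n}.Finite := by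
  have h : {D : k[X] | D.natDegree ≤ n} ⊆ (degreeLT k (n + 1) : Set k[X]) := by
    intro D hD
    rw [SetLike.mem_coe, mem_degreeLT]
    exact lt_of_le_of_lt degree_le_natDegree (by exact_mod_cast Nat.lt_succ_of_le hD)
  refine Set.Finite.subset ?_ h
  have : Finite (degreeLT k (n + 1)) := Finite.of_equiv _ (degreeLTEquiv k (n + 1)).toEquiv.symm
  exact Set.toFinite _

private lemma allP_unique {M e e' D D' : k[X]} (he0 : e ≠ 0) (he : e ∣ M) (he' : e' ∣ M)
    (hD : D.Monic) (hD' : D'.Monic) (hc : IsCoprime D M) (hc' : IsCoprime D' M)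
    (h : e * D = e' * D') : e = e' ∧ D = D' := by
  have h1 : e ∣ e' := by
    have h3 : IsCoprime e D' := (hc'.of_isCoprime_of_dvd_right he).symm
    exact h3.dvd_of_dvd_mul_right (h ▸ dvd_mul_right e D)
  have h2 : e' ∣ e := by
    have h3 : IsCoprime e' D := (hc.of_isCoprime_of_dvd_right he').symm
    exact h3.dvd_of_dvd_mul_right (h ▸ dvd_mul_right e' D')
  obtain ⟨u, hu⟩ := associated_of_dvd_dvd h1 h2
  have h3 : D = u * D' := by
    refine mul_left_cancel₀ he0 ?_
    rw [h, ← hu, mul_assoc]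
  obtain ⟨c, hc, hcu⟩ := Polynomial.isUnit_iff.1 u.isUnit
  have h4 : c = 1 := by
    have h5 := congrArg leadingCoeff h3
    rw [hD.leadingCoeff, leadingCoeff_mul, hD'.leadingCoeff, mul_one, ← hcu,
      leadingCoeff_C] at h5
    exact h5.symm
  rw [h4, C_1] at hcu
  rw [← hcu, one_mul] at h3
  rw [← hcu, mul_one] at hu
  exact ⟨hu, h3⟩

/-- The decomposition. -/
theorem card_decomp [Finite k] {α β : k[X]} (hM0 : α * β * (α - β) ≠ 0) (Es : Finset k[X])
    (hEs : ∀ e, e ∈ Es ↔ Squarefree e ∧ e ∣ α * β * (α - β)) (n : ℕ)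
    (hn : (α * β * (α - β)).natDegree ≤ n) (P : k[X] → Prop) :
    Nat.card {D : k[X] // Squarefree D ∧ D.natDegree = n ∧ P D} =
      ∑ e ∈ Es, Nat.card {D : k[X] // D.Monic ∧ Squarefree D ∧
        IsCoprime D (e * α * (e * β) * (e * α - e * β)) ∧ D.natDegree = n - e.natDegree ∧
        P (e * D)} := by
  classical
  set M : k[X] := α * β * (α - β) with hM
  have hcop : ∀ e ∈ Es, ∀ D : k[X], IsCoprime D (e * α * (e * β) * (e * α - e * β)) ↔
      IsCoprime D M := by
    intro e he D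
    have h1 : e * α * (e * β) * (e * α - e * β) = e ^ 3 * M := by rw [hM]; ring
    rw [h1]
    constructor
    · intro h
      exact h.of_mul_right_right
    · intro h
      exact IsCoprime.mul_right (IsCoprime.pow_right
        (h.of_isCoprime_of_dvd_right ((hEs e).1 he).2)) h
  have hfin : ∀ e : Es, Finite {D : k[X] // D.Monic ∧ Squarefree D ∧
      IsCoprime D (e.1 * α * (e.1 * β) * (e.1 * α - e.1 * β)) ∧
        D.natDegree = n - e.1.natDegree ∧ P (e.1 * D)} := by
    intro e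
    have h1 := (allP_finite (k := k) (n - e.1.natDegree)).to_subtype
    exact Finite.of_injective (β := {D : k[X] | D.natDegree ≤ n - e.1.natDegree})
      (fun D => ⟨D.1, D.2.2.2.2.1.le⟩) fun D D' h => Subtype.ext (congrArg
        (fun z : {D : k[X] | D.natDegree ≤ n - e.1.natDegree} => z.1) h)
  rw [← Finset.sum_coe_sort Es fun e => Nat.card {D : k[X] // D.Monic ∧ Squarefree D ∧
        IsCoprime D (e * α * (e * β) * (e * α - e * β)) ∧ D.natDegree = n - e.natDegree ∧
        P (e * D)}, ← Nat.card_sigma]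
  symm
  refine Nat.card_congr (Equiv.ofBijective (fun y => ⟨y.1.1 * y.2.1, ?_, ?_, y.2.2.2.2.2.2⟩)
    ⟨?_, ?_⟩)
  · -- squarefree
    obtain ⟨hsq, hdvd⟩ := (hEs y.1.1).1 y.1.2
    rw [squarefree_mul_iff]
    refine ⟨?_, hsq, y.2.2.2.1⟩
    have h1 := (hcop _ y.1.2 _).1 y.2.2.2.2.1
    exact (h1.of_isCoprime_of_dvd_right hdvd).symm.isRelPrime
  · -- degree
    obtain ⟨hsq, hdvd⟩ := (hEs y.1.1).1 y.1.2
    have h1 : y.1.1.natDegree ≤ M.natDegree := natDegree_le_of_dvd hdvd hM0
    rw [natDegree_mul hsq.ne_zero y.2.2.1.ne_zero, y.2.2.2.2.2.1]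
    omega
  · -- injective
    rintro ⟨⟨e, he⟩, D, hD⟩ ⟨⟨e', he'⟩, D', hD'⟩ h
    have h1 : e * D = e' * D' := congrArg Subtype.val h
    obtain ⟨rfl, rfl⟩ := allP_unique ((hEs e).1 he).1.ne_zero ((hEs e).1 he).2 ((hEs e').1 he').2
      hD.1 hD'.1 ((hcop e he D).1 hD.2.2.1) ((hcop e' he' D').1 hD'.2.2.1) h1
    rfl
  · -- surjective
    rintro ⟨D, hsq, hdeg, hP⟩
    have hD0 : D ≠ 0 := hsq.ne_zero
    set c := D.leadingCoeff with hc
    have hc0 : c ≠ 0 := leadingCoeff_ne_zero.2 hD0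
    set D' : k[X] := D * C c⁻¹ with hD'
    have hD'm : D'.Monic := monic_mul_leadingCoeff_inv hD0
    have hCu : IsUnit (C c⁻¹ : k[X]) := isUnit_C.2 (isUnit_iff_ne_zero.2 (inv_ne_zero hc0))
    have hD'sq : Squarefree D' := by
      refine hsq.squarefree_of_dvd ?_
      exact (hCu.mul_right_dvd).2 dvd_rfl
    have hDD' : D = C c * D' := by
      rw [hD', mul_left_comm, ← C_mul, mul_inv_cancel₀ hc0, C_1, mul_one]
    set D₁ : k[X] := normalize (gcd D' M) with hD₁
    have hg0 : gcd D' M ≠ 0 := fun h => hM0 ((gcd_eq_zero_iff _ _).1 h).2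
    have hD₁m : D₁.Monic := monic_normalize hg0
    have hD₁D : D₁ ∣ D' := (normalize_associated _).dvd.trans (gcd_dvd_left _ _)
    have hD₁M : D₁ ∣ M := (normalize_associated _).dvd.trans (gcd_dvd_right _ _)
    have hD₁sq : Squarefree D₁ := hD'sq.squarefree_of_dvd hD₁D
    obtain ⟨D₂, hD₂⟩ := hD₁D
    have hD₂m : D₂.Monic := hD₁m.of_mul_monic_left (hD₂ ▸ hD'm)
    have hD₂sq : Squarefree D₂ := hD'sq.squarefree_of_dvd ⟨D₁, by rw [hD₂]; ring⟩
    have hcop12 : IsCoprime D₁ D₂ := by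
      have := hD'sq
      rw [hD₂] at this
      exact (squarefree_mul_iff.1 this).1.isCoprime
    have hcopM : IsCoprime D₂ M := by
      rw [← gcd_isUnit_iff]
      have h1 : gcd D₂ M ∣ D₁ := by
        have h2 : gcd D₂ M ∣ gcd D' M :=
          dvd_gcd ((gcd_dvd_left _ _).trans ⟨D₁, by rw [hD₂]; ring⟩) (gcd_dvd_right _ _)
        exact h2.trans (normalize_associated _).symm.dvd
      exact hcop12.isUnit_of_dvd' h1 (gcd_dvd_left _ _)
    set e : k[X] := C c * D₁ with he
    have hCcu : IsUnit (C c : k[X]) := isUnit_C.2 (isUnit_iff_ne_zero.2 hc0)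
    have he0 : e ≠ 0 := mul_ne_zero (C_ne_zero.2 hc0) hD₁m.ne_zero
    have heE : e ∈ Es := by
      rw [hEs]
      refine ⟨?_, (hCcu.mul_left_dvd).2 hD₁M⟩
      exact hD₁sq.squarefree_of_dvd ((hCcu.mul_left_dvd).2 dvd_rfl)
    have hDe : D = e * D₂ := by rw [hDD', hD₂, he]; ring
    have hdege : e.natDegree + D₂.natDegree = n := by
      rw [← natDegree_mul he0 hD₂m.ne_zero, ← hDe, hdeg]
    refine ⟨⟨⟨e, heE⟩, D₂, hD₂m, hD₂sq, (hcop e heE D₂).2 hcopM, by
      simp only; omega, ?_⟩, ?_⟩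
    · simp only
      rw [← hDe]
      exact hP
    · exact Subtype.ext hDe.symm

/-- Multiplicative reduction and twists. -/
theorem multAt_mul {a b D : k[X]} (hsq : Squarefree D) (hco : IsCoprime D (a * b * (a - b)))
    {l : k[X]} (hl : Irreducible l) : MultAt l (D * a) (D * b) ↔ MultAt l a b := by
  by_cases hD : l ∣ D
  · have hpow : ∀ j : ℕ, ∀ c : k[X], c ∣ a * b * (a - b) → l ^ (j + 1) ∣ c → False := by
      intro j c hc h
      exact hl.not_isUnit (hco.isUnit_of_dvd' hD
        (((dvd_pow_self l (Nat.succ_ne_zero j)).trans h).trans hc))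
    constructor
    · rintro ⟨m, h1, h2, h3, h5⟩
      exfalso
      -- `l ^ 2` does not divide `D * a`
      have hm : m = 0 := by
        by_contra hm
        have h6 : l * l ∣ D * a := by
          have h7 : l * l ∣ l ^ (2 * m) := by
            rw [← pow_two]
            exact pow_dvd_pow l (by omega)
          exact h7.trans h1
        obtain ⟨D', hD'⟩ := hD
        rw [hD', mul_assoc] at h6
        have h8 : l ∣ D' * a := (mul_dvd_mul_iff_left hl.ne_zero).1 h6
        rcases hl.prime.dvd_or_dvd h8 with h9 | h9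
        · refine hl.not_isUnit (hsq l ?_)
          rw [hD']
          exact mul_dvd_mul_left l h9
        · refine hpow 0 a ⟨b * (a - b), by ring⟩ ?_
          rwa [zero_add, pow_one]
      subst hm
      refine h3 ⟨?_, ?_⟩
      · rw [mul_zero, zero_add, pow_one]
        exact hD.mul_right a
      · rw [mul_zero, zero_add, pow_one]
        exact hD.mul_right b
    · rintro ⟨m, h1, h2, h3, h5⟩
      exfalso
      rcases h5 with h5 | h5 | h5
      · exact hpow _ a ⟨b * (a - b), by ring⟩ h5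
      · exact hpow _ b ⟨a * (a - b), by ring⟩ h5
      · exact hpow _ (a - b) ⟨a * b, by ring⟩ h5
  · have hc : ∀ j : ℕ, IsCoprime (l ^ j) D := fun j =>
      ((hl.coprime_iff_not_dvd).2 hD).pow_left
    have key : ∀ (j : ℕ) (c : k[X]), l ^ j ∣ D * c ↔ l ^ j ∣ c := fun j c =>
      ⟨fun h => (hc j).dvd_of_dvd_mul_left h, fun h => h.mul_left D⟩
    unfold MultAt
    rw [← mul_sub]
    simp only [key]

theorem multD_mul {α β e D : k[X]} (hsq : Squarefree D)
    (hco : IsCoprime D (e * α * (e * β) * (e * α - e * β))) :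
    MultD α β (e * D) ↔ MultD α β e := by
  unfold MultD
  refine exists_congr fun l => and_congr_right fun hl => ?_
  rw [show e * D * α = D * (e * α) by ring, show e * D * β = D * (e * β) by ring]
  exact multAt_mul hsq hco hl

/-- The distribution of a property `Q` of the curves `y ^ 2 = x (x - a) (x - b)`. -/
theorem all_half [Finite k] (Q : k[X] → k[X] → Prop)
    (hmain : ∀ a b : k[X], No4 a b →
      (∃ l : k[X], Irreducible l ∧ MultAt l a b) →
      ∀ ε : ℝ, 0 < ε → ∃ n₀ : ℕ, ∀ n ≥ n₀,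
      |(Nat.card {D : k[X] // D.Monic ∧ Squarefree D ∧ IsCoprime D (a * b * (a - b)) ∧
        D.natDegree = n ∧ Q (D * a) (D * b)} : ℝ) -
        (Nat.card {D : k[X] // D.Monic ∧ Squarefree D ∧ IsCoprime D (a * b * (a - b)) ∧
        D.natDegree = n} : ℝ) / 2| ≤ ε * (Nat.card k : ℝ) ^ n)
    (hlow : ∃ c : ℝ, 0 < c ∧ ∃ n₁ : ℕ, ∀ n ≥ n₁, c * (Nat.card k : ℝ) ^ n ≤
      (Nat.card {D : k[X] // Squarefree D ∧ D.natDegree = n} : ℝ))
    (α β : k[X]) (h4 : No4 α β) (ε : ℝ) (hε : 0 < ε) :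
    ∃ n₀ : ℕ, ∀ n ≥ n₀,
      |(Nat.card {D : k[X] // Squarefree D ∧ D.natDegree = n ∧ MultD α β D ∧
        Q (D * α) (D * β)} : ℝ) -
        (Nat.card {D : k[X] // Squarefree D ∧ D.natDegree = n ∧ MultD α β D} : ℝ) / 2| ≤
        ε * (Nat.card {D : k[X] // Squarefree D ∧ D.natDegree = n} : ℝ) := by
  classical
  obtain ⟨c₀, hc₀, n₁, hlow⟩ := hlow
  have hα : α ≠ 0 := fun h => h4.n0 0 0 (by rw [h]; simp)
  have hβ : β ≠ 0 := fun h => h4.n0 0 0 (by rw [h]; simp)
  have hαβ : α - β ≠ 0 := fun h => h4.n1 0 0 (by rw [h]; simp)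
  have hM0 : α * β * (α - β) ≠ 0 := mul_ne_zero (mul_ne_zero hα hβ) hαβ
  have hfin : {e : k[X] | Squarefree e ∧ e ∣ α * β * (α - β)}.Finite := by
    refine Set.Finite.subset (allP_finite (α * β * (α - β)).natDegree) ?_
    rintro e ⟨_, he⟩
    exact natDegree_le_of_dvd he hM0
  set Es := hfin.toFinset with hEs
  have hEs' : ∀ e, e ∈ Es ↔ Squarefree e ∧ e ∣ α * β * (α - β) := by
    intro e
    rw [hEs, Set.Finite.mem_toFinset]
    rfl
  set N : ℝ := (Es.card : ℝ) + 1 with hN
  have hN0 : 0 < N := by positivity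
  set ε' : ℝ := ε * c₀ / N with hε'
  have hε'0 : 0 < ε' := by positivity
  have hn : ∀ e : k[X], ∃ n₀ : ℕ, e ∈ Es → MultD α β e → ∀ n ≥ n₀,
      |(Nat.card {D : k[X] // D.Monic ∧ Squarefree D ∧
        IsCoprime D (e * α * (e * β) * (e * α - e * β)) ∧
        D.natDegree = n ∧ Q (D * (e * α)) (D * (e * β))} : ℝ) -
        (Nat.card {D : k[X] // D.Monic ∧ Squarefree D ∧
          IsCoprime D (e * α * (e * β) * (e * α - e * β)) ∧
        D.natDegree = n} : ℝ) / 2| ≤ ε' * (Nat.card k : ℝ) ^ n := by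
    intro e
    by_cases he : e ∈ Es ∧ MultD α β e
    · obtain ⟨n₀, h⟩ := hmain (e * α) (e * β) (h4.twist ((hEs' e).1 he.1).1.ne_zero) he.2
        ε' hε'0
      exact ⟨n₀, fun _ _ => h⟩
    · exact ⟨0, fun h h' => absurd ⟨h, h'⟩ he⟩
  choose n₀ hn₀ using hn
  refine ⟨Es.sup n₀ + (α * β * (α - β)).natDegree + n₁, fun n hnn => ?_⟩
  have hq1 : (1 : ℝ) ≤ (Nat.card k : ℝ) := by
    have : 1 ≤ Nat.card k := Nat.card_pos
    exact_mod_cast this
  have hdec1 := card_decomp hM0 Es hEs' n (by omega)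
    (fun D => MultD α β D ∧ Q (D * α) (D * β))
  have hdec2 := card_decomp hM0 Es hEs' n (by omega) (fun D => MultD α β D)
  rw [hdec1, hdec2]
  push_cast
  rw [Finset.sum_div, ← Finset.sum_sub_distrib]
  refine le_trans (Finset.abs_sum_le_sum_abs _ _) ?_
  have hT : ∀ e ∈ Es, |(Nat.card {D : k[X] // D.Monic ∧ Squarefree D ∧
        IsCoprime D (e * α * (e * β) * (e * α - e * β)) ∧ D.natDegree = n - e.natDegree ∧
        MultD α β (e * D) ∧ Q (e * D * α) (e * D * β)} : ℝ) -
        (Nat.card {D : k[X] // D.Monic ∧ Squarefree D ∧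
        IsCoprime D (e * α * (e * β) * (e * α - e * β)) ∧ D.natDegree = n - e.natDegree ∧
        MultD α β (e * D)} : ℝ) / 2| ≤ ε' * (Nat.card k : ℝ) ^ n := by
    intro e he
    by_cases hm : MultD α β e
    · have h1 : n₀ e ≤ Es.sup n₀ := Finset.le_sup he
      have hdeg : e.natDegree ≤ (α * β * (α - β)).natDegree :=
        natDegree_le_of_dvd ((hEs' e).1 he).2 hM0
      have h2 := hn₀ e he hm (n - e.natDegree) (by omega)
      refine le_trans (le_of_eq ?_) (h2.trans (mul_le_mul_of_nonneg_left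
        (pow_le_pow_right₀ hq1 (Nat.sub_le _ _)) hε'0.le))
      have e1 : Nat.card {D : k[X] // D.Monic ∧ Squarefree D ∧
        IsCoprime D (e * α * (e * β) * (e * α - e * β)) ∧ D.natDegree = n - e.natDegree ∧
        MultD α β (e * D) ∧ Q (e * D * α) (e * D * β)} = Nat.card {D : k[X] // D.Monic ∧
        Squarefree D ∧ IsCoprime D (e * α * (e * β) * (e * α - e * β)) ∧
        D.natDegree = n - e.natDegree ∧ Q (D * (e * α)) (D * (e * β))} := by
        refine Nat.card_congr (Equiv.subtypeEquivRight fun D => ?_)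
        have e2 : e * D * α = D * (e * α) := by ring
        have e3 : e * D * β = D * (e * β) := by ring
        rw [e2, e3]
        constructor
        · rintro ⟨h1, h2, h3, h5, h6, h7⟩
          exact ⟨h1, h2, h3, h5, h7⟩
        · rintro ⟨h1, h2, h3, h5, h7⟩
          exact ⟨h1, h2, h3, h5, (multD_mul h2 h3).2 hm, h7⟩
      have e4 : Nat.card {D : k[X] // D.Monic ∧ Squarefree D ∧
        IsCoprime D (e * α * (e * β) * (e * α - e * β)) ∧ D.natDegree = n - e.natDegree ∧
        MultD α β (e * D)} = Nat.card {D : k[X] // D.Monic ∧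
        Squarefree D ∧ IsCoprime D (e * α * (e * β) * (e * α - e * β)) ∧
        D.natDegree = n - e.natDegree} := by
        refine Nat.card_congr (Equiv.subtypeEquivRight fun D => ?_)
        constructor
        · rintro ⟨h1, h2, h3, h5, h6⟩
          exact ⟨h1, h2, h3, h5⟩
        · rintro ⟨h1, h2, h3, h5⟩
          exact ⟨h1, h2, h3, h5, (multD_mul h2 h3).2 hm⟩
      rw [e1, e4]
    · have e1 : Nat.card {D : k[X] // D.Monic ∧ Squarefree D ∧
        IsCoprime D (e * α * (e * β) * (e * α - e * β)) ∧ D.natDegree = n - e.natDegree ∧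
        MultD α β (e * D) ∧ Q (e * D * α) (e * D * β)} = 0 := by
        have : IsEmpty {D : k[X] // D.Monic ∧ Squarefree D ∧
          IsCoprime D (e * α * (e * β) * (e * α - e * β)) ∧ D.natDegree = n - e.natDegree ∧
          MultD α β (e * D) ∧ Q (e * D * α) (e * D * β)} :=
          ⟨fun D => hm ((multD_mul D.2.2.1 D.2.2.2.1).1 D.2.2.2.2.2.1)⟩
        exact Nat.card_of_isEmpty
      have e4 : Nat.card {D : k[X] // D.Monic ∧ Squarefree D ∧
        IsCoprime D (e * α * (e * β) * (e * α - e * β)) ∧ D.natDegree = n - e.natDegree ∧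
        MultD α β (e * D)} = 0 := by
        have : IsEmpty {D : k[X] // D.Monic ∧ Squarefree D ∧
          IsCoprime D (e * α * (e * β) * (e * α - e * β)) ∧ D.natDegree = n - e.natDegree ∧
          MultD α β (e * D)} :=
          ⟨fun D => hm ((multD_mul D.2.2.1 D.2.2.2.1).1 D.2.2.2.2.2)⟩
        exact Nat.card_of_isEmpty
      rw [e1, e4]
      have : (0 : ℝ) ≤ ε' * (Nat.card k : ℝ) ^ n := by positivity
      simpa using this
  calc _ ≤ ∑ _e ∈ Es, ε' * (Nat.card k : ℝ) ^ n := Finset.sum_le_sum hT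
    _ = (Es.card : ℝ) * (ε' * (Nat.card k : ℝ) ^ n) := by rw [Finset.sum_const, nsmul_eq_mul]
    _ ≤ N * (ε' * (Nat.card k : ℝ) ^ n) := by
        refine mul_le_mul_of_nonneg_right ?_ (by positivity)
        rw [hN]; linarith
    _ = ε * (c₀ * (Nat.card k : ℝ) ^ n) := by
        rw [hε']
        field_simp
    _ ≤ _ := mul_le_mul_of_nonneg_left (hlow n (by omega)) hε.le

end Pool.Agent.Sm.L
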