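import Pool.Agent.Lib.Sm.L.AllP

/-!
SMITH, block L: from monic squarefree `D` prime to the bad primes, for all the curves
`y ^ 2 = x (x - a) (x - b)`, to all squarefree `D`, for any property of the curves.
-/

set_option autoImplicit false

open Polynomial Pool.Agent

namespace Pool.Agent.Sm.L

variable {k : Type} [Field k]

/-- From monic squarefree `D` prime to the bad primes to all squarefree `D`. -/
theorem all_squarefree_of [Finite k] (Q : ℕ → k[X] → k[X] → Prop)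
    (hmain : ∀ a b : k[X], No4 a b → ∀ ε : ℝ, 0 < ε → ∃ j₀ : ℕ, ∀ j ≥ j₀, ∃ n₀ : ℕ, ∀ n ≥ n₀,
      (Nat.card {D : k[X] // D.Monic ∧ Squarefree D ∧ IsCoprime D (a * b * (a - b)) ∧
        D.natDegree = n ∧ ¬ Q j (D * a) (D * b)} : ℝ) ≤ ε * (Nat.card k : ℝ) ^ n)
    (hlow : ∃ c : ℝ, 0 < c ∧ ∃ n₁ : ℕ, ∀ n ≥ n₁, c * (Nat.card k : ℝ) ^ n ≤
      (Nat.card {D : k[X] // Squarefree D ∧ D.natDegree = n} : ℝ))
    (α β : k[X]) (h4 : No4 α β) (ε : ℝ) (hε : 0 < ε) :
    ∃ j₀ : ℕ, ∀ j ≥ j₀, ∃ n₀ : ℕ, ∀ n ≥ n₀,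
      (Nat.card {D : k[X] // Squarefree D ∧ D.natDegree = n ∧ ¬ Q j (D * α) (D * β)} : ℝ) ≤
        ε * (Nat.card {D : k[X] // Squarefree D ∧ D.natDegree = n} : ℝ) := by
  classical
  obtain ⟨c₀, hc₀, n₁, hlow⟩ := hlow
  have hα : α ≠ 0 := fun h => h4.n0 0 0 (by rw [h]; simp)
  have hβ : β ≠ 0 := fun h => h4.n0 0 0 (by rw [h]; simp)
  have hαβ : α - β ≠ 0 := fun h => h4.n1 0 0 (by rw [h]; simp)
  have hM0 : α * β * (α - β) ≠ 0 := mul_ne_zero (mul_ne_zero hα hβ) hαβ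
  have hfin0 : {D : k[X] | D.natDegree ≤ (α * β * (α - β)).natDegree}.Finite := by
    have h : {D : k[X] | D.natDegree ≤ (α * β * (α - β)).natDegree} ⊆
        (degreeLT k ((α * β * (α - β)).natDegree + 1) : Set k[X]) := by
      intro D hD
      rw [SetLike.mem_coe, mem_degreeLT]
      exact lt_of_le_of_lt degree_le_natDegree (by exact_mod_cast Nat.lt_succ_of_le hD)
    refine Set.Finite.subset ?_ h
    have : Finite (degreeLT k ((α * β * (α - β)).natDegree + 1)) :=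
      Finite.of_equiv _ (degreeLTEquiv k _).toEquiv.symm
    exact Set.toFinite _
  have hfin : {e : k[X] | Squarefree e ∧ e ∣ α * β * (α - β)}.Finite := by
    refine Set.Finite.subset hfin0 ?_
    rintro e ⟨_, he⟩
    exact natDegree_le_of_dvd he hM0
  set Es := hfin.toFinset with hEs
  have hEs' : ∀ e, e ∈ Es ↔ Squarefree e ∧ e ∣ α * β * (α - β) := by
    intro e
    rw [hEs, Set.Finite.mem_toFinset]
    rfl
  set N : ℝ := (Es.card : ℝ) + 1 with hN
  have hN0 : 0 < N := by positivity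
  set ε' : ℝ := ε * c₀ / N with hε'
  have hε'0 : 0 < ε' := by positivity
  have hj : ∀ e : k[X], ∃ j₀ : ℕ, e ∈ Es → ∀ j ≥ j₀, ∃ n₀ : ℕ, ∀ n ≥ n₀,
      (Nat.card {D : k[X] // D.Monic ∧ Squarefree D ∧
        IsCoprime D (e * α * (e * β) * (e * α - e * β)) ∧
        D.natDegree = n ∧ ¬ Q j (D * (e * α)) (D * (e * β))} : ℝ) ≤
          ε' * (Nat.card k : ℝ) ^ n := by
    intro e
    by_cases he : e ∈ Es
    · obtain ⟨j₀, h⟩ := hmain (e * α) (e * β) (h4.twist ((hEs' e).1 he).1.ne_zero) ε' hε'0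
      exact ⟨j₀, fun _ => h⟩
    · exact ⟨0, fun h => absurd h he⟩
  choose j₀ hj₀ using hj
  refine ⟨Es.sup j₀, fun j hjj => ?_⟩
  have hn : ∀ e : k[X], ∃ n₀ : ℕ, e ∈ Es → ∀ n ≥ n₀,
      (Nat.card {D : k[X] // D.Monic ∧ Squarefree D ∧
        IsCoprime D (e * α * (e * β) * (e * α - e * β)) ∧
        D.natDegree = n ∧ ¬ Q j (D * (e * α)) (D * (e * β))} : ℝ) ≤
          ε' * (Nat.card k : ℝ) ^ n := by
    intro e
    by_cases he : e ∈ Es
    · obtain ⟨n₀, h⟩ := hj₀ e he j (le_trans (Finset.le_sup he) hjj)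
      exact ⟨n₀, fun _ => h⟩
    · exact ⟨0, fun h => absurd h he⟩
  choose n₀ hn₀ using hn
  refine ⟨Es.sup n₀ + (α * β * (α - β)).natDegree + n₁, fun n hnn => ?_⟩
  have hq1 : (1 : ℝ) ≤ (Nat.card k : ℝ) := by
    have : 1 ≤ Nat.card k := Nat.card_pos
    exact_mod_cast this
  rw [card_decomp hM0 Es hEs' n (by omega) (fun D => ¬ Q j (D * α) (D * β))]
  push_cast
  have hT : ∀ e ∈ Es, (Nat.card {D : k[X] // D.Monic ∧ Squarefree D ∧
        IsCoprime D (e * α * (e * β) * (e * α - e * β)) ∧ D.natDegree = n - e.natDegree ∧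
        ¬ Q j (e * D * α) (e * D * β)} : ℝ) ≤ ε' * (Nat.card k : ℝ) ^ n := by
    intro e he
    have h1 : n₀ e ≤ Es.sup n₀ := Finset.le_sup he
    have hdeg : e.natDegree ≤ (α * β * (α - β)).natDegree :=
      natDegree_le_of_dvd ((hEs' e).1 he).2 hM0
    have h2 := hn₀ e he (n - e.natDegree) (by omega)
    refine le_trans (le_of_eq ?_) (h2.trans (mul_le_mul_of_nonneg_left
      (pow_le_pow_right₀ hq1 (Nat.sub_le _ _)) hε'0.le))
    congr 1
    refine Nat.card_congr (Equiv.subtypeEquivRight fun D => ?_)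
    rw [show e * D * α = D * (e * α) by ring, show e * D * β = D * (e * β) by ring]
  calc _ ≤ ∑ _e ∈ Es, ε' * (Nat.card k : ℝ) ^ n := Finset.sum_le_sum hT
    _ = (Es.card : ℝ) * (ε' * (Nat.card k : ℝ) ^ n) := by rw [Finset.sum_const, nsmul_eq_mul]
    _ ≤ N * (ε' * (Nat.card k : ℝ) ^ n) := by
        refine mul_le_mul_of_nonneg_right ?_ (by positivity)
        rw [hN]; linarith
    _ = ε * (c₀ * (Nat.card k : ℝ) ^ n) := by
        rw [hε']
        field_simp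
    _ ≤ _ := mul_le_mul_of_nonneg_left (hlow n (by omega)) hε.le

end Pool.Agent.Sm.L
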