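import Pool.Agent.Lib.Sm.L.OstE6
import Pool.Agent.Lib.Sm.Inst.Inst

/-!
SMITH, block L4. `goodOn_of_sysOf`: L4 for the instance `sysOf` of helper69.
-/

set_option autoImplicit false

open Polynomial WeierstrassCurve Pool.Agent.BSDFF Pool.Agent.SmithE

namespace Pool.Agent.Sm.L

open scoped Classical in
/-- The conclusions for `E_D` from the bound for the Selmer cocycles of level `j` of `sysOf`. -/
theorem goodOn_of_sysOf {k : Type} [Field k] [Finite k] {Ω : Type} [Field Ω]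
    [Algebra (RatFunc k) Ω] [IsSepClosure (RatFunc k) Ω] (h2 : (2 : k) ≠ 0) {α β D : k[X]}
    (hα : α ≠ 0) (hβ : β ≠ 0) (hαβ : α ≠ β) (hno : No4 α β) (hD : D ≠ 0) {j : ℕ} (hj : 1 ≤ j)
    (hfin : Finite {Psi // (Inst.sysOf Ω h2 hα hβ hαβ).IsSel (Pool.Agent.Lib.SmD.chi (RatFunc k)
      (algebraMap k[X] (RatFunc k) D)) j Psi})
    (hlt : 4 * Nat.card {Psi // (Inst.sysOf Ω h2 hα hβ hαβ).IsSel
      (Pool.Agent.Lib.SmD.chi (RatFunc k) (algebraMap k[X] (RatFunc k) D)) j Psi} < 16 ^ j) :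
    GoodOn k Ω (crv2 (D * α) (D * β)) j :=
  goodOn_of_selZ' h2 hno hD (Inst.sysOf Ω h2 hα hβ hαβ) rfl (fun _ => rfl) hj hfin hlt

/-- `α`, `β` are nonzero and distinct. -/
theorem No4.ne {k : Type} [Field k] {α β : k[X]} (h : No4 α β) : α ≠ 0 ∧ β ≠ 0 ∧ α ≠ β :=
  ⟨fun h0 => h.n0 0 0 (by rw [h0]; simp), fun h0 => h.n0 0 0 (by rw [h0]; simp),
    fun h0 => h.n1 0 0 (by rw [h0]; simp)⟩

end Pool.Agent.Sm.L
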