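import Pool.Agent.Lib.SmK.DD

/-!
SMITH, block L: at least half of the monic polynomials of every degree over a finite field with at
least three elements are squarefree.
-/

set_option autoImplicit false

open Polynomial Finset Pool.Agent.SmK

namespace Pool.Agent.Sm.L

variable {k : Type} [Field k] [Finite k]

private theorem sqLow_geom (q n m : ℕ) (hq : 1 ≤ q) (hm : m ≤ n) :
    (q - 1) * ∑ d ∈ Icc 1 m, q ^ (n - d) + q ^ (n - m) = q ^ n := by
  induction m with
  | zero => simp
  | succ m ih =>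
    rw [sum_Icc_succ_top (by omega), Nat.mul_add, add_assoc]
    have h1 : (q - 1) * q ^ (n - (m + 1)) + q ^ (n - (m + 1)) = q ^ (n - m) := by
      obtain ⟨r, rfl⟩ : ∃ r, q = r + 1 := ⟨q - 1, by omega⟩
      rw [show n - m = n - (m + 1) + 1 by omega, pow_succ, Nat.add_sub_cancel]
      ring
    rw [h1]
    exact ih (by omega)

open Classical in
theorem two_mul_card_nonsq_le (h3 : 3 ≤ Nat.card k) (n : ℕ) :
    2 * #{f ∈ Mon k n | ¬ Squarefree f} ≤ Nat.card k ^ n := by
  set q := Nat.card k with hq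
  have hsub : {f ∈ Mon k n | ¬ Squarefree f} ⊆
      (Icc 1 (n / 2)).biUnion fun d => (Mon k d).biUnion fun P => {f ∈ Mon k n | P ^ 2 ∣ f} := by
    intro f hf
    rw [mem_filter] at hf
    have hf1 := mem_Mon.1 hf.1
    obtain ⟨P, hPm, hPi, hPd⟩ := exists_sq_dvd hf1.1.ne_zero hf.2
    have hdeg := natDegree_le_of_dvd hPd hf1.1.ne_zero
    rw [natDegree_pow, hf1.2] at hdeg
    have hpos : 0 < P.natDegree := hPi.natDegree_pos
    rw [mem_biUnion]
    refine ⟨P.natDegree, ?_, ?_⟩
    · rw [mem_Icc]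
      omega
    · rw [mem_biUnion]
      exact ⟨P, mem_Mon.2 ⟨hPm, rfl⟩, mem_filter.2 ⟨hf.1, hPd⟩⟩
  have hcard : #{f ∈ Mon k n | ¬ Squarefree f} ≤ ∑ d ∈ Icc 1 (n / 2), q ^ (n - d) := by
    refine (card_le_card hsub).trans (card_biUnion_le.trans (sum_le_sum fun d hd => ?_))
    rw [mem_Icc] at hd
    calc #((Mon k d).biUnion fun P => {f ∈ Mon k n | P ^ 2 ∣ f})
        ≤ ∑ P ∈ Mon k d, #{f ∈ Mon k n | P ^ 2 ∣ f} := card_biUnion_le
      _ ≤ ∑ P ∈ Mon k d, q ^ (n - 2 * d) := by
          refine sum_le_sum fun P hP => ?_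
          have hP' := mem_Mon.1 hP
          rw [card_dvd k (hP'.1.pow 2) n, natDegree_pow, hP'.2, if_pos (by omega)]
      _ = q ^ (n - d) := by
          rw [sum_const, card_Mon, smul_eq_mul, ← pow_add]
          congr 1
          omega
  have hg := sqLow_geom q n (n / 2) (by omega) (Nat.div_le_self n 2)
  calc 2 * #{f ∈ Mon k n | ¬ Squarefree f} ≤ 2 * ∑ d ∈ Icc 1 (n / 2), q ^ (n - d) :=
        Nat.mul_le_mul_left _ hcard
    _ ≤ (q - 1) * ∑ d ∈ Icc 1 (n / 2), q ^ (n - d) := Nat.mul_le_mul_right _ (by omega)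
    _ ≤ q ^ n := by omega

theorem three_le_card (h2 : (2 : k) ≠ 0) : 3 ≤ Nat.card k := by
  have h1 : 1 < Nat.card k := Finite.one_lt_card
  by_contra hc
  have hc2 : Nat.card k = 2 := by omega
  have := Fintype.ofFinite k
  rw [Nat.card_eq_fintype_card] at hc2
  apply h2
  have h4 := FiniteField.cast_card_eq_zero k
  rw [hc2] at h4
  exact_mod_cast h4

/-- The hypothesis `hlow` of `all_squarefree`. -/
theorem card_squarefree_ge (h2 : (2 : k) ≠ 0) : ∃ c : ℝ, 0 < c ∧ ∀ n : ℕ,
    c * (Nat.card k : ℝ) ^ n ≤ (Nat.card {D : k[X] // Squarefree D ∧ D.natDegree = n} : ℝ) := by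
  classical
  refine ⟨1 / 2, by norm_num, fun n => ?_⟩
  have h3 := three_le_card h2
  have h1 := two_mul_card_nonsq_le (k := k) h3 n
  have h4 : #{f ∈ Mon k n | Squarefree f} + #{f ∈ Mon k n | ¬ Squarefree f} = Nat.card k ^ n := by
    rw [card_filter_add_card_filter_not, card_Mon]
  have hfin : Finite {D : k[X] // Squarefree D ∧ D.natDegree = n} := by
    have h5 : {D : k[X] | D.natDegree ≤ n}.Finite := by
      have h : {D : k[X] | D.natDegree ≤ n} ⊆ (degreeLT k (n + 1) : Set k[X]) := by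
        intro D hD
        rw [SetLike.mem_coe, mem_degreeLT]
        exact lt_of_le_of_lt degree_le_natDegree (by exact_mod_cast Nat.lt_succ_of_le hD)
      refine Set.Finite.subset ?_ h
      have : Finite (degreeLT k (n + 1)) :=
        Finite.of_equiv _ (degreeLTEquiv k (n + 1)).toEquiv.symm
      exact Set.toFinite _
    exact Set.Finite.subset h5 fun D hD => (hD.2 : D.natDegree = n).le
  have h6 : #{f ∈ Mon k n | Squarefree f} ≤
      Nat.card {D : k[X] // Squarefree D ∧ D.natDegree = n} := by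
    rw [← Nat.card_eq_finsetCard]
    refine Nat.card_le_card_of_injective (fun f => ⟨f.1, ?_⟩) ?_
    · have h7 := f.2
      rw [mem_filter, mem_Mon] at h7
      exact ⟨h7.2, h7.1.2⟩
    · intro f g hfg
      exact Subtype.ext (congrArg (fun D : {D : k[X] // Squarefree D ∧ D.natDegree = n} => D.1) hfg)
  have h7 : Nat.card k ^ n ≤ 2 * Nat.card {D : k[X] // Squarefree D ∧ D.natDegree = n} := by
    omega
  have h8 : ((Nat.card k : ℝ)) ^ n ≤
      2 * (Nat.card {D : k[X] // Squarefree D ∧ D.natDegree = n} : ℝ) := by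
    exact_mod_cast h7
  linarith

end Pool.Agent.Sm.L
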