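import Pool.Agent.Lib.Sm.L.AbsMain
import Pool.Agent.Lib.Sm.L.AllD
import Pool.Agent.Lib.Sm.L.GoodSys
import Pool.Agent.Lib.Sm.L.SqfreeLow
import Pool.Agent.Lib.SM.E.KapJ

/-!
SMITH, block L: assembly. The theorem for all squarefree `D`, from `Sys.Ok`, `ChOk` and Theorem I
for the instance `sysOf`.
-/

set_option autoImplicit false

open Polynomial Pool.Agent.BSDFF

namespace Pool.Agent.Sm.L

open Pool.Agent.SmK (DD)
open Pool.Agent.SmithE (chP NoFour twd twd_ell_iff)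

variable {k : Type} [Field k]

/-- The two forms of the hypothesis. -/
theorem No4.noFour {α β : k[X]} (h : No4 α β) : NoFour α β := ⟨h.n0, h.n1, h.n2⟩

/-- In a finite field of odd characteristic there is a non-square. -/
theorem exists_nonsq [Finite k] (h2 : (2 : k) ≠ 0) : ∃ u : k, ¬ IsSquare u := by
  have : Fintype k := Fintype.ofFinite k
  refine FiniteField.exists_nonsquare fun h => h2 ?_
  have : CharP k 2 := by rw [← h]; exact ringChar.charP k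
  exact_mod_cast CharP.cast_eq_zero k 2

/-- Membership in `DD`. -/
theorem mem_DD_badP [Finite k] {u : k} (hu : ¬ IsSquare u) {α β : k[X]} (h : NoFour α β) {n : ℕ}
    {D : k[X]} (hm : D.Monic) (hsq : Squarefree D) (hco : IsCoprime D (α * β * (α - β)))
    (hn : D.natDegree = n) : D ∈ DD (badP (twd u hu h)) n := by
  refine SmK.mem_DD.2 ⟨hm, hn, hsq, fun P hP hd => ?_⟩
  obtain ⟨hPm, hPi⟩ := badP_irr _ P hP
  have h1 := (twd_ell_iff hu h hPm hPi).1 (mem_badP.1 hP)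
  exact hPi.not_isUnit (hco.isUnit_of_dvd' hd h1)

/-- The family of the twists by monic squarefree `D` prime to the bad primes. -/
theorem good_of_inst [Finite k] {Ω : Type} [Field Ω] [Algebra (RatFunc k) Ω]
    [IsSepClosure (RatFunc k) Ω] (h2 : (2 : k) ≠ 0) {α β : k[X]} (hno : No4 α β) {u : k}
    (hu : ¬ IsSquare u) (pl : k[X] → Place k (RatFunc k))
    (hOk : (Inst.sysOf Ω h2 hno.ne.1 hno.ne.2.1 hno.ne.2.2).Ok)
    (hCh : ChOk (Inst.sysOf Ω h2 hno.ne.1 hno.ne.2.1 hno.ne.2.2) (chP Ω)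
      (twd u hu hno.noFour) pl)
    (hG : ∀ m, 1 ≤ m → GridThm (Inst.sysOf Ω h2 hno.ne.1 hno.ne.2.1 hno.ne.2.2) (chP Ω)
      (twd u hu hno.noFour) m) (ε : ℝ) (hε : 0 < ε) :
    ∃ j₀ : ℕ, ∀ j ≥ j₀, ∃ n₀ : ℕ, ∀ n ≥ n₀,
      (Nat.card {D : k[X] // D.Monic ∧ Squarefree D ∧ IsCoprime D (α * β * (α - β)) ∧
        D.natDegree = n ∧ ¬ GoodOn k Ω (crv2 (D * α) (D * β)) j} : ℝ) ≤
        ε * (Nat.card k : ℝ) ^ n := by
  classical
  obtain ⟨m₀, h1⟩ := abs_main hOk hCh hG ε hε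
  refine ⟨max m₀ 1, fun m hm => ?_⟩
  obtain ⟨n₀, h3⟩ := h1 m (le_trans (le_max_left _ _) hm)
  refine ⟨n₀, fun n hn => le_trans ?_ (h3 n hn)⟩
  set S := Inst.sysOf Ω h2 hno.ne.1 hno.ne.2.1 hno.ne.2.2 with hS
  set d := twd u hu hno.noFour with hd
  have hfin : Finite {D : k[X] // D ∈ DD (badP d) n ∧
      ¬ (Finite {Psi // S.IsSel (chP Ω D) m Psi} ∧
        4 * Nat.card {Psi // S.IsSel (chP Ω D) m Psi} < 16 ^ m)} :=
    Finite.of_injective (β := {D : k[X] // D ∈ DD (badP d) n}) (fun D => ⟨D.1, D.2.1⟩)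
      fun D D' h => Subtype.ext (congrArg (fun z : {D : k[X] // D ∈ DD (badP d) n} => z.1) h)
  have h4 : Nat.card {D : k[X] // D.Monic ∧ Squarefree D ∧ IsCoprime D (α * β * (α - β)) ∧
        D.natDegree = n ∧ ¬ GoodOn k Ω (crv2 (D * α) (D * β)) m} ≤
      Nat.card {D : k[X] // D ∈ DD (badP d) n ∧
        ¬ (Finite {Psi // S.IsSel (chP Ω D) m Psi} ∧
          4 * Nat.card {Psi // S.IsSel (chP Ω D) m Psi} < 16 ^ m)} := by
    refine Nat.card_le_card_of_injective (fun D => ⟨D.1,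
      mem_DD_badP hu hno.noFour D.2.1 D.2.2.1 D.2.2.2.1 D.2.2.2.2.1, fun hg =>
      D.2.2.2.2.2 ?_⟩) fun D D' h => Subtype.ext (congrArg
        (fun z : {D : k[X] // D ∈ DD (badP d) n ∧
          ¬ (Finite {Psi // S.IsSel (chP Ω D) m Psi} ∧
            4 * Nat.card {Psi // S.IsSel (chP Ω D) m Psi} < 16 ^ m)} => z.1) h)
    exact goodOn_of_sysOf h2 hno.ne.1 hno.ne.2.1 hno.ne.2.2 hno D.2.1.ne_zero
      (le_trans (le_max_right _ _) hm) hg.1 hg.2
  exact_mod_cast h4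

end Pool.Agent.Sm.L
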