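import Pool.Agent.Lib.Sm.L.Kummer
import Pool.Agent.Lib.Sm.G.Sys
import Pool.Agent.Lib.SM.E.Act

/-!
SMITH, block L4. The bridge: a Selmer cocycle of the quadratic twist `E_D` (finite level, values in
`E_D(Ω)[2^j]`) is a Selmer cocycle of the abstract structure `Sys` (2-finite, values in `V[2^j]`,
`V` the 2-power torsion of `E(Ω)`, twisted action).
-/

set_option autoImplicit false

open Polynomial WeierstrassCurve Pool.Agent.BSDFF Pool.Agent.BSDFF.MW Pool.Agent.SmithE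

namespace Pool.Agent.Sm.L

/-- A finite level cocycle with values in `M[2^j]` is `2`-finite. -/
theorem twoFin_of_level {K Ω M : Type} [Field K] [Field Ω] [Algebra K Ω] [IsGalois K Ω]
    [AddCommGroup M] [DistribMulAction (Ω ≃ₐ[K] Ω) M] {j : ℕ}
    (hN : ∃ N ∈ SmD.NN K Ω, ∀ s ∈ N, ∀ Q : M, (2 : ℕ) ^ j • Q = 0 → s • Q = Q)
    {ψ : (Ω ≃ₐ[K] Ω) → M} (hc : ∀ s t, ψ (s * t) = ψ s + s • ψ t)
    (ht : ∀ s, (2 : ℕ) ^ j • ψ s = 0)
    (hL : ∃ L : IntermediateField K Ω, FiniteDimensional K L ∧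
      ∀ s t : Ω ≃ₐ[K] Ω, (∀ x ∈ L, s x = t x) → ψ s = ψ t) :
    ∃ N ∈ SmD.NN K Ω, ∀ s, ∀ n ∈ N, ψ (s * n) = ψ s := by
  obtain ⟨N, hNN, hN⟩ := hN
  obtain ⟨L, hLf, hL⟩ := hL
  have h1 : ψ 1 = 0 := by
    have h := hc 1 1
    rw [mul_one, one_smul] at h
    exact left_eq_add.mp h
  have hNn := SmD.NN.normal hNN
  let H : Subgroup (Ω ≃ₐ[K] Ω) :=
    { carrier := {h | h ∈ N ∧ ψ h = 0}
      one_mem' := ⟨N.one_mem, h1⟩
      mul_mem' := by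
        rintro a b ⟨ha, ha'⟩ ⟨hb, hb'⟩
        exact ⟨N.mul_mem ha hb, by rw [hc, ha', hb', smul_zero, add_zero]⟩
      inv_mem' := by
        rintro a ⟨ha, ha'⟩
        refine ⟨N.inv_mem ha, ?_⟩
        have h := hc a⁻¹ a
        rw [inv_mul_cancel, h1, ha', smul_zero, add_zero] at h
        exact h.symm }
  have hmem : ∀ h, h ∈ H ↔ h ∈ N ∧ ψ h = 0 := fun h => Iff.rfl
  have hpow : ∀ τ ∈ N, ∀ a : ℕ, ψ (τ ^ a) = a • ψ τ := by
    intro τ hτ a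
    induction a with
    | zero => rw [pow_zero, h1, zero_smul]
    | succ a ih =>
      rw [pow_succ', hc, ih, hN τ hτ, succ_nsmul']
      rw [smul_comm, ht, smul_zero]
  refine ⟨H, SmD.mem_NN_of_pow ?_ ?_ ?_, ?_⟩
  · refine ⟨fun h hh t => ?_⟩
    rw [hmem] at hh ⊢
    refine ⟨hNn.conj_mem h hh.1 t, ?_⟩
    have h2 : ψ t + t • ψ t⁻¹ = 0 := by rw [← hc, mul_inv_cancel, h1]
    rw [mul_assoc, hc, hc, hh.2, zero_add, hN h hh.1 _ (ht _), h2]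
  · have h2 : N ⊓ L.fixingSubgroup ≤ H := by
      intro h hh
      rw [hmem]
      refine ⟨hh.1, ?_⟩
      rw [← h1]
      refine hL h 1 fun x hx => ?_
      exact (IntermediateField.mem_fixingSubgroup_iff L h).mp hh.2 x hx
    refine Subgroup.isOpen_mono h2 ?_
    rw [Subgroup.coe_inf]
    exact (SmD.NN.isOpen hNN).inter (IntermediateField.fixingSubgroup_isOpen L)
  · intro σ
    obtain ⟨r, hr⟩ := hNN.2.2
    have h2 : σ ^ (2 ^ r) ∈ N := by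
      rw [← hr]
      exact Subgroup.pow_index_mem N σ
    refine ⟨r + j, ?_⟩
    rw [hmem, pow_add, pow_mul]
    refine ⟨N.pow_mem h2 _, ?_⟩
    rw [hpow _ h2, ht]
  · intro s n hn
    rw [hmem] at hn
    rw [hc, hn.2, smul_zero, add_zero]

section

variable {k : Type} [Field k] {K Ω : Type} [Field K] [Field Ω] [Algebra k K] [Algebra K Ω]
  [IsGalois K Ω] [IsSepClosed Ω]

open scoped Classical in
theorem bridge {e₁ e₂ e₃ D : K} (h2 : (2 : K) ≠ 0) (h12 : e₁ ≠ e₂) (h13 : e₁ ≠ e₃) (h23 : e₂ ≠ e₃)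
    (hD : D ≠ 0) (φ : Pt Ω e₁ e₂ e₃ ≃+ Pt Ω (D * e₁) (D * e₂) (D * e₃))
    (χ : (Ω ≃ₐ[K] Ω) → ZMod 2)
    (hφ : ∀ (s : Ω ≃ₐ[K] Ω) (Q : Pt Ω e₁ e₂ e₃), s • φ Q = φ (sgn (χ s) • (s • Q)))
    {Pl : Type} (S : Sys (Ω ≃ₐ[K] Ω) (VV Ω e₁ e₂ e₃) Pl) (hNN : S.NN = SmD.NN K Ω)
    (hDv : ∀ v : Pl, ∃ w : ValuationSubring Ω, w ≠ ⊤ ∧
      (∀ c : k, algebraMap K Ω (algebraMap k K c) ∈ w) ∧ S.D v = w.decompositionSubgroup K)
    (hE6 : ∀ w : ValuationSubring Ω, w ≠ ⊤ →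
      (∀ c : k, algebraMap K Ω (algebraMap k K c) ∈ w) → ∀ (j : ℕ)
      (Q : Pt Ω (D * e₁) (D * e₂) (D * e₃)),
      (∀ s ∈ w.decompositionSubgroup K, (2 : ℕ) ^ j • (s • Q - Q) = 0) →
      ∃ Q' : Pt Ω (D * e₁) (D * e₂) (D * e₃), (∃ i : ℕ, (2 : ℕ) ^ i • Q' = 0) ∧
        ∀ s ∈ w.decompositionSubgroup K, s • Q - Q = s • Q' - Q') (j : ℕ) :
    ∃ f : ZSel k Ω (crv (D * e₁) (D * e₂) (D * e₃)) (2 ^ j) → {Psi // S.IsSel χ j Psi},
      Function.Injective f := by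
  have n12 : D * e₁ ≠ D * e₂ := fun h => h12 (mul_left_cancel₀ hD h)
  have n13 : D * e₁ ≠ D * e₃ := fun h => h13 (mul_left_cancel₀ hD h)
  have n23 : D * e₂ ≠ D * e₃ := fun h => h23 (mul_left_cancel₀ hD h)
  have hφ' : ∀ (s : Ω ≃ₐ[K] Ω) (Q : Pt Ω (D * e₁) (D * e₂) (D * e₃)),
      φ.symm (s • Q) = sgn (χ s) • (s • φ.symm Q) := by
    intro s Q
    apply φ.injective
    rw [← hφ, AddEquiv.apply_symm_apply, AddEquiv.apply_symm_apply]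
  have hmem : ∀ (i : ℕ) (Q : Pt Ω (D * e₁) (D * e₂) (D * e₃)), (2 : ℕ) ^ i • Q = 0 →
      φ.symm Q ∈ VV Ω e₁ e₂ e₃ := by
    intro i Q hQ
    refine ⟨i, ?_⟩
    rw [← map_nsmul, hQ, map_zero]
  refine ⟨fun ψ => ⟨fun s => ⟨φ.symm (ψ.1 s), hmem j _ (ψ.2.tors s)⟩, ?_⟩, ?_⟩
  · have hc : ∀ s t, ψ.1 (s * t) = ψ.1 s + (s • (ψ.1 t : Pt Ω (D * e₁) (D * e₂) (D * e₃)) :
        Pt Ω (D * e₁) (D * e₂) (D * e₃)) := ψ.2.cocycle
    refine ⟨?_, fun s t => ?_, fun s => ?_, fun v => ?_⟩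
    · obtain ⟨N, hN, hN'⟩ := act_fin (Ω := Ω) h2 n12 n13 n23 j
      obtain ⟨N1, hN1, hN1'⟩ := twoFin_of_level (j := j)
        (M := Pt Ω (D * e₁) (D * e₂) (D * e₃)) ⟨N, hN, fun s hs Q hQ => by
          have h3 := hN' s hs ⟨Q, j, hQ⟩ (Subtype.ext hQ)
          exact congrArg Subtype.val h3⟩ hc ψ.2.tors ψ.2.cont
      refine ⟨N1, by rw [hNN]; exact hN1, fun s n hn => ?_⟩
      apply Subtype.ext
      exact congrArg φ.symm (hN1' s n hn)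
    · apply Subtype.ext
      change φ.symm (ψ.1 (s * t)) = φ.symm (ψ.1 s) + sgn (χ s) • (s • φ.symm (ψ.1 t))
      rw [hc, map_add, hφ']
    · apply Subtype.ext
      change (2 : ℕ) ^ j • φ.symm (ψ.1 s) = 0
      rw [← map_nsmul]
      exact (congrArg φ.symm (ψ.2.tors s)).trans (map_zero _)
    · obtain ⟨w, hw, hw', hDw⟩ := hDv v
      obtain ⟨Q, hQ⟩ := ψ.2.loc w hw hw'
      obtain ⟨Q', ⟨i, hi⟩, hQ'⟩ := hE6 w hw hw' j Q (fun s hs => by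
        have h3 : s • Q - Q = ψ.1 s := (hQ s hs).symm
        rw [h3]
        exact ψ.2.tors s)
      refine ⟨⟨φ.symm Q', hmem i Q' hi⟩, fun s hs => ?_⟩
      rw [hDw] at hs
      apply Subtype.ext
      change φ.symm (ψ.1 s) = sgn (χ s) • (s • φ.symm Q') - φ.symm Q'
      rw [← hφ', ← map_sub, ← hQ' s hs]
      exact congrArg φ.symm (hQ s hs)
  · intro ψ ψ' h
    apply Subtype.ext
    funext s
    have h3 := congrFun (congrArg Subtype.val h) s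
    exact φ.symm.injective (congrArg Subtype.val h3)

end

end Pool.Agent.Sm.L
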