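import Pool.Agent.Lib.Sm.L.GoodSys
import Pool.Agent.Lib.SmD.Conj
import Pool.Agent.Lib.SmD.DvrBelow

/-!
SMITH, block L, parity version. The inverse direction of `bridge`: every Selmer cocycle of the
abstract structure is a Selmer cocycle of the quadratic twist `E_D`. Hence the numbers of Selmer
cocycles are equal, and the corank of the `2`-power Selmer group of `E_D` can be read off from the
numbers of Selmer cocycles of `sysOf`.
-/

set_option autoImplicit false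

open Polynomial WeierstrassCurve Pool.Agent.BSDFF Pool.Agent.BSDFF.MW Pool.Agent.SmithE

namespace Pool.Agent.Sm.L

section back

variable {k : Type} [Field k] {K Ω : Type} [Field K] [Field Ω] [Algebra k K] [Algebra K Ω]

/-- A crossed homomorphism which is a coboundary on a subgroup `D` is a coboundary on the subgroups
conjugate to subgroups of `D`. -/
theorem cob_of_conj {G M : Type} [Group G] [AddCommGroup M] [DistribMulAction G M] {ψ : G → M}
    (hc : ∀ s t, ψ (s * t) = ψ s + s • ψ t) {D : Subgroup G} {Q : M}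
    (hQ : ∀ s ∈ D, ψ s = s • Q - Q) (σ : G) {s : G} (hs : σ * s * σ⁻¹ ∈ D) :
    ψ s = s • (σ⁻¹ • (Q + ψ σ)) - σ⁻¹ • (Q + ψ σ) := by
  have h1 : ψ (σ * s) = ψ (σ * s * σ⁻¹) + (σ * s * σ⁻¹) • ψ σ := by
    rw [← hc, inv_mul_cancel_right]
  rw [hQ _ hs, hc] at h1
  have h2 : σ • ψ s = (σ * s * σ⁻¹) • (Q + ψ σ) - (Q + ψ σ) := by
    have h3 : σ • ψ s = (ψ σ + σ • ψ s) - ψ σ := by abel
    rw [h3, h1, smul_add]
    abel
  have h4 : ψ s = σ⁻¹ • (σ • ψ s) := by rw [inv_smul_smul]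
  rw [h4, h2, smul_sub, smul_smul, smul_smul]
  congr 2
  group

open scoped Classical in
/-- The inverse direction of `bridge`. -/
theorem bridge_back {e₁ e₂ e₃ D : K} (φ : Pt Ω e₁ e₂ e₃ ≃+ Pt Ω (D * e₁) (D * e₂) (D * e₃))
    (χ : (Ω ≃ₐ[K] Ω) → ZMod 2)
    (hφ : ∀ (s : Ω ≃ₐ[K] Ω) (Q : Pt Ω e₁ e₂ e₃), s • φ Q = φ (sgn (χ s) • (s • Q)))
    {Pl : Type} (S : Sys (Ω ≃ₐ[K] Ω) (VV Ω e₁ e₂ e₃) Pl) (hNN : S.NN = SmD.NN K Ω)
    (hDw : ∀ w : ValuationSubring Ω, w ≠ ⊤ → (∀ c : k, algebraMap K Ω (algebraMap k K c) ∈ w) →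
      ∃ (v : Pl) (σ : Ω ≃ₐ[K] Ω), ∀ s ∈ w.decompositionSubgroup K, σ * s * σ⁻¹ ∈ S.D v) (j : ℕ) :
    ∃ g : {Psi // S.IsSel χ j Psi} → ZSel k Ω (crv (D * e₁) (D * e₂) (D * e₃)) (2 ^ j),
      Function.Injective g := by
  refine ⟨fun Psi => ⟨fun s => φ (Psi.1 s).1, ?_⟩, ?_⟩
  · have hc : ∀ s t : Ω ≃ₐ[K] Ω, φ (Psi.1 (s * t)).1 = φ (Psi.1 s).1 + s • φ (Psi.1 t).1 := by
      intro s t
      rw [hφ, ← map_add]
      exact congrArg (fun x => φ (Subtype.val x)) (Psi.2.coc s t)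
    refine ⟨hc, fun s => ?_, ?_, fun w hw hw' => ?_⟩
    · have h1 : (2 : ℕ) ^ j • (Psi.1 s).1 = 0 := congrArg Subtype.val (Psi.2.lev s)
      exact (map_nsmul φ _ _).symm.trans ((congrArg φ h1).trans (map_zero φ))
    · obtain ⟨N, hN, hN'⟩ := Psi.2.tf
      rw [hNN] at hN
      obtain ⟨L, hL, hLN⟩ := (krullTopology_mem_nhds_one_iff K Ω (N : Set (Ω ≃ₐ[K] Ω))).mp
        ((SmD.NN.isOpen hN).mem_nhds N.one_mem)
      refine ⟨L, hL, fun s t hst => ?_⟩
      have h1 : s⁻¹ * t ∈ N := by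
        apply hLN
        rw [SetLike.mem_coe, IntermediateField.mem_fixingSubgroup_iff]
        intro x hx
        rw [AlgEquiv.mul_apply, ← hst x hx, ← AlgEquiv.mul_apply, inv_mul_cancel,
          AlgEquiv.one_apply]
      have h2 := hN' s _ h1
      rw [mul_inv_cancel_left] at h2
      rw [h2]
    · obtain ⟨v, σ, hσ⟩ := hDw w hw hw'
      obtain ⟨Q, hQ⟩ := Psi.2.loc v
      have hQ' : ∀ s ∈ S.D v, φ (Psi.1 s).1 = s • φ Q.1 - φ Q.1 := by
        intro s hs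
        rw [hφ, ← map_sub]
        exact congrArg (fun x => φ (Subtype.val x)) (hQ s hs)
      exact ⟨σ⁻¹ • (φ Q.1 + φ (Psi.1 σ).1), fun s hs => cob_of_conj hc hQ' σ (hσ s hs)⟩
  · intro Psi Psi' h
    apply Subtype.ext
    funext s
    apply Subtype.ext
    apply φ.injective
    exact congrFun (congrArg Subtype.val h) s

end back

section corank

variable (k : Type) {K : Type} [Field k] [Field K] [Algebra k K] (Ω : Type) [Field Ω]
  [Algebra K Ω] (W : WeierstrassCurve K)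

private theorem BridgeP_unique_le {r r' : ℕ} (h : HasCorank k Ω W r) (h' : HasCorank k Ω W r') :
    r' ≤ r := by
  obtain ⟨B, hB⟩ := h
  obtain ⟨B', hB'⟩ := h'
  by_contra hlt
  push Not at hlt
  have h1 : ∀ i, 2 ^ i * 2 ^ (r * i) ≤ B' * B * 2 ^ (r * i) := by
    intro i
    calc 2 ^ i * 2 ^ (r * i) = 2 ^ ((r + 1) * i) := by rw [← pow_add]; ring_nf
      _ ≤ 2 ^ (r' * i) := Nat.pow_le_pow_right (by norm_num) (Nat.mul_le_mul_right _ hlt)
      _ ≤ B' * Nat.card (Sel k Ω W (2 ^ i)) := (hB' i).2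
      _ ≤ B' * (B * 2 ^ (r * i)) := Nat.mul_le_mul_left _ (hB i).1
      _ = B' * B * 2 ^ (r * i) := by ring
  exact absurd (Nat.le_of_mul_le_mul_right (h1 (B' * B)) (by positivity))
    (not_le.mpr Nat.lt_two_pow_self)

/-- The corank is unique. -/
theorem HasCorank.unique {r r' : ℕ} (h : HasCorank k Ω W r) (h' : HasCorank k Ω W r') : r = r' :=
  le_antisymm (BridgeP_unique_le k Ω W h' h) (BridgeP_unique_le k Ω W h h')

open scoped Classical in
/-- If the corank is `0` then the rank is `0` and the `2`-power torsion of the Tate-Shafarevich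
group is finite. -/
theorem GoodOn.of_corank_zero {j : ℕ} (h : GoodOn k Ω W j) (h0 : HasCorank k Ω W 0) :
    algebraicRank W = 0 ∧ Finite (Sha2 k Ω W) := by
  obtain ⟨r, -, hr, hle, hsha⟩ := h.corank
  obtain rfl := HasCorank.unique k Ω W hr h0
  exact ⟨Nat.le_zero.mp hle, hsha (Nat.le_zero.mp hle)⟩

/-- The corank from the numbers of Selmer cocycles. -/
theorem hasCorank_of_zsel [Algebra.IsAlgebraic K Ω] {r : ℕ}
    (hfin : ∀ i, Finite (ZSel k Ω W (2 ^ i)))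
    (hB : ∀ i, 1 ≤ i → Nat.card (Sel k Ω W (2 ^ i)) * 4 ^ i = 4 * Nat.card (ZSel k Ω W (2 ^ i)))
    {B : ℕ} (h : ∀ i, Nat.card (ZSel k Ω W (2 ^ i)) ≤ B * 2 ^ ((r + 2) * i) ∧
      2 ^ ((r + 2) * i) ≤ B * Nat.card (ZSel k Ω W (2 ^ i))) : HasCorank k Ω W r := by
  have hpow : ∀ i : ℕ, 2 ^ ((r + 2) * i) = 2 ^ (r * i) * 4 ^ i := by
    intro i
    rw [add_mul, pow_add, pow_mul 2 2 i]
    norm_num
  have hSfin : ∀ i : ℕ, Finite (Sel k Ω W (2 ^ i)) := by
    intro i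
    have := hfin i
    infer_instance
  have hB1 : 1 ≤ B := by
    have h1 := (h 0).2
    rw [mul_zero, pow_zero] at h1
    exact Nat.pos_of_mul_pos_right (Nat.lt_of_lt_of_le Nat.one_pos h1)
  refine ⟨4 * B, fun i => ⟨?_, ?_⟩⟩
  · rcases Nat.eq_zero_or_pos i with rfl | hi
    · have h2 : Nat.card (Sel k Ω W (2 ^ 0)) ≤ Nat.card (ZSel k Ω W (2 ^ 0)) := by
        have := hfin 0
        exact Nat.card_le_card_of_surjective _ (QuotientAddGroup.mk_surjective)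
      calc Nat.card (Sel k Ω W (2 ^ 0)) ≤ Nat.card (ZSel k Ω W (2 ^ 0)) := h2
        _ ≤ B * 2 ^ ((r + 2) * 0) := (h 0).1
        _ ≤ 4 * B * 2 ^ (r * 0) := by
          rw [mul_zero, mul_zero]
          exact Nat.mul_le_mul_right _ (by omega)
    · have h3 : Nat.card (Sel k Ω W (2 ^ i)) * 4 ^ i ≤ (4 * B * 2 ^ (r * i)) * 4 ^ i := by
        rw [hB i hi]
        calc 4 * Nat.card (ZSel k Ω W (2 ^ i)) ≤ 4 * (B * 2 ^ ((r + 2) * i)) :=
              Nat.mul_le_mul_left _ (h i).1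
          _ = _ := by rw [hpow]; ring
      exact Nat.le_of_mul_le_mul_right h3 (by positivity)
  · rcases Nat.eq_zero_or_pos i with rfl | hi
    · rw [mul_zero, pow_zero]
      have := hSfin 0
      exact Nat.mul_pos (by omega) Nat.card_pos
    · have h3 : 2 ^ (r * i) * 4 ^ i ≤ (4 * B * Nat.card (Sel k Ω W (2 ^ i))) * 4 ^ i := by
        rw [mul_assoc (4 * B), hB i hi, ← hpow]
        calc 2 ^ ((r + 2) * i) ≤ B * Nat.card (ZSel k Ω W (2 ^ i)) := (h i).2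
          _ ≤ (4 * B) * (4 * Nat.card (ZSel k Ω W (2 ^ i))) :=
            Nat.mul_le_mul (by omega) (by omega)
      exact Nat.le_of_mul_le_mul_right h3 (by positivity)

end corank

section sys

variable {k : Type} [Field k] {Ω : Type} [Field Ω] [Algebra (RatFunc k) Ω]
  [IsSepClosure (RatFunc k) Ω]

/-- Every decomposition group of a place of `Ω` is conjugate to one of the chosen ones. -/
theorem conj_dv (w : ValuationSubring Ω) (hw : w ≠ ⊤)
    (hk : ∀ c : k, algebraMap (RatFunc k) Ω (algebraMap k (RatFunc k) c) ∈ w) :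
    ∃ (v : Place k (RatFunc k)) (σ : Ω ≃ₐ[RatFunc k] Ω),
      ∀ s ∈ w.decompositionSubgroup (RatFunc k), σ * s * σ⁻¹ ∈ Pool.Agent.Lib.SmD.dv Ω v := by
  obtain ⟨v, hv⟩ := Pool.Agent.Lib.SmD.exists_place_below w hw hk
  obtain ⟨σ, hσ⟩ := Pool.Agent.Lib.SmD.conj (RatFunc k) w (Pool.Agent.Lib.SmD.ab Ω v)
    (by rw [Pool.Agent.Lib.SmD.below_ab]; exact hv.symm)
  refine ⟨v, σ, fun s hs => ?_⟩
  have hs' := (Pool.Agent.Lib.SmD.mem_dec (RatFunc k)).mp hs
  refine (Pool.Agent.Lib.SmD.mem_dec (RatFunc k)).mpr fun x => ?_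
  rw [AlgEquiv.mul_apply, AlgEquiv.mul_apply, hσ, hs', ← hσ, ← AlgEquiv.mul_apply,
    mul_inv_cancel, AlgEquiv.one_apply]

open scoped Classical in
/-- The isomorphism of `E` and `E_D` over `Ω`, and the action of the Galois group. -/
theorem exists_twist_equiv {a b c D : RatFunc k} (h2 : (2 : RatFunc k) ≠ 0) (hD : D ≠ 0) :
    ∃ φ : Pt Ω a b c ≃+ Pt Ω (D * a) (D * b) (D * c),
      ∀ (s : Ω ≃ₐ[RatFunc k] Ω) (Q : Pt Ω a b c),
        s • φ Q = φ (sgn (Pool.Agent.Lib.SmD.chi (RatFunc k) D s) • (s • Q)) := by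
  have hsc : IsSepClosed Ω := IsSepClosure.sep_closed (RatFunc k)
  obtain ⟨d, hd⟩ := SmF.exists_sqrt (K := RatFunc k) (Ω := Ω) h2 D
  refine ⟨twistEquiv a b c hD hd, fun s Q => ?_⟩
  unfold sgn
  by_cases h0 : Pool.Agent.Lib.SmD.chi (RatFunc k) D s = 0
  · rw [if_pos h0, one_smul]
    exact smul_twistEquiv_of_fix hD hd ((SmF.chi_eq_zero_iff_fix hd s).mp h0) Q
  · have h1 : Pool.Agent.Lib.SmD.chi (RatFunc k) D s = 1 := by
      have : ∀ a : ZMod 2, a ≠ 0 → a = 1 := by decide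
      exact this _ h0
    rw [if_neg h0, neg_one_smul, map_neg]
    exact smul_twistEquiv_of_neg hD hd ((SmF.chi_eq_one_iff_neg h2 hD hd s).mp h1) Q

variable [Finite k] (h2 : (2 : k) ≠ 0) {α β D : k[X]} (hα : α ≠ 0) (hβ : β ≠ 0) (hαβ : α ≠ β)
include hα hβ hαβ

open scoped Classical in
theorem zsel_selZ (hD : D ≠ 0) (i : ℕ) :
    Nonempty (ZSel k Ω (crv2 (D * α) (D * β)) (2 ^ i) ≃
      {Psi // (Inst.sysOf Ω h2 hα hβ hαβ).IsSel (Pool.Agent.Lib.SmD.chi (RatFunc k)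
        (algebraMap k[X] (RatFunc k) D)) i Psi}) := by
  have hsc : IsSepClosed Ω := IsSepClosure.sep_closed (RatFunc k)
  have inj := IsFractionRing.injective k[X] (RatFunc k)
  have h2K : (2 : RatFunc k) ≠ 0 := Inst.two_K h2
  have n12 := Inst.zero_ne_map hα
  have n13 := Inst.zero_ne_map hβ
  have n23 := Inst.map_ne_map hαβ
  have hD0 : algebraMap k[X] (RatFunc k) D ≠ 0 := fun h => hD (inj (h.trans (map_zero _).symm))
  have hcrv : crv2 (D * α) (D * β) = crv (algebraMap k[X] (RatFunc k) D * 0)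
      (algebraMap k[X] (RatFunc k) D * algebraMap k[X] (RatFunc k) α)
      (algebraMap k[X] (RatFunc k) D * algebraMap k[X] (RatFunc k) β) := by
    unfold crv2
    rw [mul_zero, map_mul, map_mul]
  rw [hcrv]
  obtain ⟨φ, hφ⟩ := exists_twist_equiv (Ω := Ω) (a := 0) (b := algebraMap k[X] (RatFunc k) α)
    (c := algebraMap k[X] (RatFunc k) β) h2K hD0
  obtain ⟨f, hf⟩ := bridge (k := k) (Ω := Ω) h2K n12 n13 n23 hD0 φ _ hφ
    (Inst.sysOf Ω h2 hα hβ hαβ) rfl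
    (fun v => ⟨Pool.Agent.Lib.SmD.ab Ω v, ab_ne_top v, ab_const v, rfl⟩)
    (e6_ratFunc h2 _ _ _ (fun h => n12 (mul_left_cancel₀ hD0 h))
      (fun h => n13 (mul_left_cancel₀ hD0 h)) (fun h => n23 (mul_left_cancel₀ hD0 h))) i
  obtain ⟨g, hg⟩ := bridge_back (k := k) φ _ hφ (Inst.sysOf Ω h2 hα hβ hαβ) rfl
    (fun w hw hk => conj_dv w hw hk) i
  obtain ⟨e, he⟩ := Function.Embedding.schroeder_bernstein hf hg
  exact ⟨Equiv.ofBijective e he⟩

/-- The numbers of Selmer cocycles of `E_D` and of `sysOf` are equal. -/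
theorem card_zsel_selZ (hD : D ≠ 0) (i : ℕ) :
    Nat.card (ZSel k Ω (crv2 (D * α) (D * β)) (2 ^ i)) =
      Nat.card {Psi // (Inst.sysOf Ω h2 hα hβ hαβ).IsSel (Pool.Agent.Lib.SmD.chi (RatFunc k)
        (algebraMap k[X] (RatFunc k) D)) i Psi} := by
  obtain ⟨e⟩ := zsel_selZ (Ω := Ω) h2 hα hβ hαβ hD i
  exact Nat.card_congr e

omit [Finite k] hα hβ hαβ in
include h2 in
open scoped Classical in
private theorem BridgeP_hB (hno : No4 α β) (hD : D ≠ 0) (i : ℕ) (hi : 1 ≤ i) :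
    Nat.card (Sel k Ω (crv2 (D * α) (D * β)) (2 ^ i)) * 4 ^ i =
      4 * Nat.card (ZSel k Ω (crv2 (D * α) (D * β)) (2 ^ i)) := by
  have hsc : IsSepClosed Ω := IsSepClosure.sep_closed (RatFunc k)
  obtain ⟨hα, hβ, hαβ⟩ := hno.ne
  have inj := IsFractionRing.injective k[X] (RatFunc k)
  have h2K : (2 : RatFunc k) ≠ 0 := Inst.two_K h2
  have n12 := Inst.zero_ne_map (mul_ne_zero hD hα)
  have n13 := Inst.zero_ne_map (mul_ne_zero hD hβ)
  have n23 := Inst.map_ne_map (fun h => hαβ (mul_left_cancel₀ hD h))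
  have hD0 : algebraMap k[X] (RatFunc k) D ≠ 0 := fun h => hD (inj (h.trans (map_zero _).symm))
  have sq : ∀ (x : k[X]) (y : RatFunc k), y = algebraMap k[X] (RatFunc k) D ^ 2 *
      algebraMap k[X] (RatFunc k) x → IsSquare y → ∃ g : k[X], x = C 1 * g ^ 2 := by
    rintro x y rfl ⟨z, hz⟩
    obtain ⟨g, hg⟩ := isSquare_ratFunc (a := x) ⟨z / algebraMap k[X] (RatFunc k) D, by
      rw [div_mul_div_comm, ← hz]
      field_simp⟩
    exact ⟨g, by rw [hg, map_one, one_mul]⟩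
  have h1 : Nat.card (Gn (crv2 (D * α) (D * β)).toAffine.Point (2 ^ i)) = 4 := by
    refine card_gn_crv h2K n12 n13 n23 ?_ ?_ ?_ i hi
    · intro h
      obtain ⟨g, hg⟩ := sq (α * β) _ (by simp only [map_mul]; ring) h
      exact hno.n0 1 g hg
    · intro h
      obtain ⟨g, hg⟩ := sq (α * (α - β)) _ (by simp only [map_mul, map_sub]; ring) h
      exact hno.n1 1 g hg
    · intro h
      obtain ⟨g, hg⟩ := sq (β * (β - α)) _ (by simp only [map_mul, map_sub]; ring) h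
      exact hno.n2 1 g hg
  have h3 : Nat.card (Gn (Pts Ω (crv2 (D * α) (D * β))) (2 ^ i)) = 4 ^ i :=
    card_pt_torsion (Ω := Ω) n12 n13 n23 h2K i
  rw [card_zsel, ← h3, card_bsel, h1]
  ring

open scoped Classical in
private theorem BridgeP_main (hno : No4 α β) (hD : D ≠ 0) {r B : ℕ}
    (hfin : ∀ i, Finite {Psi // (Inst.sysOf Ω h2 hα hβ hαβ).IsSel
      (Pool.Agent.Lib.SmD.chi (RatFunc k) (algebraMap k[X] (RatFunc k) D)) i Psi})
    (h : ∀ i, Nat.card {Psi // (Inst.sysOf Ω h2 hα hβ hαβ).IsSel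
      (Pool.Agent.Lib.SmD.chi (RatFunc k) (algebraMap k[X] (RatFunc k) D)) i Psi} ≤
        B * 2 ^ ((r + 2) * i) ∧
      2 ^ ((r + 2) * i) ≤ B * Nat.card {Psi // (Inst.sysOf Ω h2 hα hβ hαβ).IsSel
      (Pool.Agent.Lib.SmD.chi (RatFunc k) (algebraMap k[X] (RatFunc k) D)) i Psi}) :
    HasCorank k Ω (crv2 (D * α) (D * β)) r := by
  refine hasCorank_of_zsel k Ω _ (fun i => ?_) (BridgeP_hB h2 hno hD) (B := B) (fun i => ?_)
  · obtain ⟨e⟩ := zsel_selZ (Ω := Ω) h2 hα hβ hαβ hD i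
    have := hfin i
    exact Finite.of_equiv _ e.symm
  · rw [card_zsel_selZ h2 hα hβ hαβ hD i]
    exact h i

open scoped Classical in
/-- Corank `0`. -/
theorem hasCorank_zero (hno : No4 α β) (hD : D ≠ 0)
    (hfin : ∀ i, Finite {Psi // (Inst.sysOf Ω h2 hα hβ hαβ).IsSel
      (Pool.Agent.Lib.SmD.chi (RatFunc k) (algebraMap k[X] (RatFunc k) D)) i Psi})
    (hB : ∃ B, ∀ i, Nat.card {Psi // (Inst.sysOf Ω h2 hα hβ hαβ).IsSel
      (Pool.Agent.Lib.SmD.chi (RatFunc k) (algebraMap k[X] (RatFunc k) D)) i Psi} ≤ B * 4 ^ i) :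
    HasCorank k Ω (crv2 (D * α) (D * β)) 0 := by
  obtain ⟨B, hB⟩ := hB
  have hfin' : ∀ i, Finite (ZSel k Ω (crv2 (D * α) (D * β)) (2 ^ i)) := fun i => by
    obtain ⟨e⟩ := zsel_selZ (Ω := Ω) h2 hα hβ hαβ hD i
    have := hfin i
    exact Finite.of_equiv _ e.symm
  have e4 : ∀ i, 2 ^ ((0 + 2) * i) = 4 ^ i := fun i => by
    rw [zero_add, pow_mul]
    norm_num
  refine BridgeP_main h2 hα hβ hαβ hno hD (r := 0) (B := B + 4) hfin (fun i => ⟨?_, ?_⟩)
  · rw [e4]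
    exact (hB i).trans (Nat.mul_le_mul_right _ (by omega))
  · rw [e4, ← card_zsel_selZ h2 hα hβ hαβ hD i]
    rcases Nat.eq_zero_or_pos i with rfl | hi
    · rw [pow_zero]
      have := hfin' 0
      exact Nat.mul_pos (by omega) Nat.card_pos
    · have h1 := BridgeP_hB (Ω := Ω) h2 hno hD i hi
      have h3 := hfin' i
      have h4 : 0 < Nat.card (Sel k Ω (crv2 (D * α) (D * β)) (2 ^ i)) := Nat.card_pos
      calc 4 ^ i ≤ Nat.card (Sel k Ω (crv2 (D * α) (D * β)) (2 ^ i)) * 4 ^ i :=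
            Nat.le_mul_of_pos_left _ h4
        _ = 4 * Nat.card (ZSel k Ω (crv2 (D * α) (D * β)) (2 ^ i)) := h1
        _ ≤ _ := Nat.mul_le_mul_right _ (by omega)

open scoped Classical in
/-- Corank `0`, with the data of one level. -/
theorem hasCorank_zero' (hno : No4 α β) (hD : D ≠ 0) {j : ℕ} (hj : 1 ≤ j)
    (hfin : Finite {Psi // (Inst.sysOf Ω h2 hα hβ hαβ).IsSel
      (Pool.Agent.Lib.SmD.chi (RatFunc k) (algebraMap k[X] (RatFunc k) D)) j Psi})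
    (hlt : 4 * Nat.card {Psi // (Inst.sysOf Ω h2 hα hβ hαβ).IsSel
      (Pool.Agent.Lib.SmD.chi (RatFunc k) (algebraMap k[X] (RatFunc k) D)) j Psi} < 16 ^ j)
    (hB : ∃ B, ∀ i, Nat.card {Psi // (Inst.sysOf Ω h2 hα hβ hαβ).IsSel
      (Pool.Agent.Lib.SmD.chi (RatFunc k) (algebraMap k[X] (RatFunc k) D)) i Psi} ≤ B * 4 ^ i) :
    HasCorank k Ω (crv2 (D * α) (D * β)) 0 := by
  refine hasCorank_zero h2 hα hβ hαβ hno hD (fun i => ?_) hB
  obtain ⟨e⟩ := zsel_selZ (Ω := Ω) h2 hα hβ hαβ hD j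
  obtain ⟨e'⟩ := zsel_selZ (Ω := Ω) h2 hα hβ hαβ hD i
  have hZf : Finite (ZSel k Ω (crv2 (D * α) (D * β)) (2 ^ j)) := Finite.of_equiv _ e.symm
  have hGf : Finite (Gn (ZSha k Ω (crv2 (D * α) (D * β))) (2 ^ j)) := by
    apply Nat.finite_of_card_ne_zero
    rw [← card_zsel_gn]
    exact Nat.card_pos.ne'
  have hGlt : Nat.card (Gn (ZSha k Ω (crv2 (D * α) (D * β))) (2 ^ j)) < 16 ^ j := by
    rw [← card_zsel_gn, card_zsel_selZ h2 hα hβ hαβ hD j]
    exact lt_of_le_of_lt (Nat.le_mul_of_pos_left _ (by norm_num)) hlt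
  have h1 := (corank_growth (A := ZSha k Ω (crv2 (D * α) (D * β))) hj hGf hGlt i).1
  have h3 : Finite (ZSel k Ω (crv2 (D * α) (D * β)) (2 ^ i)) := by
    apply Nat.finite_of_card_ne_zero
    rw [card_zsel_gn]
    exact Nat.card_pos.ne'
  exact Finite.of_equiv _ e'

open scoped Classical in
/-- Corank `1`. -/
theorem hasCorank_one (hno : No4 α β) (hD : D ≠ 0)
    (h8 : ∀ i, 8 ^ i ≤ Nat.card {Psi // (Inst.sysOf Ω h2 hα hβ hαβ).IsSel
      (Pool.Agent.Lib.SmD.chi (RatFunc k) (algebraMap k[X] (RatFunc k) D)) i Psi})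
    (hB : ∃ B, ∀ i, Nat.card {Psi // (Inst.sysOf Ω h2 hα hβ hαβ).IsSel
      (Pool.Agent.Lib.SmD.chi (RatFunc k) (algebraMap k[X] (RatFunc k) D)) i Psi} ≤ B * 8 ^ i) :
    HasCorank k Ω (crv2 (D * α) (D * β)) 1 := by
  obtain ⟨B, hB⟩ := hB
  have e8 : ∀ i, 2 ^ ((1 + 2) * i) = 8 ^ i := fun i => by
    rw [pow_mul]
    norm_num
  refine BridgeP_main h2 hα hβ hαβ hno hD (r := 1) (B := B + 1) (fun i => ?_) (fun i => ⟨?_, ?_⟩)
  · exact Nat.finite_of_card_ne_zero (Nat.lt_of_lt_of_le (by positivity) (h8 i)).ne'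
  · rw [e8]
    exact (hB i).trans (Nat.mul_le_mul_right _ (by omega))
  · rw [e8]
    exact (h8 i).trans (Nat.le_mul_of_pos_left _ (by omega))

end sys

end Pool.Agent.Sm.L
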