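import Pool.Agent.Lib.Sm.L.DegK
import Pool.Agent.Lib.SmH.Conv
import Pool.Agent.Lib.SmH.Link.WSel

/-!
SMITH, heights: the bridge for pairs. A Selmer cocycle with values in
`W[2 ^ j]`, `W = E_D[2 ^ ∞] ⊗ Z[ε] / ε ^ 2`, is a Selmer cocycle of the abstract structure.
-/

set_option autoImplicit false

open Polynomial WeierstrassCurve Pool.Agent.BSDFF Pool.Agent.BSDFF.MW Pool.Agent.SmithE

namespace Pool.Agent.Sm.L

/-- A pair of finite level with values in `M[2^j]` is `2`-finite. -/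
theorem twoFin_of_levelW {k K Ω M : Type} [Field k] [Field K] [Field Ω] [Algebra k K]
    [Algebra K Ω] [IsGalois K Ω]
    [AddCommGroup M] [DistribMulAction (Ω ≃ₐ[K] Ω) M] {j : ℕ}
    (hN : ∃ N ∈ SmD.NN K Ω, ∀ s ∈ N, ∀ Q : M, (2 : ℕ) ^ j • Q = 0 → s • Q = Q)
    (hH : ∃ H ∈ SmD.NN K Ω, ∀ s ∈ H, IsDeg k Ω j s 0) (hex : ∀ s : Ω ≃ₐ[K] Ω, ∃ d, IsDeg k Ω j s d)
    {x y : (Ω ≃ₐ[K] Ω) → M} (hx : ∀ s t, x (s * t) = x s + s • x t)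
    (hxt : ∀ s, (2 : ℕ) ^ j • x s = 0)
    (hy : ∀ s t d, IsDeg k Ω j s d → y (s * t) = y s + s • y t + d • (s • x t))
    (hyt : ∀ s, (2 : ℕ) ^ j • y s = 0)
    (hL : ∃ L : IntermediateField K Ω, FiniteDimensional K L ∧
      ∀ s t : Ω ≃ₐ[K] Ω, (∀ a ∈ L, s a = t a) → x s = x t ∧ y s = y t) :
    ∃ N ∈ SmD.NN K Ω, ∀ s, ∀ n ∈ N, x (s * n) = x s ∧ y (s * n) = y s := by
  obtain ⟨N₁, hN₁, hN₁'⟩ := hN
  obtain ⟨N₂, hN₂, hN₂'⟩ := hH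
  obtain ⟨N, hNN, hN, hd⟩ : ∃ N ∈ SmD.NN K Ω, (∀ s ∈ N, ∀ Q : M, (2 : ℕ) ^ j • Q = 0 → s • Q = Q) ∧
      ∀ s ∈ N, IsDeg k Ω j s 0 :=
    ⟨N₁ ⊓ N₂, SmD.inf_mem_NN hN₁ hN₂, fun s hs => hN₁' s hs.1, fun s hs => hN₂' s hs.2⟩
  obtain ⟨L, hLf, hL⟩ := hL
  have h1 : x 1 = 0 := by
    have h := hx 1 1
    rw [mul_one, one_smul] at h
    exact left_eq_add.mp h
  have h1' : y 1 = 0 := by
    have h := hy 1 1 0 (IsDeg.one j)
    rw [mul_one, one_smul, zero_smul, add_zero] at h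
    exact left_eq_add.mp h
  have hNn := SmD.NN.normal hNN
  let H : Subgroup (Ω ≃ₐ[K] Ω) :=
    { carrier := {h | h ∈ N ∧ x h = 0 ∧ y h = 0}
      one_mem' := ⟨N.one_mem, h1, h1'⟩
      mul_mem' := by
        rintro a b ⟨ha, ha', ha''⟩ ⟨hb, hb', hb''⟩
        exact ⟨N.mul_mem ha hb, by rw [hx, ha', hb', smul_zero, add_zero], by
          rw [hy a b 0 (hd a ha), ha'', hb'', smul_zero, zero_smul, add_zero, add_zero]⟩
      inv_mem' := by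
        rintro a ⟨ha, ha', ha''⟩
        refine ⟨N.inv_mem ha, ?_, ?_⟩
        · have h := hx a⁻¹ a
          rw [inv_mul_cancel, h1, ha', smul_zero, add_zero] at h
          exact h.symm
        · have h := hy a⁻¹ a 0 (hd _ (N.inv_mem ha))
          rw [inv_mul_cancel, h1', ha'', smul_zero, zero_smul, add_zero, add_zero] at h
          exact h.symm }
  have hmem : ∀ h, h ∈ H ↔ h ∈ N ∧ x h = 0 ∧ y h = 0 := fun h => Iff.rfl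
  have hpow : ∀ τ ∈ N, ∀ a : ℕ, x (τ ^ a) = a • x τ ∧ y (τ ^ a) = a • y τ := by
    intro τ hτ a
    induction a with
    | zero => rw [pow_zero, h1, h1', zero_smul, zero_smul]; exact ⟨rfl, rfl⟩
    | succ a ih =>
      have e1 : (2 : ℕ) ^ j • (a • x τ) = 0 := by rw [smul_comm, hxt, smul_zero]
      have e2 : (2 : ℕ) ^ j • (a • y τ) = 0 := by rw [smul_comm, hyt, smul_zero]
      rw [pow_succ', hx, hy τ _ 0 (hd τ hτ), ih.1, ih.2, hN τ hτ _ e1, hN τ hτ _ e2, zero_smul,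
        add_zero, succ_nsmul', succ_nsmul']
      exact ⟨rfl, rfl⟩
  refine ⟨H, SmD.mem_NN_of_pow ?_ ?_ ?_, ?_⟩
  · refine ⟨fun h hh t => ?_⟩
    rw [hmem] at hh ⊢
    obtain ⟨d, hdt⟩ := hex t
    have ex : x (h * t⁻¹) = x t⁻¹ := by rw [hx, hh.2.1, zero_add, hN h hh.1 _ (hxt _)]
    have ey : y (h * t⁻¹) = y t⁻¹ := by
      rw [hy h _ 0 (hd h hh.1), hh.2.2, zero_add, hN h hh.1 _ (hyt _), zero_smul, add_zero]
    refine ⟨hNn.conj_mem h hh.1 t, ?_, ?_⟩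
    · rw [mul_assoc, hx, ex, ← hx, mul_inv_cancel, h1]
    · rw [mul_assoc, hy t _ d hdt, ex, ey, ← hy t _ d hdt, mul_inv_cancel, h1']
  · have h2 : N ⊓ L.fixingSubgroup ≤ H := by
      intro h hh
      rw [hmem]
      have h3 := hL h 1 fun a ha => (IntermediateField.mem_fixingSubgroup_iff L h).mp hh.2 a ha
      exact ⟨hh.1, h3.1.trans h1, h3.2.trans h1'⟩
    refine Subgroup.isOpen_mono h2 ?_
    rw [Subgroup.coe_inf]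
    exact (SmD.NN.isOpen hNN).inter (IntermediateField.fixingSubgroup_isOpen L)
  · intro σ
    obtain ⟨r, hr⟩ := hNN.2.2
    have h2 : σ ^ (2 ^ r) ∈ N := by
      rw [← hr]
      exact Subgroup.pow_index_mem N σ
    refine ⟨r + j, ?_⟩
    rw [hmem, pow_add, pow_mul]
    refine ⟨N.pow_mem h2 _, ?_, ?_⟩
    · rw [(hpow _ h2 _).1, hxt]
    · rw [(hpow _ h2 _).2, hyt]
  · intro s n hn
    rw [hmem] at hn
    obtain ⟨d, hds⟩ := hex s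
    constructor
    · rw [hx, hn.2.1, smul_zero, add_zero]
    · rw [hy s n d hds, hn.2.1, hn.2.2, smul_zero, smul_zero, add_zero, add_zero]

section

variable {k : Type} [Field k] {K Ω : Type} [Field K] [Field Ω] [Algebra k K] [Algebra K Ω]
  [IsGalois K Ω] [IsSepClosed Ω] [Finite k]

open scoped Classical in
theorem bridgeW (hk : (2 : k) ≠ 0) {e₁ e₂ e₃ D : K} (h2 : (2 : K) ≠ 0) (h12 : e₁ ≠ e₂)
    (h13 : e₁ ≠ e₃) (h23 : e₂ ≠ e₃)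
    (hD : D ≠ 0) (φ : Pt Ω e₁ e₂ e₃ ≃+ Pt Ω (D * e₁) (D * e₂) (D * e₃))
    (χ : (Ω ≃ₐ[K] Ω) → ZMod 2)
    (hφ : ∀ (s : Ω ≃ₐ[K] Ω) (Q : Pt Ω e₁ e₂ e₃), s • φ Q = φ (sgn (χ s) • (s • Q)))
    {Pl : Type} (S : Sys (Ω ≃ₐ[K] Ω) (VV Ω e₁ e₂ e₃) Pl) (hNN : S.NN = SmD.NN K Ω)
    (hDv : ∀ v : Pl, ∃ w : ValuationSubring Ω, w ≠ ⊤ ∧
      (∀ c : k, algebraMap K Ω (algebraMap k K c) ∈ w) ∧ S.D v = w.decompositionSubgroup K)
    {dg : ℕ → (Ω ≃ₐ[K] Ω) → ℕ} (hdg' : ∀ m s, IsDeg k Ω m s (dg m s))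
    (j : ℕ) :
    ∃ f : WZSel k Ω (crv (D * e₁) (D * e₂) (D * e₃)) j →
      {p : ((Ω ≃ₐ[K] Ω) → VV Ω e₁ e₂ e₃) × ((Ω ≃ₐ[K] Ω) → VV Ω e₁ e₂ e₃) //
        SmH.IsWSel (SmH.sysJ S) dg χ j p.1 p.2},
      Function.Injective f := by
  have hdg : SmH.IsDeg dg := isDeg_of hk hdg'
  have n12 : D * e₁ ≠ D * e₂ := fun h => h12 (mul_left_cancel₀ hD h)
  have n13 : D * e₁ ≠ D * e₃ := fun h => h13 (mul_left_cancel₀ hD h)
  have n23 : D * e₂ ≠ D * e₃ := fun h => h23 (mul_left_cancel₀ hD h)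
  have hφ' : ∀ (s : Ω ≃ₐ[K] Ω) (Q : Pt Ω (D * e₁) (D * e₂) (D * e₃)),
      φ.symm (s • Q) = sgn (χ s) • (s • φ.symm Q) := by
    intro s Q
    apply φ.injective
    rw [← hφ, AddEquiv.apply_symm_apply, AddEquiv.apply_symm_apply]
  have hmem : ∀ (i : ℕ) (Q : Pt Ω (D * e₁) (D * e₂) (D * e₃)), (2 : ℕ) ^ i • Q = 0 →
      φ.symm Q ∈ VV Ω e₁ e₂ e₃ := by
    intro i Q hQ
    refine ⟨i, ?_⟩
    rw [← map_nsmul, hQ, map_zero]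
  have hmem' : ∀ (i : ℕ) (Q : Pt Ω (D * e₁) (D * e₂) (D * e₃)) (hQ : (2 : ℕ) ^ i • Q = 0),
      (2 : ℕ) ^ i • (⟨φ.symm Q, hmem i Q hQ⟩ : VV Ω e₁ e₂ e₃) = 0 := by
    intro i Q hQ
    apply Subtype.ext
    change (2 : ℕ) ^ i • φ.symm Q = 0
    rw [← map_nsmul, hQ, map_zero]
  -- the twisted action
  have htw : ∀ (s : Ω ≃ₐ[K] Ω) (i : ℕ) (Q : Pt Ω (D * e₁) (D * e₂) (D * e₃))
      (hQ : (2 : ℕ) ^ i • Q = 0), ((SmJ.tw χ s (⟨φ.symm Q, hmem i Q hQ⟩ : VV Ω e₁ e₂ e₃) :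
        VV Ω e₁ e₂ e₃) : Pt Ω e₁ e₂ e₃) = φ.symm (s • Q) := by
    intro s i Q hQ
    rw [hφ']
    rfl
  have htwl : ∀ (s : Ω ≃ₐ[K] Ω) (i : ℕ) (Q : Pt Ω (D * e₁) (D * e₂) (D * e₃))
      (hQ : (2 : ℕ) ^ i • Q = 0), (2 : ℕ) ^ i •
        (SmJ.tw χ s (⟨φ.symm Q, hmem i Q hQ⟩ : VV Ω e₁ e₂ e₃)) = 0 := by
    intro s i Q hQ
    have h := hmem' i Q hQ
    unfold SmJ.tw
    rw [smul_comm, smul_comm ((2 : ℕ) ^ i) s, h, smul_zero, smul_zero]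
  have hds : ∀ (s : Ω ≃ₐ[K] Ω) (i : ℕ) (Q : Pt Ω (D * e₁) (D * e₂) (D * e₃))
      (hQ : (2 : ℕ) ^ i • Q = 0), ((SmH.ds dg s (SmJ.tw χ s
        (⟨φ.symm Q, hmem i Q hQ⟩ : VV Ω e₁ e₂ e₃)) : VV Ω e₁ e₂ e₃) : Pt Ω e₁ e₂ e₃) =
        φ.symm (dg i s • (s • Q)) := by
    intro s i Q hQ
    rw [SmH.ds_eq hdg s (htwl s i Q hQ)]
    have h := htw s i Q hQ
    rw [map_nsmul, ← h]
    rfl
  refine ⟨fun p => ⟨(fun s => ⟨φ.symm (p.1.1 s), hmem j _ (p.2.tors s).1⟩,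
    fun s => ⟨φ.symm (p.1.2 s), hmem j _ (p.2.tors s).2⟩), ?_⟩, ?_⟩
  · have hcx : ∀ s t, p.1.1 (s * t) = p.1.1 s + (s • (p.1.1 t : Pt Ω (D * e₁) (D * e₂) (D * e₃)) :
        Pt Ω (D * e₁) (D * e₂) (D * e₃)) := p.2.cocycle
    have hcy : ∀ s t d, IsDeg k Ω j s d → p.1.2 (s * t) = p.1.2 s +
        (s • (p.1.2 t : Pt Ω (D * e₁) (D * e₂) (D * e₃)) : Pt Ω (D * e₁) (D * e₂) (D * e₃)) +
        d • (s • (p.1.1 t : Pt Ω (D * e₁) (D * e₂) (D * e₃)) : Pt Ω (D * e₁) (D * e₂) (D * e₃)) :=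
      p.2.cocycle'
    obtain ⟨N, hN, hN'⟩ := act_fin (Ω := Ω) h2 n12 n13 n23 j
    obtain ⟨N1, hN1, hN1'⟩ := twoFin_of_levelW (k := k) (j := j)
      (M := Pt Ω (D * e₁) (D * e₂) (D * e₃)) ⟨N, hN, fun s hs Q hQ => by
        have h3 := hN' s hs ⟨Q, j, hQ⟩ (Subtype.ext hQ)
        exact congrArg Subtype.val h3⟩ (exists_NN_isDeg_zero hk j)
        (fun s => ⟨dg j s, hdg' j s⟩) hcx (fun s => (p.2.tors s).1) hcy
        (fun s => (p.2.tors s).2) p.2.cont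
    have hNN' : (SmH.sysJ S).NN = SmD.NN K Ω := hNN
    refine ⟨⟨N1, by rw [hNN']; exact hN1, fun s n hn => ?_⟩,
      ⟨N1, by rw [hNN']; exact hN1, fun s n hn => ?_⟩, fun s => hmem' j _ (p.2.tors s).1,
      fun s => hmem' j _ (p.2.tors s).2, fun s t => ?_, fun s t => ?_, fun v => ?_⟩
    · apply Subtype.ext
      exact congrArg φ.symm (hN1' s n hn).1
    · apply Subtype.ext
      exact congrArg φ.symm (hN1' s n hn).2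
    · apply Subtype.ext
      change φ.symm (p.1.1 (s * t)) = φ.symm (p.1.1 s) + ((SmJ.tw χ s
        (⟨φ.symm (p.1.1 t), hmem j _ (p.2.tors t).1⟩ : VV Ω e₁ e₂ e₃) : VV Ω e₁ e₂ e₃) :
          Pt Ω e₁ e₂ e₃)
      rw [htw s j _ (p.2.tors t).1, hcx, map_add]
    · apply Subtype.ext
      change φ.symm (p.1.2 (s * t)) = φ.symm (p.1.2 s) + ((SmJ.tw χ s
        (⟨φ.symm (p.1.2 t), hmem j _ (p.2.tors t).2⟩ : VV Ω e₁ e₂ e₃) : VV Ω e₁ e₂ e₃) :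
          Pt Ω e₁ e₂ e₃) + ((SmH.ds dg s (SmJ.tw χ s
        (⟨φ.symm (p.1.1 t), hmem j _ (p.2.tors t).1⟩ : VV Ω e₁ e₂ e₃)) : VV Ω e₁ e₂ e₃) :
          Pt Ω e₁ e₂ e₃)
      rw [htw s j _ (p.2.tors t).2, hds s j _ (p.2.tors t).1, hcy s t _ (hdg' j s), map_add,
        map_add]
    · obtain ⟨w, hw, hw', hDw⟩ := hDv v
      obtain ⟨n, Q, R, hQ, hR, hQR⟩ := p.2.loc w hw hw'
      refine ⟨⟨φ.symm Q, hmem n Q hQ⟩, ⟨φ.symm R, hmem n R hR⟩, fun s hs => ?_⟩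
      have hs' : s ∈ w.decompositionSubgroup K := by rw [← hDw]; exact hs
      have h5 := hQR s hs'
      have h5a : p.1.1 s = (s • (Q : Pt Ω (D * e₁) (D * e₂) (D * e₃)) :
        Pt Ω (D * e₁) (D * e₂) (D * e₃)) - Q := h5.1
      have h5b : p.1.2 s = (s • (R : Pt Ω (D * e₁) (D * e₂) (D * e₃)) :
        Pt Ω (D * e₁) (D * e₂) (D * e₃)) - R + dg n s • (s • (Q : Pt Ω (D * e₁) (D * e₂)
          (D * e₃)) : Pt Ω (D * e₁) (D * e₂) (D * e₃)) := h5.2 _ (hdg' n s)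
      constructor
      · apply Subtype.ext
        change φ.symm (p.1.1 s) = ((SmJ.tw χ s (⟨φ.symm Q, hmem n Q hQ⟩ : VV Ω e₁ e₂ e₃) :
          VV Ω e₁ e₂ e₃) : Pt Ω e₁ e₂ e₃) - φ.symm Q
        rw [htw s n Q hQ, h5a, map_sub]
      · apply Subtype.ext
        change φ.symm (p.1.2 s) = ((SmJ.tw χ s (⟨φ.symm R, hmem n R hR⟩ : VV Ω e₁ e₂ e₃) :
          VV Ω e₁ e₂ e₃) : Pt Ω e₁ e₂ e₃) - φ.symm R + ((SmH.ds dg s (SmJ.tw χ s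
          (⟨φ.symm Q, hmem n Q hQ⟩ : VV Ω e₁ e₂ e₃)) : VV Ω e₁ e₂ e₃) : Pt Ω e₁ e₂ e₃)
        rw [htw s n R hR, hds s n Q hQ, h5b, map_add, map_sub]
  · intro p p' h
    apply Subtype.ext
    have h3 := congrArg Subtype.val h
    ext1
    · funext s
      have h4 := congrFun (congrArg Prod.fst h3) s
      exact φ.symm.injective (congrArg Subtype.val h4)
    · funext s
      have h4 := congrFun (congrArg Prod.snd h3) s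
      exact φ.symm.injective (congrArg Subtype.val h4)

end

end Pool.Agent.Sm.L
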