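import Pool.Agent.Lib.Sm.L.Kummer

/-!
SMITH, block L4. Pure algebra: if `A[2^j]` has less than `16^j` elements then `A[2^i]` has at most
`16^j 8^i` elements for all `i`.
-/

set_option autoImplicit false

open Pool.Agent.BSDFF.MW

namespace Pool.Agent.Sm.L

section

variable {A : Type} [AddCommGroup A]

/-- `2^i A[2^(i+1)]` -/
private def coP (A : Type) [AddCommGroup A] (i : ℕ) : AddSubgroup A :=
  (Gn A (2 ^ (i + 1))).map (nsmulAddMonoidHom (α := A) (2 ^ i))

private theorem co_mono {i j : ℕ} (h : i ≤ j) : Gn A (2 ^ i) ≤ Gn A (2 ^ j) := by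
  intro x hx
  rw [mem_Gn] at *
  obtain ⟨m, rfl⟩ := Nat.exists_eq_add_of_le h
  rw [pow_add, mul_nsmul, hx, nsmul_zero]

private theorem co_anti (i : ℕ) : coP A (i + 1) ≤ coP A i := by
  rintro _ ⟨x, hx, rfl⟩
  have hx' : 2 ^ (i + 1 + 1) • x = 0 := hx
  refine ⟨2 • x, ?_, ?_⟩
  · change 2 ^ (i + 1) • (2 • x) = 0
    rw [← mul_nsmul, ← pow_succ']
    exact hx'
  · change 2 ^ i • (2 • x) = 2 ^ (i + 1) • x
    rw [← mul_nsmul, ← pow_succ']

private theorem co_le_two (i : ℕ) : coP A i ≤ Gn A (2 ^ 1) := by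
  rintro _ ⟨x, hx, rfl⟩
  have hx' : 2 ^ (i + 1) • x = 0 := hx
  change 2 ^ 1 • (2 ^ i • x) = 0
  rw [← mul_nsmul, ← pow_add]
  exact hx'

private theorem co_card (i : ℕ) :
    Nat.card (Gn A (2 ^ (i + 1))) = Nat.card (Gn A (2 ^ i)) * Nat.card (coP A i) := by
  let f : Gn A (2 ^ (i + 1)) →+ A :=
    (nsmulAddMonoidHom (α := A) (2 ^ i)).comp (Gn A (2 ^ (i + 1))).subtype
  rw [card_ker_range f]
  congr 1
  · refine Nat.card_congr ⟨fun x => ⟨x.1.1, x.2⟩, fun x => ⟨⟨x.1, co_mono (Nat.le_succ i) x.2⟩,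
      x.2⟩, fun x => rfl, fun x => rfl⟩
  · have : f.range = coP A i := by
      ext y
      constructor
      · rintro ⟨x, rfl⟩
        exact ⟨x.1, x.2, rfl⟩
      · rintro ⟨x, hx, rfl⟩
        exact ⟨⟨x, hx⟩, rfl⟩
    rw [this]

private theorem co_pow_two (i : ℕ) (hf : Finite (coP A i)) : ∃ a : ℕ, Nat.card (coP A i) = 2 ^ a := by
  have hp : IsPGroup 2 (Multiplicative (coP A i)) := by
    intro x
    refine ⟨1, ?_⟩
    apply Multiplicative.toAdd.injective
    apply Subtype.ext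
    exact co_le_two i x.toAdd.2
  have := Fact.mk Nat.prime_two
  have : Finite (Multiplicative (coP A i)) := hf
  exact (IsPGroup.iff_card (G := Multiplicative (coP A i))).mp hp

private theorem co_le (i j : ℕ) (h : i ≤ j) : coP A j ≤ coP A i := by
  obtain ⟨m, rfl⟩ := Nat.exists_eq_add_of_le h
  clear h
  induction m with
  | zero => exact le_refl _
  | succ m ih => exact (co_anti (i + m)).trans ih

theorem corank_growth {j : ℕ} (hj : 1 ≤ j) (hf : Finite (Gn A (2 ^ j)))
    (h : Nat.card (Gn A (2 ^ j)) < 16 ^ j) (i : ℕ) :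
    Finite (Gn A (2 ^ i)) ∧ Nat.card (Gn A (2 ^ i)) ≤ 16 ^ j * 8 ^ i := by
  have hf1 : Finite (Gn A (2 ^ 1)) :=
    Finite.of_injective _ (AddSubgroup.inclusion_injective (co_mono (A := A) hj))
  have hfP : ∀ i, Finite (coP A i) := fun i =>
    Finite.of_injective _ (AddSubgroup.inclusion_injective (co_le_two (A := A) i))
  have hfT : ∀ i, Finite (Gn A (2 ^ i)) := by
    intro i
    induction i with
    | zero =>
      exact Finite.of_injective _ (AddSubgroup.inclusion_injective (co_mono (A := A) (Nat.zero_le 1)))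
    | succ i ih =>
      apply Nat.finite_of_card_ne_zero
      rw [co_card]
      have := hfP i
      exact mul_ne_zero Nat.card_pos.ne' Nat.card_pos.ne'
  refine ⟨hfT i, ?_⟩
  obtain ⟨j', rfl⟩ : ∃ j', j = j' + 1 := ⟨j - 1, by omega⟩
  -- the power
  have hpow : ∀ m, m ≤ j' + 1 → Nat.card (coP A j') ^ m ≤ Nat.card (Gn A (2 ^ m)) := by
    intro m
    induction m with
    | zero =>
      intro _
      have := hfT 0
      rw [pow_zero]
      exact Nat.card_pos
    | succ m ih =>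
      intro hm
      rw [pow_succ, co_card]
      have := hfP m
      refine Nat.mul_le_mul (ih (by omega)) ?_
      exact Nat.card_le_card_of_injective _ (AddSubgroup.inclusion_injective
        (co_le (A := A) m j' (by omega)))
  have h16 : Nat.card (coP A j') < 16 := by
    have h1 := (hpow (j' + 1) le_rfl).trans_lt h
    exact lt_of_pow_lt_pow_left₀ (j' + 1) (by norm_num) h1
  have h8 : Nat.card (coP A j') ≤ 8 := by
    obtain ⟨a, ha⟩ := co_pow_two j' (hfP j')
    rw [ha] at h16 ⊢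
    have h3 : a < 4 := by
      by_contra hc
      have : 2 ^ 4 ≤ 2 ^ a := Nat.pow_le_pow_right (by norm_num) (by omega)
      omega
    calc 2 ^ a ≤ 2 ^ 3 := Nat.pow_le_pow_right (by norm_num) (by omega)
      _ = 8 := by norm_num
  have hP8 : ∀ i, j' ≤ i → Nat.card (coP A i) ≤ 8 := by
    intro i hi
    have := hfP j'
    exact (Nat.card_le_card_of_injective _ (AddSubgroup.inclusion_injective
      (co_le (A := A) j' i hi))).trans h8
  have hsmall : ∀ i, i ≤ j' + 1 → Nat.card (Gn A (2 ^ i)) ≤ 16 ^ (j' + 1) := by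
    intro i hi
    have := hfT (j' + 1)
    exact (Nat.card_le_card_of_injective _ (AddSubgroup.inclusion_injective
      (co_mono (A := A) hi))).trans h.le
  have hbig : ∀ m, Nat.card (Gn A (2 ^ (j' + 1 + m))) ≤ 16 ^ (j' + 1) * 8 ^ m := by
    intro m
    induction m with
    | zero => simpa using hsmall (j' + 1) le_rfl
    | succ m ih =>
      rw [← add_assoc, co_card, pow_succ 8 m, ← mul_assoc]
      exact Nat.mul_le_mul ih (hP8 _ (by omega))
  rcases le_total i (j' + 1) with hi | hi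
  · exact (hsmall i hi).trans (Nat.le_mul_of_pos_right _ (by positivity))
  · obtain ⟨m, rfl⟩ := Nat.exists_eq_add_of_le hi
    exact (hbig m).trans (Nat.mul_le_mul_left _ (Nat.pow_le_pow_right (by norm_num) (by omega)))

/-- In the situation of `corank_growth` the group `A[2^i]` has, up to a constant factor, `2^(s i)`
elements, for some `s ≤ 3`. -/
theorem corank_exact {j : ℕ} (hj : 1 ≤ j) (hf : Finite (Gn A (2 ^ j)))
    (h : Nat.card (Gn A (2 ^ j)) < 16 ^ j) :
    ∃ s : ℕ, s ≤ 3 ∧ ∃ B : ℕ, ∀ i, Nat.card (Gn A (2 ^ i)) ≤ B * 2 ^ (s * i) ∧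
      2 ^ (s * i) ≤ B * Nat.card (Gn A (2 ^ i)) := by
  have hgrow := corank_growth (A := A) hj hf h
  have hfT : ∀ i, Finite (Gn A (2 ^ i)) := fun i => (hgrow i).1
  have hfP : ∀ i, Finite (coP A i) := fun i => by
    have := hfT 1
    exact Finite.of_injective _ (AddSubgroup.inclusion_injective (co_le_two (A := A) i))
  choose a ha using fun i => co_pow_two (A := A) i (hfP i)
  have hanti : ∀ i m, i ≤ m → a m ≤ a i := by
    intro i m him
    have := hfP i
    have h1 : Nat.card (coP A m) ≤ Nat.card (coP A i) :=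
      Nat.card_le_card_of_injective _ (AddSubgroup.inclusion_injective (co_le (A := A) i m him))
    rw [ha, ha] at h1
    exact (Nat.pow_le_pow_iff_right (by norm_num)).mp h1
  obtain ⟨i0, hi0⟩ : ∃ i0, ∀ i, i0 ≤ i → a i = a i0 := by
    obtain ⟨i0, h0⟩ : ∃ i0, ∀ i, a i0 ≤ a i := by
      obtain ⟨i0, h0⟩ := Nat.sInf_mem (s := Set.range a) ⟨a 0, 0, rfl⟩
      exact ⟨i0, fun i => by rw [h0]; exact Nat.sInf_le ⟨i, rfl⟩⟩
    exact ⟨i0, fun i hi => le_antisymm (hanti i0 i hi) (h0 i)⟩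
  have hstep : ∀ m, Nat.card (Gn A (2 ^ (i0 + m))) = Nat.card (Gn A (2 ^ i0)) * 2 ^ (a i0 * m) := by
    intro m
    induction m with
    | zero => simp
    | succ m ih =>
      rw [← add_assoc, co_card, ih, ha, hi0 _ (Nat.le_add_right _ _), mul_assoc, ← pow_add,
        Nat.mul_succ]
  have hpos : ∀ i, 1 ≤ Nat.card (Gn A (2 ^ i)) := fun i => by
    have := hfT i
    exact Nat.card_pos
  refine ⟨a i0, ?_, Nat.card (Gn A (2 ^ i0)) * 2 ^ (a i0 * i0), fun i => ?_⟩
  · by_contra hc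
    -- `2^(4 m) ≤ 16^j 8^(i0+m)`
    have h1 : ∀ m : ℕ, 16 ^ m ≤ 16 ^ j * 8 ^ i0 * 8 ^ m := by
      intro m
      calc 16 ^ m = 2 ^ (4 * m) := by rw [pow_mul]; norm_num
        _ ≤ 2 ^ (a i0 * m) := Nat.pow_le_pow_right (by norm_num) (Nat.mul_le_mul_right _ (by omega))
        _ ≤ Nat.card (Gn A (2 ^ i0)) * 2 ^ (a i0 * m) := Nat.le_mul_of_pos_left _ (hpos i0)
        _ = Nat.card (Gn A (2 ^ (i0 + m))) := (hstep m).symm
        _ ≤ 16 ^ j * 8 ^ (i0 + m) := (hgrow _).2
        _ = _ := by rw [pow_add, mul_assoc]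
    have h2 := h1 (16 ^ j * 8 ^ i0)
    rw [show 16 = 2 * 8 by norm_num, mul_pow 2 8 ((2 * 8) ^ j * 8 ^ i0)] at h2
    have h3 := Nat.le_of_mul_le_mul_right h2 (by positivity)
    exact absurd h3 (not_le.mpr Nat.lt_two_pow_self)
  · rcases le_total i i0 with hi | hi
    · have hmono : Nat.card (Gn A (2 ^ i)) ≤ Nat.card (Gn A (2 ^ i0)) := by
        have := hfT i0
        exact Nat.card_le_card_of_injective _
          (AddSubgroup.inclusion_injective (co_mono (A := A) hi))
      constructor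
      · calc Nat.card (Gn A (2 ^ i)) ≤ Nat.card (Gn A (2 ^ i0)) := hmono
          _ ≤ Nat.card (Gn A (2 ^ i0)) * 2 ^ (a i0 * i0) := Nat.le_mul_of_pos_right _ (by positivity)
          _ ≤ _ := Nat.le_mul_of_pos_right _ (by positivity)
      · calc 2 ^ (a i0 * i) ≤ 2 ^ (a i0 * i0) :=
            Nat.pow_le_pow_right (by norm_num) (Nat.mul_le_mul_left _ hi)
          _ ≤ Nat.card (Gn A (2 ^ i0)) * 2 ^ (a i0 * i0) := Nat.le_mul_of_pos_left _ (hpos i0)
          _ ≤ _ := Nat.le_mul_of_pos_right _ (hpos i)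
    · obtain ⟨m, rfl⟩ := Nat.exists_eq_add_of_le hi
      rw [hstep m, Nat.mul_add, pow_add]
      constructor
      · calc Nat.card (Gn A (2 ^ i0)) * 2 ^ (a i0 * m)
            ≤ Nat.card (Gn A (2 ^ i0)) * 2 ^ (a i0 * m) * (2 ^ (a i0 * i0) * 2 ^ (a i0 * i0)) :=
              Nat.le_mul_of_pos_right _ (by positivity)
          _ = _ := by ring
      · calc 2 ^ (a i0 * i0) * 2 ^ (a i0 * m)
            ≤ 2 ^ (a i0 * i0) * 2 ^ (a i0 * m) *
              (Nat.card (Gn A (2 ^ i0)) * Nat.card (Gn A (2 ^ i0))) :=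
              Nat.le_mul_of_pos_right _ (Nat.mul_pos (hpos i0) (hpos i0))
          _ = _ := by ring

end

end Pool.Agent.Sm.L
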