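import Pool.Agent.Lib.Sm.L.Rank
import Pool.Agent.Lib.Sm.L.Corank
import Pool.Agent.Lib.SM.E.RFun

/-!
SMITH, block L4. Counting cocycles and classes; the four conclusions from the bound
`4 #Z(2^j) < 16^j`.
-/

set_option autoImplicit false

open Polynomial WeierstrassCurve Pool.Agent.BSDFF Pool.Agent.BSDFF.MW Pool.Agent.SmithE

namespace Pool.Agent.Sm.L

section count

variable (k : Type) {K : Type} (Ω : Type) [Field k] [Field K] [Field Ω] [Algebra k K]
  [Algebra K Ω] (W : WeierstrassCurve K)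

theorem card_zsel [Algebra.IsAlgebraic K Ω] (n : ℕ) :
    Nat.card (ZSel k Ω W n) = Nat.card (Sel k Ω W n) * Nat.card (BSel Ω W n) := by
  have hle : BSel Ω W n ≤ ZSel k Ω W n := by
    rintro ψ ⟨T, hT, h⟩
    have h1 : ψ = cob Ω W T := funext h
    refine (isSel_iff k Ω W).mpr ?_
    rw [h1]
    exact ⟨isSha_cob k Ω W T, by rw [← cob_nsmul, hT]; funext s; simp [cob]⟩
  rw [AddSubgroup.card_eq_card_quotient_mul_card_addSubgroup
    ((BSel Ω W n).addSubgroupOf (ZSel k Ω W n))]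
  congr 1
  exact Nat.card_congr (AddSubgroup.addSubgroupOfEquivOfLe hle).toEquiv

theorem card_zsel_gn (n : ℕ) : Nat.card (ZSel k Ω W n) = Nat.card (Gn (ZSha k Ω W) n) := by
  refine Nat.card_congr ⟨fun ψ => ⟨⟨ψ.1, ((isSel_iff k Ω W).mp ψ.2).1⟩,
    Subtype.ext ((isSel_iff k Ω W).mp ψ.2).2⟩, fun ψ => ⟨ψ.1.1, (isSel_iff k Ω W).mpr
      ⟨ψ.1.2, congrArg Subtype.val ψ.2⟩⟩, fun _ => rfl, fun _ => rfl⟩

open scoped Classical in
theorem card_bsel [IsGalois K Ω] (n : ℕ) :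
    Nat.card (Gn (Pts Ω W) n) = Nat.card (Gn W.toAffine.Point n) * Nat.card (BSel Ω W n) := by
  let f : Gn (Pts Ω W) n →+ ((Ω ≃ₐ[K] Ω) → Pts Ω W) :=
    AddMonoidHom.mk' (fun T => cob Ω W T.1) (fun T T' => cob_add Ω W T.1 T'.1)
  rw [card_ker_range f]
  congr 1
  · refine (Nat.card_congr (Equiv.ofBijective (fun P : Gn W.toAffine.Point n =>
      (⟨⟨incl Ω W P.1, ?_⟩, ?_⟩ : f.ker)) ⟨?_, ?_⟩)).symm
    · rw [mem_Gn, ← map_nsmul, mem_Gn.mp P.2, map_zero]
    · exact cob_incl Ω W P.1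
    · intro P Q h
      apply Subtype.ext
      apply incl_inj Ω W
      exact congrArg (fun x : f.ker => (x.1.1 : Pts Ω W)) h
    · rintro ⟨⟨T, hT⟩, hT'⟩
      obtain ⟨P, hP⟩ := cob_eq_zero Ω W (Q := T) hT'
      refine ⟨⟨P, ?_⟩, ?_⟩
      · apply incl_inj Ω W
        change incl Ω W (n • P) = incl Ω W 0
        rw [map_nsmul, hP, map_zero]
        exact hT
      · apply Subtype.ext
        apply Subtype.ext
        exact hP
  · have h1 : f.range = BSel Ω W n := by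
      ext ψ
      constructor
      · rintro ⟨T, rfl⟩
        exact ⟨T.1, T.2, fun s => rfl⟩
      · rintro ⟨T, hT, h⟩
        exact ⟨⟨T, hT⟩, (funext h).symm⟩
    rw [h1]

end count

section good

variable {k : Type} [Field k] [Finite k]

open scoped Classical in
theorem goodOn_of (Ω : Type) [Field Ω] [Algebra (RatFunc k) Ω] [IsGalois (RatFunc k) Ω]
    (W : WeierstrassCurve (RatFunc k)) [W.IsElliptic] {j : ℕ} (hj : 1 ≤ j)
    (hfin : Finite (ZSel k Ω W (2 ^ j))) (hlt : 4 * Nat.card (ZSel k Ω W (2 ^ j)) < 16 ^ j)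
    (htors : ∀ i : ℕ, Nat.card (Gn (Pts Ω W) (2 ^ i)) = 4 ^ i)
    (hK : ∀ i : ℕ, 1 ≤ i → Nat.card (Gn W.toAffine.Point (2 ^ i)) = 4)
    (hdiv : ∀ (i : ℕ) (P : Pts Ω W), ∃ Q, 2 ^ i • Q = P) : GoodOn k Ω W j := by
  have hB : ∀ i, 1 ≤ i → Nat.card (Sel k Ω W (2 ^ i)) * 4 ^ i =
      4 * Nat.card (ZSel k Ω W (2 ^ i)) := by
    intro i hi
    rw [card_zsel, ← htors i, card_bsel, hK i hi]
    ring
  have hGf : Finite (Gn (ZSha k Ω W) (2 ^ j)) := by
    apply Nat.finite_of_card_ne_zero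
    rw [← card_zsel_gn]
    exact Nat.card_pos.ne'
  have hGlt : Nat.card (Gn (ZSha k Ω W) (2 ^ j)) < 16 ^ j := by
    rw [← card_zsel_gn]
    exact lt_of_le_of_lt (Nat.le_mul_of_pos_left _ (by norm_num)) hlt
  have hgrow := fun i => corank_growth (A := ZSha k Ω W) hj hGf hGlt i
  have hZfin : ∀ i : ℕ, Finite (ZSel k Ω W (2 ^ i)) := by
    intro i
    apply Nat.finite_of_card_ne_zero
    rw [card_zsel_gn]
    have := (hgrow i).1
    exact Nat.card_pos.ne'
  have hSfin : ∀ i : ℕ, Finite (Sel k Ω W (2 ^ i)) := by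
    intro i
    have := hZfin i
    infer_instance
  obtain ⟨s, hs3, B, hsB⟩ := corank_exact (A := ZSha k Ω W) hj hGf hGlt
  simp only [← card_zsel_gn] at hsB
  have hB1 : 1 ≤ B := by
    have h := (hsB 0).2
    rw [mul_zero, pow_zero] at h
    exact Nat.pos_of_mul_pos_right (Nat.lt_of_lt_of_le Nat.one_pos h)
  -- `2 ≤ s`
  have hs2 : 2 ≤ s := by
    by_contra hc
    have h1 : ∀ i, 1 ≤ i → 2 ^ i * 2 ^ i ≤ 4 * B * 2 ^ i := by
      intro i hi
      calc 2 ^ i * 2 ^ i = 4 ^ i := by rw [← mul_pow]; norm_num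
        _ ≤ Nat.card (Sel k Ω W (2 ^ i)) * 4 ^ i := by
            have := hSfin i
            exact Nat.le_mul_of_pos_left _ Nat.card_pos
        _ = 4 * Nat.card (ZSel k Ω W (2 ^ i)) := hB i hi
        _ ≤ 4 * (B * 2 ^ (s * i)) := Nat.mul_le_mul_left _ (hsB i).1
        _ ≤ 4 * (B * 2 ^ (1 * i)) := by
            refine Nat.mul_le_mul_left _ (Nat.mul_le_mul_left _
              (Nat.pow_le_pow_right (by norm_num) (Nat.mul_le_mul_right _ (by omega))))
        _ = 4 * B * 2 ^ i := by rw [one_mul, mul_assoc]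
    have h2 := Nat.le_of_mul_le_mul_right (h1 (4 * B) (by omega)) (by positivity)
    exact absurd h2 (not_le.mpr Nat.lt_two_pow_self)
  obtain ⟨r, rfl⟩ : ∃ r, s = r + 2 := ⟨s - 2, by omega⟩
  have hpow : ∀ i : ℕ, 2 ^ ((r + 2) * i) = 2 ^ (r * i) * 4 ^ i := by
    intro i
    rw [add_mul, pow_add, pow_mul 2 2 i]
    norm_num
  have hup : ∀ i, Nat.card (Sel k Ω W (2 ^ i)) ≤ 4 * B * 2 ^ (r * i) := by
    intro i
    rcases Nat.eq_zero_or_pos i with rfl | hi
    · have h2 : Nat.card (Sel k Ω W (2 ^ 0)) ≤ Nat.card (ZSel k Ω W (2 ^ 0)) := by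
        have := hZfin 0
        exact Nat.card_le_card_of_surjective _ (QuotientAddGroup.mk_surjective)
      calc Nat.card (Sel k Ω W (2 ^ 0)) ≤ Nat.card (ZSel k Ω W (2 ^ 0)) := h2
        _ ≤ B * 2 ^ ((r + 2) * 0) := (hsB 0).1
        _ ≤ 4 * B * 2 ^ (r * 0) := by
          rw [mul_zero, mul_zero]
          exact Nat.mul_le_mul_right _ (by omega)
    · have h3 : Nat.card (Sel k Ω W (2 ^ i)) * 4 ^ i ≤ (4 * B * 2 ^ (r * i)) * 4 ^ i := by
        rw [hB i hi]
        calc 4 * Nat.card (ZSel k Ω W (2 ^ i)) ≤ 4 * (B * 2 ^ ((r + 2) * i)) :=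
              Nat.mul_le_mul_left _ (hsB i).1
          _ = _ := by rw [hpow]; ring
      exact Nat.le_of_mul_le_mul_right h3 (by positivity)
  have hlow : ∀ i, 2 ^ (r * i) ≤ 4 * B * Nat.card (Sel k Ω W (2 ^ i)) := by
    intro i
    rcases Nat.eq_zero_or_pos i with rfl | hi
    · rw [mul_zero, pow_zero]
      have := hSfin 0
      exact Nat.mul_pos (by omega) Nat.card_pos
    · have h3 : 2 ^ (r * i) * 4 ^ i ≤ (4 * B * Nat.card (Sel k Ω W (2 ^ i))) * 4 ^ i := by
        rw [mul_assoc (4 * B), hB i hi, ← hpow]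
        calc 2 ^ ((r + 2) * i) ≤ B * Nat.card (ZSel k Ω W (2 ^ i)) := (hsB i).2
          _ ≤ (4 * B) * (4 * Nat.card (ZSel k Ω W (2 ^ i))) :=
            Nat.mul_le_mul (by omega) (by omega)
      exact Nat.le_of_mul_le_mul_right h3 (by positivity)
  refine ⟨hSfin, ?_, finite_points W Ω (hSfin 1) (hdiv 1), r, by omega,
    ⟨4 * B, fun i => ⟨hup i, hlow i⟩⟩, rank_le W Ω hSfin hup hdiv,
    fun hr => finite_sha2 W Ω hSfin hup hdiv hr⟩
  have h2 := hB j hj
  have h3 : Nat.card (Sel k Ω W (2 ^ j)) * 4 ^ j < 4 ^ j * 4 ^ j := by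
    rw [h2]
    calc 4 * Nat.card (ZSel k Ω W (2 ^ j)) < 16 ^ j := hlt
      _ = 4 ^ j * 4 ^ j := by rw [← mul_pow]; norm_num
  exact Nat.lt_of_mul_lt_mul_right h3

end good

section tors

variable {F : Type} [Field F] [DecidableEq F]

/-- If no `T_i` is divisible by `2`, then `E(F)[2^i] = E(F)[2]` has four elements. -/
theorem card_gn_crv {a b c : F} (h2 : (2 : F) ≠ 0) (hab : a ≠ b) (hac : a ≠ c) (hbc : b ≠ c)
    (ha : ¬ IsSquare ((a - b) * (a - c))) (hb : ¬ IsSquare ((b - a) * (b - c)))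
    (hc : ¬ IsSquare ((c - a) * (c - b))) (i : ℕ) (hi : 1 ≤ i) :
    Nat.card (Gn (crv a b c).toAffine.Point (2 ^ i)) = 4 := by
  have key : ∀ P : (crv a b c).toAffine.Point, (P + P) + (P + P) = 0 → P + P = 0 := by
    intro P hP
    by_contra hne
    obtain ⟨x, y, h, rfl, hy⟩ := exists_of_add_self_ne (W := crv a b c) rfl hne
    obtain ⟨X, Y, h', e, e1, e2, e3⟩ := add_self_coord (W := crv a b c) rfl h2 h hy
    have h2y : 2 * y ≠ 0 := mul_ne_zero h2 hy
    have sq : ∀ u v z w : F, (((u - v) ^ 2 - z * w) / (2 * y)) ^ 2 = 0 → IsSquare (z * w) := by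
      intro u v z w hz
      have h3 := pow_eq_zero_iff (two_ne_zero) |>.mp hz
      rw [div_eq_zero_iff, or_iff_left h2y, sub_eq_zero] at h3
      exact ⟨u - v, by rw [← h3, pow_two]⟩
    rcases (add_self_eq_zero_iff h2 hab hac hbc _).mp hP with h5 | h5 | h5 | h5
    · exact hne h5
    · rw [e, WeierstrassCurve.Affine.Point.some.injEq] at h5
      rw [h5.1, sub_self] at e1
      exact ha (sq _ _ _ _ e1.symm)
    · rw [e, WeierstrassCurve.Affine.Point.some.injEq] at h5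
      rw [h5.1, sub_self] at e2
      exact hb (sq _ _ _ _ e2.symm)
    · rw [e, WeierstrassCurve.Affine.Point.some.injEq] at h5
      rw [h5.1, sub_self] at e3
      exact hc (sq _ _ _ _ e3.symm)
  have hall : ∀ m : ℕ, ∀ P : (crv a b c).toAffine.Point, 2 ^ (m + 1) • P = 0 → P + P = 0 := by
    intro m
    induction m with
    | zero =>
      intro P hP
      rwa [zero_add, pow_one, two_nsmul] at hP
    | succ m ih =>
      intro P hP
      apply key
      rw [← two_nsmul P]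
      apply ih
      rw [← mul_nsmul, ← pow_succ']
      exact hP
  obtain ⟨m, rfl⟩ : ∃ m, i = m + 1 := ⟨i - 1, by omega⟩
  rw [← card_two_torsion h2 hab hac hbc]
  refine Nat.card_congr (Equiv.subtypeEquivRight fun P => ?_)
  rw [mem_Gn]
  constructor
  · exact hall m P
  · intro h
    rw [pow_succ', mul_nsmul, two_nsmul, h, nsmul_zero]

end tors

end Pool.Agent.Sm.L
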