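import Pool.Agent.Lib.Sm.L.DegK
import Pool.Agent.Lib.Sm.L.Count

/-!
SMITH, heights: counting the classes of `WSel`. The corank of the Selmer group of
`W = V ⊗ Z[ε] / ε ^ 2` is read off from upper bounds for the numbers of cocycles.
-/

set_option autoImplicit false

open Polynomial WeierstrassCurve Pool.Agent.BSDFF Pool.Agent.BSDFF.MW Pool.Agent.SmithE

namespace Pool.Agent.Sm.L

section countW

variable (k : Type) {K : Type} (Ω : Type) [Field k] [Field K] [Field Ω] [Algebra k K]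
  [Algebra K Ω] (W : WeierstrassCurve K)

/-- The coboundary of a pair `(S, T)`. -/
noncomputable def cobW (n : ℕ) (d : (Ω ≃ₐ[K] Ω) → ℕ) :
    Gn (Pts Ω W) n × Gn (Pts Ω W) n →+
      ((Ω ≃ₐ[K] Ω) → Pts Ω W) × ((Ω ≃ₐ[K] Ω) → Pts Ω W) :=
  AddMonoidHom.mk' (fun p => (cob Ω W p.1.1, fun s => cob Ω W p.2.1 s + d s • gal Ω W s p.1.1))
    (fun p p' => by
      ext1
      · exact cob_add Ω W _ _
      · funext s
        simp only [Prod.fst_add, Prod.snd_add, AddSubgroup.coe_add, cob_add, Pi.add_apply,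
          map_add, smul_add]
        abel)

variable {k} in
theorem range_cobW [Finite k] [IsSepClosed Ω] (h2 : (2 : k) ≠ 0) (i : ℕ)
    {d : (Ω ≃ₐ[K] Ω) → ℕ} (hd : ∀ s, IsDeg k Ω i s (d s)) :
    (cobW Ω W (2 ^ i) d).range = WBSel k Ω W i := by
  ext p
  constructor
  · rintro ⟨q, rfl⟩
    refine ⟨q.1.1, q.2.1, q.1.2, q.2.2, fun s => ⟨rfl, fun e he => ?_⟩⟩
    change cob Ω W q.2.1 s + d s • gal Ω W s q.1.1 = cob Ω W q.2.1 s + e • gal Ω W s q.1.1
    congr 1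
    refine nsmul_eq_of_mod (n := 2 ^ i) (IsDeg.unique h2 (hd s) he) ?_
    rw [← map_nsmul, mem_Gn.mp q.1.2, map_zero]
  · rintro ⟨S, T, hS, hT, h⟩
    refine ⟨(⟨S, hS⟩, ⟨T, hT⟩), ?_⟩
    ext1
    · funext s
      exact ((h s).1).symm
    · funext s
      exact ((h s).2 (d s) (hd s)).symm

/-- `T ↦ cob T` on the points killed by `n`. -/
noncomputable def cobHom (n : ℕ) : Gn (Pts Ω W) n →+ ((Ω ≃ₐ[K] Ω) → Pts Ω W) :=
  AddMonoidHom.mk' (fun T => cob Ω W T.1) (fun T T' => cob_add Ω W T.1 T'.1)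

open scoped Classical in
theorem card_ker_cobHom [IsGalois K Ω] (n : ℕ) :
    Nat.card (cobHom Ω W n).ker = Nat.card (Gn W.toAffine.Point n) := by
  refine (Nat.card_congr (Equiv.ofBijective (fun P : Gn W.toAffine.Point n =>
      (⟨⟨incl Ω W P.1, ?_⟩, ?_⟩ : (cobHom Ω W n).ker)) ⟨?_, ?_⟩)).symm
  · rw [mem_Gn, ← map_nsmul, mem_Gn.mp P.2, map_zero]
  · exact cob_incl Ω W P.1
  · intro P Q h
    apply Subtype.ext
    apply incl_inj Ω W
    exact congrArg (fun x : (cobHom Ω W n).ker => (x.1.1 : Pts Ω W)) h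
  · rintro ⟨⟨T, hT⟩, hT'⟩
    obtain ⟨P, hP⟩ := cob_eq_zero Ω W (Q := T) hT'
    refine ⟨⟨P, ?_⟩, ?_⟩
    · apply incl_inj Ω W
      change incl Ω W (n • P) = incl Ω W 0
      rw [map_nsmul, hP, map_zero]
      exact hT
    · apply Subtype.ext
      apply Subtype.ext
      exact hP

theorem card_ker_cobW (n : ℕ) (d : (Ω ≃ₐ[K] Ω) → ℕ) [Finite (Gn (Pts Ω W) n)] :
    Nat.card (cobW Ω W n d).ker ≤
      Nat.card (cobHom Ω W n).ker * Nat.card (cobHom Ω W n).ker := by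
  have h1 : ∀ p : Gn (Pts Ω W) n × Gn (Pts Ω W) n, p ∈ (cobW Ω W n d).ker →
      cob Ω W p.1.1 = 0 ∧ ∀ s, cob Ω W p.2.1 s + d s • gal Ω W s p.1.1 = 0 := by
    intro p hp
    exact ⟨congrArg Prod.fst hp, fun s => congrFun (congrArg Prod.snd hp) s⟩
  let g : (cobW Ω W n d).ker →+ Gn (Pts Ω W) n :=
    (AddMonoidHom.fst (Gn (Pts Ω W) n) (Gn (Pts Ω W) n)).comp (cobW Ω W n d).ker.subtype
  rw [card_ker_range g]
  refine Nat.mul_le_mul ?_ ?_
  · refine Nat.card_le_card_of_injective (fun p : g.ker =>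
      (⟨p.1.1.2, ?_⟩ : (cobHom Ω W n).ker)) ?_
    · have h2 := (h1 _ p.1.2).2
      have h3 : (p.1.1.1 : Gn (Pts Ω W) n) = 0 := p.2
      rw [h3] at h2
      refine funext fun s => ?_
      have h4 := h2 s
      rw [AddSubgroup.coe_zero, map_zero, smul_zero, add_zero] at h4
      exact h4
    · intro p p' h
      apply Subtype.ext
      apply Subtype.ext
      have h3 : (p.1.1.1 : Gn (Pts Ω W) n) = 0 := p.2
      have h3' : (p'.1.1.1 : Gn (Pts Ω W) n) = 0 := p'.2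
      exact Prod.ext (h3.trans h3'.symm) (congrArg Subtype.val h)
  · have h4 : g.range ≤ (cobHom Ω W n).ker := by
      rintro _ ⟨p, rfl⟩
      exact (h1 _ p.2).1
    exact Nat.card_le_card_of_injective (AddSubgroup.inclusion h4)
      (AddSubgroup.inclusion_injective h4)

variable {k} in
theorem wbsel_le [Finite k] [IsSepClosed Ω] [Algebra.IsAlgebraic K Ω] (h2 : (2 : k) ≠ 0) (i : ℕ) :
    WBSel k Ω W i ≤ WZSel k Ω W i := by
  have hq : 1 < Nat.card k := by have := SmN.R.three_le_card h2; omega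
  rintro p ⟨S, T, hS, hT, h⟩
  have hS' : ∀ s, 2 ^ i • gal Ω W s S = 0 := fun s => by rw [← map_nsmul, hS, map_zero]
  refine ⟨fun s t => ?_, fun s t d hd => ?_, fun s => ⟨?_, ?_⟩, ?_, fun w _ _ =>
    ⟨i, S, T, hS, hT, fun s _ => h s⟩⟩
  · rw [(h _).1, (h _).1, (h _).1, gal_mul, map_sub]
    abel
  · obtain ⟨e, -, he⟩ := exists_isDeg (K := K) (Ω := Ω) h2 i t
    rw [(h _).2 (d + e) (hd.mul he), (h s).2 d hd, (h t).2 e he, (h t).1, gal_mul, gal_mul,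
      map_add, map_sub, map_sub, map_nsmul, smul_sub, add_smul]
    abel
  · rw [(h s).1, smul_sub, hS', hS, sub_zero]
  · obtain ⟨e, -, he⟩ := exists_isDeg (K := K) (Ω := Ω) h2 i s
    have hT' : 2 ^ i • gal Ω W s T = 0 := by rw [← map_nsmul, hT, map_zero]
    rw [(h s).2 e he, smul_add, smul_sub, hT', hT, sub_zero, zero_add, smul_comm, hS', smul_zero]
  · obtain ⟨L, hL, h1⟩ := level_point Ω W S
    obtain ⟨L', hL', h1'⟩ := level_point Ω W T
    obtain ⟨L'', hL'', h1''⟩ := exists_level_deg (K := K) (Ω := Ω) hq i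
    refine ⟨L ⊔ L' ⊔ L'', ?_, fun s t hst => ⟨?_, ?_⟩⟩
    · have := IntermediateField.finiteDimensional_sup L L'
      exact IntermediateField.finiteDimensional_sup _ L''
    · rw [(h _).1, (h _).1, h1 s t fun x hx => hst x
        (le_sup_left (a := L ⊔ L') (le_sup_left (a := L) hx))]
    · obtain ⟨e, -, he⟩ := exists_isDeg (K := K) (Ω := Ω) h2 i s
      rw [(h s).2 e he, (h t).2 e (h1'' s t (fun x hx => hst x (le_sup_right (a := L ⊔ L') hx)) e
        he), h1 s t fun x hx => hst x (le_sup_left (a := L ⊔ L') (le_sup_left (a := L) hx)),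
        h1' s t fun x hx => hst x (le_sup_left (a := L ⊔ L') (le_sup_right (a := L) hx))]

variable {k} in
theorem card_wzsel [Finite k] [IsSepClosed Ω] [Algebra.IsAlgebraic K Ω] (h2 : (2 : k) ≠ 0)
    (i : ℕ) : Nat.card (WZSel k Ω W i) = Nat.card (WSel k Ω W i) * Nat.card (WBSel k Ω W i) := by
  rw [AddSubgroup.card_eq_card_quotient_mul_card_addSubgroup
    ((WBSel k Ω W i).addSubgroupOf (WZSel k Ω W i))]
  congr 1
  exact Nat.card_congr (AddSubgroup.addSubgroupOfEquivOfLe (wbsel_le Ω W h2 i)).toEquiv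

/-- The inclusion `y ↦ (0, y)` of the Selmer group of `V`. -/
theorem zero_mem_wzsel {i : ℕ} {y : (Ω ≃ₐ[K] Ω) → Pts Ω W} (hy : IsSel k Ω W (2 ^ i) y)
    (hE6 : ∀ w : ValuationSubring Ω, w ≠ ⊤ →
      (∀ c : k, algebraMap K Ω (algebraMap k K c) ∈ w) → ∀ (j : ℕ) (Q : Pts Ω W),
      (∀ s ∈ w.decompositionSubgroup K, 2 ^ j • (gal Ω W s Q - Q) = 0) →
      ∃ Q' : Pts Ω W, (∃ i : ℕ, 2 ^ i • Q' = 0) ∧
        ∀ s ∈ w.decompositionSubgroup K, gal Ω W s Q - Q = gal Ω W s Q' - Q') :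
    IsWSel k Ω W i (0, y) := by
  refine ⟨fun s t => ?_, fun s t d _ => ?_, fun s => ⟨?_, hy.tors s⟩, ?_, fun w hw hw' => ?_⟩
  · simp only [Pi.zero_apply, map_zero, add_zero]
  · simp only [Pi.zero_apply, map_zero, smul_zero, add_zero]
    exact hy.cocycle s t
  · simp only [Pi.zero_apply, smul_zero]
  · obtain ⟨L, hL, h⟩ := hy.cont
    exact ⟨L, hL, fun s t hst => ⟨rfl, h s t hst⟩⟩
  · obtain ⟨Q, hQ⟩ := hy.loc w hw hw'
    obtain ⟨Q', ⟨N, hN⟩, hQ'⟩ := hE6 w hw hw' i Q fun s hs => by rw [← hQ s hs, hy.tors]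
    refine ⟨N, 0, Q', by simp, hN, fun s hs => ⟨by simp, fun d _ => ?_⟩⟩
    rw [map_zero, smul_zero, add_zero, ← hQ' s hs]
    exact hQ s hs

variable {k} in
/-- `#Sel ≤ F ^ 2 #WSel`. -/
theorem card_sel_le [Finite k] [IsSepClosed Ω] [IsGalois K Ω] (h2 : (2 : k) ≠ 0)
    (hE6 : ∀ w : ValuationSubring Ω, w ≠ ⊤ →
      (∀ c : k, algebraMap K Ω (algebraMap k K c) ∈ w) → ∀ (j : ℕ) (Q : Pts Ω W),
      (∀ s ∈ w.decompositionSubgroup K, 2 ^ j • (gal Ω W s Q - Q) = 0) →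
      ∃ Q' : Pts Ω W, (∃ i : ℕ, 2 ^ i • Q' = 0) ∧
        ∀ s ∈ w.decompositionSubgroup K, gal Ω W s Q - Q = gal Ω W s Q' - Q') (i : ℕ)
    [Finite (Gn (Pts Ω W) (2 ^ i))] [Finite (WZSel k Ω W i)] :
    Nat.card (Sel k Ω W (2 ^ i)) ≤
      Nat.card (cobHom Ω W (2 ^ i)).ker ^ 2 * Nat.card (WSel k Ω W i) := by
  choose d hdlt hd using exists_isDeg (K := K) (Ω := Ω) h2 i
  let h0 : ZSel k Ω W (2 ^ i) →+ WZSel k Ω W i := AddMonoidHom.mk'
    (fun y => ⟨(0, y.1), zero_mem_wzsel k Ω W y.2 hE6⟩) (fun y y' => Subtype.ext (by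
      ext1
      · exact (add_zero _).symm
      · rfl))
  let h : ZSel k Ω W (2 ^ i) →+ WSel k Ω W i := (QuotientAddGroup.mk' _).comp h0
  have hWfin : Finite (WSel k Ω W i) := inferInstance
  have e1 : Nat.card h.range ≤ Nat.card (WSel k Ω W i) :=
    Nat.card_le_card_of_injective _ Subtype.val_injective
  have hker : ∀ y, y ∈ h.ker → ∃ S T : Pts Ω W, 2 ^ i • S = 0 ∧ 2 ^ i • T = 0 ∧ cob Ω W S = 0 ∧
      ∀ s, y.1 s = cob Ω W T s + d s • gal Ω W s S := by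
    intro y hy
    have h1 : h0 y ∈ (WBSel k Ω W i).addSubgroupOf (WZSel k Ω W i) :=
      (QuotientAddGroup.eq_zero_iff (h0 y)).mp hy
    obtain ⟨S, T, hS, hT, h3⟩ := h1
    exact ⟨S, T, hS, hT, funext fun s => ((h3 s).1).symm, fun s => (h3 s).2 (d s) (hd s)⟩
  choose! S T hS hT hS0 hy using hker
  have e2 : Nat.card h.ker ≤ Nat.card (cobHom Ω W (2 ^ i)).ker *
      Nat.card (Gn (Pts Ω W) (2 ^ i)) := by
    rw [← Nat.card_prod]
    refine Nat.card_le_card_of_injective (fun y : h.ker =>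
      ((⟨⟨S y.1, hS y.1 y.2⟩, hS0 y.1 y.2⟩ : (cobHom Ω W (2 ^ i)).ker),
        (⟨T y.1, hT y.1 y.2⟩ : Gn (Pts Ω W) (2 ^ i)))) ?_
    intro y y' hyy
    have a1 : S y.1 = S y'.1 := congrArg (fun q : (cobHom Ω W (2 ^ i)).ker ×
      Gn (Pts Ω W) (2 ^ i) => (q.1.1.1 : Pts Ω W)) hyy
    have a2 : T y.1 = T y'.1 := congrArg (fun q : (cobHom Ω W (2 ^ i)).ker ×
      Gn (Pts Ω W) (2 ^ i) => (q.2.1 : Pts Ω W)) hyy
    apply Subtype.ext
    apply Subtype.ext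
    funext s
    rw [hy y.1 y.2 s, hy y'.1 y'.2 s, a1, a2]
  have e3 := card_ker_range h
  have e4 := card_zsel k Ω W (2 ^ i)
  have e5 := card_bsel Ω W (2 ^ i)
  rw [← card_ker_cobHom Ω W (2 ^ i)] at e5
  have hV : 0 < Nat.card (Gn (Pts Ω W) (2 ^ i)) := Nat.card_pos
  have hB : 0 < Nat.card (BSel Ω W (2 ^ i)) := by
    rw [e5] at hV
    exact Nat.pos_of_mul_pos_left hV
  refine Nat.le_of_mul_le_mul_right ?_ hB
  calc Nat.card (Sel k Ω W (2 ^ i)) * Nat.card (BSel Ω W (2 ^ i))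
      = Nat.card h.ker * Nat.card h.range := by rw [← e4, e3]
    _ ≤ (Nat.card (cobHom Ω W (2 ^ i)).ker * Nat.card (Gn (Pts Ω W) (2 ^ i))) *
        Nat.card (WSel k Ω W i) := Nat.mul_le_mul e2 e1
    _ = _ := by rw [e5]; ring

end countW

section corankW

variable (k : Type) {K : Type} (Ω : Type) [Field k] [Field K] [Field Ω] [Algebra k K]
  [Algebra K Ω] (W : WeierstrassCurve K)

variable {k} in
/-- The corank of the Selmer group of `W` from the corank of the Selmer group of `V` and upper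
bounds for the numbers of cocycles. -/
theorem hasCorankW_of [Finite k] [IsSepClosed Ω] [IsGalois K Ω] (h2 : (2 : k) ≠ 0)
    (hE6 : ∀ w : ValuationSubring Ω, w ≠ ⊤ →
      (∀ c : k, algebraMap K Ω (algebraMap k K c) ∈ w) → ∀ (j : ℕ) (Q : Pts Ω W),
      (∀ s ∈ w.decompositionSubgroup K, 2 ^ j • (gal Ω W s Q - Q) = 0) →
      ∃ Q' : Pts Ω W, (∃ i : ℕ, 2 ^ i • Q' = 0) ∧
        ∀ s ∈ w.decompositionSubgroup K, gal Ω W s Q - Q = gal Ω W s Q' - Q')
    (hV : ∀ i, Nat.card (Gn (Pts Ω W) (2 ^ i)) = 4 ^ i) {F : ℕ}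
    (hF : ∀ i, Nat.card (cobHom Ω W (2 ^ i)).ker ≤ F) {r : ℕ}
    (hr : HasCorank k Ω W r) (hfin : ∀ i, Finite (WZSel k Ω W i)) {C : ℕ}
    (hC : ∀ i, Nat.card (WZSel k Ω W i) ≤ C * 2 ^ ((r + 4) * i)) : HasCorankW k Ω W r := by
  obtain ⟨B, hB⟩ := hr
  choose d hdlt hd using fun i => exists_isDeg (K := K) (Ω := Ω) h2 i
  have hVf : ∀ i, Finite (Gn (Pts Ω W) (2 ^ i)) := fun i =>
    Nat.finite_of_card_ne_zero (by rw [hV]; positivity)
  refine ⟨C * F ^ 2 + B * F ^ 2, fun i => ⟨?_, ?_⟩⟩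
  · have hf := hVf i
    have e1 := card_ker_range (cobW Ω W (2 ^ i) (d i))
    rw [Nat.card_prod, hV, range_cobW Ω W h2 i (hd i)] at e1
    have e2 := card_ker_cobW Ω W (2 ^ i) (d i)
    have e3 := card_wzsel Ω W h2 i
    have h16 : 0 < 4 ^ i * 4 ^ i := by positivity
    refine (Nat.le_of_mul_le_mul_right ?_ h16).trans
      (Nat.mul_le_mul_right (2 ^ (r * i)) (Nat.le_add_right (C * F ^ 2) (B * F ^ 2)))
    have hFF := Nat.mul_le_mul (hF i) (hF i)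
    have h8 : 2 ^ ((r + 4) * i) = 2 ^ (r * i) * (4 ^ i * 4 ^ i) := by
      rw [add_mul, pow_add, pow_mul 2 4 i, ← mul_pow]
      norm_num
    calc Nat.card (WSel k Ω W i) * (4 ^ i * 4 ^ i)
        = Nat.card (WSel k Ω W i) * (Nat.card (cobW Ω W (2 ^ i) (d i)).ker *
            Nat.card (WBSel k Ω W i)) := by rw [e1]
      _ = Nat.card (cobW Ω W (2 ^ i) (d i)).ker * Nat.card (WZSel k Ω W i) := by rw [e3]; ring
      _ ≤ (F * F) * (C * 2 ^ ((r + 4) * i)) := Nat.mul_le_mul (e2.trans hFF) (hC i)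
      _ = _ := by rw [h8]; ring
  · have hf := hVf i
    have hf' := hfin i
    calc 2 ^ (r * i) ≤ B * Nat.card (Sel k Ω W (2 ^ i)) := (hB i).2
      _ ≤ B * (Nat.card (cobHom Ω W (2 ^ i)).ker ^ 2 * Nat.card (WSel k Ω W i)) :=
        Nat.mul_le_mul_left _ (card_sel_le Ω W h2 hE6 i)
      _ ≤ B * (F ^ 2 * Nat.card (WSel k Ω W i)) :=
        Nat.mul_le_mul_left _ (Nat.mul_le_mul_right _ (Nat.pow_le_pow_left (hF i) 2))
      _ = B * F ^ 2 * Nat.card (WSel k Ω W i) := by ring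
      _ ≤ _ := Nat.mul_le_mul_right _ (Nat.le_add_left _ _)

end corankW

end Pool.Agent.Sm.L
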