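import Pool.Agent.Lib.Sm.L.StmtW
import Pool.Agent.Lib.SmN.R.Cst
import Pool.Agent.Lib.Sm.L.Bridge
import Pool.Agent.Lib.SmH.Link.Deg

/-!
SMITH, heights: the degree of an element of the Galois group (its action on the constants).
Existence, uniqueness modulo `2 ^ N`, additivity, and the kernel is `2`-finite.
-/

set_option autoImplicit false

open Polynomial WeierstrassCurve Pool.Agent.BSDFF Pool.Agent.BSDFF.MW Pool.Agent.SmithE

namespace Pool.Agent.Sm.L

section deg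

variable {k K Ω : Type} [Field k] [Field K] [Field Ω] [Algebra k K] [Algebra K Ω]

omit [Field k] [Algebra k K] in
theorem IsDeg.mul {N : ℕ} {s t : Ω ≃ₐ[K] Ω} {d e : ℕ} (hs : IsDeg k Ω N s d)
    (ht : IsDeg k Ω N t e) : IsDeg k Ω N (s * t) (d + e) := by
  intro c hc
  have h1 : (c ^ (Nat.card k ^ e)) ^ (Nat.card k ^ 2 ^ N) = c ^ (Nat.card k ^ e) := by
    rw [← pow_mul, mul_comm, pow_mul, hc]
  rw [AlgEquiv.mul_apply, ht c hc, hs _ h1, ← pow_mul, ← pow_add, add_comm]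

omit [Field k] [Algebra k K] in
theorem IsDeg.one (N : ℕ) : IsDeg k Ω N (1 : Ω ≃ₐ[K] Ω) 0 := by
  intro c _
  rw [pow_zero, pow_one]
  rfl

omit [Field k] [Algebra k K] in
theorem IsDeg.add_mul {N : ℕ} {s : Ω ≃ₐ[K] Ω} {d : ℕ} (hs : IsDeg k Ω N s d) (l : ℕ) :
    IsDeg k Ω N s (d + 2 ^ N * l) := by
  intro c hc
  rw [SmN.R.cst_pow_add hc, hs c hc]

variable [Finite k] [IsSepClosed Ω] (h2 : (2 : k) ≠ 0)
include h2

theorem exists_isDeg (N : ℕ) (s : Ω ≃ₐ[K] Ω) : ∃ d, d < 2 ^ N ∧ IsDeg k Ω N s d :=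
  SmN.R.cst_frob h2 ((algebraMap K Ω).comp (algebraMap k K)) (s : Ω →+* Ω)
    (fun a => s.commutes _) (by positivity)

theorem IsDeg.unique {N : ℕ} {s : Ω ≃ₐ[K] Ω} {d e : ℕ} (hd : IsDeg k Ω N s d)
    (he : IsDeg k Ω N s e) : d % 2 ^ N = e % 2 ^ N :=
  SmN.R.cst_inj h2 ((algebraMap K Ω).comp (algebraMap k K)) (by positivity)
    (fun x hx => by rw [← hd x hx, ← he x hx])

omit [Algebra k K] [Field k] [Finite k] h2 [IsSepClosed Ω] in
/-- The degree depends only on the restriction to a finite extension. -/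
theorem exists_level_deg (hq : 1 < Nat.card k) (N : ℕ) [Algebra.IsAlgebraic K Ω] :
    ∃ L : IntermediateField K Ω, FiniteDimensional K L ∧ ∀ s t : Ω ≃ₐ[K] Ω,
      (∀ x ∈ L, s x = t x) → ∀ d, IsDeg k Ω N s d → IsDeg k Ω N t d := by
  have hQ : 1 < Nat.card k ^ 2 ^ N := Nat.one_lt_pow (by positivity) hq
  have hA : {x : Ω | x ^ (Nat.card k ^ 2 ^ N) = x}.Finite := by
    have h0 : (X ^ (Nat.card k ^ 2 ^ N) - X : Polynomial Ω) ≠ 0 := by
      intro h
      have h1 := congrArg Polynomial.natDegree (sub_eq_zero.mp h)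
      rw [natDegree_X_pow, natDegree_X] at h1
      omega
    refine Set.Finite.subset (Polynomial.finite_setOfPred_isRoot h0) fun x hx => ?_
    simp only [Set.mem_ofPred_eq, IsRoot.def, eval_sub, eval_pow, eval_X] at hx ⊢
    rw [hx, sub_self]
  have : Finite {x : Ω | x ^ (Nat.card k ^ 2 ^ N) = x} := hA
  refine ⟨IntermediateField.adjoin K {x : Ω | x ^ (Nat.card k ^ 2 ^ N) = x},
    IntermediateField.finiteDimensional_adjoin
      fun x _ => (Algebra.IsAlgebraic.isAlgebraic x).isIntegral, fun s t h d hd c hc => ?_⟩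
  rw [← h c (IntermediateField.subset_adjoin K _ hc)]
  exact hd c hc

omit [Field k] [Algebra k K] [Finite k] h2 [IsSepClosed Ω] in
/-- The constants of level `N` generate a finite extension. -/
theorem isOpen_Hc (hq : 1 < Nat.card k) (N : ℕ) [Algebra.IsAlgebraic K Ω] :
    IsOpen ((SmN.R.Hc K Ω (Nat.card k) (2 ^ N) : Subgroup (Ω ≃ₐ[K] Ω)) : Set (Ω ≃ₐ[K] Ω)) := by
  obtain ⟨L, hL, h⟩ := exists_level_deg (K := K) (Ω := Ω) hq N
  refine Subgroup.isOpen_mono ?_ (IntermediateField.fixingSubgroup_isOpen L)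
  intro s hs x hx
  have h1 := h 1 s (fun y hy => ((IntermediateField.mem_fixingSubgroup_iff _ s).mp hs y hy).symm) 0
    (IsDeg.one N) x hx
  rw [h1, pow_zero, pow_one]

/-- The elements of degree `0` at level `N` are a `2`-finite subgroup. -/
theorem exists_NN_isDeg_zero [IsGalois K Ω] (N : ℕ) :
    ∃ H ∈ SmD.NN K Ω, ∀ s ∈ H, IsDeg k Ω N s 0 := by
  have hq : 1 < Nat.card k := by have := SmN.R.three_le_card h2; omega
  refine ⟨SmN.R.Hc K Ω (Nat.card k) (2 ^ N), SmD.mem_NN_of_pow (SmN.R.Hc_normal _ _)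
    (isOpen_Hc hq N) (fun σ => ⟨N, ?_⟩), fun s hs x hx => ?_⟩
  · obtain ⟨d, -, hd⟩ := exists_isDeg (K := K) (Ω := Ω) h2 N σ
    have h1 : ∀ m : ℕ, IsDeg k Ω N (σ ^ m) (m * d) := by
      intro m
      induction m with
      | zero => rw [pow_zero, zero_mul]; exact IsDeg.one N
      | succ m ih => rw [pow_succ, add_mul, one_mul]; exact ih.mul hd
    intro x hx
    have h3 := SmN.R.cst_pow_add hx 0 d
    rw [zero_add, pow_zero, pow_one] at h3
    rw [h1 (2 ^ N) x hx, h3]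
  · rw [pow_zero, pow_one]
    exact hs x hx

/-- The degree of `s` modulo `2 ^ m`. -/
noncomputable def dgK (m : ℕ) (s : Ω ≃ₐ[K] Ω) : ℕ :=
  (exists_isDeg (K := K) (Ω := Ω) h2 m s).choose

theorem isDeg_dgK (m : ℕ) (s : Ω ≃ₐ[K] Ω) : IsDeg k Ω m s (dgK h2 m s) :=
  (exists_isDeg (K := K) (Ω := Ω) h2 m s).choose_spec.2

/-- Any choice of the degrees is additive and compatible. -/
theorem isDeg_of {dg : ℕ → (Ω ≃ₐ[K] Ω) → ℕ} (h : ∀ m s, IsDeg k Ω m s (dg m s)) :
    SmH.IsDeg dg where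
  mul m s t := IsDeg.unique h2 (h m (s * t)) ((h m s).mul (h m t))
  succ m s := IsDeg.unique h2 ((h (m + 1) s).mono (Nat.le_succ m)) (h m s)

end deg

theorem nsmul_eq_of_mod {M : Type} [AddCommGroup M] {n d e : ℕ} (h : d % n = e % n) {x : M}
    (hx : n • x = 0) : d • x = e • x := by
  rw [nsmul_eq_mod_nsmul d hx, nsmul_eq_mod_nsmul e hx, h]

end Pool.Agent.Sm.L
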