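import Pool.Agent.Lib.Sm.L.TypJ
import Pool.Agent.Lib.Sm.L.LFacts

/-!
SMITH, block L: the choice of the directions from (T2).
-/

set_option autoImplicit false

open Polynomial

namespace Pool.Agent.Sm

variable {k : Type} [Field k] {d : TwData k} {J : Type} [Fintype J]

theorem exists_supp {p : J → k[X]} {R kk N : ℕ} (ht : TypJ d p R kk N) {F : Set (CodeJ d J)}
    {L : ℕ → Set (CodeJ d J)} {m : ℕ} {a b : CodeJ d J} (hF : F ⊆ SelpJ d p) (hmk : m ≤ kk)
    (hkk : 1 ≤ kk) (B : Bas d F L m a b) :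
    ∃ dir : Dir m ↪ J, (∀ i, N ≤ (p (dir i)).natDegree ∧ 4 ∣ (p (dir i)).natDegree) ∧
      Nonempty (Supp d F L m a b dir) := by
  classical
  set e : V1 := (1, 0) with he
  set e' : V1 := (0, 1) with he'
  have hgen := ht.generic B.r B.c (fun i => hF (B.mem i)) B.indep
  -- the three patterns
  have h0 := hgen (fun _ => 0)
  have ha := hgen (fun l => if l = B.l1 then e else 0)
  have hb := hgen (fun l => if l = B.l0 then e' else 0)
  obtain ⟨ja, hja1, hja2, hja3⟩ : ∃ j : J, N ≤ (p j).natDegree ∧ 4 ∣ (p j).natDegree ∧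
      ∀ i, (B.c i).2.2 j = if i = B.l1 then e else 0 := by
    have h1 : 0 < Nat.card {j : J // N ≤ (p j).natDegree ∧ 4 ∣ (p j).natDegree ∧
      ∀ i, (B.c i).2.2 j = if i = B.l1 then e else 0} := by omega
    obtain ⟨⟨j, hj⟩⟩ := (Nat.card_pos_iff.1 h1).1
    exact ⟨j, hj⟩
  obtain ⟨jb, hjb1, hjb2, hjb3⟩ : ∃ j : J, N ≤ (p j).natDegree ∧ 4 ∣ (p j).natDegree ∧
      ∀ i, (B.c i).2.2 j = if i = B.l0 then e' else 0 := by
    have h1 : 0 < Nat.card {j : J // N ≤ (p j).natDegree ∧ 4 ∣ (p j).natDegree ∧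
      ∀ i, (B.c i).2.2 j = if i = B.l0 then e' else 0} := by omega
    obtain ⟨⟨j, hj⟩⟩ := (Nat.card_pos_iff.1 h1).1
    exact ⟨j, hj⟩
  set A0 := {j : J // N ≤ (p j).natDegree ∧ 4 ∣ (p j).natDegree ∧ ∀ i, (B.c i).2.2 j = 0} with hA0
  have hA0card : Fintype.card (Fin m) ≤ Fintype.card A0 := by
    rw [Fintype.card_fin, ← Nat.card_eq_fintype_card]
    exact le_trans hmk h0
  obtain ⟨f⟩ := Function.Embedding.nonempty_of_card_le hA0card
  have he0 : e ≠ 0 := by rw [he]; decide
  have he0' : e' ≠ 0 := by rw [he']; decide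
  have hfa : ∀ i, ((f i).1 : J) ≠ ja := by
    intro i h
    have h1 := (f i).2.2.2 B.l1
    rw [h, hja3, if_pos rfl] at h1
    exact he0 h1
  have hfb : ∀ i, ((f i).1 : J) ≠ jb := by
    intro i h
    have h1 := (f i).2.2.2 B.l0
    rw [h, hjb3, if_pos rfl] at h1
    exact he0' h1
  have hab : ja ≠ jb := by
    intro h
    have h1 := hja3 B.l0
    rw [h, hjb3, if_pos rfl, if_neg B.ne] at h1
    exact he0' h1
  let g : Dir m → J := fun x => match x with
    | none => jb
    | some none => ja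
    | some (some i) => (f i).1
  have hg : Function.Injective g := by
    rintro (_ | _ | i) (_ | _ | i') h
    · rfl
    · exact absurd h.symm hab
    · exact absurd h.symm (hfb i')
    · exact absurd h hab
    · rfl
    · exact absurd h.symm (hfa i')
    · exact absurd h (hfb i)
    · exact absurd h (hfa i)
    · have h1 : f i = f i' := Subtype.ext h
      rw [f.injective h1]
  refine ⟨⟨g, hg⟩, ?_, ⟨{
    r := B.r
    c := B.c
    l1 := B.l1
    l0 := B.l0
    e := e
    e' := e'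
    ne := B.ne
    c_l1 := B.c_l1
    mem := B.mem
    span := B.span
    indep := B.indep
    adapted := B.adapted
    β := B.β
    b_eq := B.b_eq
    β_l1 := B.β_l1
    β_l0 := B.β_l0
    supp0 := fun l i => (f i).2.2.2 l
    suppa := hja3
    suppb := hjb3
    pair := by rw [he, he']; decide }⟩⟩
  rintro (_ | _ | i)
  · exact ⟨hjb1, hjb2⟩
  · exact ⟨hja1, hja2⟩
  · exact ⟨(f i).2.1, (f i).2.2.1⟩

end Pool.Agent.Sm
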