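import Mathlib

/-!
SMITH, block L (MP_48b749_nt): the sum over a grid, abstractly.

`X i` (`i : ι`) are the sets of primes of the large degrees, `σ x` the pattern of symbols of `x`,
`θ x` the remaining data (Selmer group in codes, relations), `a : A` the pairs of codes, `w` the
weights, `g a x` the signs. If for every pattern `s`, every `t` and every `a` of nonzero weight there
is a set `S` of `K` directions along which the sums of the signs are small, then the total sum is
small: the patterns are nearly uniformly distributed (`hNU`).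
-/

set_option autoImplicit false

open Finset

namespace Pool.Agent.Sm

/-- The sum of `f x` over the `x` with `p x`. -/
noncomputable def fsum {α : Type} [Fintype α] (p : α → Prop) (f : α → ℝ) : ℝ :=
  open Classical in ∑ x, if p x then f x else 0

theorem fsum_congr {α : Type} [Fintype α] {p q : α → Prop} {f g : α → ℝ}
    (h : ∀ x, p x ↔ q x) (h' : ∀ x, q x → f x = g x) : fsum p f = fsum q g := by
  classical
  unfold fsum
  refine Finset.sum_congr rfl fun x _ => ?_
  by_cases hx : q x
  · rw [if_pos hx, if_pos ((h x).2 hx), h' x hx]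
  · rw [if_neg hx, if_neg fun h'' => hx ((h x).1 h'')]

theorem fsum_eq {α : Type} [Fintype α] (p : α → Prop) [DecidablePred p] (f : α → ℝ) :
    fsum p f = ∑ x ∈ univ.filter p, f x := by
  rw [Finset.sum_filter]
  unfold fsum
  refine Finset.sum_congr rfl fun x _ => ?_
  split_ifs <;> rfl

open Classical in
private theorem grid_sum_aux {ι : Type} [Fintype ι] [DecidableEq ι] (X : ι → Type) [∀ i, Fintype (X i)]
    {Pat Th A : Type} [Fintype Pat] [Fintype Th] [Fintype A]
    (σ : (∀ i, X i) → Pat) (θ : (∀ i, X i) → Th) (typ : Pat → Prop)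
    (w : Pat → Th → A → ℝ) (g : A → (∀ i, X i) → ℝ) (W η C : ℝ) (K h : ℕ)
    (hη : 0 ≤ η) (hW : 0 ≤ W) (hC0 : 0 ≤ C) (hw : ∀ s t a, typ s → (∃ P, σ P = s ∧ θ P = t) → |w s t a| ≤ W)
    (hC : ∀ s, typ s →
      ((univ.filter fun p : Th × A => w s p.1 p.2 ≠ 0 ∧ ∃ P, σ P = s ∧ θ P = p.1).card : ℝ) ≤ C)
    (hS : ∀ s t a, typ s → w s t a ≠ 0 → (∃ P, σ P = s ∧ θ P = t) →
      ∃ S : Finset ι, S.card = K ∧ ∀ P, σ P = s → θ P = t →
        |∑ x ∈ univ.filter fun x : ∀ i, X i => (∀ i ∉ S, x i = P i) ∧ σ x = s ∧ θ x = t, g a x| ≤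
          η * ((∏ i ∈ S, (Fintype.card (X i) : ℝ)) / 2 ^ (K * (h + (Fintype.card ι - K)))))
    (hNU : ∀ s (S : Finset ι), S.card = K →
      (Nat.card {r : ∀ i : {i // i ∉ S}, X i // ∃ P, σ P = s ∧ ∀ i, r i = P i} : ℝ) *
        2 ^ ((Fintype.card ι - K) * h + (Fintype.card ι - K).choose 2) ≤
          2 * ∏ i ∈ Sᶜ, (Fintype.card (X i) : ℝ))
    (hPat : (univ.image σ).card ≤ 2 ^ (Fintype.card ι * h + (Fintype.card ι).choose 2)) :
    |∑ P, if typ (σ P) then ∑ a, w (σ P) (θ P) a * g a P else 0| ≤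
      C * W * η * 2 ^ (1 + K.choose 2) * ∏ i, (Fintype.card (X i) : ℝ) := by
  set n := Fintype.card ι with hn
  set E : ℕ := n * h + n.choose 2 with hE
  set B : ℝ := η * 2 ^ (1 + K.choose 2) * (∏ i, (Fintype.card (X i) : ℝ)) / 2 ^ E with hB
  have hprod0 : (0 : ℝ) ≤ ∏ i, (Fintype.card (X i) : ℝ) :=
    Finset.prod_nonneg fun i _ => Nat.cast_nonneg _
  have hB0 : 0 ≤ B := by
    rw [hB]
    positivity
  -- exponents
  have hexp : ∀ {S : Finset ι}, S.card = K →
      K * (h + (n - K)) + ((n - K) * h + (n - K).choose 2) + K.choose 2 = E := by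
    intro S hS'
    have hK : K ≤ n := by
      rw [← hS', hn]
      exact Finset.card_le_univ S
    obtain ⟨m, hm⟩ := Nat.exists_eq_add_of_le hK
    have h1 : n - K = m := by omega
    have h2 : n.choose 2 = K.choose 2 + K * m + m.choose 2 := by
      rw [hm]
      clear_value n
      clear hm h1 hK
      induction m with
      | zero => simp
      | succ m ih =>
        rw [← Nat.add_assoc, Nat.choose_succ_succ' (K + m) 1, ih, Nat.choose_succ_succ' m 1,
          Nat.choose_one_right, Nat.choose_one_right]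
        ring
    rw [hE, h1, h2]
    have h3 : n = K + m := hm
    rw [h3]
    ring
  -- one fibre
  have key : ∀ s t a, typ s → w s t a ≠ 0 → (∃ P, σ P = s ∧ θ P = t) →
      |∑ P ∈ univ.filter fun P : ∀ i, X i => σ P = s ∧ θ P = t, g a P| ≤ B := by
    intro s t a hs hwa hP
    obtain ⟨S, hSK, hSb⟩ := hS s t a hs hwa hP
    set fib := univ.filter fun P : ∀ i, X i => σ P = s ∧ θ P = t with hfib
    let res : (∀ i, X i) → (∀ i : {i // i ∉ S}, X i) := fun P i => P i
    rw [← Finset.sum_fiberwise_of_maps_to (t := fib.image res) (g := res)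
      (fun x hx => Finset.mem_image_of_mem res hx)]
    set b : ℝ := η * ((∏ i ∈ S, (Fintype.card (X i) : ℝ)) / 2 ^ (K * (h + (n - K)))) with hb
    have hb0 : 0 ≤ b := by
      rw [hb]
      have : (0 : ℝ) ≤ ∏ i ∈ S, (Fintype.card (X i) : ℝ) :=
        Finset.prod_nonneg fun i _ => Nat.cast_nonneg _
      positivity
    have h1 : ∀ r ∈ fib.image res, |∑ x ∈ fib.filter fun x => res x = r, g a x| ≤ b := by
      intro r hr
      obtain ⟨P, hPf, rfl⟩ := Finset.mem_image.1 hr
      have hP2 : σ P = s ∧ θ P = t := by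
        simpa [hfib] using hPf
      have h2 := hSb P hP2.1 hP2.2
      have h3 : (fib.filter fun x => res x = res P) =
          univ.filter fun x : ∀ i, X i => (∀ i ∉ S, x i = P i) ∧ σ x = s ∧ θ x = t := by
        ext x
        simp only [hfib, Finset.mem_filter, Finset.mem_univ, true_and, res, funext_iff,
          Subtype.forall]
        tauto
      rw [h3]
      exact h2
    have h4 : ((fib.image res).card : ℝ) ≤
        (Nat.card {r : ∀ i : {i // i ∉ S}, X i // ∃ P, σ P = s ∧ ∀ i, r i = P i} : ℝ) := by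
      norm_cast
      rw [Nat.card_eq_fintype_card, Fintype.card_subtype]
      refine Finset.card_le_card ?_
      intro r hr
      obtain ⟨P, hPf, rfl⟩ := Finset.mem_image.1 hr
      have hP2 : σ P = s ∧ θ P = t := by
        simpa [hfib] using hPf
      simp only [Finset.mem_filter, Finset.mem_univ, true_and]
      exact ⟨P, hP2.1, fun i => rfl⟩
    have h5 : ((fib.image res).card : ℝ) ≤
        (2 * ∏ i ∈ Sᶜ, (Fintype.card (X i) : ℝ)) / 2 ^ ((n - K) * h + (n - K).choose 2) := by
      rw [le_div_iff₀ (by positivity)]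
      refine le_trans (mul_le_mul_of_nonneg_right h4 (by positivity)) (hNU s S hSK)
    calc |∑ r ∈ fib.image res, ∑ x ∈ fib.filter fun x => res x = r, g a x|
        ≤ ∑ r ∈ fib.image res, |∑ x ∈ fib.filter fun x => res x = r, g a x| :=
          Finset.abs_sum_le_sum_abs _ _
      _ ≤ ∑ _r ∈ fib.image res, b := Finset.sum_le_sum h1
      _ = ((fib.image res).card : ℝ) * b := by rw [Finset.sum_const, nsmul_eq_mul]
      _ ≤ (2 * ∏ i ∈ Sᶜ, (Fintype.card (X i) : ℝ)) / 2 ^ ((n - K) * h + (n - K).choose 2) * b :=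
          mul_le_mul_of_nonneg_right h5 hb0
      _ = B := by
          have h6 : (∏ i, (Fintype.card (X i) : ℝ)) =
              (∏ i ∈ S, (Fintype.card (X i) : ℝ)) * ∏ i ∈ Sᶜ, (Fintype.card (X i) : ℝ) :=
            (Finset.prod_mul_prod_compl S _).symm
          rw [hB, hb, h6, ← hexp hSK]
          generalize K * (h + (n - K)) = u
          generalize (n - K) * h + (n - K).choose 2 = v
          rw [pow_add _ (u + v), pow_add _ u v, pow_add _ 1, pow_one]
          field_simp
  -- rewrite the sum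
  have hsum : (∑ P, if typ (σ P) then ∑ a, w (σ P) (θ P) a * g a P else 0) =
      ∑ s ∈ univ.image σ, if typ s then
        ∑ p ∈ univ.filter (fun p : Th × A => w s p.1 p.2 ≠ 0 ∧ ∃ P, σ P = s ∧ θ P = p.1),
          w s p.1 p.2 * ∑ P ∈ univ.filter (fun P : ∀ i, X i => σ P = s ∧ θ P = p.1), g p.2 P
        else 0 := by
    rw [← Finset.sum_fiberwise_of_maps_to (s := univ) (t := univ.image σ) (g := σ)
      (fun x _ => Finset.mem_image_of_mem σ (Finset.mem_univ x))]
    refine Finset.sum_congr rfl fun s _ => ?_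
    by_cases hs : typ s
    · rw [if_pos hs]
      have h1 : ∑ P ∈ univ.filter (fun P : ∀ i, X i => σ P = s),
          (if typ (σ P) then ∑ a, w (σ P) (θ P) a * g a P else 0) =
          ∑ P ∈ univ.filter (fun P : ∀ i, X i => σ P = s), ∑ a, w s (θ P) a * g a P := by
        refine Finset.sum_congr rfl fun P hP => ?_
        have : σ P = s := by simpa using hP
        rw [this, if_pos hs]
      rw [h1]
      have h2 : ∑ p ∈ univ.filter (fun p : Th × A => w s p.1 p.2 ≠ 0 ∧ ∃ P, σ P = s ∧ θ P = p.1),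
          w s p.1 p.2 * ∑ P ∈ univ.filter (fun P : ∀ i, X i => σ P = s ∧ θ P = p.1), g p.2 P =
          ∑ p : Th × A,
          w s p.1 p.2 * ∑ P ∈ univ.filter (fun P : ∀ i, X i => σ P = s ∧ θ P = p.1), g p.2 P := by
        refine Finset.sum_subset (Finset.subset_univ _) fun p _ hp => ?_
        simp only [Finset.mem_filter, Finset.mem_univ, true_and, not_and_or, not_not] at hp
        rcases hp with hp | hp
        · rw [hp, zero_mul]
        · have : (univ.filter fun P : ∀ i, X i => σ P = s ∧ θ P = p.1) = ∅ := by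
            refine Finset.filter_eq_empty_iff.2 fun P _ hP => hp ⟨P, hP⟩
          rw [this, Finset.sum_empty, mul_zero]
      rw [h2, Fintype.sum_prod_type]
      have h3 : ∑ P ∈ univ.filter (fun P : ∀ i, X i => σ P = s), ∑ a, w s (θ P) a * g a P =
          ∑ t, ∑ P ∈ univ.filter (fun P : ∀ i, X i => σ P = s ∧ θ P = t),
            ∑ a, w s t a * g a P := by
        rw [← Finset.sum_fiberwise_of_maps_to (s := univ.filter (fun P : ∀ i, X i => σ P = s))
          (t := univ) (g := θ) (fun x _ => Finset.mem_univ _)]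
        refine Finset.sum_congr rfl fun t _ => ?_
        rw [Finset.filter_filter]
        refine Finset.sum_congr rfl fun P hP => ?_
        have : θ P = t := by
          simp only [Finset.mem_filter] at hP
          exact hP.2.2
        rw [this]
      rw [h3]
      refine Finset.sum_congr rfl fun t _ => ?_
      rw [Finset.sum_comm]
      refine Finset.sum_congr rfl fun a _ => ?_
      rw [Finset.mul_sum]
    · rw [if_neg hs]
      refine Finset.sum_eq_zero fun P hP => ?_
      have : σ P = s := by simpa using hP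
      rw [this, if_neg hs]
  rw [hsum]
  have hs1 : ∀ s ∈ univ.image σ, |if typ s then
        ∑ p ∈ univ.filter (fun p : Th × A => w s p.1 p.2 ≠ 0 ∧ ∃ P, σ P = s ∧ θ P = p.1),
          w s p.1 p.2 * ∑ P ∈ univ.filter (fun P : ∀ i, X i => σ P = s ∧ θ P = p.1), g p.2 P
        else 0| ≤ C * (W * B) := by
    intro s _
    by_cases hs : typ s
    · rw [if_pos hs]
      refine le_trans (Finset.abs_sum_le_sum_abs _ _) ?_
      refine le_trans (Finset.sum_le_sum (g := fun _ => W * B) ?_) ?_
      · intro p hp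
        simp only [Finset.mem_filter, Finset.mem_univ, true_and] at hp
        rw [abs_mul]
        exact mul_le_mul (hw _ _ _ hs hp.2) (key s p.1 p.2 hs hp.1 hp.2) (abs_nonneg _) hW
      · rw [Finset.sum_const, nsmul_eq_mul]
        exact mul_le_mul_of_nonneg_right (hC s hs) (mul_nonneg hW hB0)
    · rw [if_neg hs, abs_zero]
      exact mul_nonneg hC0 (mul_nonneg hW hB0)
  refine le_trans (Finset.abs_sum_le_sum_abs _ _) ?_
  refine le_trans (Finset.sum_le_sum hs1) ?_
  rw [Finset.sum_const, nsmul_eq_mul]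
  have h7 : ((univ.image σ).card : ℝ) ≤ 2 ^ E := by
    exact_mod_cast hPat
  refine le_trans (mul_le_mul_of_nonneg_right h7 (by positivity)) ?_
  rw [hB]
  have : (2 : ℝ) ^ E ≠ 0 := by positivity
  apply le_of_eq
  field_simp

theorem grid_sum {ι : Type} [Fintype ι] [DecidableEq ι] (X : ι → Type) [∀ i, Fintype (X i)]
    {Pat Th A : Type} [Finite Pat] [Finite Th] [Fintype A]
    (σ : (∀ i, X i) → Pat) (θ : (∀ i, X i) → Th) (typ : Pat → Prop)
    (w : Pat → Th → A → ℝ) (g : A → (∀ i, X i) → ℝ) (W η C : ℝ) (K h : ℕ)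
    (hη : 0 ≤ η) (hW : 0 ≤ W) (hC0 : 0 ≤ C)
    (hw : ∀ s t a, typ s → (∃ P, σ P = s ∧ θ P = t) → |w s t a| ≤ W)
    (hC : ∀ s, typ s →
      (Nat.card {p : Th × A // w s p.1 p.2 ≠ 0 ∧ ∃ P, σ P = s ∧ θ P = p.1} : ℝ) ≤ C)
    (hS : ∀ s t a, typ s → w s t a ≠ 0 → (∃ P, σ P = s ∧ θ P = t) →
      ∃ S : Finset ι, S.card = K ∧ ∀ P, σ P = s → θ P = t →
        |fsum (fun x : ∀ i, X i => (∀ i ∉ S, x i = P i) ∧ σ x = s ∧ θ x = t) (g a)| ≤
          η * ((∏ i ∈ S, (Fintype.card (X i) : ℝ)) / 2 ^ (K * (h + (Fintype.card ι - K)))))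
    (hNU : ∀ s (S : Finset ι), S.card = K →
      (Nat.card {r : ∀ i : {i // i ∉ S}, X i // ∃ P, σ P = s ∧ ∀ i, r i = P i} : ℝ) *
        2 ^ ((Fintype.card ι - K) * h + (Fintype.card ι - K).choose 2) ≤
          2 * ∏ i ∈ Sᶜ, (Fintype.card (X i) : ℝ))
    (hPat : Nat.card Pat ≤ 2 ^ (Fintype.card ι * h + (Fintype.card ι).choose 2)) :
    |fsum (fun P => typ (σ P)) (fun P => ∑ a, w (σ P) (θ P) a * g a P)| ≤
      C * W * η * 2 ^ (1 + K.choose 2) * ∏ i, (Fintype.card (X i) : ℝ) := by
  classical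
  have := Fintype.ofFinite Pat
  have := Fintype.ofFinite Th
  refine le_trans (le_of_eq ?_) (grid_sum_aux X σ θ typ w g W η C K h hη hW hC0 hw ?_ ?_ ?_ ?_)
  · rfl
  · intro s hs
    have h1 := hC s hs
    rw [Nat.card_eq_fintype_card, Fintype.card_subtype] at h1
    convert h1
  · intro s t a hs hwa hP
    obtain ⟨S, hSK, hSb⟩ := hS s t a hs hwa hP
    refine ⟨S, hSK, fun P hPs hPt => ?_⟩
    have h1 := hSb P hPs hPt
    rw [fsum_eq] at h1
    exact h1
  · exact hNU
  · refine le_trans (Finset.card_le_univ _) ?_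
    rw [← Nat.card_eq_fintype_card]
    exact hPat

end Pool.Agent.Sm
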