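import Pool.Agent.Lib.Sm.L.Pat
import Pool.Agent.Lib.Sm.L.LFacts
import Pool.Agent.Lib.Sm.L.GridSum

/-!
SMITH, block L: Theorem I for the points of a grid `(Ds, T)` with fixed coordinates off the
directions.
-/

set_option autoImplicit false

open Polynomial

namespace Pool.Agent.Sm

variable {k : Type} [Field k] {G V Pl : Type} [Group G] [AddCommGroup V] [DistribMulAction G V]

open Classical in
/-- The point with the coordinates `y` in the directions `tt` and `P` off them. -/
noncomputable def putG {g : k[X] × Finset ℕ} {I : Type} (tt : I ↪ g.2) (P : SmK.Pts k g.2)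
    (y : (i : I) → Irr k (vecG g P (Sum.inr (tt i))).natDegree) : SmK.Pts k g.2 := fun t =>
  if h : ∃ i, tt i = t then ⟨(y h.choose).1, by
    have h1 := (y h.choose).2
    have h2 : (vecG g P (Sum.inr (tt h.choose))).natDegree = t := by
      rw [vecG_deg_inr, h.choose_spec]
    exact ⟨h1.1, h1.2.1, h1.2.2.trans h2⟩⟩ else P t

theorem putG_dir {g : k[X] × Finset ℕ} {I : Type} (tt : I ↪ g.2) (P : SmK.Pts k g.2)
    (y : (i : I) → Irr k (vecG g P (Sum.inr (tt i))).natDegree) (i : I) :
    (putG tt P y (tt i)).1 = (y i).1 := by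
  have h : ∃ i', tt i' = tt i := ⟨i, rfl⟩
  have h1 : h.choose = i := tt.injective h.choose_spec
  unfold putG
  rw [dif_pos h]
  simp only
  rw [h1]

theorem putG_off {g : k[X] × Finset ℕ} {I : Type} (tt : I ↪ g.2) (P : SmK.Pts k g.2)
    (y : (i : I) → Irr k (vecG g P (Sum.inr (tt i))).natDegree) {t : g.2}
    (h : ∀ i, tt i ≠ t) : putG tt P y t = P t := by
  unfold putG
  rw [dif_neg]
  rintro ⟨i, hi⟩
  exact h i hi

theorem vecG_putG {g : k[X] × Finset ℕ} {I : Type} (tt : I ↪ g.2) (P : SmK.Pts k g.2)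
    (y : (i : I) → Irr k (vecG g P (Sum.inr (tt i))).natDegree) :
    vecG g (putG tt P y) =
      repl (vecG g P) (tt.trans Function.Embedding.inr) (fun i => (y i).1) := by
  funext j
  rcases j with Q | t
  · rw [repl_off]
    · rfl
    · intro i h
      exact absurd h (by simp)
  · by_cases h : ∃ i, tt i = t
    · obtain ⟨i, rfl⟩ := h
      have h1 : repl (vecG g P) (tt.trans Function.Embedding.inr) (fun i => (y i).1)
          (Sum.inr (tt i)) = (y i).1 := repl_dir _ (tt.trans Function.Embedding.inr) _ i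
      rw [h1]
      exact putG_dir tt P y i
    · rw [repl_off]
      · change (putG tt P y t).1 = (P t).1
        rw [putG_off tt P y fun i hi => h ⟨i, hi⟩]
      · intro i hi
        exact h ⟨i, Sum.inr_injective hi⟩

theorem dir_sum [Finite k] [∀ n, Fintype (Irr k n)] (S : Sys G V Pl) (ch : k[X] → G → ZMod 2)
    (d : TwData k) (m : ℕ) (hG : GridThm S ch d m) (R : ℕ) (η : ℝ) (hη : 0 < η) :
    ∃ n₀ : ℕ, ∀ n ≥ n₀, ∀ g : k[X] × Finset ℕ, (∀ P ∈ badP d, P.natDegree < N0 n) →
    SmK.IsGrid (badP d) (N0 n) n g →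
    ((Nat.card (PD g.1) + g.2.card : ℕ) : ℝ) ≤ 2 * Real.log n →
    ∀ (a b : CodeJ d (JG g)) (tt : Dir m ↪ g.2) (P : SmK.Pts k g.2),
    4 ∣ (tt none : ℕ) →
    Nat.card (FJ S ch d (vecG g P)) ≤ 2 ^ R →
    a ∈ Lfl (FJ S ch d (vecG g P)) (LamJ S ch d (vecG g P)) m →
    b ∈ FJ S ch d (vecG g P) →
    Perp (LamJ S ch d (vecG g P)) (m - 1) b →
    Nonempty (Supp d (FJ S ch d (vecG g P)) (Lfl (FJ S ch d (vecG g P)) (LamJ S ch d (vecG g P)))
      m a b (tt.trans Function.Embedding.inr)) →
    |fsum (fun x : SmK.Pts k g.2 =>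
        (∀ t, (∀ i, tt i ≠ t) → x t = P t) ∧ TypEq S ch d m (vecG g x) (vecG g P))
          (fun x => (-1 : ℝ) ^ (FFJ S ch d (vecG g x) m a b).val)| ≤
      η * ((∏ i, (Nat.card (Irr k (tt i : ℕ)) : ℝ)) /
        2 ^ ((m + 2) * (d.h + Nat.card (PD g.1) + (g.2.card - (m + 2))))) := by
  classical
  obtain ⟨n₀, hn₀⟩ := hG R η hη
  refine ⟨n₀, fun n hn g hN hg hfew a b tt P h4 hR ha hb hperp hsupp => ?_⟩
  have hp := pvec_vecG hN hg P
  have hprod := prod_vecG hg P
  have hev := (SmK.ev_mem (badP_irr d) hN hg P).1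
  have hdeg : (∏ j, vecG g P j).natDegree = n := by
    rw [hprod]
    exact (SmK.mem_DD.1 hev).2.1
  have hJcard : Nat.card (JG g) = Nat.card (PD g.1) + g.2.card := by
    rw [Nat.card_sum, Nat.card_eq_fintype_card (α := g.2), Fintype.card_coe]
  have hm2 : m + 2 ≤ g.2.card := by
    have h1 := Fintype.card_le_of_embedding tt
    rw [Fintype.card_coe, Fintype.card_option, Fintype.card_option, Fintype.card_fin] at h1
    exact h1
  have key := hn₀ (JG g) inferInstance (vecG g P) a b (tt.trans Function.Embedding.inr) hp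
    (by rw [hdeg]; exact hn)
    (by rw [hdeg, hJcard]; exact hfew)
    (by
      intro i
      rw [hdeg]
      change N0 n ≤ (vecG g P (Sum.inr (tt i))).natDegree
      rw [vecG_deg_inr]
      exact hg.large _ (tt i).2)
    (by
      rintro i (Q | t) h
      · exfalso
        change Q.1.natDegree = (vecG g P (Sum.inr (tt i))).natDegree at h
        rw [vecG_deg_inr] at h
        have h1 := hg.small Q.1 Q.2
        have h2 := hg.large _ (tt i).2
        omega
      · change (vecG g P (Sum.inr t)).natDegree = (vecG g P (Sum.inr (tt i))).natDegree at h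
        rw [vecG_deg_inr, vecG_deg_inr] at h
        have h1 : t = tt i := Subtype.ext h
        rw [h1]
        rfl)
    (by
      change 4 ∣ (vecG g P (Sum.inr (tt none))).natDegree
      rw [vecG_deg_inr]
      exact h4)
    hR ha hb hperp hsupp
  have hexp : (m + 2) * (d.h + (Nat.card (JG g) - (m + 2))) =
      (m + 2) * (d.h + Nat.card (PD g.1) + (g.2.card - (m + 2))) := by
    rw [hJcard]
    congr 1
    omega
  rw [hexp] at key
  have hpr : ∏ i : Dir m, (Nat.card (Irr k
      (vecG g P ((tt.trans Function.Embedding.inr) i)).natDegree) : ℝ) =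
      ∏ i, (Nat.card (Irr k (tt i : ℕ)) : ℝ) := by
    refine Finset.prod_congr rfl fun i _ => ?_
    have h1 : (vecG g P ((tt.trans Function.Embedding.inr) i)).natDegree = (tt i : ℕ) :=
      vecG_deg_inr P (tt i)
    rw [h1]
  rw [hpr] at key
  refine le_trans (le_of_eq ?_) key
  congr 1
  rw [finsum_eq_sum_of_fintype, fsum_eq, ← Finset.sum_filter]
  symm
  refine Finset.sum_bij (fun y _ => putG tt P y) ?_ ?_ ?_ ?_
  · intro y hy
    simp only [Finset.mem_filter, Finset.mem_univ, true_and] at hy ⊢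
    refine ⟨fun t ht => putG_off tt P y ht, ?_⟩
    rw [vecG_putG]
    exact hy
  · intro y _ y' _ h
    funext i
    apply Subtype.ext
    have h1 := putG_dir tt P y i
    have h2 := putG_dir tt P y' i
    rw [h] at h1
    rw [← h1, ← h2]
  · intro x hx
    simp only [Finset.mem_filter, Finset.mem_univ, true_and] at hx
    have hx1 : ∀ i : Dir m, (x (tt i)).1 ∈ Irr k (vecG g P (Sum.inr (tt i))).natDegree := by
      intro i
      rw [vecG_deg_inr]
      exact (x (tt i)).2
    have h1 : putG tt P (fun i => ⟨(x (tt i)).1, hx1 i⟩) = x := by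
      funext t
      by_cases h : ∃ i, tt i = t
      · obtain ⟨i, rfl⟩ := h
        exact Subtype.ext (putG_dir tt P _ i)
      · rw [putG_off tt P _ fun i hi => h ⟨i, hi⟩, hx.1 t fun i hi => h ⟨i, hi⟩]
    refine ⟨fun i => ⟨(x (tt i)).1, hx1 i⟩, ?_, h1⟩
    simp only [Finset.mem_filter, Finset.mem_univ, true_and]
    have h2 := vecG_putG tt P (fun i => ⟨(x (tt i)).1, hx1 i⟩)
    rw [h1] at h2
    have h3 := hx.2
    rw [h2] at h3
    exact h3
  · intro y _
    rw [vecG_putG]

end Pool.Agent.Sm
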