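import Pool.Agent.Lib.Sm.L.Final
import Pool.Agent.Lib.Sm.I.GridThm
import Pool.Agent.Lib.SmB.P5Odd
import Pool.Agent.Lib.SM.C.Hasse

/-!
SMITH, block L: the theorem for all squarefree `D`.
-/

set_option autoImplicit false

open Polynomial Pool.Agent.BSDFF

namespace Pool.Agent.Sm.L

open Pool.Agent.SmithE (chP NoFour twd twd_ell_iff)

variable {k : Type} [Field k] [Finite k]

/-- All the hypotheses of the abstract part hold for the instance. -/
theorem sysOf_ok' (Ω : Type) [Field Ω] [Algebra (RatFunc k) Ω] [IsSepClosure (RatFunc k) Ω]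
    (h2 : (2 : k) ≠ 0) (a b : k[X]) (ha : a ≠ 0) (hb : b ≠ 0) (hab : a ≠ b) :
    (Inst.sysOf Ω h2 ha hb hab).Ok :=
  Inst.sysOf_ok_of h2 ha hb hab (SmithC.hasse h2)

/-- Theorem I for the instance. -/
theorem gridThm' (Ω : Type) [Field Ω] [Algebra (RatFunc k) Ω] [IsSepClosure (RatFunc k) Ω]
    (h2 : (2 : k) ≠ 0) (a b : k[X]) (ha : a ≠ 0) (hb : b ≠ 0) (hab : a ≠ b) (u : k)
    (hu : ¬ IsSquare u) (hno : NoFour a b) (m : ℕ) (hm : 1 ≤ m) :
    GridThm (Inst.sysOf Ω h2 ha hb hab) (chP Ω) (twd u hu hno) m := by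
  have : IsSepClosed Ω := IsSepClosure.sep_closed (RatFunc k)
  have : IsGalois (RatFunc k) Ω := inferInstance
  refine grid_thm (sysOf_ok' Ω h2 a b ha hb hab) (Inst.chOk h2 ha hb hab hu hno) (a := 4)
    (C := 11 * Nat.card k) ?_ m hm
  exact SmB.chebOdd h2 _ _ (fun P h _ => by
    change Lib.SmD.sg Ω (Inst.plF P) = _
    rw [Inst.plF, dif_pos h]) (fun P h _ => by
    change Lib.SmD.ph Ω (Inst.plF P) = _
    rw [Inst.plF, dif_pos h])

/-- **All squarefree twists.** -/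
theorem all_twists (h2 : (2 : k) ≠ 0) (α β : k[X]) (h4 : No4 α β) (ε : ℝ) (hε : 0 < ε) :
    ∃ j n₀ : ℕ, ∀ n ≥ n₀,
      (Nat.card {D : k[X] // Squarefree D ∧ D.natDegree = n ∧ ¬ Good α β j D} : ℝ) ≤
        ε * (Nat.card {D : k[X] // Squarefree D ∧ D.natDegree = n} : ℝ) :=
  final_of h2 (SeparableClosure (RatFunc k)) (fun _ _ _ _ h => h)
    (sysOf_ok' _ h2) (gridThm' _ h2) α β h4 ε hε

end Pool.Agent.Sm.L
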