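import Pool.Agent.Lib.Sm.L.HalfInst
import Pool.Agent.Lib.Sm.L.BridgeP
import Pool.Agent.Lib.Sm.L.Done

/-!
SMITH, block L with parity: half of the twists with a finite place of multiplicative reduction have
corank 0 and half have corank 1.
-/

set_option autoImplicit false

open Polynomial Finset Pool.Agent.BSDFF

namespace Pool.Agent.Sm.L

variable {k : Type} [Field k] [Finite k]

/-- Monic squarefree twists prime to the bad places, both coranks at once. -/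
theorem half_corank' (Ω : Type) [Field Ω] [Algebra (RatFunc k) Ω] [IsSepClosure (RatFunc k) Ω]
    (h2 : (2 : k) ≠ 0) {α β : k[X]} (hno : No4 α β) {P : k[X]} (hP : Irreducible P)
    (hM : Mult.MultP P α β) (ε : ℝ) (hε : 0 < ε) : ∃ n₀ : ℕ, ∀ n ≥ n₀,
      |(Nat.card {D : k[X] // D.Monic ∧ Squarefree D ∧ IsCoprime D (α * β * (α - β)) ∧
          D.natDegree = n ∧ HasCorank k Ω (crv2 (D * α) (D * β)) 0} : ℝ) -
        Nat.card {D : k[X] // D.Monic ∧ Squarefree D ∧ IsCoprime D (α * β * (α - β)) ∧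
          D.natDegree = n} / 2| ≤ ε * (Nat.card k : ℝ) ^ n ∧
      |(Nat.card {D : k[X] // D.Monic ∧ Squarefree D ∧ IsCoprime D (α * β * (α - β)) ∧
          D.natDegree = n ∧ HasCorank k Ω (crv2 (D * α) (D * β)) 1} : ℝ) -
        Nat.card {D : k[X] // D.Monic ∧ Squarefree D ∧ IsCoprime D (α * β * (α - β)) ∧
          D.natDegree = n} / 2| ≤ ε * (Nat.card k : ℝ) ^ n := by
  obtain ⟨u, hu⟩ := exists_nonsq h2
  refine half_inst (Ω := Ω) h2 hno hP hM hu
    (fun m hm => gridThm' Ω h2 α β hno.ne.1 hno.ne.2.1 hno.ne.2.2 u hu hno.noFour m hm)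
    (fun D => HasCorank k Ω (crv2 (D * α) (D * β)) 0)
    (fun D => HasCorank k Ω (crv2 (D * α) (D * β)) 1) ?_ ?_ ε hε
  · intro D hD hf hB
    have h1 := hasCorank_zero (Ω := Ω) h2 hno.ne.1 hno.ne.2.1 hno.ne.2.2 hno hD hf hB
    exact ⟨h1, fun h3 => absurd (HasCorank.unique k Ω _ h1 h3) (by norm_num)⟩
  · intro D hD hf h8 hB
    have h1 := hasCorank_one (Ω := Ω) h2 hno.ne.1 hno.ne.2.1 hno.ne.2.2 hno hD h8 hB
    exact ⟨h1, fun h3 => absurd (HasCorank.unique k Ω _ h1 h3) (by norm_num)⟩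

/-- Monic squarefree twists prime to the bad places. -/
theorem half_corank (Ω : Type) [Field Ω] [Algebra (RatFunc k) Ω] [IsSepClosure (RatFunc k) Ω]
    (h2 : (2 : k) ≠ 0) {α β : k[X]} (hno : No4 α β) {P : k[X]} (hP : Irreducible P)
    (hM : Mult.MultP P α β) {r : ℕ} (hr : r ≤ 1) (ε : ℝ) (hε : 0 < ε) : ∃ n₀ : ℕ, ∀ n ≥ n₀,
      |(Nat.card {D : k[X] // D.Monic ∧ Squarefree D ∧ IsCoprime D (α * β * (α - β)) ∧
          D.natDegree = n ∧ HasCorank k Ω (crv2 (D * α) (D * β)) r} : ℝ) -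
        (Nat.card {D : k[X] // D.Monic ∧ Squarefree D ∧ IsCoprime D (α * β * (α - β)) ∧
          D.natDegree = n} : ℝ) / 2| ≤ ε * (Nat.card k : ℝ) ^ n := by
  obtain ⟨n₀, h⟩ := half_corank' Ω h2 hno hP hM ε hε
  refine ⟨n₀, fun n hn => ?_⟩
  rcases Nat.le_one_iff_eq_zero_or_eq_one.1 hr with rfl | rfl
  · exact (h n hn).1
  · exact (h n hn).2

/-- The hypothesis of `parity_of`. -/
theorem half_hhalf (h2 : (2 : k) ≠ 0) : ∀ a b : k[X], No4 a b →
      (∃ l : k[X], Irreducible l ∧ MultAt l a b) →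
      ∀ ε : ℝ, 0 < ε → ∃ n₀ : ℕ, ∀ n ≥ n₀, ∀ r : ℕ, r ≤ 1 →
      |(Nat.card {D : k[X] // D.Monic ∧ Squarefree D ∧ IsCoprime D (a * b * (a - b)) ∧
        D.natDegree = n ∧
        HasCorank k (SeparableClosure (RatFunc k)) (crv2 (D * a) (D * b)) r} : ℝ) -
        (Nat.card {D : k[X] // D.Monic ∧ Squarefree D ∧ IsCoprime D (a * b * (a - b)) ∧
        D.natDegree = n} : ℝ) / 2| ≤ ε * (Nat.card k : ℝ) ^ n := by
  rintro a b hno ⟨l, hl, hM⟩ ε hε
  obtain ⟨n₀, h⟩ := half_corank' (SeparableClosure (RatFunc k)) h2 hno hl hM ε hε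
  refine ⟨n₀, fun n hn r hr => ?_⟩
  rcases Nat.le_one_iff_eq_zero_or_eq_one.1 hr with rfl | rfl
  · exact (h n hn).1
  · exact (h n hn).2

end Pool.Agent.Sm.L
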