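import Pool.Agent.Lib.Sm.NU

/-!
SMITH, block L: near uniformity of the symbols for a family of distinct degrees indexed by any
finite type.
-/

set_option autoImplicit false

open Polynomial

namespace Pool.Agent.Sm

private lemma nug_exists_mono {ι : Type} [Fintype ι] (deg : ι → ℕ)
    (hinj : Function.Injective deg) :
    ∃ m, m = Fintype.card ι ∧ ∃ e : Fin m ≃ ι, StrictMono fun j => deg (e j) := by
  classical
  refine ⟨Fintype.card ι, rfl, ?_⟩
  set s : Finset ℕ := Finset.univ.image deg with hs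
  have hc : s.card = Fintype.card ι := by
    rw [hs, Finset.card_image_of_injective _ hinj, Finset.card_univ]
  let o := s.orderIsoOfFin hc
  let f : ι → s := fun i => ⟨deg i, Finset.mem_image_of_mem deg (Finset.mem_univ i)⟩
  have hf : Function.Bijective f := by
    constructor
    · intro i j h
      exact hinj (congrArg Subtype.val h)
    · rintro ⟨x, hx⟩
      obtain ⟨i, _, rfl⟩ := Finset.mem_image.1 hx
      exact ⟨i, rfl⟩
  refine ⟨o.toEquiv.trans (Equiv.ofBijective f hf).symm, ?_⟩
  intro a b hab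
  have h1 : ∀ j, deg ((o.toEquiv.trans (Equiv.ofBijective f hf).symm) j) = (o j : ℕ) := by
    intro j
    have h2 : f ((Equiv.ofBijective f hf).symm (o j)) = o j :=
      (Equiv.ofBijective f hf).apply_symm_apply (o j)
    exact congrArg Subtype.val h2
  simp only [h1]
  exact o.strictMono hab

theorem near_uniform_gen : ∃ c : ℝ, 0 < c ∧ ∀ (k : Type) (_ : Field k) (_ : Finite k),
    (2 : k) ≠ 0 → ∀ (F : Type) (_ : Finite F) (f : F → k[X]),
    Function.Injective f → (∀ x, (f x).Monic) → (∀ x, Irreducible (f x)) →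
    ∀ (ι : Type) (_ : Fintype ι) (deg : ι → ℕ) (n N0 : ℕ), Function.Injective deg →
    (∀ i, N0 ≤ deg i) → (∀ x, (f x).natDegree < N0) →
    ∑ᶠ x, (f x).natDegree + ∑ i, deg i ≤ n →
    (Fintype.card ι : ℝ) * 2 ^ (Nat.card F + Fintype.card ι) * c * n ^ 2 ≤ √(Nat.card k) ^ N0 →
    ∀ (ξ : ι → F → ZMod 2) (η : ι → ι → ZMod 2),
    Nat.card {P : (i : ι) → Irr k (deg i) //
      (∀ i x, leg (P i).1 (f x) = ξ i x) ∧ ∀ i j, deg i < deg j → leg (P j).1 (P i).1 = η i j} *
      2 ^ (Fintype.card ι * Nat.card F + (Fintype.card ι).choose 2) ≤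
      2 * ∏ i, Nat.card (Irr k (deg i)) := by
  obtain ⟨c, hc, h⟩ := near_uniform
  refine ⟨c, hc, ?_⟩
  intro k _ _ h2 F _ f hf1 hf2 hf3 ι _ deg n N0 hinj hN0 hfN hsum hnum ξ η
  obtain ⟨m, hm, e, he⟩ := nug_exists_mono deg hinj
  rw [← hm] at hnum ⊢
  have hsum' : ∑ j, deg (e j) = ∑ i, deg i := e.sum_comp deg
  have key := h k inferInstance inferInstance h2 F inferInstance f hf1 hf2 hf3 m n N0
    (fun j => deg (e j)) he (fun j => hN0 _) hfN (by rw [hsum']; exact hsum) hnum
    (fun j x => ξ (e j) x) (fun p => η (e p.1.1) (e p.1.2))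
  have hpairs : Nat.card {p : Fin m × Fin m // p.1 < p.2} = m.choose 2 := by
    classical
    rw [Nat.card_eq_fintype_card, Fintype.card_subtype]
    have := Finset.card_powersetCard 2 (Finset.univ : Finset (Fin m))
    rw [Finset.card_univ, Fintype.card_fin] at this
    rw [← this]
    refine Finset.card_bij (fun p _ => {p.1, p.2}) ?_ ?_ ?_
    · rintro ⟨a, b⟩ hab
      simp only [Finset.mem_filter, Finset.mem_univ, true_and] at hab
      rw [Finset.mem_powersetCard]
      exact ⟨Finset.subset_univ _, Finset.card_pair hab.ne⟩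
    · rintro ⟨a, b⟩ hab ⟨a', b'⟩ hab' hh
      simp only [Finset.mem_filter, Finset.mem_univ, true_and] at hab hab'
      have h1 : a ∈ ({a', b'} : Finset (Fin m)) := by rw [← hh]; simp
      have h2 : b ∈ ({a', b'} : Finset (Fin m)) := by rw [← hh]; simp
      have h3 : a' ∈ ({a, b} : Finset (Fin m)) := by rw [hh]; simp
      have h4 : b' ∈ ({a, b} : Finset (Fin m)) := by rw [hh]; simp
      simp only [Finset.mem_insert, Finset.mem_singleton] at h1 h2 h3 h4
      simp only [Prod.mk.injEq]
      omega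
    · intro s hs
      rw [Finset.mem_powersetCard] at hs
      obtain ⟨a, b, hab, rfl⟩ := Finset.card_eq_two.1 hs.2
      rcases lt_or_gt_of_ne hab with h1 | h1
      · exact ⟨(a, b), by simpa using h1, rfl⟩
      · exact ⟨(b, a), by simpa using h1, Finset.pair_comm b a⟩
  have hprod : Nat.card ((j : Fin m) → Irr k (deg (e j))) = ∏ i, Nat.card (Irr k (deg i)) := by
    rw [Nat.card_pi]
    exact e.prod_comp fun i => Nat.card (Irr k (deg i))
  rw [hpairs, hprod] at key
  refine le_trans (Nat.mul_le_mul_right _ ?_) key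
  -- injection
  have hfin : ∀ n : ℕ, (Irr k n).Finite := by
    intro n
    have h : Irr k n ⊆ (degreeLT k (n + 1) : Set k[X]) := by
      intro D hD
      rw [SetLike.mem_coe, mem_degreeLT]
      refine lt_of_le_of_lt degree_le_natDegree ?_
      rw [hD.2.2]
      exact_mod_cast Nat.lt_succ_self n
    refine Set.Finite.subset ?_ h
    have : Finite (degreeLT k (n + 1)) := Finite.of_equiv _ (degreeLTEquiv k (n + 1)).toEquiv.symm
    exact Set.toFinite _
  have hfin' : ∀ n : ℕ, Finite (Irr k n) := fun n => (hfin n).to_subtype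
  refine Nat.card_le_card_of_injective (fun P => ⟨fun j => P.1 (e j), ?_, ?_⟩) ?_
  · intro j x
    exact P.2.1 (e j) x
  · intro p
    exact P.2.2 _ _ (he p.2)
  · rintro ⟨P, hP⟩ ⟨P', hP'⟩ hPP
    simp only [Subtype.mk.injEq] at hPP ⊢
    funext i
    have := congrFun hPP (e.symm i)
    rwa [e.apply_symm_apply] at this

end Pool.Agent.Sm
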