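import Mathlib

/-!
SMITH, block L: the number of types (Selmer group in codes, relations, pairs of codes) over one
pattern of symbols is bounded in terms of the order of the explicit Selmer group `U`.
-/

set_option autoImplicit false

namespace Pool.Agent.Sm

/-- the bound for the number of types -/
def typeBound (N m : ℕ) : ℕ := 2 ^ N * (2 ^ (N * 2 ^ N)) ^ m * (N * N)

private lemma tc_card_sets {α : Type} [Finite α] (A : Set α) :
    Nat.card {S : Set α // S ⊆ A} = 2 ^ Nat.card A := by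
  classical
  have e : {S : Set α // S ⊆ A} ≃ Set A :=
    { toFun := fun S => {x | (x : α) ∈ S.1}
      invFun := fun T => ⟨Subtype.val '' T, by rintro _ ⟨x, _, rfl⟩; exact x.2⟩
      left_inv := fun S => by
        ext x
        constructor
        · rintro ⟨y, hy, rfl⟩
          exact hy
        · intro hx
          exact ⟨⟨x, S.2 hx⟩, hx, rfl⟩
      right_inv := fun T => by
        ext x
        simp }
  have : Fintype A := Fintype.ofFinite _
  rw [Nat.card_congr e, Nat.card_eq_fintype_card, Fintype.card_set, Nat.card_eq_fintype_card]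

private lemma tc_card_rel {E : Type} [Finite E] (U : Set E) :
    Nat.card {y : E × (E → ZMod 2) // y.1 ∈ U ∧ ∀ c ∉ U, y.2 c = 0} ≤
      Nat.card U * 2 ^ Nat.card U := by
  classical
  have : Finite (U × (U → ZMod 2)) := inferInstance
  let f : {y : E × (E → ZMod 2) // y.1 ∈ U ∧ ∀ c ∉ U, y.2 c = 0} → U × (U → ZMod 2) :=
    fun y => (⟨y.1.1, y.2.1⟩, fun c => y.1.2 c)
  have hf : Function.Injective f := by
    rintro ⟨⟨a, g⟩, h1, h2⟩ ⟨⟨a', g'⟩, h1', h2'⟩ h
    simp only [f, Prod.mk.injEq, Subtype.mk.injEq, funext_iff, Subtype.forall] at h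
    simp only [Subtype.mk.injEq, Prod.mk.injEq]
    refine ⟨h.1, funext fun c => ?_⟩
    by_cases hc : c ∈ U
    · exact h.2 c hc
    · exact (h2 c hc).trans (h2' c hc).symm
  refine le_trans (Nat.card_le_card_of_injective f hf) ?_
  rw [Nat.card_prod, Nat.card_fun, Nat.card_zmod]

theorem type_count {E : Type} [Finite E] (U : Set E) (N m : ℕ) (hU : Nat.card U ≤ N)
    (Q : (Set E × (Fin m → Set (E × (E → ZMod 2)))) × (E × E) → Prop)
    (hQ : ∀ x, Q x → x.1.1 ⊆ U ∧ (∀ i, x.1.2 i ⊆ {y | y.1 ∈ U ∧ ∀ c ∉ U, y.2 c = 0}) ∧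
      x.2.1 ∈ U ∧ x.2.2 ∈ U) : Nat.card {x // Q x} ≤ typeBound N m := by
  classical
  set A : Set (E × (E → ZMod 2)) := {y | y.1 ∈ U ∧ ∀ c ∉ U, y.2 c = 0} with hA
  let f : {x // Q x} → ({S : Set E // S ⊆ U} × (Fin m → {S : Set (E × (E → ZMod 2)) // S ⊆ A})) ×
      (U × U) := fun x =>
    ((⟨x.1.1.1, (hQ x.1 x.2).1⟩, fun i => ⟨x.1.1.2 i, (hQ x.1 x.2).2.1 i⟩),
      (⟨x.1.2.1, (hQ x.1 x.2).2.2.1⟩, ⟨x.1.2.2, (hQ x.1 x.2).2.2.2⟩))
  have hf : Function.Injective f := by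
    rintro ⟨⟨⟨S, L⟩, a, b⟩, h1⟩ ⟨⟨⟨S', L'⟩, a', b'⟩, h1'⟩ h
    simp only [f, Prod.mk.injEq, Subtype.mk.injEq, funext_iff] at h
    simp only [Subtype.mk.injEq, Prod.mk.injEq]
    exact ⟨⟨h.1.1, funext h.1.2⟩, h.2.1, h.2.2⟩
  refine le_trans (Nat.card_le_card_of_injective f hf) ?_
  have hAc : Nat.card A ≤ N * 2 ^ N :=
    le_trans (tc_card_rel U) (Nat.mul_le_mul hU (Nat.pow_le_pow_right two_pos hU))
  rw [Nat.card_prod, Nat.card_prod, Nat.card_prod, Nat.card_fun, tc_card_sets, tc_card_sets,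
    Nat.card_eq_fintype_card (α := Fin m), Fintype.card_fin, typeBound]
  refine Nat.mul_le_mul (Nat.mul_le_mul (Nat.pow_le_pow_right two_pos hU) ?_)
    (Nat.mul_le_mul hU hU)
  exact Nat.pow_le_pow_left (Nat.pow_le_pow_right two_pos hAc) m

end Pool.Agent.Sm
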