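import Pool.Agent.Lib.Sm.L.HordW
import Pool.Agent.Lib.Sm.L.HalfDone
import Pool.Agent.Lib.SmH.MainOf
import Pool.Agent.Lib.SmH.Inst.HOk

/-!
SMITH, heights: the order of vanishing for `100` per cent of the quadratic twists.
-/

set_option autoImplicit false

open Polynomial Pool.Agent.BSDFF Pool.Agent

namespace Pool.Agent.Sm.L

open Pool.Agent.SmithE (chP NoFour twd twd_ell_iff)

variable {k : Type} [Field k] [Finite k]

omit [Finite k] in
theorem No4.ne_mul {a b : k[X]} (h : No4 a b) (c : k) : b ≠ C c * a := fun h1 =>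
  h.n0 c a (by rw [h1]; ring)

/-- Reciprocity over `SmJ`. -/
theorem recipM_sysJ {Ω : Type} [Field Ω] [Algebra (RatFunc k) Ω] [IsSepClosure (RatFunc k) Ω]
    (h2 : (2 : k) ≠ 0) {a b : k[X]} (ha : a ≠ 0) (hb : b ≠ 0) (hab : a ≠ b) :
    (SmH.sysJ (Inst.sysOf Ω h2 ha hb hab)).RecipM (SmP.hfM Ω) :=
  Inst.recipM_sysOf h2 ha hb hab

open scoped Classical in
/-- The order of vanishing for `100` per cent of the monic squarefree `D` prime to the bad
primes. -/
theorem hord_done (h2 : (2 : k) ≠ 0) (a b : k[X]) (hno : No4 a b) (ε : ℝ) (hε : 0 < ε) :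
    ∃ n₀ : ℕ, ∀ n ≥ n₀,
      (Nat.card {D : k[X] // D.Monic ∧ Squarefree D ∧ IsCoprime D (a * b * (a - b)) ∧
        D.natDegree = n ∧ ¬ OrdC k (crv2 (D * a) (D * b))} : ℝ) ≤
        ε * (Nat.card k : ℝ) ^ n := by
  have hsc : IsSepClosed (SeparableClosure (RatFunc k)) :=
    IsSepClosure.sep_closed (RatFunc k)
  have hgal : IsGalois (RatFunc k) (SeparableClosure (RatFunc k)) := inferInstance
  obtain ⟨u, hu⟩ := exists_nonsq h2
  have hOk := sysOf_ok' (SeparableClosure (RatFunc k)) h2 a b hno.ne.1 hno.ne.2.1 hno.ne.2.2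
  obtain ⟨H, dg, hH, hDeg, hdg, -, hPD, hj⟩ := SmH.hok_sysE
    (Ω := SeparableClosure (RatFunc k)) h2 hno.ne.1 hno.ne.2.1 hno.ne.2.2 hno.ne_mul
  have hCh := Inst.chOk (Ω := SeparableClosure (RatFunc k)) h2 hno.ne.1 hno.ne.2.1 hno.ne.2.2
    hu hno.noFour
  refine hord_of_inst (Ω := SeparableClosure (RatFunc k)) h2 hno hOk hH hdg hDeg
    (fun f hf => hCh.hom f hf) (B := badP (twd u hu hno.noFour))
    (fun D h3 h4 h5 => mem_DD_badP hu hno.noFour h3 h4 h5 rfl)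
    (fun ε hε => good_of_inst h2 hno hu _ hOk hCh
      (fun m hm => gridThm' _ h2 a b hno.ne.1 hno.ne.2.1 hno.ne.2.2 u hu hno.noFour m hm) ε hε)
    (fun ε hε => ?_) ε hε
  have hR : (SmH.sysJ (Inst.sysOf (SeparableClosure (RatFunc k)) h2 hno.ne.1 hno.ne.2.1
      hno.ne.2.2)).RecipM H.j := by
    rw [hj]
    exact recipM_sysJ h2 hno.ne.1 hno.ne.2.1 hno.ne.2.2
  refine SmH.main_of (SmH.okJ hOk) hH hR (SmH.chOkJ hCh) (fun P hP hi => ?_) (a0 := 4)
    (C := 11 * Nat.card k) ?_ ε hε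
  · rw [Inst.plF_eq hi]
    exact Ht.deg_placeOf h2 hPD hi
  · exact SmB.chebOdd h2 _ _ (fun P h _ => by
      change Lib.SmD.sg (SeparableClosure (RatFunc k)) (Inst.plF P) = _
      rw [Inst.plF, dif_pos h]) (fun P h _ => by
      change Lib.SmD.ph (SeparableClosure (RatFunc k)) (Inst.plF P) = _
      rw [Inst.plF, dif_pos h])

/-- **The final theorem of SMITH with the heights.** -/
theorem heights_done (h2 : (2 : k) ≠ 0) (α β : k[X]) (h4 : No4 α β) :
    ∃ δ : ℝ, 0 < δ ∧ ∀ ε : ℝ, 0 < ε → ∃ j n₀ : ℕ, ∀ n ≥ n₀,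
      (Nat.card {D : k[X] // (Squarefree D ∧ D.natDegree = n) ∧
        ¬ (Good α β j D ∧ Ord α β D)} : ℝ) ≤
        ε * (Nat.card {D : k[X] // Squarefree D ∧ D.natDegree = n} : ℝ) ∧
      δ * (Nat.card {D : k[X] // Squarefree D ∧ D.natDegree = n} : ℝ) ≤
        (Nat.card {D : k[X] // Squarefree D ∧ D.natDegree = n ∧ MultD α β D} : ℝ) ∧
      |(Nat.card {D : k[X] // (Squarefree D ∧ D.natDegree = n ∧ MultD α β D) ∧
          Rank0 α β D} : ℝ) -
        (Nat.card {D : k[X] // Squarefree D ∧ D.natDegree = n ∧ MultD α β D} : ℝ) / 2| ≤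
        ε * (Nat.card {D : k[X] // Squarefree D ∧ D.natDegree = n ∧ MultD α β D} : ℝ) ∧
      |(Nat.card {D : k[X] // (Squarefree D ∧ D.natDegree = n ∧ MultD α β D) ∧
          Corank1 α β D} : ℝ) -
        (Nat.card {D : k[X] // Squarefree D ∧ D.natDegree = n ∧ MultD α β D} : ℝ) / 2| ≤
        ε * (Nat.card {D : k[X] // Squarefree D ∧ D.natDegree = n ∧ MultD α β D} : ℝ) :=
  heights_of h2 (half_hhalf h2) (hord_done h2) α β h4

end Pool.Agent.Sm.L
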