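import Pool.Agent.Lib.Sm.L.Asm
import Pool.Agent.Lib.Sm.Inst.ChInst

/-!
SMITH, block L: the theorem for all squarefree `D`, from `Sys.Ok` and Theorem I.
-/

set_option autoImplicit false

open Polynomial Pool.Agent.BSDFF

namespace Pool.Agent.Sm.L

open Pool.Agent.SmK (DD)
open Pool.Agent.SmithE (chP NoFour twd twd_ell_iff)

/-- All squarefree twists, from `Sys.Ok` and Theorem I. -/
theorem final_of {k : Type} [Field k] [Finite k] (h2 : (2 : k) ≠ 0)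
    (Ω : Type) [Field Ω] [Algebra (RatFunc k) Ω] [IsSepClosure (RatFunc k) Ω]
    (hΩ : ∀ (a b : k[X]) (j : ℕ) (D : k[X]), GoodOn k Ω (crv2 (D * a) (D * b)) j → Good a b j D)
    (hOk : ∀ (a b : k[X]) (ha : a ≠ 0) (hb : b ≠ 0) (hab : a ≠ b),
      (Inst.sysOf Ω h2 ha hb hab).Ok)
    (hG : ∀ (a b : k[X]) (ha : a ≠ 0) (hb : b ≠ 0) (hab : a ≠ b) (u : k) (hu : ¬ IsSquare u)
      (hno : NoFour a b) (m : ℕ), 1 ≤ m →
      GridThm (Inst.sysOf Ω h2 ha hb hab) (chP Ω) (twd u hu hno) m)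
    (α β : k[X]) (h4 : No4 α β) (ε : ℝ) (hε : 0 < ε) :
    ∃ j n₀ : ℕ, ∀ n ≥ n₀,
      (Nat.card {D : k[X] // Squarefree D ∧ D.natDegree = n ∧ ¬ Good α β j D} : ℝ) ≤
        ε * (Nat.card {D : k[X] // Squarefree D ∧ D.natDegree = n} : ℝ) := by
  refine all_squarefree (fun a b hno ε hε => ?_) ?_ α β h4 ε hε
  · obtain ⟨u, hu⟩ := exists_nonsq h2
    obtain ⟨j₀, h1⟩ := good_of_inst (Ω := Ω) h2 hno hu _ (hOk a b hno.ne.1 hno.ne.2.1 hno.ne.2.2)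
      (Inst.chOk h2 hno.ne.1 hno.ne.2.1 hno.ne.2.2 hu hno.noFour)
      (hG a b hno.ne.1 hno.ne.2.1 hno.ne.2.2 u hu hno.noFour) ε hε
    refine ⟨j₀, fun j hj => ?_⟩
    obtain ⟨n₀, h3⟩ := h1 j hj
    refine ⟨n₀, fun n hn => le_trans ?_ (h3 n hn)⟩
    have hfin : Finite {D : k[X] // D.Monic ∧ Squarefree D ∧ IsCoprime D (a * b * (a - b)) ∧
        D.natDegree = n ∧ ¬ GoodOn k Ω (crv2 (D * a) (D * b)) j} :=
      Finite.of_injective (β := {D : k[X] // D ∈ SmK.Mon k n})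
        (fun D => ⟨D.1, SmK.mem_Mon.2 ⟨D.2.1, D.2.2.2.2.1⟩⟩)
        fun D D' h => Subtype.ext (congrArg (fun z : {D : k[X] // D ∈ SmK.Mon k n} => z.1) h)
    have h5 : Nat.card {D : k[X] // D.Monic ∧ Squarefree D ∧ IsCoprime D (a * b * (a - b)) ∧
        D.natDegree = n ∧ ¬ Good a b j D} ≤
        Nat.card {D : k[X] // D.Monic ∧ Squarefree D ∧ IsCoprime D (a * b * (a - b)) ∧
        D.natDegree = n ∧ ¬ GoodOn k Ω (crv2 (D * a) (D * b)) j} := by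
      refine Nat.card_le_card_of_injective (fun D => ⟨D.1, D.2.1, D.2.2.1, D.2.2.2.1,
        D.2.2.2.2.1, fun hg => D.2.2.2.2.2 (hΩ a b j D.1 hg)⟩) fun D D' h => Subtype.ext
          (congrArg (fun z : {D : k[X] // D.Monic ∧ Squarefree D ∧
            IsCoprime D (a * b * (a - b)) ∧
            D.natDegree = n ∧ ¬ GoodOn k Ω (crv2 (D * a) (D * b)) j} => z.1) h)
    exact_mod_cast h5
  · obtain ⟨c, hc, h⟩ := card_squarefree_ge (k := k) h2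
    exact ⟨c, hc, 0, fun n _ => h n⟩

end Pool.Agent.Sm.L
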