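import Pool.Agent.Lib.Sm.L.Count
import Pool.Agent.Lib.Sm.L.Bridge
import Pool.Agent.Lib.SM.E.TwistIso
import Pool.Agent.Lib.SmF.Base

/-!
SMITH, block L4. `good_of_selZ`: the conclusions for the quadratic twist `E_D` from the bound
`4 #{Psi : Selmer cocycles of level j} < 16^j` in the abstract structure `Sys`.
-/

set_option autoImplicit false

open Polynomial WeierstrassCurve Pool.Agent.BSDFF Pool.Agent.BSDFF.MW Pool.Agent.SmithE

namespace Pool.Agent.Sm.L

section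

variable {F : Type} [Field F] {a b c : F}

theorem crv_disc : (crv a b c).Δ = 16 * ((a - b) * (a - c) * (b - c)) ^ 2 := by
  simp only [WeierstrassCurve.Δ, WeierstrassCurve.b₂, WeierstrassCurve.b₄, WeierstrassCurve.b₆,
    WeierstrassCurve.b₈, crv_a₁, crv_a₃, crv_a₂, crv_a₄, crv_a₆]
  ring

theorem crv_isElliptic (h2 : (2 : F) ≠ 0) (hab : a ≠ b) (hac : a ≠ c) (hbc : b ≠ c) :
    (crv a b c).IsElliptic := by
  refine ⟨?_⟩
  rw [isUnit_iff_ne_zero, crv_disc]
  refine mul_ne_zero ?_ (pow_ne_zero 2 (mul_ne_zero (mul_ne_zero (sub_ne_zero.mpr hab)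
    (sub_ne_zero.mpr hac)) (sub_ne_zero.mpr hbc)))
  have : (16 : F) = 2 ^ 4 := by norm_num
  rw [this]
  exact pow_ne_zero 4 h2

end

section

variable {k : Type} [Field k]

theorem isSquare_ratFunc {a : k[X]} (h : IsSquare (algebraMap k[X] (RatFunc k) a)) :
    ∃ f : k[X], a = f ^ 2 := by
  obtain ⟨z, hz⟩ := h
  obtain ⟨f, hf⟩ := IsIntegrallyClosed.exists_algebraMap_eq_of_isIntegral_pow
    (R := k[X]) (K := RatFunc k) (x := z) (n := 2) (by norm_num)
    (by rw [pow_two, ← hz]; exact isIntegral_algebraMap)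
  refine ⟨f, ?_⟩
  apply IsFractionRing.injective k[X] (RatFunc k)
  rw [map_pow, hf, hz, pow_two]

open scoped Classical in
theorem exists_pow_div {M : Type} [AddCommGroup M] (h : ∀ P : M, ∃ Q, P = Q + Q) (i : ℕ) (P : M) :
    ∃ Q, 2 ^ i • Q = P := by
  induction i with
  | zero => exact ⟨P, by rw [pow_zero, one_nsmul]⟩
  | succ i ih =>
    obtain ⟨Q, hQ⟩ := ih
    obtain ⟨R, hR⟩ := h Q
    exact ⟨R, by rw [pow_succ', mul_nsmul, two_nsmul, ← hR, hQ]⟩

variable [Finite k]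

open scoped Classical in
/-- The four conclusions for the curve `y^2 = (x - a)(x - b)(x - c)` over `k(t)`. -/
theorem goodOn_crv (Ω : Type) [Field Ω] [Algebra (RatFunc k) Ω] [IsGalois (RatFunc k) Ω]
    [IsSepClosed Ω] {a b c : RatFunc k} (h2 : (2 : RatFunc k) ≠ 0)
    (hab : a ≠ b) (hac : a ≠ c) (hbc : b ≠ c)
    (ha : ¬ IsSquare ((a - b) * (a - c))) (hb : ¬ IsSquare ((b - a) * (b - c)))
    (hc : ¬ IsSquare ((c - a) * (c - b))) {j : ℕ} (hj : 1 ≤ j)
    (hfin : Finite (ZSel k Ω (crv a b c) (2 ^ j)))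
    (hlt : 4 * Nat.card (ZSel k Ω (crv a b c) (2 ^ j)) < 16 ^ j) :
    GoodOn k Ω (crv a b c) j := by
  have := crv_isElliptic h2 hab hac hbc
  refine goodOn_of Ω (crv a b c) hj hfin hlt (fun i => ?_) (fun i hi => ?_) (fun i P => ?_)
  · exact card_pt_torsion (Ω := Ω) hab hac hbc h2 i
  · exact card_gn_crv h2 hab hac hbc ha hb hc i hi
  · exact exists_pow_div (pt_exists_half (Ω := Ω) hab hac hbc h2) i P

/-- E6 for the curve `y^2 = (x - a)(x - b)(x - c)` over `K` at the places of `Ω`. -/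
def E6Prop (k : Type) {K : Type} (Ω : Type) [Field k] [Field K] [Field Ω] [Algebra k K]
    [Algebra K Ω] (a b c : K) : Prop :=
  open scoped Classical in
  ∀ w : ValuationSubring Ω, w ≠ ⊤ →
    (∀ x : k, algebraMap K Ω (algebraMap k K x) ∈ w) → ∀ (j : ℕ) (Q : Pt Ω a b c),
    (∀ s ∈ w.decompositionSubgroup K, (2 : ℕ) ^ j • (s • Q - Q) = 0) →
    ∃ Q' : Pt Ω a b c, (∃ i : ℕ, (2 : ℕ) ^ i • Q' = 0) ∧
      ∀ s ∈ w.decompositionSubgroup K, s • Q - Q = s • Q' - Q'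

open scoped Classical in
/-- The four conclusions for a quadratic twist. -/
theorem goodOn_twist {Ω : Type} [Field Ω] [Algebra (RatFunc k) Ω]
    [IsSepClosure (RatFunc k) Ω] {a b c D : RatFunc k} (h2 : (2 : RatFunc k) ≠ 0)
    (hab : a ≠ b) (hac : a ≠ c) (hbc : b ≠ c) (hD : D ≠ 0)
    (ha : ¬ IsSquare ((a - b) * (a - c))) (hb : ¬ IsSquare ((b - a) * (b - c)))
    (hc : ¬ IsSquare ((c - a) * (c - b)))
    (hE6 : E6Prop k Ω (D * a) (D * b) (D * c))
    {Pl : Type} (S : Sys (Ω ≃ₐ[RatFunc k] Ω) (VV Ω a b c) Pl)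
    (hNN : S.NN = SmD.NN (RatFunc k) Ω)
    (hDv : ∀ v : Pl, ∃ w : ValuationSubring Ω, w ≠ ⊤ ∧
      (∀ x : k, algebraMap (RatFunc k) Ω (algebraMap k (RatFunc k) x) ∈ w) ∧
      S.D v = w.decompositionSubgroup (RatFunc k))
    {j : ℕ} (hj : 1 ≤ j)
    (hfin : Finite {Psi // S.IsSel (Pool.Agent.Lib.SmD.chi (RatFunc k) D) j Psi})
    (hlt : 4 * Nat.card {Psi // S.IsSel (Pool.Agent.Lib.SmD.chi (RatFunc k) D) j Psi} < 16 ^ j) :
    GoodOn k Ω (crv (D * a) (D * b) (D * c)) j := by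
  have hsc : IsSepClosed Ω := IsSepClosure.sep_closed (RatFunc k)
  have m12 : D * a ≠ D * b := fun h => hab (mul_left_cancel₀ hD h)
  have m13 : D * a ≠ D * c := fun h => hac (mul_left_cancel₀ hD h)
  have m23 : D * b ≠ D * c := fun h => hbc (mul_left_cancel₀ hD h)
  obtain ⟨d, hd⟩ := SmF.exists_sqrt (K := RatFunc k) (Ω := Ω) h2 D
  obtain ⟨f, hf⟩ := bridge (k := k) (Ω := Ω) h2 hab hac hbc hD
    (twistEquiv a b c hD hd) (Pool.Agent.Lib.SmD.chi (RatFunc k) D) (fun s Q => by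
      unfold sgn
      by_cases h0 : Pool.Agent.Lib.SmD.chi (RatFunc k) D s = 0
      · rw [if_pos h0, one_smul]
        exact smul_twistEquiv_of_fix hD hd ((SmF.chi_eq_zero_iff_fix hd s).mp h0) Q
      · have h1 : Pool.Agent.Lib.SmD.chi (RatFunc k) D s = 1 := by
          have : ∀ a : ZMod 2, a ≠ 0 → a = 1 := by decide
          exact this _ h0
        rw [if_neg h0, neg_one_smul, map_neg]
        exact smul_twistEquiv_of_neg hD hd ((SmF.chi_eq_one_iff_neg h2 hD hd s).mp h1) Q)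
    S hNN hDv hE6 j
  have hZfin := Finite.of_injective f hf
  have hZle := Nat.card_le_card_of_injective f hf
  have sqD : ∀ x y : RatFunc k, y = D ^ 2 * x → IsSquare y → IsSquare x := by
    rintro x y rfl ⟨z, hz⟩
    refine ⟨z / D, ?_⟩
    rw [div_mul_div_comm, ← hz]
    field_simp
  refine goodOn_crv Ω h2 m12 m13 m23 (fun h => ha (sqD _ _ ?_ h)) (fun h => hb (sqD _ _ ?_ h))
    (fun h => hc (sqD _ _ ?_ h)) hj hZfin (lt_of_le_of_lt (Nat.mul_le_mul_left 4 hZle) hlt)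
  all_goals ring

open scoped Classical in
/-- **L4**, over a separable closure `Ω` of `k(t)`. -/
theorem goodOn_of_selZ {Ω : Type} [Field Ω] [Algebra (RatFunc k) Ω]
    [IsSepClosure (RatFunc k) Ω] (h2 : (2 : k) ≠ 0) {α β D : k[X]} (hno : No4 α β) (hD : D ≠ 0)
    (hE6 : ∀ a b c : RatFunc k, a ≠ b → a ≠ c → b ≠ c → E6Prop k Ω a b c)
    {Pl : Type} (S : Sys (Ω ≃ₐ[RatFunc k] Ω)
      (VV Ω (0 : RatFunc k) (algebraMap k[X] (RatFunc k) α) (algebraMap k[X] (RatFunc k) β)) Pl)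
    (hNN : S.NN = SmD.NN (RatFunc k) Ω)
    (hDv : ∀ v : Pl, ∃ w : ValuationSubring Ω, w ≠ ⊤ ∧
      (∀ x : k, algebraMap (RatFunc k) Ω (algebraMap k (RatFunc k) x) ∈ w) ∧
      S.D v = w.decompositionSubgroup (RatFunc k))
    {j : ℕ} (hj : 1 ≤ j)
    (hfin : Finite {Psi // S.IsSel (Pool.Agent.Lib.SmD.chi (RatFunc k)
      (algebraMap k[X] (RatFunc k) D)) j Psi})
    (hlt : 4 * Nat.card {Psi // S.IsSel (Pool.Agent.Lib.SmD.chi (RatFunc k)
      (algebraMap k[X] (RatFunc k) D)) j Psi} < 16 ^ j) :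
    GoodOn k Ω (crv2 (D * α) (D * β)) j := by
  have h2K : (2 : RatFunc k) ≠ 0 := by
    intro h
    apply h2
    apply (algebraMap k (RatFunc k)).injective
    rw [map_ofNat, h, map_zero]
  have inj := IsFractionRing.injective k[X] (RatFunc k)
  have n12 : (0 : RatFunc k) ≠ algebraMap k[X] (RatFunc k) α := fun h =>
    hno.n0 0 0 (by rw [inj (h.symm.trans (map_zero _).symm)]; simp)
  have n13 : (0 : RatFunc k) ≠ algebraMap k[X] (RatFunc k) β := fun h =>
    hno.n0 0 0 (by rw [inj (h.symm.trans (map_zero _).symm)]; simp)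
  have n23 : algebraMap k[X] (RatFunc k) α ≠ algebraMap k[X] (RatFunc k) β := fun h =>
    hno.n1 0 0 (by rw [inj h]; simp)
  have hD0 : algebraMap k[X] (RatFunc k) D ≠ 0 := fun h => hD (inj (h.trans (map_zero _).symm))
  have hcrv : crv2 (D * α) (D * β) = crv (algebraMap k[X] (RatFunc k) D * 0)
      (algebraMap k[X] (RatFunc k) D * algebraMap k[X] (RatFunc k) α)
      (algebraMap k[X] (RatFunc k) D * algebraMap k[X] (RatFunc k) β) := by
    unfold crv2
    rw [mul_zero, map_mul, map_mul]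
  have sq : ∀ (x : k[X]) (y : RatFunc k), y = algebraMap k[X] (RatFunc k) x →
      IsSquare y → ∃ g : k[X], x = C 1 * g ^ 2 := by
    rintro x y rfl hsq
    obtain ⟨g, hg⟩ := isSquare_ratFunc hsq
    exact ⟨g, by rw [hg, map_one, one_mul]⟩
  rw [hcrv]
  refine goodOn_twist h2K n12 n13 n23 hD0 ?_ ?_ ?_
    (hE6 _ _ _ (fun h => n12 (mul_left_cancel₀ hD0 h)) (fun h => n13 (mul_left_cancel₀ hD0 h))
      (fun h => n23 (mul_left_cancel₀ hD0 h))) S hNN hDv hj hfin hlt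
  · intro h
    obtain ⟨g, hg⟩ := sq (α * β) _ (by rw [map_mul]; ring) h
    exact hno.n0 1 g hg
  · intro h
    obtain ⟨g, hg⟩ := sq (α * (α - β)) _ (by rw [map_mul, map_sub]; ring) h
    exact hno.n1 1 g hg
  · intro h
    obtain ⟨g, hg⟩ := sq (β * (β - α)) _ (by rw [map_mul, map_sub]; ring) h
    exact hno.n2 1 g hg

end

end Pool.Agent.Sm.L
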