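import Pool.Agent.Lib.Sm.L.PosP
import Pool.Agent.Lib.Sm.L.Done
import Pool.Agent.Lib.Sm.L.BridgeP

/-!
SMITH, block L: the theorem with parity, from the distribution of the coranks on the monic
squarefree `D` prime to the bad primes.
-/

set_option autoImplicit false

open Polynomial Pool.Agent.BSDFF Pool.Agent

namespace Pool.Agent.Sm.L

variable {k : Type} [Field k]

private lemma finP_finite [Finite k] {n : ℕ} {P : k[X] → Prop}
    (hP : ∀ D, P D → D.natDegree = n) : Finite {D : k[X] // P D} := by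
  have h : {D : k[X] | D.natDegree ≤ n} ⊆ (degreeLT k (n + 1) : Set k[X]) := by
    intro D hD
    rw [SetLike.mem_coe, mem_degreeLT]
    exact lt_of_le_of_lt degree_le_natDegree (by exact_mod_cast Nat.lt_succ_of_le hD)
  have h1 : {D : k[X] | D.natDegree ≤ n}.Finite := by
    refine Set.Finite.subset ?_ h
    have : Finite (degreeLT k (n + 1)) := Finite.of_equiv _ (degreeLTEquiv k (n + 1)).toEquiv.symm
    exact Set.toFinite _
  have h2 := h1.to_subtype
  exact Finite.of_injective (β := {D : k[X] | D.natDegree ≤ n}) (fun D => ⟨D.1, (hP _ D.2).le⟩)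
    fun D D' h => Subtype.ext (congrArg (fun z : {D : k[X] | D.natDegree ≤ n} => z.1) h)

private lemma finP_abs {A A' F : ℝ} {e1 e2 : ℝ} (h1 : A' ≤ A) (h2 : A ≤ A' + e1)
    (h3 : |A - F / 2| ≤ e2) : |A' - F / 2| ≤ e1 + e2 := by
  rw [abs_le] at h3 ⊢
  constructor <;> linarith [h3.1, h3.2]

/-- Comparison of two counts. -/
private lemma finP_cmp [Finite k] {n : ℕ} {F Q Q' B : k[X] → Prop} {e1 e2 : ℝ}
    (hF : ∀ D, F D → D.natDegree = n) (hQ : ∀ D, F D → Q' D → Q D)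
    (hB : ∀ D, F D → Q D → ¬ Q' D → B D)
    (h1 : (Nat.card {D : k[X] // F D ∧ B D} : ℝ) ≤ e1)
    (h2 : |(Nat.card {D : k[X] // F D ∧ Q D} : ℝ) - (Nat.card {D : k[X] // F D} : ℝ) / 2| ≤ e2) :
    |(Nat.card {D : k[X] // F D ∧ Q' D} : ℝ) - (Nat.card {D : k[X] // F D} : ℝ) / 2| ≤
      e1 + e2 := by
  classical
  have f1 : Finite {D : k[X] // F D ∧ Q D} := finP_finite fun D h => hF D h.1
  have f2 : Finite {D : k[X] // F D ∧ Q' D} := finP_finite fun D h => hF D h.1
  have f3 : Finite {D : k[X] // F D ∧ B D} := finP_finite fun D h => hF D h.1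
  refine finP_abs (A := (Nat.card {D : k[X] // F D ∧ Q D} : ℝ)) ?_ ?_ h2
  · have : Nat.card {D : k[X] // F D ∧ Q' D} ≤ Nat.card {D : k[X] // F D ∧ Q D} :=
      Nat.card_le_card_of_injective (fun D => ⟨D.1, D.2.1, hQ D.1 D.2.1 D.2.2⟩)
        fun D D' h => Subtype.ext (congrArg (fun z : {D : k[X] // F D ∧ Q D} => z.1) h)
    exact_mod_cast this
  · have h3 : Nat.card {D : k[X] // F D ∧ Q D} ≤
        Nat.card ({D : k[X] // F D ∧ Q' D} ⊕ {D : k[X] // F D ∧ B D}) := by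
      refine Nat.card_le_card_of_injective (fun D => if h : Q' D.1 then
        Sum.inl ⟨D.1, D.2.1, h⟩ else Sum.inr ⟨D.1, D.2.1, hB D.1 D.2.1 D.2.2 h⟩) ?_
      intro D D' h
      by_cases h4 : Q' D.1 <;> by_cases h5 : Q' D'.1
      · simp only [h4, h5, dif_pos, Sum.inl.injEq, Subtype.mk.injEq] at h
        exact Subtype.ext h
      · simp only [h4, h5, dif_pos, dif_neg, not_false_eq_true, reduceCtorEq] at h
      · simp only [h4, h5, dif_pos, dif_neg, not_false_eq_true, reduceCtorEq] at h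
      · simp only [h4, h5, dif_neg, not_false_eq_true, Sum.inr.injEq, Subtype.mk.injEq] at h
        exact Subtype.ext h
    rw [Nat.card_sum] at h3
    have h4 : (Nat.card {D : k[X] // F D ∧ Q D} : ℝ) ≤
        (Nat.card {D : k[X] // F D ∧ Q' D} : ℝ) + (Nat.card {D : k[X] // F D ∧ B D} : ℝ) := by
      exact_mod_cast h3
    linarith

/-- The theorem with parity, from the distribution of the coranks on the monic squarefree `D` prime
to the bad primes. -/
theorem parity_of [Finite k] (h2 : (2 : k) ≠ 0)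
    (hhalf : ∀ a b : k[X], No4 a b → (∃ l : k[X], Irreducible l ∧ MultAt l a b) →
      ∀ ε : ℝ, 0 < ε → ∃ n₀ : ℕ, ∀ n ≥ n₀, ∀ r : ℕ, r ≤ 1 →
      |(Nat.card {D : k[X] // D.Monic ∧ Squarefree D ∧ IsCoprime D (a * b * (a - b)) ∧
        D.natDegree = n ∧
        HasCorank k (SeparableClosure (RatFunc k)) (crv2 (D * a) (D * b)) r} : ℝ) -
        (Nat.card {D : k[X] // D.Monic ∧ Squarefree D ∧ IsCoprime D (a * b * (a - b)) ∧
        D.natDegree = n} : ℝ) / 2| ≤ ε * (Nat.card k : ℝ) ^ n)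
    (α β : k[X]) (h4 : No4 α β) :
    ∃ δ : ℝ, 0 < δ ∧ ∀ ε : ℝ, 0 < ε → ∃ j n₀ : ℕ, ∀ n ≥ n₀,
      (Nat.card {D : k[X] // Squarefree D ∧ D.natDegree = n ∧ ¬ Good α β j D} : ℝ) ≤
        ε * (Nat.card {D : k[X] // Squarefree D ∧ D.natDegree = n} : ℝ) ∧
      δ * (Nat.card {D : k[X] // Squarefree D ∧ D.natDegree = n} : ℝ) ≤
        (Nat.card {D : k[X] // Squarefree D ∧ D.natDegree = n ∧ MultD α β D} : ℝ) ∧
      |(Nat.card {D : k[X] // (Squarefree D ∧ D.natDegree = n ∧ MultD α β D) ∧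
          Rank0 α β D} : ℝ) -
        (Nat.card {D : k[X] // Squarefree D ∧ D.natDegree = n ∧ MultD α β D} : ℝ) / 2| ≤
        ε * (Nat.card {D : k[X] // Squarefree D ∧ D.natDegree = n ∧ MultD α β D} : ℝ) ∧
      |(Nat.card {D : k[X] // (Squarefree D ∧ D.natDegree = n ∧ MultD α β D) ∧
          Corank1 α β D} : ℝ) -
        (Nat.card {D : k[X] // Squarefree D ∧ D.natDegree = n ∧ MultD α β D} : ℝ) / 2| ≤
        ε * (Nat.card {D : k[X] // Squarefree D ∧ D.natDegree = n ∧ MultD α β D} : ℝ) := by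
  classical
  obtain ⟨δ, hδ, n1, hn1⟩ := pos_multD h2 h4
  refine ⟨δ, hδ, fun ε hε => ?_⟩
  have hlow : ∃ c : ℝ, 0 < c ∧ ∃ n₁ : ℕ, ∀ n ≥ n₁, c * (Nat.card k : ℝ) ^ n ≤
      (Nat.card {D : k[X] // Squarefree D ∧ D.natDegree = n} : ℝ) := by
    obtain ⟨c, hc, h⟩ := card_squarefree_ge (k := k) h2
    exact ⟨c, hc, 0, fun n _ => h n⟩
  set ε1 : ℝ := min ε (ε * δ / 2) with hε1
  have hε1' : 0 < ε1 := lt_min hε (by positivity)
  obtain ⟨j, n2, hn2⟩ := all_twists h2 α β h4 ε1 hε1'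
  have hA := fun r (hr : r ≤ 1) => all_half
    (fun a b => HasCorank k (SeparableClosure (RatFunc k)) (crv2 a b) r)
    (fun a b hab hm ε hε => by
      obtain ⟨n₀, h⟩ := hhalf a b hab hm ε hε
      exact ⟨n₀, fun n hn => h n hn r hr⟩) hlow α β h4 (ε * δ / 2) (by positivity)
  obtain ⟨n3, hn3⟩ := hA 0 (by norm_num)
  obtain ⟨n5, hn5⟩ := hA 1 le_rfl
  refine ⟨j, max (max n1 n2) (max n3 n5), fun n hn => ?_⟩
  have m1 := hn1 n (le_trans (le_trans (le_max_left _ _) (le_max_left _ _)) hn)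
  have m2 := hn2 n (le_trans (le_trans (le_max_right _ _) (le_max_left _ _)) hn)
  have m3 := hn3 n (le_trans (le_trans (le_max_left _ _) (le_max_right _ _)) hn)
  have m5 := hn5 n (le_trans (le_trans (le_max_right _ _) (le_max_right _ _)) hn)
  set X : ℝ := (Nat.card {D : k[X] // Squarefree D ∧ D.natDegree = n} : ℝ) with hX
  have hX0 : 0 ≤ X := Nat.cast_nonneg _
  set F : ℝ := (Nat.card {D : k[X] // Squarefree D ∧ D.natDegree = n ∧ MultD α β D} : ℝ) with hF
  have hbad : (Nat.card {D : k[X] // (Squarefree D ∧ D.natDegree = n ∧ MultD α β D) ∧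
      ¬ Good α β j D} : ℝ) ≤ ε * δ / 2 * X := by
    have f1 : Finite {D : k[X] // Squarefree D ∧ D.natDegree = n ∧ ¬ Good α β j D} :=
      finP_finite (n := n) fun D h => h.2.1
    have h5 : Nat.card {D : k[X] // (Squarefree D ∧ D.natDegree = n ∧ MultD α β D) ∧
        ¬ Good α β j D} ≤
        Nat.card {D : k[X] // Squarefree D ∧ D.natDegree = n ∧ ¬ Good α β j D} :=
      Nat.card_le_card_of_injective (fun D => ⟨D.1, D.2.1.1, D.2.1.2.1, D.2.2⟩)
        fun D D' h => Subtype.ext (congrArg (fun z : {D : k[X] // Squarefree D ∧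
          D.natDegree = n ∧ ¬ Good α β j D} => z.1) h)
    calc _ ≤ (Nat.card {D : k[X] // Squarefree D ∧ D.natDegree = n ∧ ¬ Good α β j D} : ℝ) := by
          exact_mod_cast h5
      _ ≤ ε1 * X := m2
      _ ≤ _ := mul_le_mul_of_nonneg_right (min_le_right _ _) hX0
  have hFX : ε * δ / 2 * X + ε * δ / 2 * X ≤ ε * F := by
    have := mul_le_mul_of_nonneg_left m1 hε.le
    linarith
  have hass : ∀ Q : k[X] → Prop,
      Nat.card {D : k[X] // Squarefree D ∧ D.natDegree = n ∧ MultD α β D ∧ Q D} =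
      Nat.card {D : k[X] // (Squarefree D ∧ D.natDegree = n ∧ MultD α β D) ∧ Q D} := by
    intro Q
    refine Nat.card_congr (Equiv.subtypeEquivRight fun D => ?_)
    constructor
    · rintro ⟨a, b, c, d⟩
      exact ⟨⟨a, b, c⟩, d⟩
    · rintro ⟨⟨a, b, c⟩, d⟩
      exact ⟨a, b, c, d⟩
  rw [hass fun D => HasCorank k (SeparableClosure (RatFunc k)) (crv2 (D * α) (D * β)) 0] at m3
  rw [hass fun D => HasCorank k (SeparableClosure (RatFunc k)) (crv2 (D * α) (D * β)) 1] at m5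
  refine ⟨m2.trans (mul_le_mul_of_nonneg_right (min_le_left _ _) hX0), m1, ?_, ?_⟩
  · refine (finP_cmp (B := fun D => ¬ Good α β j D) (fun D h => h.2.1) (fun D _ h => h.1)
      (fun D _ h h' hg => h' ?_) hbad m3).trans hFX
    obtain ⟨h5, h6⟩ := GoodOn.of_corank_zero k (SeparableClosure (RatFunc k)) _ hg h
    exact ⟨h, h5, h6⟩
  · refine (finP_cmp (B := fun D => ¬ Good α β j D) (fun D h => h.2.1) (fun D _ h => h.1)
      (fun D _ h h' hg => h' ?_) hbad m5).trans hFX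
    obtain ⟨r, hr1, hr, hle, -⟩ := hg.corank
    exact ⟨h, hle.trans hr1⟩

end Pool.Agent.Sm.L
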