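import Pool.Agent.Lib.Sm.L.FinalP
import Pool.Agent.Lib.Sm.L.StmtW
import Pool.Agent.Lib.Sm.L.AllQ

/-!
SMITH, heights: the final theorem, from the distribution of the coranks and the statement on the
Selmer groups of `W` for the monic squarefree `D` prime to the bad primes.
-/

set_option autoImplicit false

open Polynomial Pool.Agent.BSDFF Pool.Agent

namespace Pool.Agent.Sm.L

variable {k : Type} [Field k]

private lemma finW_finite [Finite k] {n : ℕ} {P : k[X] → Prop}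
    (hP : ∀ D, P D → D.natDegree = n) : Finite {D : k[X] // P D} := by
  have h : {D : k[X] | D.natDegree ≤ n} ⊆ (degreeLT k (n + 1) : Set k[X]) := by
    intro D hD
    rw [SetLike.mem_coe, mem_degreeLT]
    exact lt_of_le_of_lt degree_le_natDegree (by exact_mod_cast Nat.lt_succ_of_le hD)
  have h1 : {D : k[X] | D.natDegree ≤ n}.Finite := by
    refine Set.Finite.subset ?_ h
    have : Finite (degreeLT k (n + 1)) := Finite.of_equiv _ (degreeLTEquiv k (n + 1)).toEquiv.symm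
    exact Set.toFinite _
  have h2 := h1.to_subtype
  exact Finite.of_injective (β := {D : k[X] | D.natDegree ≤ n}) (fun D => ⟨D.1, (hP _ D.2).le⟩)
    fun D D' h => Subtype.ext (congrArg (fun z : {D : k[X] | D.natDegree ≤ n} => z.1) h)

private lemma finW_or [Finite k] {n : ℕ} {F A B : k[X] → Prop} (hF : ∀ D, F D → D.natDegree = n) :
    (Nat.card {D : k[X] // F D ∧ ¬ (A D ∧ B D)} : ℝ) ≤
      (Nat.card {D : k[X] // F D ∧ ¬ A D} : ℝ) + (Nat.card {D : k[X] // F D ∧ ¬ B D} : ℝ) := by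
  classical
  have f2 : Finite {D : k[X] // F D ∧ ¬ A D} := finW_finite fun D h => hF D h.1
  have f3 : Finite {D : k[X] // F D ∧ ¬ B D} := finW_finite fun D h => hF D h.1
  have h3 : Nat.card {D : k[X] // F D ∧ ¬ (A D ∧ B D)} ≤
      Nat.card ({D : k[X] // F D ∧ ¬ A D} ⊕ {D : k[X] // F D ∧ ¬ B D}) := by
    refine Nat.card_le_card_of_injective (fun D => if h : ¬ A D.1 then
      Sum.inl ⟨D.1, D.2.1, h⟩ else Sum.inr ⟨D.1, D.2.1, fun hB => D.2.2
        ⟨not_not.mp h, hB⟩⟩) ?_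
    intro D D' h
    by_cases h4 : ¬ A D.1 <;> by_cases h5 : ¬ A D'.1
    · simp only [h4, h5, not_false_eq_true, dif_pos, Sum.inl.injEq, Subtype.mk.injEq] at h
      exact Subtype.ext h
    · simp only [h4, h5, not_false_eq_true, dif_pos, dif_neg, reduceCtorEq] at h
    · simp only [h4, h5, not_false_eq_true, dif_pos, dif_neg, reduceCtorEq] at h
    · simp only [h4, h5, dif_neg, not_false_eq_true, Sum.inr.injEq, Subtype.mk.injEq] at h
      exact Subtype.ext h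
  rw [Nat.card_sum] at h3
  exact_mod_cast h3

/-- The final theorem. -/
theorem heights_of [Finite k] (h2 : (2 : k) ≠ 0)
    (hhalf : ∀ a b : k[X], No4 a b → (∃ l : k[X], Irreducible l ∧ MultAt l a b) →
      ∀ ε : ℝ, 0 < ε → ∃ n₀ : ℕ, ∀ n ≥ n₀, ∀ r : ℕ, r ≤ 1 →
      |(Nat.card {D : k[X] // D.Monic ∧ Squarefree D ∧ IsCoprime D (a * b * (a - b)) ∧
        D.natDegree = n ∧
        HasCorank k (SeparableClosure (RatFunc k)) (crv2 (D * a) (D * b)) r} : ℝ) -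
        (Nat.card {D : k[X] // D.Monic ∧ Squarefree D ∧ IsCoprime D (a * b * (a - b)) ∧
        D.natDegree = n} : ℝ) / 2| ≤ ε * (Nat.card k : ℝ) ^ n)
    (hord : ∀ a b : k[X], No4 a b → ∀ ε : ℝ, 0 < ε → ∃ n₀ : ℕ, ∀ n ≥ n₀,
      (Nat.card {D : k[X] // D.Monic ∧ Squarefree D ∧ IsCoprime D (a * b * (a - b)) ∧
        D.natDegree = n ∧ ¬ OrdC k (crv2 (D * a) (D * b))} : ℝ) ≤ ε * (Nat.card k : ℝ) ^ n)
    (α β : k[X]) (h4 : No4 α β) :
    ∃ δ : ℝ, 0 < δ ∧ ∀ ε : ℝ, 0 < ε → ∃ j n₀ : ℕ, ∀ n ≥ n₀,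
      (Nat.card {D : k[X] // (Squarefree D ∧ D.natDegree = n) ∧
        ¬ (Good α β j D ∧ Ord α β D)} : ℝ) ≤
        ε * (Nat.card {D : k[X] // Squarefree D ∧ D.natDegree = n} : ℝ) ∧
      δ * (Nat.card {D : k[X] // Squarefree D ∧ D.natDegree = n} : ℝ) ≤
        (Nat.card {D : k[X] // Squarefree D ∧ D.natDegree = n ∧ MultD α β D} : ℝ) ∧
      |(Nat.card {D : k[X] // (Squarefree D ∧ D.natDegree = n ∧ MultD α β D) ∧
          Rank0 α β D} : ℝ) -
        (Nat.card {D : k[X] // Squarefree D ∧ D.natDegree = n ∧ MultD α β D} : ℝ) / 2| ≤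
        ε * (Nat.card {D : k[X] // Squarefree D ∧ D.natDegree = n ∧ MultD α β D} : ℝ) ∧
      |(Nat.card {D : k[X] // (Squarefree D ∧ D.natDegree = n ∧ MultD α β D) ∧
          Corank1 α β D} : ℝ) -
        (Nat.card {D : k[X] // Squarefree D ∧ D.natDegree = n ∧ MultD α β D} : ℝ) / 2| ≤
        ε * (Nat.card {D : k[X] // Squarefree D ∧ D.natDegree = n ∧ MultD α β D} : ℝ) := by
  obtain ⟨δ, hδ, H⟩ := parity_of h2 hhalf α β h4
  have hlow : ∃ c : ℝ, 0 < c ∧ ∃ n₁ : ℕ, ∀ n ≥ n₁, c * (Nat.card k : ℝ) ^ n ≤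
      (Nat.card {D : k[X] // Squarefree D ∧ D.natDegree = n} : ℝ) := by
    obtain ⟨c, hc, h⟩ := card_squarefree_ge (k := k) h2
    exact ⟨c, hc, 0, fun n _ => h n⟩
  refine ⟨δ, hδ, fun ε hε => ?_⟩
  obtain ⟨j, n₀, hn⟩ := H (ε / 2) (by positivity)
  obtain ⟨j₀, hj₀⟩ := all_squarefree_of (fun _ a b => OrdC k (crv2 a b))
    (fun a b hab ε hε => ⟨0, fun _ _ => hord a b hab ε hε⟩) hlow α β h4 (ε / 2) (by positivity)
  obtain ⟨n₁, hn₁⟩ := hj₀ j₀ le_rfl
  refine ⟨j, max n₀ n₁, fun n hnn => ?_⟩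
  obtain ⟨m1, m2, m3, m4⟩ := hn n ((le_max_left _ _).trans hnn)
  have m5 := hn₁ n ((le_max_right _ _).trans hnn)
  have hS : (0 : ℝ) ≤ (Nat.card {D : k[X] // Squarefree D ∧ D.natDegree = n} : ℝ) :=
    Nat.cast_nonneg _
  have hF : (0 : ℝ) ≤ (Nat.card {D : k[X] // Squarefree D ∧ D.natDegree = n ∧ MultD α β D} : ℝ) :=
    Nat.cast_nonneg _
  have hε2 : ε / 2 ≤ ε := by linarith
  refine ⟨?_, m2, m3.trans (mul_le_mul_of_nonneg_right hε2 hF),
    m4.trans (mul_le_mul_of_nonneg_right hε2 hF)⟩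
  have h5 := finW_or (n := n) (F := fun D : k[X] => Squarefree D ∧ D.natDegree = n)
    (A := fun D => Good α β j D) (B := fun D => Ord α β D) fun D h => h.2
  have e1 : Nat.card {D : k[X] // (Squarefree D ∧ D.natDegree = n) ∧ ¬ Good α β j D} =
      Nat.card {D : k[X] // Squarefree D ∧ D.natDegree = n ∧ ¬ Good α β j D} :=
    Nat.card_congr (Equiv.subtypeEquivRight fun D => and_assoc)
  have e2 : Nat.card {D : k[X] // (Squarefree D ∧ D.natDegree = n) ∧ ¬ Ord α β D} =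
      Nat.card {D : k[X] // Squarefree D ∧ D.natDegree = n ∧ ¬ Ord α β D} :=
    Nat.card_congr (Equiv.subtypeEquivRight fun D => and_assoc)
  rw [e1, e2] at h5
  have m5' : (Nat.card {D : k[X] // Squarefree D ∧ D.natDegree = n ∧ ¬ Ord α β D} : ℝ) ≤
      ε / 2 * (Nat.card {D : k[X] // Squarefree D ∧ D.natDegree = n} : ℝ) := m5
  linarith

end Pool.Agent.Sm.L
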