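import Pool.Agent.Lib.Sm.L.Stmt

/-!
SMITH, block L4. The Galois action on `W(Ω)`: every point is fixed by an open subgroup, the fixed
points are the points of `W(K)`.
-/

set_option autoImplicit false

open Polynomial WeierstrassCurve Pool.Agent.BSDFF

namespace Pool.Agent.Sm.L

section

variable {K : Type} (Ω : Type) [Field K] [Field Ω] [Algebra K Ω] (W : WeierstrassCurve K)

open scoped Classical in
theorem gal_mul (s t : Ω ≃ₐ[K] Ω) (P : Pts Ω W) :
    gal Ω W (s * t) P = gal Ω W s (gal Ω W t P) := by
  unfold gal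
  rw [Affine.Point.map_map]
  rfl

open scoped Classical in
theorem gal_one (P : Pts Ω W) : gal Ω W 1 P = P := by
  unfold gal
  cases P <;> rfl

open scoped Classical in
theorem gal_inj (s : Ω ≃ₐ[K] Ω) : Function.Injective (gal Ω W s) := by
  unfold gal
  exact Affine.Point.map_injective _

open scoped Classical in
/-- `W(K) → W(Ω)` -/
noncomputable def incl : W.toAffine.Point →+ Pts Ω W :=
  (Affine.Point.map (W' := W) (Algebra.ofId K Ω) :
    (W.baseChange K).toAffine.Point →+ (W.baseChange Ω).toAffine.Point)

open scoped Classical in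
theorem incl_inj : Function.Injective (incl Ω W) := by
  unfold incl
  exact Affine.Point.map_injective _

open scoped Classical in
theorem gal_incl (s : Ω ≃ₐ[K] Ω) (P : W.toAffine.Point) :
    gal Ω W s (incl Ω W P) = incl Ω W P := by
  unfold gal incl
  have h : (s.toAlgHom).comp (Algebra.ofId K Ω) = Algebra.ofId K Ω := by
    apply AlgHom.ext
    intro x
    simp [Algebra.ofId_apply]
  have h2 := Affine.Point.map_map (W' := W) (Algebra.ofId K Ω) s.toAlgHom P
  rw [h] at h2
  exact h2

open scoped Classical in
/-- Every point is fixed by an open subgroup. -/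
theorem level_point [Algebra.IsAlgebraic K Ω] (Q : Pts Ω W) :
    ∃ L : IntermediateField K Ω, FiniteDimensional K L ∧
      ∀ s t : Ω ≃ₐ[K] Ω, (∀ x ∈ L, s x = t x) → gal Ω W s Q = gal Ω W t Q := by
  rcases Q with _ | ⟨x, y, h⟩
  · exact ⟨⊥, inferInstance, fun _ _ _ => rfl⟩
  · refine ⟨IntermediateField.adjoin K {x, y}, ?_, fun s t hst => ?_⟩
    · exact IntermediateField.finiteDimensional_adjoin fun z _ => Algebra.IsIntegral.isIntegral z
    · have hx : s x = t x := hst x (IntermediateField.subset_adjoin K _ (by simp))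
      have hy : s y = t y := hst y (IntermediateField.subset_adjoin K _ (by simp))
      change Affine.Point.some (s x) (s y) _ = Affine.Point.some (t x) (t y) _
      simp only [hx, hy]

open scoped Classical in
/-- The fixed points are the points of `W(K)`. -/
theorem exists_incl [IsGalois K Ω] (Q : Pts Ω W) (h : ∀ s, gal Ω W s Q = Q) :
    ∃ P : W.toAffine.Point, incl Ω W P = Q := by
  have fixed : ∀ x : Ω, (∀ s : Ω ≃ₐ[K] Ω, s x = x) → ∃ a : K, algebraMap K Ω a = x := by
    intro x hx
    have := (InfiniteGalois.mem_bot_iff_fixed x).mpr hx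
    rwa [IntermediateField.mem_bot] at this
  rcases Q with _ | ⟨x, y, hxy⟩
  · exact ⟨0, map_zero _⟩
  · have h1 : ∀ s : Ω ≃ₐ[K] Ω, s x = x ∧ s y = y := by
      intro s
      have h2 : Affine.Point.some (s x) (s y) _ = Affine.Point.some x y hxy := h s
      exact (Affine.Point.some.injEq _ _ _ _ _ _).mp h2
    obtain ⟨a, rfl⟩ := fixed x fun s => (h1 s).1
    obtain ⟨b, rfl⟩ := fixed y fun s => (h1 s).2
    have h3 : (W.baseChange K).toAffine.Nonsingular a b :=
      (W.toAffine.baseChange_nonsingular (f := Algebra.ofId K Ω) (Algebra.ofId K Ω).injective a b).mp hxy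
    exact ⟨Affine.Point.some a b h3, rfl⟩

end

end Pool.Agent.Sm.L
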