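import Pool.Agent.Lib.Sm.L.AbsMain
import Pool.Agent.Lib.Sm.P.HalfP

/-!
SMITH, block L with parity: half of the monic squarefree `D` prime to the bad primes have corank 0
and half have corank 1, if one of the finite bad places is multiplicative.

`card_isSel_par` : small Selmer groups of level `m` and the parity of the 2-Selmer group give the growth
of all Selmer groups; `half_abs` : the two densities, from `Sys.Ok`, `ChOk`, Theorem I, the
alternation of the tower and the multiplicative place.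
-/

set_option autoImplicit false

open Polynomial Finset

namespace Pool.Agent.Sm

open Pool.Agent.SmK (DD)

variable {k : Type} [Field k] {G V Pl : Type} [Group G] [AddCommGroup V] [DistribMulAction G V]
  {S : Sys G V Pl} {ch : k[X] → G → ZMod 2} {d : TwData k} {pl : k[X] → Pl}

/-- The order of the 2-Selmer group is a power of 4. -/
def EvenSel (h : S.Ok) (ch : k[X] → G → ZMod 2) (D : k[X]) : Prop :=
  ∃ r : ℕ, Nat.card (S.Sel1 h (ch D)) = 4 ^ r

/-- The Selmer groups of level `i` grow like `4 ^ i` (corank 0) or like `8 ^ i` (corank 1). -/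
theorem card_isSel_par [Finite k] (h : S.Ok) (hc : ChOk S ch d pl)
    (ha : ∀ (J : Type) [Fintype J] [Nonempty J] (p : J → k[X]), PVec d p →
      (twJ S h ch d p).Altn) {n : ℕ} (hn : 1 ≤ n) {D : k[X]} (hD : D ∈ DD (badP d) n) {m : ℕ}
    (hm : 4 * Nat.card {Psi : G → V // S.IsSel (ch D) m Psi} < 16 ^ m) :
    (EvenSel h ch D → ∃ B : ℕ, ∀ i, Nat.card {Psi : G → V // S.IsSel (ch D) i Psi} ≤
      B * 4 ^ i) ∧
    (¬ EvenSel h ch D → (∀ i, 8 ^ i ≤ Nat.card {Psi : G → V // S.IsSel (ch D) i Psi}) ∧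
      ∃ B : ℕ, ∀ i, Nat.card {Psi : G → V // S.IsSel (ch D) i Psi} ≤ B * 8 ^ i) := by
  obtain ⟨hp, hprod, hne⟩ := exists_pvec hD hn
  have hco : CodeOk S ch d (fun P : PD D => P.1) := Code.codeOk h hc hp
  have hchi : chiJ ch (fun P : PD D => P.1) = ch D := by
    rw [chiJ_eq_prod hc _ _ hp, hprod]
  have hlt : Nat.card (S.SelZ h (chiJ ch (fun P : PD D => P.1)) m) < 16 ^ m := by
    rw [hchi]
    have e : Nat.card (S.SelZ h (ch D) m) = Nat.card {Psi : G → V // S.IsSel (ch D) m Psi} := rfl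
    rw [e]
    omega
  refine ⟨fun hE => ?_, fun hE => ?_⟩
  · have h1 := selZ_even h hco (ha _ _ hp) hlt (by rw [hchi]; exact hE)
    rw [hchi] at h1
    exact h1
  · have h1 := selZ_odd h hco (ha _ _ hp) hlt (by rw [hchi]; exact hE)
    rw [hchi] at h1
    exact h1

open Classical in
private theorem HalfDD_count {α : Type*} (s E : Finset α) (p q : α → Prop)
    (h : ∀ x ∈ s, x ∉ E → (p x ↔ q x)) :
    |((s.filter p).card : ℝ) - (s.filter q).card| ≤ (E.card : ℝ) := by
  have key : ∀ p q : α → Prop, (∀ x ∈ s, x ∉ E → (p x ↔ q x)) →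
      ((s.filter p).card : ℝ) ≤ (s.filter q).card + E.card := by
    intro p q h
    have h1 : s.filter p ⊆ s.filter q ∪ E := by
      intro x hx
      rw [mem_filter] at hx
      rw [mem_union, mem_filter]
      by_cases hE : x ∈ E
      · exact Or.inr hE
      · exact Or.inl ⟨hx.1, (h x hx.1 hE).1 hx.2⟩
    have h2 := (card_le_card h1).trans (card_union_le _ _)
    exact_mod_cast h2
  rw [abs_le]
  constructor
  · linarith [key q p fun x hx hE => (h x hx hE).symm]
  · linarith [key p q h]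

open Classical in
/-- **Half of the twists.** `C0`, `C1` are two properties of `D` with: growth like `4 ^ i` implies
`C0` and not `C1`, growth like `8 ^ i` implies `C1` and not `C0`. -/
theorem half_abs [Finite k] (h : S.Ok) (hc : ChOk S ch d pl)
    (hG : ∀ m, 1 ≤ m → GridThm S ch d m)
    (ha : ∀ (J : Type) [Fintype J] [Nonempty J] (p : J → k[X]), PVec d p →
      (twJ S h ch d p).Altn) {mm : G → V1} (hq : S.QOk mm) (i0 : Fin d.h)
    (hM : ∀ chi chi' : G → ZMod 2, S.HomG chi → S.HomG chi' →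
      chi (S.sg (pl (d.ell i0))) = 0 → chi' (S.sg (pl (d.ell i0))) = 0 →
      chi (S.phi (pl (d.ell i0))) ≠ chi' (S.phi (pl (d.ell i0))) →
      Nat.card (S.W chi (pl (d.ell i0)) ⊓ S.W chi' (pl (d.ell i0)) : AddSubgroup (V1 × V1)) = 2)
    (C0 C1 : k[X] → Prop)
    (h0 : ∀ n, ∀ D ∈ DD (badP d) n, (∀ i, Finite {Psi : G → V // S.IsSel (ch D) i Psi}) →
      (∃ B : ℕ, ∀ i, Nat.card {Psi : G → V // S.IsSel (ch D) i Psi} ≤ B * 4 ^ i) →
      C0 D ∧ ¬ C1 D)
    (h1 : ∀ n, ∀ D ∈ DD (badP d) n, (∀ i, Finite {Psi : G → V // S.IsSel (ch D) i Psi}) →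
      (∀ i, 8 ^ i ≤ Nat.card {Psi : G → V // S.IsSel (ch D) i Psi}) →
      (∃ B : ℕ, ∀ i, Nat.card {Psi : G → V // S.IsSel (ch D) i Psi} ≤ B * 8 ^ i) →
      C1 D ∧ ¬ C0 D) (ε : ℝ) (hε : 0 < ε) :
    ∃ n₀ : ℕ, ∀ n ≥ n₀,
      |(((DD (badP d) n).filter C0).card : ℝ) - (DD (badP d) n).card / 2| ≤
        ε * (Nat.card k : ℝ) ^ n ∧
      |(((DD (badP d) n).filter C1).card : ℝ) - (DD (badP d) n).card / 2| ≤
        ε * (Nat.card k : ℝ) ^ n := by
  obtain ⟨m₀, hm⟩ := abs_main h hc hG (ε / 2) (by positivity)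
  obtain ⟨n₁, hn₁⟩ := hm m₀ le_rfl
  obtain ⟨n₂, hn₂⟩ := SmP.half_even h hc hq (B := badP d) (fun P => mem_badP) i0 hM (ε / 2)
    (by positivity)
  refine ⟨max (max n₁ n₂) 1, fun n hn => ?_⟩
  have hn1 : 1 ≤ n := le_trans (le_max_right _ _) hn
  have hn2 : max n₁ n₂ ≤ n := le_trans (le_max_left _ _) hn
  have hex := hn₁ n (le_trans (le_max_left _ _) hn2)
  have hev := hn₂ n (le_trans (le_max_right _ _) hn2)
  set Ex : Finset k[X] := (DD (badP d) n).filter fun D =>
    ¬ (Finite {Psi : G → V // S.IsSel (ch D) m₀ Psi} ∧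
      4 * Nat.card {Psi : G → V // S.IsSel (ch D) m₀ Psi} < 16 ^ m₀) with hEx
  have hExc : (Ex.card : ℝ) ≤ ε / 2 * (Nat.card k : ℝ) ^ n := by
    refine le_trans (le_of_eq ?_) hex
    rw [← Fintype.card_coe, ← Nat.card_eq_fintype_card]
    congr 1
    exact Nat.card_congr (Equiv.subtypeEquivRight fun D => by rw [hEx, mem_filter])
  have hcard : ((DD (badP d) n).card : ℝ) ≤ (Nat.card k : ℝ) ^ n := by
    have h6 := card_le_card (SmK.DD_subset (badP d) n)
    rw [SmK.card_Mon] at h6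
    exact_mod_cast h6
  have hfin : ∀ D ∈ DD (badP d) n, ∀ i, Finite {Psi : G → V // S.IsSel (ch D) i Psi} := by
    intro D hD i
    obtain ⟨hp, hprod, hne⟩ := exists_pvec hD hn1
    have h5 := (lfacts_of h hc hp).fin i
    rw [chiJ_eq_prod hc _ _ hp, hprod] at h5
    exact h5
  obtain ⟨Od, hOd⟩ : ∃ Od : k[X] → Prop, ∀ D, Od D ↔ ¬ EvenSel h ch D := ⟨_, fun _ => Iff.rfl⟩
  have hE : ∀ D ∈ DD (badP d) n, D ∉ Ex → (C0 D ↔ EvenSel h ch D) ∧ (C1 D ↔ ¬ EvenSel h ch D) := by
    intro D hD hDE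
    have h4 : Finite {Psi : G → V // S.IsSel (ch D) m₀ Psi} ∧
        4 * Nat.card {Psi : G → V // S.IsSel (ch D) m₀ Psi} < 16 ^ m₀ := by
      by_contra hcon
      exact hDE (by rw [hEx, mem_filter]; exact ⟨hD, hcon⟩)
    obtain ⟨he, ho⟩ := card_isSel_par h hc ha hn1 hD h4.2
    by_cases hEv : EvenSel h ch D
    · obtain ⟨h5, h6⟩ := h0 n D hD (hfin D hD) (he hEv)
      exact ⟨⟨fun _ => hEv, fun _ => h5⟩, ⟨fun h7 => absurd h7 h6, fun h7 => absurd hEv h7⟩⟩
    · obtain ⟨h5, h6⟩ := h1 n D hD (hfin D hD) (ho hEv).1 (ho hEv).2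
      exact ⟨⟨fun h7 => absurd h7 h6, fun h7 => absurd h7 hEv⟩, ⟨fun _ => hEv, fun _ => h5⟩⟩
  have hev' : |(((DD (badP d) n).filter (EvenSel h ch)).card : ℝ) - (DD (badP d) n).card / 2| ≤
      ε / 2 * (Nat.card k : ℝ) ^ n :=
    hev.trans (mul_le_mul_of_nonneg_left hcard (by positivity))
  have hodd : |(((DD (badP d) n).filter Od).card : ℝ) - (DD (badP d) n).card / 2| ≤
      ε / 2 * (Nat.card k : ℝ) ^ n := by
    have e0 : (DD (badP d) n).filter Od = (DD (badP d) n).filter fun D => ¬ EvenSel h ch D :=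
      filter_congr fun D _ => hOd D
    have e1 : (((DD (badP d) n).filter (EvenSel h ch)).card : ℝ) +
        ((DD (badP d) n).filter Od).card = (DD (badP d) n).card := by
      rw [e0]
      exact_mod_cast card_filter_add_card_filter_not (s := DD (badP d) n) (EvenSel h ch)
    have e2 : (((DD (badP d) n).filter Od).card : ℝ) - (DD (badP d) n).card / 2 =
        - ((((DD (badP d) n).filter (EvenSel h ch)).card : ℝ) - (DD (badP d) n).card / 2) := by
      linarith
    rw [e2, abs_neg]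
    exact hev'
  have c0 := HalfDD_count (DD (badP d) n) Ex C0 (EvenSel h ch) fun D hD hDE => (hE D hD hDE).1
  have c1 := HalfDD_count (DD (badP d) n) Ex C1 Od
    fun D hD hDE => (hE D hD hDE).2.trans (hOd D).symm
  constructor
  · have e3 := abs_add_le ((((DD (badP d) n).filter C0).card : ℝ) -
      ((DD (badP d) n).filter (EvenSel h ch)).card)
      ((((DD (badP d) n).filter (EvenSel h ch)).card : ℝ) - (DD (badP d) n).card / 2)
    rw [sub_add_sub_cancel] at e3
    linarith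
  · have e3 := abs_add_le ((((DD (badP d) n).filter C1).card : ℝ) -
      ((DD (badP d) n).filter Od).card)
      ((((DD (badP d) n).filter Od).card : ℝ) - (DD (badP d) n).card / 2)
    rw [sub_add_sub_cancel] at e3
    linarith

end Pool.Agent.Sm
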