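import Pool.Agent.Lib.Sm.L.HalfDD
import Pool.Agent.Lib.Sm.L.Asm
import Pool.Agent.Lib.Sm.Inst.ChInst
import Pool.Agent.Lib.Sm.P.ParInst
import Pool.Agent.Lib.Sm.P.QInst
import Pool.Agent.Lib.Sm.P.Mult

/-!
SMITH, block L with parity: the instance of `half_abs` for the twists `D y ^ 2 = x (x - α) (x - β)`,
`D` monic, squarefree and prime to `α β (α - β)`.
-/

set_option autoImplicit false

open Polynomial Finset Pool.Agent.BSDFF

namespace Pool.Agent.Sm.L

open Pool.Agent.SmK (DD)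
open Pool.Agent.SmithE (chP NoFour twd twd_ell_iff)

variable {k : Type} [Field k]

/-- Membership in `DD`. -/
theorem mem_DD_iff [Finite k] {u : k} (hu : ¬ IsSquare u) {α β : k[X]} (h : NoFour α β) {n : ℕ}
    {D : k[X]} : D ∈ DD (badP (twd u hu h)) n ↔
      D.Monic ∧ Squarefree D ∧ IsCoprime D (α * β * (α - β)) ∧ D.natDegree = n := by
  constructor
  · intro hD
    obtain ⟨hm, hn, hsq, hb⟩ := SmK.mem_DD.1 hD
    refine ⟨hm, hsq, ?_, hn⟩
    classical
    by_contra hco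
    have hne : ¬ IsUnit (EuclideanDomain.gcd D (α * β * (α - β))) := fun h1 => hco
      (EuclideanDomain.gcd_isUnit_iff.1 h1)
    have hg0 : EuclideanDomain.gcd D (α * β * (α - β)) ≠ 0 := fun h1 => hm.ne_zero
      (EuclideanDomain.gcd_eq_zero_iff.1 h1).1
    obtain ⟨P, hP, hPd⟩ := WfDvdMonoid.exists_irreducible_factor hne hg0
    have hP' := normalize_associated P
    have hm' : (normalize P).Monic := monic_normalize hP.ne_zero
    have hi' : Irreducible (normalize P) := hP'.irreducible_iff.2 hP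
    have h1 := (twd_ell_iff hu h hm' hi').2 (hP'.dvd.trans (hPd.trans (EuclideanDomain.gcd_dvd_right _ _)))
    exact hb _ (mem_badP.2 h1) (hP'.dvd.trans (hPd.trans (EuclideanDomain.gcd_dvd_left _ _)))
  · rintro ⟨hm, hsq, hco, hn⟩
    exact mem_DD_badP hu h hm hsq hco hn

/-- A place of multiplicative reduction is bad. -/
theorem MultP_dvd {P α β : k[X]} (h : Mult.MultP P α β) : P ∣ α * β * (α - β) := by
  obtain ⟨m, h1, h2, -, h3⟩ := h
  have hpow : P ∣ P ^ (2 * m + 1) := dvd_pow_self P (by omega)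
  rcases h3 with h3 | h3 | h3
  · exact ((hpow.trans h3).mul_right _).mul_right _
  · exact ((hpow.trans h3).mul_left _).mul_right _
  · exact (hpow.trans h3).mul_left _

/-- Reduction type depends only on the ideal. -/
theorem MultP_assoc {P Q α β : k[X]} (h : Mult.MultP P α β) (hPQ : Associated P Q) :
    Mult.MultP Q α β := by
  obtain ⟨m, h1, h2, h3, h4⟩ := h
  have e : ∀ (i : ℕ) (x : k[X]), Q ^ i ∣ x ↔ P ^ i ∣ x := fun i x =>
    ((hPQ.pow_pow (n := i)).dvd_iff_dvd_left).symm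
  refine ⟨m, (e _ _).2 h1, (e _ _).2 h2, ?_, ?_⟩
  · rw [e, e]
    exact h3
  · rw [e, e, e]
    exact h4

/-- **Half of the twists, instance.** `C0`, `C1`: corank 0 and corank 1. -/
theorem half_inst [Finite k] {Ω : Type} [Field Ω] [Algebra (RatFunc k) Ω]
    [IsSepClosure (RatFunc k) Ω] (h2 : (2 : k) ≠ 0) {α β : k[X]} (hno : No4 α β)
    {P : k[X]} (hP : Irreducible P) (hM : Mult.MultP P α β) {u : k} (hu : ¬ IsSquare u)
    (hG : ∀ m, 1 ≤ m → GridThm (Inst.sysOf Ω h2 hno.ne.1 hno.ne.2.1 hno.ne.2.2) (chP Ω)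
      (twd u hu hno.noFour) m) (C0 C1 : k[X] → Prop)
    (h0 : ∀ D : k[X], D ≠ 0 →
      (∀ i, Finite {Psi // (Inst.sysOf Ω h2 hno.ne.1 hno.ne.2.1 hno.ne.2.2).IsSel (chP Ω D) i
        Psi}) →
      (∃ B : ℕ, ∀ i, Nat.card {Psi // (Inst.sysOf Ω h2 hno.ne.1 hno.ne.2.1 hno.ne.2.2).IsSel
        (chP Ω D) i Psi} ≤ B * 4 ^ i) → C0 D ∧ ¬ C1 D)
    (h1 : ∀ D : k[X], D ≠ 0 →
      (∀ i, Finite {Psi // (Inst.sysOf Ω h2 hno.ne.1 hno.ne.2.1 hno.ne.2.2).IsSel (chP Ω D) i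
        Psi}) →
      (∀ i, 8 ^ i ≤ Nat.card {Psi // (Inst.sysOf Ω h2 hno.ne.1 hno.ne.2.1 hno.ne.2.2).IsSel
        (chP Ω D) i Psi}) →
      (∃ B : ℕ, ∀ i, Nat.card {Psi // (Inst.sysOf Ω h2 hno.ne.1 hno.ne.2.1 hno.ne.2.2).IsSel
        (chP Ω D) i Psi} ≤ B * 8 ^ i) → C1 D ∧ ¬ C0 D)
    (ε : ℝ) (hε : 0 < ε) : ∃ n₀ : ℕ, ∀ n ≥ n₀,
      |(Nat.card {D : k[X] // D.Monic ∧ Squarefree D ∧ IsCoprime D (α * β * (α - β)) ∧
          D.natDegree = n ∧ C0 D} : ℝ) -
        Nat.card {D : k[X] // D.Monic ∧ Squarefree D ∧ IsCoprime D (α * β * (α - β)) ∧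
          D.natDegree = n} / 2| ≤ ε * (Nat.card k : ℝ) ^ n ∧
      |(Nat.card {D : k[X] // D.Monic ∧ Squarefree D ∧ IsCoprime D (α * β * (α - β)) ∧
          D.natDegree = n ∧ C1 D} : ℝ) -
        Nat.card {D : k[X] // D.Monic ∧ Squarefree D ∧ IsCoprime D (α * β * (α - β)) ∧
          D.natDegree = n} / 2| ≤ ε * (Nat.card k : ℝ) ^ n := by
  classical
  have hOk := Inst.ok_sysOf (Ω := Ω) h2 hno.ne.1 hno.ne.2.1 hno.ne.2.2
  have hCh := Inst.chOk (Ω := Ω) h2 hno.ne.1 hno.ne.2.1 hno.ne.2.2 hu hno.noFour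
  have hPa := normalize_associated P
  have hPm : (normalize P).Monic := monic_normalize hP.ne_zero
  have hPi : Irreducible (normalize P) := hPa.irreducible_iff.2 hP
  have hM' : Mult.MultP (normalize P) α β := MultP_assoc hM hPa.symm
  obtain ⟨i0, hi0⟩ := (twd_ell_iff hu hno.noFour hPm hPi).2 (MultP_dvd hM')
  have hc : ∀ c : k, β ≠ C c * α := by
    intro c hc
    exact hno.n0 c α (by rw [hc]; ring)
  obtain ⟨n₀, hn₀⟩ := half_abs hOk hCh hG
    (fun J _ _ p hp => Inst.altn_sysOf h2 hno.ne.1 hno.ne.2.1 hno.ne.2.2 hc hOk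
      (Code.codeOk hOk hCh hp))
    (Inst.qOk h2 hno.ne.1 hno.ne.2.1 hno.ne.2.2) i0 (by
      rw [hi0, Inst.plF_eq hPi]
      intro chi chi' hchi hchi' e1 e2 e3
      exact Mult.sysOf_mult h2 hno.ne.1 hno.ne.2.1 hno.ne.2.2 hOk hPi hM' hchi hchi' e1 e2 e3)
    C0 C1 (fun n D hD hf hB => h0 D (SmK.mem_DD.1 hD).1.ne_zero hf hB)
    (fun n D hD hf h8 hB => h1 D (SmK.mem_DD.1 hD).1.ne_zero hf h8 hB) ε hε
  refine ⟨n₀, fun n hn => ?_⟩
  have key : ∀ C' : k[X] → Prop, (Nat.card {D : k[X] // D.Monic ∧ Squarefree D ∧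
      IsCoprime D (α * β * (α - β)) ∧ D.natDegree = n ∧ C' D} : ℝ) =
      ((DD (badP (twd u hu hno.noFour)) n).filter C').card := by
    intro C'
    rw [← Fintype.card_coe, ← Nat.card_eq_fintype_card]
    congr 1
    refine Nat.card_congr (Equiv.subtypeEquivRight fun D => ?_)
    rw [mem_filter, mem_DD_iff]
    tauto
  have key' : (Nat.card {D : k[X] // D.Monic ∧ Squarefree D ∧
      IsCoprime D (α * β * (α - β)) ∧ D.natDegree = n} : ℝ) =
      (DD (badP (twd u hu hno.noFour)) n).card := by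
    rw [← Fintype.card_coe, ← Nat.card_eq_fintype_card]
    congr 1
    exact Nat.card_congr (Equiv.subtypeEquivRight fun D => (mem_DD_iff hu hno.noFour).symm)
  rw [key C0, key C1, key']
  exact hn₀ n hn

end Pool.Agent.Sm.L
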