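import Pool.Agent.Lib.Sm.L.OrdL
import Pool.Agent.Lib.SmH.Link.Main
import Pool.Agent.Lib.SmH.L.StmtI

/-!
SMITH, heights: the order of vanishing for one `D` from the heights of one level.
-/

set_option autoImplicit false

open Polynomial WeierstrassCurve Pool.Agent.BSDFF Pool.Agent.BSDFF.MW Pool.Agent.SmithE

namespace Pool.Agent.Sm.L

variable {k : Type} [Field k] {Ω : Type} [Field Ω] [Algebra (RatFunc k) Ω]
  [IsSepClosure (RatFunc k) Ω]

variable [Finite k] (h2 : (2 : k) ≠ 0) {α β D : k[X]}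

open scoped Classical in
/-- The Selmer cocycles are finite in number. -/
theorem finite_selZ_of_hasCorank (hno : No4 α β) (hD : D ≠ 0) {r : ℕ}
    (hr : HasCorank k Ω (crv2 (D * α) (D * β)) r) (i : ℕ) :
    Finite {x // (SmH.sysJ (Inst.sysOf Ω h2 hno.ne.1 hno.ne.2.1
      hno.ne.2.2)).IsSel (Pool.Agent.Lib.SmD.chi (RatFunc k)
        (algebraMap k[X] (RatFunc k) D)) i x} := by
  have hsc : IsSepClosed Ω := IsSepClosure.sep_closed (RatFunc k)
  have hGal : IsGalois (RatFunc k) Ω := inferInstance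
  obtain ⟨hα, hβ, hαβ⟩ := hno.ne
  have h2K : (2 : RatFunc k) ≠ 0 := Inst.two_K h2
  have n12 := Inst.zero_ne_map (mul_ne_zero hD hα)
  have n13 := Inst.zero_ne_map (mul_ne_zero hD hβ)
  have n23 := Inst.map_ne_map (fun h => hαβ (mul_left_cancel₀ hD h))
  obtain ⟨B, hB⟩ := hr
  have hV : Nat.card (Gn (Pts Ω (crv2 (D * α) (D * β))) (2 ^ i)) = 4 ^ i :=
    card_pt_torsion (Ω := Ω) n12 n13 n23 h2K i
  have e1 := card_zsel k Ω (crv2 (D * α) (D * β)) (2 ^ i)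
  have e2 := card_bsel Ω (crv2 (D * α) (D * β)) (2 ^ i)
  rw [hV] at e2
  have hBS : Nat.card (BSel Ω (crv2 (D * α) (D * β)) (2 ^ i)) ≠ 0 := by
    intro h
    rw [h, mul_zero] at e2
    exact absurd e2 (by positivity)
  have hS : Nat.card (Sel k Ω (crv2 (D * α) (D * β)) (2 ^ i)) ≠ 0 := by
    intro h
    have h3 := (hB i).2
    rw [h, mul_zero] at h3
    exact absurd h3 (not_le.mpr (by positivity))
  have hZ : Finite (ZSel k Ω (crv2 (D * α) (D * β)) (2 ^ i)) := by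
    apply Nat.finite_of_card_ne_zero
    rw [e1]
    exact mul_ne_zero hS hBS
  obtain ⟨e⟩ := zsel_selZ (Ω := Ω) h2 hα hβ hαβ hD i
  have h4 := Finite.of_equiv _ e
  exact Finite.of_equiv _ (Equiv.subtypeEquivRight (p := fun x =>
    (Inst.sysOf Ω h2 hα hβ hαβ).IsSel (Pool.Agent.Lib.SmD.chi (RatFunc k)
      (algebraMap k[X] (RatFunc k) D)) i x) fun x => (SmH.isSel_iff _ _ _ _).symm)

open scoped Classical in
/-- If no rigid Selmer element of level `s` with a top outside of the image of the torsion has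
height zero then the order of vanishing of the `L`-function is the corank. -/
theorem ordOn_of_heights (hno : No4 α β) (hD : D ≠ 0) {r : ℕ} (hr1 : r ≤ 1)
    (hr : HasCorank k Ω (crv2 (D * α) (D * β)) r)
    (hOk : (Inst.sysOf Ω h2 hno.ne.1 hno.ne.2.1 hno.ne.2.2).Ok)
    {M : Type} [AddCommGroup M] [DistribMulAction (Ω ≃ₐ[RatFunc k] Ω) M]
    {H : SmH.HData (VV Ω (0 : RatFunc k) (algebraMap k[X] (RatFunc k) α)
      (algebraMap k[X] (RatFunc k) β)) M (Place k (RatFunc k))}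
    (hH : SmH.HOk (SmH.sysJ (Inst.sysOf Ω h2 hno.ne.1 hno.ne.2.1 hno.ne.2.2)) H)
    {dg : ℕ → (Ω ≃ₐ[RatFunc k] Ω) → ℕ}
    (hdg : ∀ m s, IsDeg k Ω m s (dg m s))
    (hDeg : SmH.DegOk (SmH.sysJ (Inst.sysOf Ω h2 hno.ne.1 hno.ne.2.1 hno.ne.2.2)) H dg)
    (hchi : (SmH.sysJ (Inst.sysOf Ω h2 hno.ne.1 hno.ne.2.1 hno.ne.2.2)).HomG
      (Pool.Agent.Lib.SmD.chi (RatFunc k) (algebraMap k[X] (RatFunc k) D)))
    {s : ℕ} (hs : 1 ≤ s)
    (hq : ¬ ∃ y, SmH.IsZ (SmH.sysJ (Inst.sysOf Ω h2 hno.ne.1 hno.ne.2.1 hno.ne.2.2)) H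
      (Pool.Agent.Lib.SmD.chi (RatFunc k) (algebraMap k[X] (RatFunc k) D)) s y) :
    OrdOn k Ω (crv2 (D * α) (D * β)) := by
  have hOkJ := SmH.okJ hOk
  have hfin := finite_selZ_of_hasCorank (Ω := Ω) h2 hno hD hr
  have l0 := SmH.link_card0 hOkJ hDeg.deg hDeg.unr hchi hfin
  have l1 := SmH.link_card hOkJ hH hDeg hchi hfin s hs
    (fun y hy hz hq0 => hq ⟨y, hy, hz, hq0⟩)
  have hV1 : Nat.card V1 = 4 := by
    rw [Nat.card_eq_fintype_card]
    rfl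
  obtain ⟨C, hC⟩ := selZ_le_of_hasCorank h2 hno hD hr
  rw [hV1] at l0 l1
  obtain ⟨C', hC', hfin'⟩ : ∃ C' : ℕ, (∀ i, Nat.card (WZS (Ω := Ω) h2 hno.ne.1 hno.ne.2.1
      hno.ne.2.2 dg D i) ≤ C' * 2 ^ ((r + 4) * i)) ∧
      ∀ i, Finite (WZS (Ω := Ω) h2 hno.ne.1 hno.ne.2.1 hno.ne.2.2 dg D i) := by
    interval_cases r
    · obtain ⟨C', hC'⟩ := l0 ⟨C, fun i => by simpa using hC i⟩
      refine ⟨C', fun i => (hC' i).2.trans (le_of_eq ?_), fun i => (hC' i).1⟩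
      rw [pow_mul]
      norm_num
    · obtain ⟨C', hC'⟩ := l1 ⟨C, fun i => by simpa using hC i⟩
      refine ⟨C', fun i => (hC' i).2.trans (le_of_eq ?_), fun i => (hC' i).1⟩
      rw [pow_mul]
      norm_num
  exact ordOn_of h2 hno hD hr1 hr hdg hfin' ⟨C', hC'⟩

end Pool.Agent.Sm.L
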