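import Pool.Agent.Lib.Sm.L.AllP
import Pool.Agent.Lib.Sm.L.Asm

/-!
SMITH, block L: a positive proportion of the squarefree twists has a finite place of multiplicative
reduction.
-/

set_option autoImplicit false

open Polynomial Pool.Agent UniqueFactorizationMonoid

namespace Pool.Agent.Sm.L

open Pool.Agent.SmK (DD)
open Pool.Agent.BSDP.R (primesOf)
open Pool.Agent.SmithE (vm exists_sq vm_mul)

variable {k : Type} [Field k]

private lemma pos_dvd_iff {P f : k[X]} (hP : P.Monic) (hi : Irreducible P) (hf : f ≠ 0) :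
    ∃ a : ℕ, (a : ZMod 2) = vm P f ∧ ∀ i, P ^ i ∣ f ↔ i ≤ a := by
  classical
  refine ⟨(normalizedFactors f).count P, ?_, fun i => ?_⟩
  · unfold vm
    congr!
  · rw [pow_dvd_iff_le_emultiplicity, emultiplicity_eq_count_normalizedFactors hi hf,
      hP.normalize_eq_self]
    exact Nat.cast_le

private lemma pos_multAt {P α β : k[X]} {a b m : ℕ} (ha : ∀ i, P ^ i ∣ α ↔ i ≤ a)
    (hb : ∀ i, P ^ i ∣ β ↔ i ≤ b) (hab : a ≠ b) (hm : min a b = 2 * m) : MultAt P α β := by
  refine ⟨m, (ha _).2 (by omega), (hb _).2 (by omega), ?_, ?_⟩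
  · rintro ⟨h1, h2⟩
    rw [ha] at h1
    rw [hb] at h2
    omega
  · rcases lt_or_gt_of_ne hab with h | h
    · exact Or.inr (Or.inl ((hb _).2 (by omega)))
    · exact Or.inl ((ha _).2 (by omega))

/-- Some twist by a divisor of `α β (α - β)` has a place of multiplicative reduction. -/
theorem exists_multD {α β : k[X]} (h : No4 α β) :
    ∃ e : k[X], Squarefree e ∧ e ∣ α * β * (α - β) ∧ MultD α β e := by
  classical
  have hα : α ≠ 0 := h.ne.1
  have hβ : β ≠ 0 := h.ne.2.1
  have h1 : ∃ P ∈ primesOf (α * β), vm P (α * β) ≠ 0 := by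
    by_contra hcon
    push Not at hcon
    obtain ⟨c, g, hg⟩ := exists_sq hcon
    exact h.n0 c g hg
  obtain ⟨P, hP, hv⟩ := h1
  obtain ⟨hPm, hPi, hPd⟩ := (SmithE.mem_primesOf (mul_ne_zero hα hβ)).1 hP
  obtain ⟨a, ha, ha'⟩ := pos_dvd_iff hPm hPi hα
  obtain ⟨b, hb, hb'⟩ := pos_dvd_iff hPm hPi hβ
  rw [vm_mul hα hβ, ← ha, ← hb, ← Nat.cast_add] at hv
  have hodd : ¬ 2 ∣ a + b := fun h2 => hv ((ZMod.natCast_eq_zero_iff _ _).2 h2)
  have hab : a ≠ b := by omega
  rcases Nat.even_or_odd (min a b) with hmin | hmin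
  · obtain ⟨m, hm⟩ := hmin
    refine ⟨1, squarefree_one, one_dvd _, P, hPi, ?_⟩
    rw [one_mul, one_mul]
    exact pos_multAt ha' hb' hab (m := m) (by omega)
  · obtain ⟨m, hm⟩ := hmin
    refine ⟨P, hPi.squarefree, hPd.mul_right _, P, hPi, ?_⟩
    have key : ∀ (f : k[X]) (c : ℕ), (∀ i, P ^ i ∣ f ↔ i ≤ c) →
        ∀ i, P ^ i ∣ P * f ↔ i ≤ c + 1 := by
      intro f c hc i
      cases i with
      | zero => simp
      | succ i =>
        rw [pow_succ', mul_dvd_mul_iff_left hPi.ne_zero, hc i]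
        omega
    exact pos_multAt (key α a ha') (key β b hb') (by omega) (m := m + 1) (by omega)

/-- A positive proportion of the squarefree twists has a finite place of multiplicative
reduction. -/
theorem pos_multD [Finite k] (h2 : (2 : k) ≠ 0) {α β : k[X]} (h : No4 α β) :
    ∃ δ : ℝ, 0 < δ ∧ ∃ n₀ : ℕ, ∀ n ≥ n₀,
      δ * (Nat.card {D : k[X] // Squarefree D ∧ D.natDegree = n} : ℝ) ≤
        (Nat.card {D : k[X] // Squarefree D ∧ D.natDegree = n ∧ MultD α β D} : ℝ) := by
  classical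
  obtain ⟨e, hesq, hed, hem⟩ := exists_multD h
  have hM0 : α * β * (α - β) ≠ 0 :=
    mul_ne_zero (mul_ne_zero h.ne.1 h.ne.2.1) (sub_ne_zero.2 h.ne.2.2)
  have hfin : ∀ n : ℕ, {D : k[X] | D.natDegree ≤ n}.Finite := by
    intro n
    have h : {D : k[X] | D.natDegree ≤ n} ⊆ (degreeLT k (n + 1) : Set k[X]) := by
      intro D hD
      rw [SetLike.mem_coe, mem_degreeLT]
      exact lt_of_le_of_lt degree_le_natDegree (by exact_mod_cast Nat.lt_succ_of_le hD)
    refine Set.Finite.subset ?_ h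
    have : Finite (degreeLT k (n + 1)) := Finite.of_equiv _ (degreeLTEquiv k (n + 1)).toEquiv.symm
    exact Set.toFinite _
  set M : k[X] := e * α * (e * β) * (e * α - e * β) with hM
  have hMe : M = e ^ 3 * (α * β * (α - β)) := by rw [hM]; ring
  have hMe0 : M ≠ 0 := by
    rw [hMe]
    exact mul_ne_zero (pow_ne_zero _ hesq.ne_zero) hM0
  obtain ⟨c, hc, n₁, hn₁⟩ := SmK.card_DD_ge (primesOf M)
    (fun P hP => ⟨((SmithE.mem_primesOf hMe0).1 hP).1, ((SmithE.mem_primesOf hMe0).1 hP).2.1⟩)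
    (three_le_card h2)
  have hq0 : (0 : ℝ) < Nat.card k := by exact_mod_cast Nat.card_pos
  refine ⟨c / (Nat.card k : ℝ) ^ (e.natDegree + 1), by positivity, n₁ + e.natDegree,
    fun n hn => ?_⟩
  -- upper bound for all the squarefree polynomials
  have hup : (Nat.card {D : k[X] // Squarefree D ∧ D.natDegree = n} : ℝ) ≤
      (Nat.card k : ℝ) ^ (n + 1) := by
    have h1 : Finite (degreeLT k (n + 1)) :=
      Finite.of_equiv _ (degreeLTEquiv k (n + 1)).toEquiv.symm
    have h3 : Nat.card {D : k[X] // Squarefree D ∧ D.natDegree = n} ≤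
        Nat.card (degreeLT k (n + 1)) := by
      refine Nat.card_le_card_of_injective (fun D => ⟨D.1, ?_⟩) fun D D' h =>
        Subtype.ext (congrArg (fun z : degreeLT k (n + 1) => z.1) h)
      rw [mem_degreeLT]
      exact lt_of_le_of_lt degree_le_natDegree (by exact_mod_cast Nat.lt_succ_of_le D.2.2.le)
    rw [SmK.natCard_degreeLT] at h3
    exact_mod_cast h3
  -- lower bound
  have hlow : ((DD (primesOf M) (n - e.natDegree)).card : ℝ) ≤
      (Nat.card {D : k[X] // Squarefree D ∧ D.natDegree = n ∧ MultD α β D} : ℝ) := by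
    have h1 : Finite {D : k[X] // Squarefree D ∧ D.natDegree = n ∧ MultD α β D} := by
      have h1 := (hfin n).to_subtype
      exact Finite.of_injective (β := {D : k[X] | D.natDegree ≤ n})
        (fun D => ⟨D.1, D.2.2.1.le⟩) fun D D' h => Subtype.ext (congrArg
          (fun z : {D : k[X] | D.natDegree ≤ n} => z.1) h)
    have h3 : Nat.card {D : k[X] // D ∈ DD (primesOf M) (n - e.natDegree)} ≤
        Nat.card {D : k[X] // Squarefree D ∧ D.natDegree = n ∧ MultD α β D} := by
      have hcop : ∀ D ∈ DD (primesOf M) (n - e.natDegree), IsCoprime D M := by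
        intro D hD
        obtain ⟨hm, hdeg, hsq, hbad⟩ := SmK.mem_DD.1 hD
        by_contra hcon
        obtain ⟨P, hPi, hPD, hPM⟩ : ∃ P, Irreducible P ∧ P ∣ D ∧ P ∣ M := by
          rw [← gcd_isUnit_iff] at hcon
          have hg0 : gcd D M ≠ 0 := fun h => hMe0 ((gcd_eq_zero_iff _ _).1 h).2
          obtain ⟨P, hPi, hPd⟩ := WfDvdMonoid.exists_irreducible_factor hcon hg0
          exact ⟨P, hPi, hPd.trans (gcd_dvd_left _ _), hPd.trans (gcd_dvd_right _ _)⟩
        have hass := normalize_associated P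
        refine hbad (normalize P) ((SmithE.mem_primesOf hMe0).2
          ⟨Polynomial.monic_normalize hPi.ne_zero, hass.irreducible_iff.2 hPi,
            hass.dvd.trans hPM⟩) (hass.dvd.trans hPD)
      refine Nat.card_le_card_of_injective (fun D => ⟨e * D.1, ?_, ?_, ?_⟩) fun D D' h =>
        Subtype.ext (mul_left_cancel₀ hesq.ne_zero (congrArg Subtype.val h))
      · obtain ⟨hm, hdeg, hsq, hbad⟩ := SmK.mem_DD.1 D.2
        rw [squarefree_mul_iff]
        refine ⟨?_, hesq, hsq⟩
        have h5 := hcop D.1 D.2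
        have h6 : e ∣ M := by
          rw [hMe]
          exact (dvd_pow_self e (by norm_num)).mul_right _
        exact (h5.of_isCoprime_of_dvd_right h6).symm.isRelPrime
      · obtain ⟨hm, hdeg, hsq, hbad⟩ := SmK.mem_DD.1 D.2
        rw [natDegree_mul hesq.ne_zero hm.ne_zero, hdeg]
        omega
      · obtain ⟨hm, hdeg, hsq, hbad⟩ := SmK.mem_DD.1 D.2
        exact (multD_mul hsq (hcop D.1 D.2)).2 hem
    rw [Nat.card_eq_fintype_card (α := {D : k[X] // D ∈ DD (primesOf M) (n - e.natDegree)}),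
      Fintype.card_coe] at h3
    exact_mod_cast h3
  have h5 := hn₁ (n - e.natDegree) (by omega)
  have h6 : (Nat.card k : ℝ) ^ (n + 1) =
      (Nat.card k : ℝ) ^ (n - e.natDegree) * (Nat.card k : ℝ) ^ (e.natDegree + 1) := by
    rw [← pow_add]
    congr 1
    omega
  calc c / (Nat.card k : ℝ) ^ (e.natDegree + 1) *
        (Nat.card {D : k[X] // Squarefree D ∧ D.natDegree = n} : ℝ)
      ≤ c / (Nat.card k : ℝ) ^ (e.natDegree + 1) * (Nat.card k : ℝ) ^ (n + 1) :=
        mul_le_mul_of_nonneg_left hup (by positivity)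
    _ = c * (Nat.card k : ℝ) ^ (n - e.natDegree) := by
        rw [h6]
        field_simp
    _ ≤ _ := h5.trans hlow

end Pool.Agent.Sm.L
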