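import Pool.Agent.Lib.Sm.L.HundInst
import Pool.Agent.Lib.Sm.L.PosP

/-!
SMITH, block L with parity: the squarefree twists without finite places of multiplicative reduction.

`all_hund` : a property of the curves which holds for almost all monic squarefree `D` prime to the bad
places holds for almost all squarefree `D` without finite places of multiplicative reduction;
`pos_addD` : these `D` have positive lower density; `hund_all` : if `-1` is a square in `k` and
`n + max (deg α, deg β)` is odd, almost all of them have corank 0.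
-/

set_option autoImplicit false

open Polynomial Pool.Agent UniqueFactorizationMonoid

namespace Pool.Agent.Sm.L

open Pool.Agent.SmK (DD)
open Pool.Agent.BSDP.R (primesOf)

variable {k : Type} [Field k]

private lemma hund_fin [Finite k] (n : ℕ) : {D : k[X] | D.natDegree ≤ n}.Finite := by
  have h : {D : k[X] | D.natDegree ≤ n} ⊆ (degreeLT k (n + 1) : Set k[X]) := by
    intro D hD
    rw [SetLike.mem_coe, mem_degreeLT]
    exact lt_of_le_of_lt degree_le_natDegree (by exact_mod_cast Nat.lt_succ_of_le hD)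
  refine Set.Finite.subset ?_ h
  have : Finite (degreeLT k (n + 1)) := Finite.of_equiv _ (degreeLTEquiv k (n + 1)).toEquiv.symm
  exact Set.toFinite _

/-- Without places of multiplicative reduction: all the bad primes divide `e`. -/
theorem dvd_of_not_multD {α β e : k[X]} (hcop : IsCoprime α β) (hm : ¬ MultD α β e) (l : k[X])
    (hl : Irreducible l) (hd : l ∣ α * β * (α - β)) : l ∣ e := by
  by_contra hle
  refine hm ⟨l, hl, 0, ?_, ?_, ?_, ?_⟩
  · rw [mul_zero, pow_zero]
    exact one_dvd _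
  · rw [mul_zero, pow_zero]
    exact one_dvd _
  · rw [mul_zero, zero_add, pow_one]
    rintro ⟨h1, h2⟩
    exact hl.not_isUnit (hcop.isUnit_of_dvd' ((hl.prime.dvd_or_dvd h1).resolve_left hle)
      ((hl.prime.dvd_or_dvd h2).resolve_left hle))
  · rw [mul_zero, zero_add, pow_one, ← mul_sub]
    rcases hl.prime.dvd_or_dvd hd with h1 | h1
    · rcases hl.prime.dvd_or_dvd h1 with h2 | h2
      · exact Or.inl (h2.mul_left e)
      · exact Or.inr (Or.inl (h2.mul_left e))
    · exact Or.inr (Or.inr (h1.mul_left e))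

/-- If all the bad primes divide `e` (squarefree) there are no places of multiplicative
reduction. -/
theorem not_multD_of_dvd {α β e : k[X]} (hcop : IsCoprime α β) (he : Squarefree e)
    (hd : ∀ l : k[X], Irreducible l → l ∣ α * β * (α - β) → l ∣ e) : ¬ MultD α β e := by
  rintro ⟨l, hl, m, h1, h2, h3, h4⟩
  -- `l` divides at most once the greatest common divisor
  have key : ∀ f : k[X], l ^ 2 ∣ e * f → l ∣ f := by
    intro f hf
    by_cases hle : l ∣ e
    · obtain ⟨e1, rfl⟩ := hle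
      have h5 : ¬ l ∣ e1 := by
        rintro ⟨e2, rfl⟩
        exact hl.not_isUnit (he l ⟨e2, by ring⟩)
      rw [sq, mul_assoc] at hf
      exact (hl.prime.dvd_or_dvd ((mul_dvd_mul_iff_left hl.ne_zero).1 hf)).resolve_left h5
    · exact (hl.prime.dvd_or_dvd ((dvd_pow_self l two_ne_zero).trans hf)).resolve_left hle
  have hm0 : m = 0 := by
    by_contra hm
    have h5 : l ^ 2 ∣ l ^ (2 * m) := pow_dvd_pow l (by omega)
    exact hl.not_isUnit (hcop.isUnit_of_dvd' (key _ (h5.trans h1)) (key _ (h5.trans h2)))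
  subst hm0
  rw [mul_zero, zero_add, pow_one] at h3 h4
  rw [← mul_sub] at h4
  have hle : l ∣ e := by
    by_contra hle
    have h5 : l ∣ α * β * (α - β) := by
      rcases h4 with h4 | h4 | h4
      · exact (((hl.prime.dvd_or_dvd h4).resolve_left hle).mul_right _).mul_right _
      · exact (((hl.prime.dvd_or_dvd h4).resolve_left hle).mul_left _).mul_right _
      · exact ((hl.prime.dvd_or_dvd h4).resolve_left hle).mul_left _
    exact hle (hd l hl h5)
  exact h3 ⟨hle.mul_right _, hle.mul_right _⟩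

/-- The distribution of a property `Q` of the curves `y ^ 2 = x (x - a) (x - b)`. -/
theorem all_hund [Finite k] (Q : k[X] → k[X] → Prop)
    (hmain : ∀ a b : k[X], No4 a b →
      (∀ P : k[X], Irreducible P → P ∣ a * b * (a - b) → ∃ m : ℕ, P ^ (2 * m + 1) ∣ a ∧
        P ^ (2 * m + 1) ∣ b ∧ ¬ (P ^ (2 * m + 2) ∣ a ∧ P ^ (2 * m + 2) ∣ b)) →
      ∀ ε : ℝ, 0 < ε → ∃ n₀ : ℕ, ∀ n ≥ n₀, Odd (max a.natDegree b.natDegree + n) →
      (Nat.card {D : k[X] // D.Monic ∧ Squarefree D ∧ IsCoprime D (a * b * (a - b)) ∧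
        D.natDegree = n ∧ ¬ Q (D * a) (D * b)} : ℝ) ≤ ε * (Nat.card k : ℝ) ^ n)
    (hlow : ∃ c : ℝ, 0 < c ∧ ∃ n₁ : ℕ, ∀ n ≥ n₁, c * (Nat.card k : ℝ) ^ n ≤
      (Nat.card {D : k[X] // Squarefree D ∧ D.natDegree = n} : ℝ))
    (α β : k[X]) (h4 : No4 α β) (hcop : IsCoprime α β) (ε : ℝ) (hε : 0 < ε) :
    ∃ n₀ : ℕ, ∀ n ≥ n₀, Odd (max α.natDegree β.natDegree + n) →
      (Nat.card {D : k[X] // Squarefree D ∧ D.natDegree = n ∧ ¬ MultD α β D ∧
        ¬ Q (D * α) (D * β)} : ℝ) ≤
        ε * (Nat.card {D : k[X] // Squarefree D ∧ D.natDegree = n} : ℝ) := by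
  classical
  obtain ⟨c₀, hc₀, n₁, hlow⟩ := hlow
  have hα : α ≠ 0 := fun h => h4.n0 0 0 (by rw [h]; simp)
  have hβ : β ≠ 0 := fun h => h4.n0 0 0 (by rw [h]; simp)
  have hαβ : α - β ≠ 0 := fun h => h4.n1 0 0 (by rw [h]; simp)
  have hM0 : α * β * (α - β) ≠ 0 := mul_ne_zero (mul_ne_zero hα hβ) hαβ
  have hfin : {e : k[X] | Squarefree e ∧ e ∣ α * β * (α - β)}.Finite := by
    refine Set.Finite.subset (hund_fin (α * β * (α - β)).natDegree) ?_
    rintro e ⟨_, he⟩
    exact natDegree_le_of_dvd he hM0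
  set Es := hfin.toFinset with hEs
  have hEs' : ∀ e, e ∈ Es ↔ Squarefree e ∧ e ∣ α * β * (α - β) := by
    intro e
    rw [hEs, Set.Finite.mem_toFinset]
    rfl
  set N : ℝ := (Es.card : ℝ) + 1 with hN
  have hN0 : 0 < N := by positivity
  set ε' : ℝ := ε * c₀ / N with hε'
  have hε'0 : 0 < ε' := by positivity
  have hn : ∀ e : k[X], ∃ n₀ : ℕ, e ∈ Es → ¬ MultD α β e → ∀ n ≥ n₀,
      Odd (max (e * α).natDegree (e * β).natDegree + n) →
      (Nat.card {D : k[X] // D.Monic ∧ Squarefree D ∧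
        IsCoprime D (e * α * (e * β) * (e * α - e * β)) ∧
        D.natDegree = n ∧ ¬ Q (D * (e * α)) (D * (e * β))} : ℝ) ≤ ε' * (Nat.card k : ℝ) ^ n := by
    intro e
    by_cases he : e ∈ Es ∧ ¬ MultD α β e
    · have he1 := (hEs' e).1 he.1
      obtain ⟨n₀, h⟩ := hmain (e * α) (e * β) (h4.twist he1.1.ne_zero)
        (Inst.bad_of_twist hcop he1.1 (fun P hP hPd => dvd_of_not_multD hcop he.2 P hP hPd))
        ε' hε'0
      exact ⟨n₀, fun _ _ => h⟩
    · exact ⟨0, fun h h' => absurd ⟨h, h'⟩ he⟩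
  choose n₀ hn₀ using hn
  refine ⟨Es.sup n₀ + (α * β * (α - β)).natDegree + n₁, fun n hnn hodd => ?_⟩
  have hq1 : (1 : ℝ) ≤ (Nat.card k : ℝ) := by
    have : 1 ≤ Nat.card k := Nat.card_pos
    exact_mod_cast this
  have hdec1 := card_decomp hM0 Es hEs' n (by omega)
    (fun D => ¬ MultD α β D ∧ ¬ Q (D * α) (D * β))
  rw [hdec1]
  push_cast
  have hT : ∀ e ∈ Es, (Nat.card {D : k[X] // D.Monic ∧ Squarefree D ∧
        IsCoprime D (e * α * (e * β) * (e * α - e * β)) ∧ D.natDegree = n - e.natDegree ∧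
        ¬ MultD α β (e * D) ∧ ¬ Q (e * D * α) (e * D * β)} : ℝ) ≤
        ε' * (Nat.card k : ℝ) ^ n := by
    intro e he
    by_cases hm : MultD α β e
    · have : IsEmpty {D : k[X] // D.Monic ∧ Squarefree D ∧
          IsCoprime D (e * α * (e * β) * (e * α - e * β)) ∧ D.natDegree = n - e.natDegree ∧
          ¬ MultD α β (e * D) ∧ ¬ Q (e * D * α) (e * D * β)} :=
        ⟨fun D => D.2.2.2.2.2.1 ((multD_mul D.2.2.1 D.2.2.2.1).2 hm)⟩
      rw [Nat.card_of_isEmpty, Nat.cast_zero]
      positivity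
    · have h1 : n₀ e ≤ Es.sup n₀ := Finset.le_sup he
      have hdeg : e.natDegree ≤ (α * β * (α - β)).natDegree :=
        natDegree_le_of_dvd ((hEs' e).1 he).2 hM0
      have he0 : e ≠ 0 := ((hEs' e).1 he).1.ne_zero
      have h2 := hn₀ e he hm (n - e.natDegree) (by omega) (by
        rw [natDegree_mul he0 hα, natDegree_mul he0 hβ, Nat.odd_iff]
        rw [Nat.odd_iff] at hodd
        omega)
      refine le_trans (le_of_eq ?_) (h2.trans (mul_le_mul_of_nonneg_left
        (pow_le_pow_right₀ hq1 (Nat.sub_le _ _)) hε'0.le))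
      congr 1
      refine Nat.card_congr (Equiv.subtypeEquivRight fun D => ?_)
      have e2 : e * D * α = D * (e * α) := by ring
      have e3 : e * D * β = D * (e * β) := by ring
      rw [e2, e3]
      constructor
      · rintro ⟨h1, h2, h3, h5, h6, h7⟩
        exact ⟨h1, h2, h3, h5, h7⟩
      · rintro ⟨h1, h2, h3, h5, h7⟩
        exact ⟨h1, h2, h3, h5, fun h8 => hm ((multD_mul h2 h3).1 h8), h7⟩
  calc _ ≤ ∑ _e ∈ Es, ε' * (Nat.card k : ℝ) ^ n := Finset.sum_le_sum hT
    _ = (Es.card : ℝ) * (ε' * (Nat.card k : ℝ) ^ n) := by rw [Finset.sum_const, nsmul_eq_mul]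
    _ ≤ N * (ε' * (Nat.card k : ℝ) ^ n) := by
        refine mul_le_mul_of_nonneg_right ?_ (by positivity)
        rw [hN]; linarith
    _ = ε * (c₀ * (Nat.card k : ℝ) ^ n) := by
        rw [hε']
        field_simp
    _ ≤ _ := mul_le_mul_of_nonneg_left (hlow n (by omega)) hε.le

/-- A property of all `e * D`, `D` squarefree and prime to the bad places, holds for a positive
proportion of the squarefree polynomials. -/
theorem pos_of_mul [Finite k] (h2 : (2 : k) ≠ 0) {α β : k[X]} (h : No4 α β) {e : k[X]}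
    (hesq : Squarefree e) (R : k[X] → Prop)
    (hR : ∀ D : k[X], Squarefree D → IsCoprime D (e * α * (e * β) * (e * α - e * β)) →
      R (e * D)) :
    ∃ δ : ℝ, 0 < δ ∧ ∃ n₀ : ℕ, ∀ n ≥ n₀,
      δ * (Nat.card {D : k[X] // Squarefree D ∧ D.natDegree = n} : ℝ) ≤
        (Nat.card {D : k[X] // Squarefree D ∧ D.natDegree = n ∧ R D} : ℝ) := by
  classical
  have hM0 : α * β * (α - β) ≠ 0 :=
    mul_ne_zero (mul_ne_zero h.ne.1 h.ne.2.1) (sub_ne_zero.2 h.ne.2.2)
  set M : k[X] := e * α * (e * β) * (e * α - e * β) with hM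
  have hMe : M = e ^ 3 * (α * β * (α - β)) := by rw [hM]; ring
  have hMe0 : M ≠ 0 := by
    rw [hMe]
    exact mul_ne_zero (pow_ne_zero _ hesq.ne_zero) hM0
  obtain ⟨c, hc, n₁, hn₁⟩ := SmK.card_DD_ge (primesOf M)
    (fun P hP => ⟨((SmithE.mem_primesOf hMe0).1 hP).1, ((SmithE.mem_primesOf hMe0).1 hP).2.1⟩)
    (three_le_card h2)
  have hq0 : (0 : ℝ) < Nat.card k := by exact_mod_cast Nat.card_pos
  refine ⟨c / (Nat.card k : ℝ) ^ (e.natDegree + 1), by positivity, n₁ + e.natDegree,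
    fun n hn => ?_⟩
  -- upper bound for all the squarefree polynomials
  have hup : (Nat.card {D : k[X] // Squarefree D ∧ D.natDegree = n} : ℝ) ≤
      (Nat.card k : ℝ) ^ (n + 1) := by
    have h1 : Finite (degreeLT k (n + 1)) :=
      Finite.of_equiv _ (degreeLTEquiv k (n + 1)).toEquiv.symm
    have h3 : Nat.card {D : k[X] // Squarefree D ∧ D.natDegree = n} ≤
        Nat.card (degreeLT k (n + 1)) := by
      refine Nat.card_le_card_of_injective (fun D => ⟨D.1, ?_⟩) fun D D' h =>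
        Subtype.ext (congrArg (fun z : degreeLT k (n + 1) => z.1) h)
      rw [mem_degreeLT]
      exact lt_of_le_of_lt degree_le_natDegree (by exact_mod_cast Nat.lt_succ_of_le D.2.2.le)
    rw [SmK.natCard_degreeLT] at h3
    exact_mod_cast h3
  -- lower bound
  have hlow : ((DD (primesOf M) (n - e.natDegree)).card : ℝ) ≤
      (Nat.card {D : k[X] // Squarefree D ∧ D.natDegree = n ∧ R D} : ℝ) := by
    have h1 : Finite {D : k[X] // Squarefree D ∧ D.natDegree = n ∧ R D} := by
      have h1 := (hund_fin (k := k) n).to_subtype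
      exact Finite.of_injective (β := {D : k[X] | D.natDegree ≤ n})
        (fun D => ⟨D.1, D.2.2.1.le⟩) fun D D' h => Subtype.ext (congrArg
          (fun z : {D : k[X] | D.natDegree ≤ n} => z.1) h)
    have h3 : Nat.card {D : k[X] // D ∈ DD (primesOf M) (n - e.natDegree)} ≤
        Nat.card {D : k[X] // Squarefree D ∧ D.natDegree = n ∧ R D} := by
      have hcop : ∀ D ∈ DD (primesOf M) (n - e.natDegree), IsCoprime D M := by
        intro D hD
        obtain ⟨hm, hdeg, hsq, hbad⟩ := SmK.mem_DD.1 hD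
        by_contra hcon
        obtain ⟨P, hPi, hPD, hPM⟩ : ∃ P, Irreducible P ∧ P ∣ D ∧ P ∣ M := by
          rw [← gcd_isUnit_iff] at hcon
          have hg0 : gcd D M ≠ 0 := fun h => hMe0 ((gcd_eq_zero_iff _ _).1 h).2
          obtain ⟨P, hPi, hPd⟩ := WfDvdMonoid.exists_irreducible_factor hcon hg0
          exact ⟨P, hPi, hPd.trans (gcd_dvd_left _ _), hPd.trans (gcd_dvd_right _ _)⟩
        have hass := normalize_associated P
        refine hbad (normalize P) ((SmithE.mem_primesOf hMe0).2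
          ⟨Polynomial.monic_normalize hPi.ne_zero, hass.irreducible_iff.2 hPi,
            hass.dvd.trans hPM⟩) (hass.dvd.trans hPD)
      refine Nat.card_le_card_of_injective (fun D => ⟨e * D.1, ?_, ?_, ?_⟩) fun D D' h =>
        Subtype.ext (mul_left_cancel₀ hesq.ne_zero (congrArg Subtype.val h))
      · obtain ⟨hm, hdeg, hsq, hbad⟩ := SmK.mem_DD.1 D.2
        rw [squarefree_mul_iff]
        refine ⟨?_, hesq, hsq⟩
        have h5 := hcop D.1 D.2
        have h6 : e ∣ M := by
          rw [hMe]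
          exact (dvd_pow_self e (by norm_num)).mul_right _
        exact (h5.of_isCoprime_of_dvd_right h6).symm.isRelPrime
      · obtain ⟨hm, hdeg, hsq, hbad⟩ := SmK.mem_DD.1 D.2
        rw [natDegree_mul hesq.ne_zero hm.ne_zero, hdeg]
        omega
      · obtain ⟨hm, hdeg, hsq, hbad⟩ := SmK.mem_DD.1 D.2
        exact hR D.1 hsq (hcop D.1 D.2)
    rw [Nat.card_eq_fintype_card (α := {D : k[X] // D ∈ DD (primesOf M) (n - e.natDegree)}),
      Fintype.card_coe] at h3
    exact_mod_cast h3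
  have h5 := hn₁ (n - e.natDegree) (by omega)
  have h6 : (Nat.card k : ℝ) ^ (n + 1) =
      (Nat.card k : ℝ) ^ (n - e.natDegree) * (Nat.card k : ℝ) ^ (e.natDegree + 1) := by
    rw [← pow_add]
    congr 1
    omega
  calc c / (Nat.card k : ℝ) ^ (e.natDegree + 1) *
        (Nat.card {D : k[X] // Squarefree D ∧ D.natDegree = n} : ℝ)
      ≤ c / (Nat.card k : ℝ) ^ (e.natDegree + 1) * (Nat.card k : ℝ) ^ (n + 1) :=
        mul_le_mul_of_nonneg_left hup (by positivity)
    _ = c * (Nat.card k : ℝ) ^ (n - e.natDegree) := by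
        rw [h6]
        field_simp
    _ ≤ _ := h5.trans hlow

/-- A positive proportion of the squarefree twists has no finite place of multiplicative
reduction. -/
theorem pos_not_multD [Finite k] (h2 : (2 : k) ≠ 0) {α β : k[X]} (h : No4 α β)
    (hcop : IsCoprime α β) :
    ∃ δ : ℝ, 0 < δ ∧ ∃ n₀ : ℕ, ∀ n ≥ n₀,
      δ * (Nat.card {D : k[X] // Squarefree D ∧ D.natDegree = n} : ℝ) ≤
        (Nat.card {D : k[X] // Squarefree D ∧ D.natDegree = n ∧ ¬ MultD α β D} : ℝ) := by
  classical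
  have hM0 : α * β * (α - β) ≠ 0 :=
    mul_ne_zero (mul_ne_zero h.ne.1 h.ne.2.1) (sub_ne_zero.2 h.ne.2.2)
  have hmem := fun P => (SmithE.mem_primesOf (P := P) hM0)
  have hsq : Squarefree (∏ P ∈ primesOf (α * β * (α - β)), P) :=
    SmK.squarefree_prod fun P hP => ⟨((hmem P).1 hP).1, ((hmem P).1 hP).2.1⟩
  have hdvd : ∀ l : k[X], Irreducible l → l ∣ α * β * (α - β) →
      l ∣ ∏ P ∈ primesOf (α * β * (α - β)), P := by
    intro l hl hd
    have hass := normalize_associated l
    have h1 : normalize l ∈ primesOf (α * β * (α - β)) := (hmem _).2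
      ⟨Polynomial.monic_normalize hl.ne_zero, hass.irreducible_iff.2 hl, hass.dvd.trans hd⟩
    exact hass.symm.dvd.trans (Finset.dvd_prod_of_mem _ h1)
  have hnm := not_multD_of_dvd hcop hsq hdvd
  exact pos_of_mul h2 h hsq (fun D => ¬ MultD α β D)
    (fun D hD hc hm => hnm ((multD_mul hD hc).1 hm))

/-- **The twists without places of multiplicative reduction.** If `-1` is a square in `k`, `α` and `β`
are coprime and `n + max (deg α, deg β)` is odd, then almost all of the squarefree `D` of degree `n`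
for which `E_D` has no finite place of multiplicative reduction have corank 0. -/
theorem hund_corank_all [Finite k] (h2 : (2 : k) ≠ 0) (hneg : IsSquare (-1 : k)) {α β : k[X]}
    (h4 : No4 α β) (hcop : IsCoprime α β) :
    ∃ δ : ℝ, 0 < δ ∧ ∀ ε : ℝ, 0 < ε → ∃ n₀ : ℕ, ∀ n ≥ n₀,
      δ * (Nat.card {D : k[X] // Squarefree D ∧ D.natDegree = n} : ℝ) ≤
        (Nat.card {D : k[X] // Squarefree D ∧ D.natDegree = n ∧ ¬ MultD α β D} : ℝ) ∧
      (Odd (max α.natDegree β.natDegree + n) →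
        (Nat.card {D : k[X] // Squarefree D ∧ D.natDegree = n ∧ ¬ MultD α β D ∧
          ¬ HasCorank k (SeparableClosure (RatFunc k)) (crv2 (D * α) (D * β)) 0} : ℝ) ≤
        ε * (Nat.card {D : k[X] // Squarefree D ∧ D.natDegree = n ∧ ¬ MultD α β D} : ℝ)) := by
  obtain ⟨δ, hδ, n1, hn1⟩ := pos_not_multD h2 h4 hcop
  refine ⟨δ, hδ, fun ε hε => ?_⟩
  have hlow : ∃ c : ℝ, 0 < c ∧ ∃ n₁ : ℕ, ∀ n ≥ n₁, c * (Nat.card k : ℝ) ^ n ≤
      (Nat.card {D : k[X] // Squarefree D ∧ D.natDegree = n} : ℝ) := by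
    obtain ⟨c, hc, h⟩ := card_squarefree_ge (k := k) h2
    exact ⟨c, hc, 0, fun n _ => h n⟩
  obtain ⟨n2, hn2⟩ := all_hund
    (fun a b => HasCorank k (SeparableClosure (RatFunc k)) (crv2 a b) 0)
    (fun a b hab hbad ε hε => hund_corank (SeparableClosure (RatFunc k)) h2 hab hneg hbad ε hε)
    hlow α β h4 hcop (ε * δ) (by positivity)
  refine ⟨max n1 n2, fun n hn => ?_⟩
  have m1 := hn1 n (le_trans (le_max_left _ _) hn)
  refine ⟨m1, fun hodd => (hn2 n (le_trans (le_max_right _ _) hn) hodd).trans ?_⟩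
  rw [mul_assoc]
  exact mul_le_mul_of_nonneg_left m1 hε.le

/-- The same for the full conclusion: corank 0, rank 0 and finite `2`-power torsion of the
Tate-Shafarevich group. -/
theorem hund_all [Finite k] (h2 : (2 : k) ≠ 0) (hneg : IsSquare (-1 : k)) {α β : k[X]}
    (h4 : No4 α β) (hcop : IsCoprime α β) :
    ∃ δ : ℝ, 0 < δ ∧ ∀ ε : ℝ, 0 < ε → ∃ n₀ : ℕ, ∀ n ≥ n₀,
      δ * (Nat.card {D : k[X] // Squarefree D ∧ D.natDegree = n} : ℝ) ≤
        (Nat.card {D : k[X] // Squarefree D ∧ D.natDegree = n ∧ ¬ MultD α β D} : ℝ) ∧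
      (Odd (max α.natDegree β.natDegree + n) →
        (Nat.card {D : k[X] // Squarefree D ∧ D.natDegree = n ∧ ¬ MultD α β D ∧
          ¬ Rank0 α β D} : ℝ) ≤
        ε * (Nat.card {D : k[X] // Squarefree D ∧ D.natDegree = n ∧ ¬ MultD α β D} : ℝ)) := by
  classical
  obtain ⟨δ, hδ, hcor⟩ := hund_corank_all h2 hneg h4 hcop
  refine ⟨δ, hδ, fun ε hε => ?_⟩
  obtain ⟨n1, hn1⟩ := hcor (ε / 2) (by positivity)
  obtain ⟨j, n2, hn2⟩ := all_twists h2 α β h4 (ε * δ / 2) (by positivity)
  refine ⟨max n1 n2, fun n hn => ?_⟩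
  obtain ⟨m1, m2⟩ := hn1 n (le_trans (le_max_left _ _) hn)
  have m3 := hn2 n (le_trans (le_max_right _ _) hn)
  refine ⟨m1, fun hodd => ?_⟩
  have m2 := m2 hodd
  set F : ℝ := (Nat.card {D : k[X] // Squarefree D ∧ D.natDegree = n ∧ ¬ MultD α β D} : ℝ)
    with hF
  have ffin : ∀ P : k[X] → Prop, (∀ D, P D → D.natDegree = n) → Finite {D : k[X] // P D} := by
    intro P hP
    have h1 := (hund_fin (k := k) n).to_subtype
    exact Finite.of_injective (β := {D : k[X] | D.natDegree ≤ n})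
      (fun D => ⟨D.1, (hP _ D.2).le⟩) fun D D' h => Subtype.ext (congrArg
        (fun z : {D : k[X] | D.natDegree ≤ n} => z.1) h)
  have f1 := ffin (fun D => Squarefree D ∧ D.natDegree = n ∧ ¬ MultD α β D ∧
    ¬ HasCorank k (SeparableClosure (RatFunc k)) (crv2 (D * α) (D * β)) 0) fun D h => h.2.1
  have f2 := ffin (fun D => Squarefree D ∧ D.natDegree = n ∧ ¬ Good α β j D) fun D h => h.2.1
  have h3 : Nat.card {D : k[X] // Squarefree D ∧ D.natDegree = n ∧ ¬ MultD α β D ∧
      ¬ Rank0 α β D} ≤ Nat.card ({D : k[X] // Squarefree D ∧ D.natDegree = n ∧ ¬ MultD α β D ∧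
      ¬ HasCorank k (SeparableClosure (RatFunc k)) (crv2 (D * α) (D * β)) 0} ⊕
      {D : k[X] // Squarefree D ∧ D.natDegree = n ∧ ¬ Good α β j D}) := by
    refine Nat.card_le_card_of_injective (fun D =>
      if h : HasCorank k (SeparableClosure (RatFunc k)) (crv2 (D.1 * α) (D.1 * β)) 0 then
        Sum.inr ⟨D.1, D.2.1, D.2.2.1, fun hg => D.2.2.2.2 ?_⟩
        else Sum.inl ⟨D.1, D.2.1, D.2.2.1, D.2.2.2.1, h⟩) ?_
    · obtain ⟨h5, h6⟩ := GoodOn.of_corank_zero k (SeparableClosure (RatFunc k)) _ hg h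
      exact ⟨h, h5, h6⟩
    · intro D D' h
      by_cases h4 : HasCorank k (SeparableClosure (RatFunc k)) (crv2 (D.1 * α) (D.1 * β)) 0 <;>
        by_cases h5 : HasCorank k (SeparableClosure (RatFunc k)) (crv2 (D'.1 * α) (D'.1 * β)) 0
      · simp only [h4, h5, dif_pos, Sum.inr.injEq, Subtype.mk.injEq] at h
        exact Subtype.ext h
      · simp only [h4, h5, dif_pos, dif_neg, not_false_eq_true, reduceCtorEq] at h
      · simp only [h4, h5, dif_pos, dif_neg, not_false_eq_true, reduceCtorEq] at h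
      · simp only [h4, h5, dif_neg, not_false_eq_true, Sum.inl.injEq, Subtype.mk.injEq] at h
        exact Subtype.ext h
  rw [Nat.card_sum] at h3
  have h4 : (Nat.card {D : k[X] // Squarefree D ∧ D.natDegree = n ∧ ¬ MultD α β D ∧
      ¬ Rank0 α β D} : ℝ) ≤ (Nat.card {D : k[X] // Squarefree D ∧ D.natDegree = n ∧
      ¬ MultD α β D ∧ ¬ HasCorank k (SeparableClosure (RatFunc k)) (crv2 (D * α) (D * β)) 0} : ℝ) +
      (Nat.card {D : k[X] // Squarefree D ∧ D.natDegree = n ∧ ¬ Good α β j D} : ℝ) := by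
    exact_mod_cast h3
  have h5 : ε * δ / 2 * (Nat.card {D : k[X] // Squarefree D ∧ D.natDegree = n} : ℝ) ≤
      ε / 2 * F := by
    have := mul_le_mul_of_nonneg_left m1 (show (0 : ℝ) ≤ ε / 2 by positivity)
    linarith
  linarith

end Pool.Agent.Sm.L
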