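import Pool.Agent.Lib.Sm.L.HalfDD

/-!
SMITH, block L with parity: if all the 2-Selmer groups of the twists of degree `n` have square orders
then all but `ε` of these twists have corank 0.
-/

set_option autoImplicit false

open Polynomial Finset

namespace Pool.Agent.Sm

open Pool.Agent.SmK (DD)

variable {k : Type} [Field k] {G V Pl : Type} [Group G] [AddCommGroup V] [DistribMulAction G V]
  {S : Sys G V Pl} {ch : k[X] → G → ZMod 2} {d : TwData k} {pl : k[X] → Pl}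

theorem EvenSel.of_isSquare [Finite k] (h : S.Ok) (hc : ChOk S ch d pl) {n : ℕ} (hn : 0 < n)
    {D : k[X]} (hD : D ∈ DD (badP d) n) (hs : IsSquare (Nat.card (S.Sel1 h (ch D)))) :
    EvenSel h ch D := by
  obtain ⟨i, hi⟩ := SmP.card_Sel1_pow h hc (B := badP d) (fun P => mem_badP) hn hD
  rw [hi] at hs
  obtain ⟨r, hr⟩ := hs
  obtain ⟨a, -, ha⟩ := (Nat.dvd_prime_pow Nat.prime_two).1 (show r ∣ 2 ^ i from ⟨r, hr⟩)
  refine ⟨a, ?_⟩
  rw [hi, hr, ha, ← pow_add, ← two_mul, pow_mul]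
  norm_num

open Classical in
/-- **All of the twists.** -/
theorem hund_abs [Finite k] (h : S.Ok) (hc : ChOk S ch d pl)
    (hG : ∀ m, 1 ≤ m → GridThm S ch d m)
    (ha : ∀ (J : Type) [Fintype J] [Nonempty J] (p : J → k[X]), PVec d p →
      (twJ S h ch d p).Altn) (A : ℕ → Prop)
    (hA : ∀ n, A n → ∀ D ∈ DD (badP d) n, IsSquare (Nat.card (S.Sel1 h (ch D))))
    (C0 : k[X] → Prop)
    (h0 : ∀ n, ∀ D ∈ DD (badP d) n, (∀ i, Finite {Psi : G → V // S.IsSel (ch D) i Psi}) →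
      (∃ B : ℕ, ∀ i, Nat.card {Psi : G → V // S.IsSel (ch D) i Psi} ≤ B * 4 ^ i) → C0 D)
    (ε : ℝ) (hε : 0 < ε) :
    ∃ n₀ : ℕ, ∀ n ≥ n₀, A n →
      (((DD (badP d) n).filter fun D => ¬ C0 D).card : ℝ) ≤ ε * (Nat.card k : ℝ) ^ n := by
  obtain ⟨m₀, hm⟩ := abs_main h hc hG ε hε
  obtain ⟨n₁, hn₁⟩ := hm m₀ le_rfl
  refine ⟨max n₁ 1, fun n hn hAn => ?_⟩
  have hn1 : 1 ≤ n := le_trans (le_max_right _ _) hn
  refine le_trans ?_ (hn₁ n (le_trans (le_max_left _ _) hn))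
  have hfin : ∀ D ∈ DD (badP d) n, ∀ i, Finite {Psi : G → V // S.IsSel (ch D) i Psi} := by
    intro D hD i
    obtain ⟨hp, hprod, hne⟩ := exists_pvec hD hn1
    have h5 := (lfacts_of h hc hp).fin i
    rw [chiJ_eq_prod hc _ _ hp, hprod] at h5
    exact h5
  have e1 : Nat.card {D : k[X] // D ∈ DD (badP d) n ∧
      ¬ (Finite {Psi : G → V // S.IsSel (ch D) m₀ Psi} ∧
        4 * Nat.card {Psi : G → V // S.IsSel (ch D) m₀ Psi} < 16 ^ m₀)} =
      ((DD (badP d) n).filter fun D => ¬ (Finite {Psi : G → V // S.IsSel (ch D) m₀ Psi} ∧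
        4 * Nat.card {Psi : G → V // S.IsSel (ch D) m₀ Psi} < 16 ^ m₀)).card := by
    rw [← Fintype.card_coe, ← Nat.card_eq_fintype_card]
    exact Nat.card_congr (Equiv.subtypeEquivRight fun D => by rw [mem_filter])
  rw [e1]
  have h3 : ((DD (badP d) n).filter fun D => ¬ C0 D) ⊆
      (DD (badP d) n).filter fun D => ¬ (Finite {Psi : G → V // S.IsSel (ch D) m₀ Psi} ∧
        4 * Nat.card {Psi : G → V // S.IsSel (ch D) m₀ Psi} < 16 ^ m₀) := by
    intro D hD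
    rw [mem_filter] at hD ⊢
    refine ⟨hD.1, fun h4 => hD.2 ?_⟩
    obtain ⟨he, -⟩ := card_isSel_par h hc ha hn1 hD.1 h4.2
    exact h0 n D hD.1 (hfin D hD.1) (he (EvenSel.of_isSquare h hc hn1 hD.1 (hA n hAn D hD.1)))
  exact_mod_cast card_le_card h3

end Pool.Agent.Sm
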