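import Pool.Agent.Lib.Sm.L.HundDD
import Pool.Agent.Lib.Sm.L.HalfDone
import Pool.Agent.Lib.Sm.P.EvenInst

/-!
SMITH, block L with parity: the twists without places of multiplicative reduction, monic squarefree
`D` prime to `α β (α - β)`: all but `ε` of them have corank 0.
-/

set_option autoImplicit false

open Polynomial Finset Pool.Agent.BSDFF

namespace Pool.Agent.Sm.L

open Pool.Agent.SmK (DD)
open Pool.Agent.SmithE (chP NoFour twd twd_ell_iff)

variable {k : Type} [Field k] [Finite k]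

/-- Monic squarefree twists prime to the bad places. -/
theorem hund_corank (Ω : Type) [Field Ω] [Algebra (RatFunc k) Ω] [IsSepClosure (RatFunc k) Ω]
    (h2 : (2 : k) ≠ 0) {α β : k[X]} (hno : No4 α β) (hneg : IsSquare (-1 : k))
    (hbad : ∀ P : k[X], Irreducible P → P ∣ α * β * (α - β) → ∃ m : ℕ, P ^ (2 * m + 1) ∣ α ∧
      P ^ (2 * m + 1) ∣ β ∧ ¬ (P ^ (2 * m + 2) ∣ α ∧ P ^ (2 * m + 2) ∣ β))
    (ε : ℝ) (hε : 0 < ε) : ∃ n₀ : ℕ, ∀ n ≥ n₀, Odd (max α.natDegree β.natDegree + n) →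
      (Nat.card {D : k[X] // D.Monic ∧ Squarefree D ∧ IsCoprime D (α * β * (α - β)) ∧
          D.natDegree = n ∧ ¬ HasCorank k Ω (crv2 (D * α) (D * β)) 0} : ℝ) ≤
        ε * (Nat.card k : ℝ) ^ n := by
  classical
  obtain ⟨u, hu⟩ := exists_nonsq h2
  have hOk := Inst.ok_sysOf (Ω := Ω) h2 hno.ne.1 hno.ne.2.1 hno.ne.2.2
  have hCh := Inst.chOk (Ω := Ω) h2 hno.ne.1 hno.ne.2.1 hno.ne.2.2 hu hno.noFour
  have hc : ∀ c : k, β ≠ C c * α := by
    intro c hc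
    exact hno.n0 c α (by rw [hc]; ring)
  obtain ⟨n₀, hn₀⟩ := hund_abs hOk hCh
    (fun m hm => gridThm' Ω h2 α β hno.ne.1 hno.ne.2.1 hno.ne.2.2 u hu hno.noFour m hm)
    (fun J _ _ p hp => Inst.altn_sysOf h2 hno.ne.1 hno.ne.2.1 hno.ne.2.2 hc hOk
      (Code.codeOk hOk hCh hp)) (fun n => Odd (max α.natDegree β.natDegree + n))
    (fun n hn D hD => by
      have hD' := (mem_DD_iff hu hno.noFour).1 hD
      refine Inst.even_sysOf h2 hno.ne.1 hno.ne.2.1 hno.ne.2.2 hOk hneg hbad hD'.1.ne_zero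
        hD'.2.1 (fun P hP hPD hPb => ?_) (by rw [hD'.2.2.2]; exact hn)
      exact hP.not_isUnit (hD'.2.2.1.isUnit_of_dvd' hPD hPb))
    (fun D => HasCorank k Ω (crv2 (D * α) (D * β)) 0)
    (fun n D hD hf hB => hasCorank_zero (Ω := Ω) h2 hno.ne.1 hno.ne.2.1 hno.ne.2.2 hno
      (SmK.mem_DD.1 hD).1.ne_zero hf hB) ε hε
  refine ⟨n₀, fun n hn hodd => ?_⟩
  refine le_trans (le_of_eq ?_) (hn₀ n hn hodd)
  rw [← Fintype.card_coe, ← Nat.card_eq_fintype_card]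
  congr 1
  refine Nat.card_congr (Equiv.subtypeEquivRight fun D => ?_)
  rw [mem_filter, mem_DD_iff]
  tauto

end Pool.Agent.Sm.L
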