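import Pool.Agent.Lib.Sm.L.Fix
import Pool.Agent.Lib.MP_48b749_nt.MW

/-!
SMITH, block L4. The exact sequence `0 → W(K)/n → Sel_n → Sha[n] → 0`, in the form
`#Sel_n = (W(K) : n W(K)) * #Sha[n]`.
-/

set_option autoImplicit false

open Polynomial WeierstrassCurve Pool.Agent.BSDFF Pool.Agent.BSDFF.MW

namespace Pool.Agent.Sm.L

section

variable (k : Type) {K : Type} (Ω : Type) [Field k] [Field K] [Field Ω] [Algebra k K]
  [Algebra K Ω] (W : WeierstrassCurve K)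

/-- the coboundary of `Q` -/
noncomputable def cob (Q : Pts Ω W) : (Ω ≃ₐ[K] Ω) → Pts Ω W := fun s => gal Ω W s Q - Q

theorem cob_add (Q R : Pts Ω W) : cob Ω W (Q + R) = cob Ω W Q + cob Ω W R := by
  funext s
  simp only [cob, Pi.add_apply, map_add]
  abel

theorem cob_sub (Q R : Pts Ω W) : cob Ω W (Q - R) = cob Ω W Q - cob Ω W R := by
  funext s
  simp only [cob, Pi.sub_apply, map_sub]
  abel

theorem cob_nsmul (n : ℕ) (Q : Pts Ω W) : cob Ω W (n • Q) = n • cob Ω W Q := by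
  funext s
  simp only [cob, Pi.smul_apply, map_nsmul, nsmul_sub]

theorem isSha_cob [Algebra.IsAlgebraic K Ω] (Q : Pts Ω W) : IsSha k Ω W (cob Ω W Q) := by
  refine ⟨fun s t => ?_, ?_, fun w _ _ => ⟨Q, fun s _ => rfl⟩⟩
  · simp only [cob, gal_mul, map_sub]
    abel
  · obtain ⟨L, hL, h⟩ := level_point Ω W Q
    exact ⟨L, hL, fun s t hst => by simp only [cob]; rw [h s t hst]⟩

theorem isSel_iff {n : ℕ} {ψ : (Ω ≃ₐ[K] Ω) → Pts Ω W} :
    IsSel k Ω W n ψ ↔ IsSha k Ω W ψ ∧ n • ψ = 0 := by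
  constructor
  · intro h
    exact ⟨⟨h.cocycle, h.cont, h.loc⟩, funext fun s => h.tors s⟩
  · rintro ⟨h, h'⟩
    exact ⟨h.cocycle, fun s => congrFun h' s, h.cont, h.loc⟩

theorem cob_eq_zero [IsGalois K Ω] {Q : Pts Ω W} (h : cob Ω W Q = 0) :
    ∃ P, incl Ω W P = Q :=
  exists_incl Ω W Q fun s => sub_eq_zero.mp (congrFun h s)

theorem cob_incl (P) : cob Ω W (incl Ω W P) = 0 := by
  funext s
  simp only [cob, gal_incl, sub_self, Pi.zero_apply]

/-- `Sel_n → Sha` -/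
noncomputable def selToSha (n : ℕ) : Sel k Ω W n →+ Sha k Ω W :=
  QuotientAddGroup.map _ _
    (AddSubgroup.inclusion (fun _ h => ((isSel_iff k Ω W).mp h).1 :
      ZSel k Ω W n ≤ ZSha k Ω W)) (by
    intro x hx
    obtain ⟨T, -, hT⟩ := hx
    exact ⟨T, hT⟩)

variable [IsGalois K Ω]

open scoped Classical in
/-- `W(K) → Sel_n`, `P ↦ (s ↦ s Q - Q)`, `n Q = P`. -/
noncomputable def kum (n : ℕ) (hdiv : ∀ P : Pts Ω W, ∃ Q, n • Q = P) :
    W.toAffine.Point →+ Sel k Ω W n :=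
  AddMonoidHom.mk' (fun P => QuotientAddGroup.mk ⟨cob Ω W (hdiv (incl Ω W P)).choose,
    (isSel_iff k Ω W).mpr ⟨isSha_cob k Ω W _, by
      rw [← cob_nsmul, (hdiv (incl Ω W P)).choose_spec, cob_incl]⟩⟩) (by
    intro P P'
    have h1 := (hdiv (incl Ω W P)).choose_spec
    have h2 := (hdiv (incl Ω W P')).choose_spec
    have h3 := (hdiv (incl Ω W (P + P'))).choose_spec
    rw [← QuotientAddGroup.mk_add, QuotientAddGroup.eq]
    refine ⟨(hdiv (incl Ω W P)).choose + (hdiv (incl Ω W P')).choose -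
      (hdiv (incl Ω W (P + P'))).choose, ?_, fun s => ?_⟩
    · rw [nsmul_sub, nsmul_add, h1, h2, h3, map_add, sub_self]
    · simp only [cob, map_add, map_sub, NegMemClass.coe_neg,
        Pi.add_apply, Pi.neg_apply, AddSubgroup.subtype_apply]
      abel)

open scoped Classical in
theorem kum_eq_zero (n : ℕ) (hdiv : ∀ P : Pts Ω W, ∃ Q, n • Q = P) (P : W.toAffine.Point) :
    kum k Ω W n hdiv P = 0 ↔ P ∈ nG W.toAffine.Point n := by
  have h1 := (hdiv (incl Ω W P)).choose_spec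
  set Q := (hdiv (incl Ω W P)).choose with hQ
  have h0 : kum k Ω W n hdiv P = 0 ↔ ∃ T : Pts Ω W, n • T = 0 ∧ ∀ s, cob Ω W Q s =
      gal Ω W s T - T := by
    change (QuotientAddGroup.mk _ : Sel k Ω W n) = 0 ↔ _
    rw [QuotientAddGroup.eq_zero_iff]
    rfl
  rw [h0]
  constructor
  · rintro ⟨T, hT, h⟩
    obtain ⟨R, hR⟩ := cob_eq_zero Ω W (Q := Q - T) (by
      rw [cob_sub, sub_eq_zero]
      exact funext h)
    refine mem_nG.mpr ⟨R, ?_⟩
    apply incl_inj Ω W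
    rw [map_nsmul, hR, nsmul_sub, h1, hT, sub_zero]
  · intro h
    obtain ⟨R, hR⟩ := mem_nG.mp h
    refine ⟨Q - incl Ω W R, ?_, fun s => ?_⟩
    · rw [nsmul_sub, h1, ← map_nsmul, hR, sub_self]
    · rw [map_sub, gal_incl]
      simp only [cob]
      abel

open scoped Classical in
theorem ker_kum (n : ℕ) (hdiv : ∀ P : Pts Ω W, ∃ Q, n • Q = P) :
    (kum k Ω W n hdiv).ker = nG W.toAffine.Point n := by
  ext P
  exact kum_eq_zero k Ω W n hdiv P

open scoped Classical in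
theorem ker_selToSha (n : ℕ) (hdiv : ∀ P : Pts Ω W, ∃ Q, n • Q = P) :
    (selToSha k Ω W n).ker = (kum k Ω W n hdiv).range := by
  ext x
  constructor
  · intro hx
    obtain ⟨ψ, rfl⟩ := QuotientAddGroup.mk_surjective x
    have hx' : ∃ T : Pts Ω W, ∀ s, (ψ : (Ω ≃ₐ[K] Ω) → Pts Ω W) s = gal Ω W s T - T := by
      have hx2 : (selToSha k Ω W n) (QuotientAddGroup.mk ψ) = 0 := hx
      unfold selToSha at hx2
      rw [QuotientAddGroup.map_mk, QuotientAddGroup.eq_zero_iff] at hx2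
      exact hx2
    obtain ⟨T, hT⟩ := hx'
    have hψ : (ψ : (Ω ≃ₐ[K] Ω) → Pts Ω W) = cob Ω W T := funext hT
    obtain ⟨P, hP⟩ := cob_eq_zero Ω W (Q := n • T) (by
      rw [cob_nsmul, ← hψ]
      exact ((isSel_iff k Ω W).mp ψ.2).2)
    refine ⟨P, ?_⟩
    have h1 := (hdiv (incl Ω W P)).choose_spec
    change (QuotientAddGroup.mk _ : Sel k Ω W n) = _
    rw [QuotientAddGroup.eq]
    refine ⟨T - (hdiv (incl Ω W P)).choose, ?_, fun s => ?_⟩
    · rw [nsmul_sub, h1, hP, sub_self]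
    · simp only [cob, map_sub, NegMemClass.coe_neg, Pi.add_apply, Pi.neg_apply,
        AddSubgroup.subtype_apply, AddSubgroup.coe_add, hT]
      abel
  · rintro ⟨P, rfl⟩
    change (selToSha k Ω W n) (QuotientAddGroup.mk _) = 0
    unfold selToSha
    rw [QuotientAddGroup.map_mk, QuotientAddGroup.eq_zero_iff]
    exact ⟨(hdiv (incl Ω W P)).choose, fun s => rfl⟩

theorem range_selToSha (n : ℕ) (hdiv : ∀ P : Pts Ω W, ∃ Q, n • Q = P) :
    (selToSha k Ω W n).range = Gn (Sha k Ω W) n := by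
  ext x
  rw [mem_Gn]
  constructor
  · rintro ⟨y, rfl⟩
    obtain ⟨ψ, rfl⟩ := QuotientAddGroup.mk_surjective y
    rw [← map_nsmul, ← QuotientAddGroup.mk_nsmul]
    have h : n • ψ = 0 := by
      apply Subtype.ext
      exact ((isSel_iff k Ω W).mp ψ.2).2
    rw [h, QuotientAddGroup.mk_zero, map_zero]
  · intro hx
    obtain ⟨ψ, rfl⟩ := QuotientAddGroup.mk_surjective x
    rw [← QuotientAddGroup.mk_nsmul, QuotientAddGroup.eq_zero_iff] at hx
    obtain ⟨T, hT⟩ := hx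
    obtain ⟨Q, hQ⟩ := hdiv T
    have h1 : n • (ψ : (Ω ≃ₐ[K] Ω) → Pts Ω W) = cob Ω W T := funext hT
    refine ⟨QuotientAddGroup.mk ⟨(ψ : (Ω ≃ₐ[K] Ω) → Pts Ω W) - cob Ω W Q,
      (isSel_iff k Ω W).mpr ⟨(ZSha k Ω W).sub_mem ψ.2 (isSha_cob k Ω W Q), ?_⟩⟩, ?_⟩
    · rw [nsmul_sub, h1, ← cob_nsmul, hQ, sub_self]
    · unfold selToSha
      rw [QuotientAddGroup.map_mk, QuotientAddGroup.eq]
      refine ⟨Q, fun s => ?_⟩
      change -((ψ : (Ω ≃ₐ[K] Ω) → Pts Ω W) s - cob Ω W Q s) +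
        (ψ : (Ω ≃ₐ[K] Ω) → Pts Ω W) s = _
      simp only [cob]
      abel

omit [IsGalois K Ω] in
theorem card_ker_range {A B : Type} [AddCommGroup A] [AddCommGroup B] (f : A →+ B) :
    Nat.card A = Nat.card f.ker * Nat.card f.range := by
  rw [AddSubgroup.card_eq_card_quotient_mul_card_addSubgroup f.ker, mul_comm]
  congr 1
  exact Nat.card_congr (QuotientAddGroup.quotientKerEquivRange f).toEquiv

open scoped Classical in
/-- `#Sel_n = (W(K) : n W(K)) * #Sha[n]` -/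
theorem card_sel (n : ℕ) (hdiv : ∀ P : Pts Ω W, ∃ Q, n • Q = P) :
    Nat.card (Sel k Ω W n) = (nG W.toAffine.Point n).index * Nat.card (Gn (Sha k Ω W) n) := by
  rw [card_ker_range (selToSha k Ω W n), range_selToSha k Ω W n hdiv,
    ker_selToSha k Ω W n hdiv]
  congr 1
  have h := card_ker_range (kum k Ω W n hdiv)
  rw [← ker_kum k Ω W n hdiv, AddSubgroup.index]
  exact (Nat.card_congr (QuotientAddGroup.quotientKerEquivRange _).toEquiv).symm

end

end Pool.Agent.Sm.L
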