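import Mathlib

/-!
SMITH, block L: the recursion for the averages of `#SelZ_j / 4 ^ j` and Markov's inequality.
-/

set_option autoImplicit false

namespace Pool.Agent.Sm

theorem recursion_bound {D : Type} (s : Finset D) (Sf I : ℕ → D → ℝ) (δ B : ℝ) (hδ : 0 ≤ δ)
    (m : ℕ) (hm : 1 ≤ m)
    (hrec : ∀ j, 1 ≤ j → j < m → ∀ x ∈ s, Sf (j + 1) x ≤ 3 * Sf j x + I j x)
    (hI : ∀ j, 1 ≤ j → j < m → ∑ x ∈ s, I j x ≤ δ) (h1 : ∀ x ∈ s, Sf 1 x ≤ B) :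
    ∑ x ∈ s, Sf m x ≤ 3 ^ (m - 1) * (s.card * B + δ) := by
  have key : ∀ j, 1 ≤ j → j ≤ m → ∑ x ∈ s, Sf j x + δ ≤ 3 ^ (j - 1) * (s.card * B + δ) := by
    intro j hj
    induction j, hj using Nat.le_induction with
    | base =>
      intro _
      have : ∑ x ∈ s, Sf 1 x ≤ s.card * B := by
        refine le_trans (Finset.sum_le_sum h1) ?_
        rw [Finset.sum_const, nsmul_eq_mul]
      simpa using this
    | succ j hj ih =>
      intro hjm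
      have h2 := ih (by omega)
      have h3 : ∑ x ∈ s, Sf (j + 1) x ≤ 3 * ∑ x ∈ s, Sf j x + ∑ x ∈ s, I j x := by
        rw [Finset.mul_sum, ← Finset.sum_add_distrib]
        exact Finset.sum_le_sum (hrec j hj (by omega))
      have h4 := hI j hj (by omega)
      have h5 : (3 : ℝ) ^ (j + 1 - 1) = 3 * 3 ^ (j - 1) := by
        obtain ⟨i, rfl⟩ := Nat.exists_eq_add_of_le hj
        rw [show 1 + i + 1 - 1 = i + 1 by omega, show 1 + i - 1 = i by omega, pow_succ]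
        ring
      rw [h5]
      nlinarith
  have := key m hm le_rfl
  linarith

/-- Markov's inequality against `16 ^ m / 4`. -/
theorem markov_bound {D : Type} (s : Finset D) (Nz : ℕ → D → ℕ) (I : ℕ → D → ℝ) (B : ℝ)
    (X : ℝ) (hX : (s.card : ℝ) ≤ X) (hB : 0 ≤ B) (m : ℕ) (hm : 1 ≤ m)
    (hrec : ∀ j, 1 ≤ j → j < m → ∀ x ∈ s,
      (Nz (j + 1) x : ℝ) / 4 ^ (j + 1) ≤ 3 * ((Nz j x : ℝ) / 4 ^ j) + I j x)
    (hI : ∀ j, 1 ≤ j → j < m → ∑ x ∈ s, I j x ≤ X) (h1 : ∀ x ∈ s, (Nz 1 x : ℝ) / 4 ^ 1 ≤ B) :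
    ((s.filter fun x => ¬ 4 * Nz m x < 16 ^ m).card : ℝ) ≤
      2 * (3 / 4) ^ m * (B + 1) * X := by
  have hX0 : 0 ≤ X := le_trans (Nat.cast_nonneg _) hX
  have h := recursion_bound s (fun j x => (Nz j x : ℝ) / 4 ^ j) I X B hX0 m hm hrec hI h1
  have h2 : ((s.filter fun x => ¬ 4 * Nz m x < 16 ^ m).card : ℝ) * (4 ^ m / 4) ≤
      ∑ x ∈ s, (Nz m x : ℝ) / 4 ^ m := by
    rw [← nsmul_eq_mul, ← Finset.sum_const]
    refine le_trans (Finset.sum_le_sum (g := fun x => (Nz m x : ℝ) / 4 ^ m) ?_)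
      (Finset.sum_le_sum_of_subset_of_nonneg (Finset.filter_subset _ _) fun x _ _ => by positivity)
    intro x hx
    have h3 : 16 ^ m ≤ 4 * Nz m x := not_lt.1 (Finset.mem_filter.1 hx).2
    have h4 : (16 : ℝ) ^ m ≤ 4 * Nz m x := by exact_mod_cast h3
    rw [le_div_iff₀ (by positivity), show (4 : ℝ) ^ m / 4 * 4 ^ m = 16 ^ m / 4 by
      rw [show (16 : ℝ) = 4 * 4 by norm_num, mul_pow]; ring]
    linarith
  have h3 : (3 : ℝ) ^ (m - 1) * 3 = 3 ^ m := by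
    rw [← pow_succ]
    congr 1
    omega
  have h4 : (s.card : ℝ) * B + X ≤ (B + 1) * X := by nlinarith
  have h5 : ((s.filter fun x => ¬ 4 * Nz m x < 16 ^ m).card : ℝ) * (4 ^ m / 4) ≤
      3 ^ (m - 1) * ((B + 1) * X) :=
    le_trans h2 (le_trans h (mul_le_mul_of_nonneg_left h4 (by positivity)))
  have h6 : ((s.filter fun x => ¬ 4 * Nz m x < 16 ^ m).card : ℝ) * (4 ^ m * 3) ≤
      4 * 3 ^ m * ((B + 1) * X) := by
    calc _ = ((s.filter fun x => ¬ 4 * Nz m x < 16 ^ m).card : ℝ) * (4 ^ m / 4) * 12 := by ring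
      _ ≤ 3 ^ (m - 1) * ((B + 1) * X) * 12 := mul_le_mul_of_nonneg_right h5 (by norm_num)
      _ = 4 * (3 ^ (m - 1) * 3) * ((B + 1) * X) := by ring
      _ = _ := by rw [h3]
  have h7 : ((s.filter fun x => ¬ 4 * Nz m x < 16 ^ m).card : ℝ) ≤
      4 * 3 ^ m * ((B + 1) * X) / (4 ^ m * 3) := by
    rw [le_div_iff₀ (by positivity)]
    exact h6
  refine le_trans h7 ?_
  have h8 : 4 * 3 ^ m * ((B + 1) * X) / ((4 : ℝ) ^ m * 3) = 4 / 3 * (3 / 4) ^ m * (B + 1) * X := by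
    rw [div_pow]
    field_simp
  rw [h8]
  have h9 : 0 ≤ (3 / 4 : ℝ) ^ m * (B + 1) * X := by positivity
  nlinarith

end Pool.Agent.Sm
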