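import Pool.Agent.Lib.Sm.L.OrdW

/-!
SMITH, heights: the order of vanishing for one `D` from the link between the heights and the
cocycles with values in `V ⊗ Z[ε] / ε ^ 2`.
-/

set_option autoImplicit false

open Polynomial WeierstrassCurve Pool.Agent.BSDFF Pool.Agent.BSDFF.MW Pool.Agent.SmithE

namespace Pool.Agent.Sm.L

section sys

variable {k : Type} [Field k] {Ω : Type} [Field Ω] [Algebra (RatFunc k) Ω]
  [IsSepClosure (RatFunc k) Ω]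

variable [Finite k] (h2 : (2 : k) ≠ 0) {α β D : k[X]}

open scoped Classical in
/-- The number of Selmer cocycles in terms of the corank. -/
theorem selZ_le_of_hasCorank (hno : No4 α β) (hD : D ≠ 0) {r : ℕ}
    (hr : HasCorank k Ω (crv2 (D * α) (D * β)) r) :
    ∃ C : ℕ, ∀ i, Nat.card {x // (SmH.sysJ (Inst.sysOf Ω h2 hno.ne.1 hno.ne.2.1
      hno.ne.2.2)).IsSel (Pool.Agent.Lib.SmD.chi (RatFunc k)
        (algebraMap k[X] (RatFunc k) D)) i x} ≤ C * (2 ^ r * 4) ^ i := by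
  have hsc : IsSepClosed Ω := IsSepClosure.sep_closed (RatFunc k)
  have hGal : IsGalois (RatFunc k) Ω := inferInstance
  obtain ⟨hα, hβ, hαβ⟩ := hno.ne
  have h2K : (2 : RatFunc k) ≠ 0 := Inst.two_K h2
  have n12 := Inst.zero_ne_map (mul_ne_zero hD hα)
  have n13 := Inst.zero_ne_map (mul_ne_zero hD hβ)
  have n23 := Inst.map_ne_map (fun h => hαβ (mul_left_cancel₀ hD h))
  obtain ⟨B, hB⟩ := hr
  refine ⟨B, fun i => ?_⟩
  have hV : Nat.card (Gn (Pts Ω (crv2 (D * α) (D * β))) (2 ^ i)) = 4 ^ i :=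
    card_pt_torsion (Ω := Ω) n12 n13 n23 h2K i
  have e1 := card_zsel k Ω (crv2 (D * α) (D * β)) (2 ^ i)
  have e2 := card_bsel Ω (crv2 (D * α) (D * β)) (2 ^ i)
  rw [hV] at e2
  have hF : 0 < Nat.card (Gn (crv2 (D * α) (D * β)).toAffine.Point (2 ^ i)) := by
    rcases Nat.eq_zero_or_pos (Nat.card (Gn (crv2 (D * α) (D * β)).toAffine.Point (2 ^ i)))
      with h | h
    · rw [h, zero_mul] at e2
      exact absurd e2 (by positivity)
    · exact h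
  have e3 : Nat.card (BSel Ω (crv2 (D * α) (D * β)) (2 ^ i)) ≤ 4 ^ i := by
    rw [e2]
    exact Nat.le_mul_of_pos_left _ hF
  have e4 := card_zsel_selZ (Ω := Ω) h2 hα hβ hαβ hD i
  have e5 : Nat.card {x // (SmH.sysJ (Inst.sysOf Ω h2 hα hβ hαβ)).IsSel
      (Pool.Agent.Lib.SmD.chi (RatFunc k) (algebraMap k[X] (RatFunc k) D)) i x} =
      Nat.card {x // (Inst.sysOf Ω h2 hα hβ hαβ).IsSel
      (Pool.Agent.Lib.SmD.chi (RatFunc k) (algebraMap k[X] (RatFunc k) D)) i x} :=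
    Nat.card_congr (Equiv.subtypeEquivRight fun x => SmH.isSel_iff _ _ _ _)
  rw [e5, ← e4, e1]
  calc _ ≤ (B * 2 ^ (r * i)) * 4 ^ i := Nat.mul_le_mul (hB i).1 e3
    _ = _ := by rw [mul_pow, ← pow_mul]; ring

open scoped Classical in
theorem ordOn_of_link (hno : No4 α β) (hD : D ≠ 0) {r : ℕ} (hr1 : r ≤ 1)
    (hr : HasCorank k Ω (crv2 (D * α) (D * β)) r) {dg : ℕ → (Ω ≃ₐ[RatFunc k] Ω) → ℕ}
    (hdg : ∀ m s, IsDeg k Ω m s (dg m s))
    (hfin : ∀ i, Finite (WZS (Ω := Ω) h2 hno.ne.1 hno.ne.2.1 hno.ne.2.2 dg D i))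
    (hlink0 : (∃ C : ℕ, ∀ i, Nat.card {x // (SmH.sysJ (Inst.sysOf Ω h2 hno.ne.1 hno.ne.2.1
      hno.ne.2.2)).IsSel (Pool.Agent.Lib.SmD.chi (RatFunc k)
        (algebraMap k[X] (RatFunc k) D)) i x} ≤ C * Nat.card V1 ^ i) →
      ∃ C : ℕ, ∀ i, Nat.card (WZS (Ω := Ω) h2 hno.ne.1 hno.ne.2.1 hno.ne.2.2 dg D i) ≤
        C * (Nat.card V1 ^ 2) ^ i)
    (hlink1 : (∃ C : ℕ, ∀ i, Nat.card {x // (SmH.sysJ (Inst.sysOf Ω h2 hno.ne.1 hno.ne.2.1
      hno.ne.2.2)).IsSel (Pool.Agent.Lib.SmD.chi (RatFunc k)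
        (algebraMap k[X] (RatFunc k) D)) i x} ≤ C * (2 * Nat.card V1) ^ i) →
      ∃ C : ℕ, ∀ i, Nat.card (WZS (Ω := Ω) h2 hno.ne.1 hno.ne.2.1 hno.ne.2.2 dg D i) ≤
        C * (2 * Nat.card V1 ^ 2) ^ i) :
    OrdOn k Ω (crv2 (D * α) (D * β)) := by
  have hV1 : Nat.card V1 = 4 := by
    rw [Nat.card_eq_fintype_card]
    rfl
  rw [hV1] at hlink0 hlink1
  obtain ⟨C, hC⟩ := selZ_le_of_hasCorank h2 hno hD hr
  refine ordOn_of h2 hno hD hr1 hr hdg hfin ?_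
  interval_cases r
  · obtain ⟨C', hC'⟩ := hlink0 ⟨C, fun i => by simpa using hC i⟩
    refine ⟨C', fun i => (hC' i).trans (le_of_eq ?_)⟩
    rw [pow_mul]
    norm_num
  · obtain ⟨C', hC'⟩ := hlink1 ⟨C, fun i => by simpa using hC i⟩
    refine ⟨C', fun i => (hC' i).trans (le_of_eq ?_)⟩
    rw [pow_mul]
    norm_num

end sys

end Pool.Agent.Sm.L
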