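import Pool.Agent.Lib.Sm.L.BridgeW
import Pool.Agent.Lib.Sm.L.CountW
import Pool.Agent.Lib.Sm.L.BridgeP

/-!
SMITH, heights: the order of vanishing of the quadratic twist `E_D` from bounds for the abstract
Selmer cocycles with values in `V ⊗ Z[ε] / ε ^ 2`.
-/

set_option autoImplicit false

open Polynomial WeierstrassCurve Pool.Agent.BSDFF Pool.Agent.BSDFF.MW Pool.Agent.SmithE

namespace Pool.Agent.Sm.L

section sys

variable {k : Type} [Field k] {Ω : Type} [Field Ω] [Algebra (RatFunc k) Ω]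
  [IsSepClosure (RatFunc k) Ω]

variable [Finite k] (h2 : (2 : k) ≠ 0) {α β D : k[X]} (hα : α ≠ 0) (hβ : β ≠ 0) (hαβ : α ≠ β)

open scoped Classical in
/-- The pairs of the abstract structure. -/
abbrev WZS (dg : ℕ → (Ω ≃ₐ[RatFunc k] Ω) → ℕ) (D : k[X]) (i : ℕ) : Type :=
  {p : ((Ω ≃ₐ[RatFunc k] Ω) → VV Ω (0 : RatFunc k) (algebraMap k[X] (RatFunc k) α)
      (algebraMap k[X] (RatFunc k) β)) × ((Ω ≃ₐ[RatFunc k] Ω) → VV Ω (0 : RatFunc k)
      (algebraMap k[X] (RatFunc k) α) (algebraMap k[X] (RatFunc k) β)) //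
    SmH.IsWSel (SmH.sysJ (Inst.sysOf Ω h2 hα hβ hαβ)) dg
      (Pool.Agent.Lib.SmD.chi (RatFunc k) (algebraMap k[X] (RatFunc k) D)) i p.1 p.2}

include hα hβ hαβ

open scoped Classical in
theorem wzsel_inj (hD : D ≠ 0) {dg : ℕ → (Ω ≃ₐ[RatFunc k] Ω) → ℕ}
    (hdg : ∀ m s, IsDeg k Ω m s (dg m s)) (i : ℕ) :
    ∃ f : WZSel k Ω (crv2 (D * α) (D * β)) i → WZS h2 hα hβ hαβ dg D i,
      Function.Injective f := by
  have hsc : IsSepClosed Ω := IsSepClosure.sep_closed (RatFunc k)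
  have hGal : IsGalois (RatFunc k) Ω := inferInstance
  have inj := IsFractionRing.injective k[X] (RatFunc k)
  have h2K : (2 : RatFunc k) ≠ 0 := Inst.two_K h2
  have n12 := Inst.zero_ne_map hα
  have n13 := Inst.zero_ne_map hβ
  have n23 := Inst.map_ne_map hαβ
  have hD0 : algebraMap k[X] (RatFunc k) D ≠ 0 := fun h => hD (inj (h.trans (map_zero _).symm))
  have hcrv : crv2 (D * α) (D * β) = crv (algebraMap k[X] (RatFunc k) D * 0)
      (algebraMap k[X] (RatFunc k) D * algebraMap k[X] (RatFunc k) α)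
      (algebraMap k[X] (RatFunc k) D * algebraMap k[X] (RatFunc k) β) := by
    unfold crv2
    rw [mul_zero, map_mul, map_mul]
  rw [hcrv]
  obtain ⟨φ, hφ⟩ := exists_twist_equiv (Ω := Ω) (a := 0) (b := algebraMap k[X] (RatFunc k) α)
    (c := algebraMap k[X] (RatFunc k) β) h2K hD0
  exact bridgeW (k := k) (Ω := Ω) h2 h2K n12 n13 n23 hD0 φ _ hφ
    (Inst.sysOf Ω h2 hα hβ hαβ) rfl
    (fun v => ⟨Pool.Agent.Lib.SmD.ab Ω v, ab_ne_top v, ab_const v, rfl⟩) hdg i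

omit [Finite k] hα hβ hαβ in
include h2 in
open scoped Classical in
theorem card_gn_crv2 (hno : No4 α β) (hD : D ≠ 0) (i : ℕ) :
    Nat.card (Gn (crv2 (D * α) (D * β)).toAffine.Point (2 ^ i)) ≤ 4 := by
  rcases Nat.eq_zero_or_pos i with rfl | hi
  · have : Subsingleton (Gn (crv2 (D * α) (D * β)).toAffine.Point (2 ^ 0)) := by
      refine ⟨?_⟩
      rintro ⟨x, hx⟩ ⟨y, hy⟩
      rw [mem_Gn, pow_zero, one_smul] at hx hy
      exact Subtype.ext (hx.trans hy.symm)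
    exact (Finite.card_le_one_iff_subsingleton.mpr this).trans (by norm_num)
  obtain ⟨hα, hβ, hαβ⟩ := hno.ne
  have inj := IsFractionRing.injective k[X] (RatFunc k)
  have h2K : (2 : RatFunc k) ≠ 0 := Inst.two_K h2
  have n12 := Inst.zero_ne_map (mul_ne_zero hD hα)
  have n13 := Inst.zero_ne_map (mul_ne_zero hD hβ)
  have n23 := Inst.map_ne_map (fun h => hαβ (mul_left_cancel₀ hD h))
  have sq : ∀ (x : k[X]) (y : RatFunc k), y = algebraMap k[X] (RatFunc k) D ^ 2 *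
      algebraMap k[X] (RatFunc k) x → IsSquare y → ∃ g : k[X], x = C 1 * g ^ 2 := by
    rintro x y rfl ⟨z, hz⟩
    obtain ⟨g, hg⟩ := isSquare_ratFunc (a := x) ⟨z / algebraMap k[X] (RatFunc k) D, by
      have hD0 : algebraMap k[X] (RatFunc k) D ≠ 0 :=
        fun h => hD (inj (h.trans (map_zero _).symm))
      rw [div_mul_div_comm, ← hz]
      field_simp⟩
    exact ⟨g, by rw [hg, map_one, one_mul]⟩
  refine (card_gn_crv h2K n12 n13 n23 ?_ ?_ ?_ i hi).le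
  · intro h
    obtain ⟨g, hg⟩ := sq (α * β) _ (by simp only [map_mul]; ring) h
    exact hno.n0 1 g hg
  · intro h
    obtain ⟨g, hg⟩ := sq (α * (α - β)) _ (by simp only [map_mul, map_sub]; ring) h
    exact hno.n1 1 g hg
  · intro h
    obtain ⟨g, hg⟩ := sq (β * (β - α)) _ (by simp only [map_mul, map_sub]; ring) h
    exact hno.n2 1 g hg

omit hα hβ hαβ in
open scoped Classical in
/-- The order of vanishing is the corank of the Selmer group. -/
theorem ordOn_of (hno : No4 α β) (hD : D ≠ 0) {r : ℕ} (hr1 : r ≤ 1)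
    (hr : HasCorank k Ω (crv2 (D * α) (D * β)) r) {dg : ℕ → (Ω ≃ₐ[RatFunc k] Ω) → ℕ}
    (hdg : ∀ m s, IsDeg k Ω m s (dg m s))
    (hfin : ∀ i, Finite (WZS h2 hno.ne.1 hno.ne.2.1 hno.ne.2.2 dg D i))
    (hC : ∃ C, ∀ i, Nat.card (WZS h2 hno.ne.1 hno.ne.2.1 hno.ne.2.2 dg D i) ≤
      C * 2 ^ ((r + 4) * i)) : OrdOn k Ω (crv2 (D * α) (D * β)) := by
  have hsc : IsSepClosed Ω := IsSepClosure.sep_closed (RatFunc k)
  have hGal : IsGalois (RatFunc k) Ω := inferInstance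
  obtain ⟨hα, hβ, hαβ⟩ := hno.ne
  have inj := IsFractionRing.injective k[X] (RatFunc k)
  have h2K : (2 : RatFunc k) ≠ 0 := Inst.two_K h2
  have n12 := Inst.zero_ne_map (mul_ne_zero hD hα)
  have n13 := Inst.zero_ne_map (mul_ne_zero hD hβ)
  have n23 := Inst.map_ne_map (fun h => hαβ (mul_left_cancel₀ hD h))
  obtain ⟨C, hC⟩ := hC
  have hV : ∀ i, Nat.card (Gn (Pts Ω (crv2 (D * α) (D * β))) (2 ^ i)) = 4 ^ i := fun i =>
    card_pt_torsion (Ω := Ω) n12 n13 n23 h2K i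
  have hF : ∀ i, Nat.card (cobHom Ω (crv2 (D * α) (D * β)) (2 ^ i)).ker ≤ 4 := by
    intro i
    rw [card_ker_cobHom]
    exact card_gn_crv2 h2 hno hD i
  refine ⟨r, hr1, hr, hasCorankW_of Ω _ h2 ?_ hV hF hr ?_ (C := C) fun i => ?_⟩
  · exact e6_ratFunc h2 _ _ _ n12 n13 n23
  · intro i
    obtain ⟨f, hf⟩ := wzsel_inj (Ω := Ω) h2 hα hβ hαβ hD hdg i
    have := hfin i
    exact Finite.of_injective f hf
  · obtain ⟨f, hf⟩ := wzsel_inj (Ω := Ω) h2 hα hβ hαβ hD hdg i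
    have := hfin i
    exact (Nat.card_le_card_of_injective f hf).trans (hC i)

end sys

end Pool.Agent.Sm.L
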