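import Pool.Agent.Lib.SM.E.E6
import Pool.Agent.Lib.SmD.Plc
import Pool.Agent.Lib.SmD.ValIner
import Pool.Agent.Lib.Sm.L.Final4
import Mathlib.NumberTheory.RatFunc.Ostrowski

/-!
SMITH, block L4. Discharge of the hypothesis `hE6` of `goodOn_of_selZ`: every nontrivial valuation
ring of `Ω` containing `k` lies above a place of `k(t)`.
-/

set_option autoImplicit false

open Polynomial WeierstrassCurve Pool.Agent.BSDFF Pool.Agent.SmithE

namespace Pool.Agent.Sm.L

section

variable {K : Type} [Field K]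

/-- A valuation ring all of whose values are integral powers of one value `< 1` is discrete. -/
theorem dvr_of (R : ValuationSubring K) {π : K} (h0 : π ≠ 0) (h1 : R.valuation π < 1)
    (h : ∀ x : K, x ≠ 0 → ∃ n : ℤ, R.valuation x = R.valuation π ^ n) :
    IsDiscreteValuationRing R := by
  have hpos : 0 < R.valuation π := by
    rw [zero_lt_iff]
    exact (Valuation.ne_zero_iff _).mpr h0
  have hmem : π ∈ R := (ValuationSubring.valuation_le_one_iff _ _).mp h1.le
  have hu : ∀ {x : K} (hx : x ∈ R), IsUnit (⟨x, hx⟩ : R) ↔ R.valuation x = 1 := by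
    intro x hx
    exact ValuationSubring.valuation_eq_one_iff R ⟨x, hx⟩
  have hnn : ∀ {x : K} {n : ℤ}, x ∈ R → R.valuation x = R.valuation π ^ n → 0 ≤ n := by
    intro x n hx hn
    have h3 := (ValuationSubring.valuation_le_one_iff _ _).mpr hx
    rwa [hn, zpow_le_one_iff_right_of_lt_one₀ hpos h1] at h3
  refine IsDiscreteValuationRing.ofHasUnitMulPowIrreducibleFactorization ⟨⟨π, hmem⟩, ?_, ?_⟩
  · rw [irreducible_iff]
    refine ⟨?_, ?_⟩
    · rw [hu]
      exact h1.ne
    · rintro ⟨a, ha⟩ ⟨b, hb⟩ hab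
      have hab' : π = a * b := congrArg Subtype.val hab
      have ha0 : a ≠ 0 := by
        rintro rfl
        exact h0 (by rw [hab', zero_mul])
      have hb0 : b ≠ 0 := by
        rintro rfl
        exact h0 (by rw [hab', mul_zero])
      obtain ⟨i, hi⟩ := h a ha0
      obtain ⟨j, hj⟩ := h b hb0
      have hi0 := hnn ha hi
      have hj0 := hnn hb hj
      have h4 : R.valuation π ^ (1 : ℤ) = R.valuation π ^ (i + j) := by
        rw [zpow_add₀ hpos.ne', ← hi, ← hj, ← map_mul, ← hab', zpow_one]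
      have h5 := (zpow_right_inj₀ hpos h1.ne).mp h4
      rw [hu, hu]
      rcases eq_or_lt_of_le hi0 with h3 | h3
      · left
        rw [hi, ← h3, zpow_zero]
      · right
        have : j = 0 := by omega
        rw [hj, this, zpow_zero]
  · rintro ⟨x, hx⟩ hx0
    have hx0' : x ≠ 0 := fun h1 => hx0 (Subtype.ext h1)
    obtain ⟨n, hn⟩ := h x hx0'
    have hn0 := hnn hx hn
    obtain ⟨m, rfl⟩ := Int.eq_ofNat_of_zero_le hn0
    have hval : R.valuation ((π ^ m)⁻¹ * x) = 1 := by
      rw [map_mul, map_inv₀, map_pow, hn, zpow_natCast,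
        inv_mul_cancel₀ (pow_ne_zero m hpos.ne')]
    have hmem2 : (π ^ m)⁻¹ * x ∈ R := (ValuationSubring.valuation_le_one_iff _ _).mp hval.le
    refine ⟨m, ((hu hmem2).mpr hval).unit, ?_⟩
    apply Subtype.ext
    rw [IsUnit.unit_spec]
    change π ^ m * ((π ^ m)⁻¹ * x) = x
    rw [mul_inv_cancel_left₀ (pow_ne_zero m h0)]

variable {k : Type} [Field k]

/-- A nontrivial valuation ring of `k(t)` containing `k` is (the ring of) a place. -/
theorem exists_place (R : ValuationSubring (RatFunc k))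
    (hk : ∀ c : k, algebraMap k (RatFunc k) c ∈ R) (hR : R ≠ ⊤) :
    ∃ v : Place k (RatFunc k), v.ring = R := by
  classical
  have htriv : R.valuation.IsTrivialOn k := ⟨fun c hc => by
    apply le_antisymm
    · exact (ValuationSubring.valuation_le_one_iff _ _).mpr (hk c)
    · have h2 : R.valuation (algebraMap k (RatFunc k) c) *
          R.valuation (algebraMap k (RatFunc k) c⁻¹) = 1 := by
        rw [← map_mul, ← map_mul, mul_inv_cancel₀ hc, map_one, map_one]
      have h3 : R.valuation (algebraMap k (RatFunc k) c⁻¹) ≤ 1 :=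
        (ValuationSubring.valuation_le_one_iff _ _).mpr (hk _)
      calc (1 : R.ValueGroup) = R.valuation (algebraMap k (RatFunc k) c) *
          R.valuation (algebraMap k (RatFunc k) c⁻¹) := h2.symm
        _ ≤ R.valuation (algebraMap k (RatFunc k) c) * 1 := by gcongr
        _ = _ := mul_one _⟩
  rcases lt_or_ge 1 (R.valuation RatFunc.X) with h1 | h1
  · have h4 := RatFunc.valuation_isEquiv_inftyValuation_of_one_lt_valuation_X (v := R.valuation) h1
    have h5 := (Valuation.isEquiv_iff_valuationSubring _ _).mp h4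
    rw [ValuationSubring.valuationSubring_valuation] at h5
    exact ⟨placeInfty k, h5.symm⟩
  · have hnt : R.valuation.IsNontrivial := by
      obtain ⟨x, hx⟩ : ∃ x, x ∉ R := by
        by_contra hc
        push Not at hc
        exact hR (eq_top_iff.mpr fun x _ => hc x)
      refine ⟨x, ?_, fun h => hx ?_⟩
      · rw [Valuation.ne_zero_iff]
        rintro rfl
        exact hx R.zero_mem
      · exact (ValuationSubring.valuation_le_one_iff _ _).mp h.le
    refine ⟨⟨R, hk, dvr_of R (π := algebraMap k[X] (RatFunc k)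
      (RatFunc.uniformizingPolynomial (v := R.valuation) h1)) ?_ ?_ ?_⟩, rfl⟩
    · rw [Ne, map_eq_zero_iff _ (IsFractionRing.injective k[X] (RatFunc k))]
      exact RatFunc.uniformizingPolynomial_ne_zero h1
    · exact RatFunc.valuation_uniformizingPolynomial_lt_one h1
    · exact fun x hx => RatFunc.exists_zpow_uniformizingPolynomial h1 hx

open scoped Classical in
/-- **E6** over `k(t)`. -/
theorem e6_ratFunc [Finite k] {Ω : Type} [Field Ω] [Algebra (RatFunc k) Ω]
    [IsSepClosure (RatFunc k) Ω] (h2 : (2 : k) ≠ 0) (a b c : RatFunc k) (hab : a ≠ b)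
    (hac : a ≠ c) (hbc : b ≠ c) : E6Prop k Ω a b c := by
  have hsc : IsSepClosed Ω := IsSepClosure.sep_closed (RatFunc k)
  intro w hw hk j Q hQ
  have hbelow : Pool.Agent.Lib.SmD.below (RatFunc k) w ≠ ⊤ := by
    intro h
    apply hw
    rw [eq_top_iff]
    intro x _
    have hK : ∀ y : RatFunc k, y ∈ Pool.Agent.Lib.SmD.below (RatFunc k) w := fun y => by
      rw [h]; exact ValuationSubring.mem_top y
    refine Pool.Agent.Lib.SmD.mem_of_isIntegral (RatFunc k) w x ?_
    have hx : IsIntegral (RatFunc k) x := (Algebra.IsAlgebraic.isAlgebraic x).isIntegral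
    let e : RatFunc k →+* Pool.Agent.Lib.SmD.below (RatFunc k) w :=
      { toFun := fun y => ⟨y, hK y⟩
        map_one' := rfl
        map_mul' := fun _ _ => rfl
        map_zero' := rfl
        map_add' := fun _ _ => rfl }
    exact hx.map_of_comp_eq e (RingHom.id Ω) (RingHom.ext fun y => rfl)
  obtain ⟨v, hv⟩ := exists_place (Pool.Agent.Lib.SmD.below (RatFunc k) w) hk hbelow
  have h2w : w.valuation 2 = 1 := by
    have h3 := Pool.Agent.Lib.SmD.val_unit_below (K := RatFunc k) (w := w)
      (x := algebraMap k (RatFunc k) 2) (hk 2) (by rw [← map_inv₀]; exact hk _)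
      ((map_ne_zero_iff _ (algebraMap k (RatFunc k)).injective).2 h2)
    rwa [map_ofNat, map_ofNat] at h3
  obtain ⟨π, hπ⟩ := IsDiscreteValuationRing.exists_irreducible v.ring
  have hloc := Pool.Agent.Lib.SmD.locHyp_of_dvr hv.symm v.dvr (Pool.Agent.Lib.SmD.finite_residue v)
    h2w hπ
  obtain ⟨Q', hQ', h⟩ := e6 hloc (fun x hx hfix =>
    Pool.Agent.Lib.SmD.value_iner hloc hx fun s hs =>
      hfix s (Pool.Agent.Lib.SmD.iner_le_dec (RatFunc k) w hs)) hab hac hbc Q j hQ
  exact ⟨Q', hQ', fun s hs => (h s hs).symm⟩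

theorem ab_ne_top {Ω : Type} [Field Ω] [Algebra (RatFunc k) Ω] (v : Place k (RatFunc k)) :
    Pool.Agent.Lib.SmD.ab Ω v ≠ ⊤ := by
  intro h
  have h1 := Pool.Agent.Lib.SmD.below_ab Ω v
  rw [h] at h1
  obtain ⟨π, hπ⟩ := IsDiscreteValuationRing.exists_irreducible v.ring
  have h0 : ∀ x : RatFunc k, x ∈ v.ring := fun x => by
    rw [← h1]
    exact ValuationSubring.mem_top _
  have h2 : ((π : RatFunc k)⁻¹) ∈ v.ring := h0 _
  have h3 : (π : RatFunc k) ≠ 0 := fun h0 => hπ.ne_zero (Subtype.ext h0)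
  exact hπ.not_isUnit (IsUnit.of_mul_eq_one ⟨(π : RatFunc k)⁻¹, h2⟩
    (Subtype.ext (mul_inv_cancel₀ h3)))

theorem ab_const {Ω : Type} [Field Ω] [Algebra (RatFunc k) Ω] (v : Place k (RatFunc k)) (c : k) :
    algebraMap (RatFunc k) Ω (algebraMap k (RatFunc k) c) ∈ Pool.Agent.Lib.SmD.ab Ω v := by
  have h1 : algebraMap k (RatFunc k) c ∈
      Pool.Agent.Lib.SmD.below (RatFunc k) (Pool.Agent.Lib.SmD.ab Ω v) := by
    rw [Pool.Agent.Lib.SmD.below_ab]
    exact v.const_mem c
  exact h1

open scoped Classical in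
/-- **L4**, final form: the conclusions for `E_D` from the bound for the Selmer cocycles of level `j`
of the structure `S` whose decomposition groups are the `dv Ω v`, `v` a place of `k(t)`. -/
theorem goodOn_of_selZ' [Finite k] {Ω : Type} [Field Ω] [Algebra (RatFunc k) Ω]
    [IsSepClosure (RatFunc k) Ω] (h2 : (2 : k) ≠ 0) {α β D : k[X]} (hno : No4 α β) (hD : D ≠ 0)
    (S : Sys (Ω ≃ₐ[RatFunc k] Ω) (VV Ω (0 : RatFunc k) (algebraMap k[X] (RatFunc k) α)
      (algebraMap k[X] (RatFunc k) β)) (Place k (RatFunc k)))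
    (hNN : S.NN = SmD.NN (RatFunc k) Ω)
    (hDv : ∀ v : Place k (RatFunc k), S.D v = Pool.Agent.Lib.SmD.dv Ω v)
    {j : ℕ} (hj : 1 ≤ j)
    (hfin : Finite {Psi // S.IsSel (Pool.Agent.Lib.SmD.chi (RatFunc k)
      (algebraMap k[X] (RatFunc k) D)) j Psi})
    (hlt : 4 * Nat.card {Psi // S.IsSel (Pool.Agent.Lib.SmD.chi (RatFunc k)
      (algebraMap k[X] (RatFunc k) D)) j Psi} < 16 ^ j) :
    GoodOn k Ω (crv2 (D * α) (D * β)) j :=
  goodOn_of_selZ h2 hno hD (fun a b c hab hac hbc => e6_ratFunc h2 a b c hab hac hbc) S hNN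
    (fun v => ⟨Pool.Agent.Lib.SmD.ab Ω v, ab_ne_top v, ab_const v, hDv v⟩) hj hfin hlt

end

end Pool.Agent.Sm.L
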