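import Pool.Agent.Lib.Sm.J4
import Pool.Agent.Lib.Sm.L.Vec
import Pool.Agent.Lib.SmK.Grid

/-!
SMITH, block L: the vector of primes of a point of a grid, its pattern of symbols.
-/

set_option autoImplicit false

open Polynomial

namespace Pool.Agent.Sm

open Pool.Agent.BSDP.R (primesOf)

section vec

variable {k : Type} [Field k]

/-- The index set of the primes of a point of the grid `g`. -/
abbrev JG (g : k[X] × Finset ℕ) : Type := PD g.1 ⊕ g.2

/-- The vector of primes of a point of the grid `g`. -/
noncomputable def vecG (g : k[X] × Finset ℕ) (x : SmK.Pts k g.2) : JG g → k[X] :=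
  Sum.elim (fun P => P.1) (fun t => (x t).1)

/-- The index set of the fixed primes: the bad ones and the small ones. -/
abbrev FG (d : TwData k) (g : k[X] × Finset ℕ) : Type := Fin d.h ⊕ PD g.1

/-- The fixed primes. -/
noncomputable def fixG (d : TwData k) (g : k[X] × Finset ℕ) : FG d g → k[X] :=
  Sum.elim d.ell (fun P => P.1)

/-- The patterns of symbols on the grid `g`. -/
abbrev PatG (d : TwData k) (g : k[X] × Finset ℕ) : Type :=
  (g.2 → FG d g → ZMod 2) × ({p : g.2 × g.2 // p.1 < p.2} → ZMod 2)

/-- The pattern of symbols of a point. -/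
noncomputable def patG (d : TwData k) (g : k[X] × Finset ℕ) (x : SmK.Pts k g.2) : PatG d g :=
  (fun t y => leg (x t).1 (fixG d g y), fun p => leg (x p.1.2).1 (x p.1.1).1)

/-- The finite set of the bad primes. -/
noncomputable def badP (d : TwData k) : Finset k[X] :=
  open Classical in Finset.univ.image d.ell

theorem mem_badP {d : TwData k} {P : k[X]} : P ∈ badP d ↔ ∃ i, d.ell i = P := by
  classical
  unfold badP
  simp

theorem badP_irr (d : TwData k) : ∀ P ∈ badP d, P.Monic ∧ Irreducible P := by
  intro P hP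
  obtain ⟨i, rfl⟩ := mem_badP.1 hP
  exact ⟨d.ell_monic i, d.ell_irr i⟩

variable {d : TwData k} {N0 n : ℕ} {g : k[X] × Finset ℕ}

theorem pd_irr (hg : SmK.IsGrid (badP d) N0 n g) (P : PD g.1) : P.1.Monic ∧ Irreducible P.1 ∧
    P.1 ∣ g.1 ∧ P.1.natDegree < N0 := by
  have h1 := (SmK.mem_primesOf hg.monic.ne_zero).1 P.2
  exact ⟨h1.1, h1.2.1, h1.2.2, hg.small _ P.2⟩

theorem vecG_deg_inr (x : SmK.Pts k g.2) (t : g.2) :
    (vecG g x (Sum.inr t)).natDegree = t := (x t).2.2.2

theorem pvec_vecG (hN : ∀ P ∈ badP d, P.natDegree < N0) (hg : SmK.IsGrid (badP d) N0 n g)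
    (x : SmK.Pts k g.2) : PVec d (vecG g x) where
  monic := by
    rintro (P | t)
    · exact (pd_irr hg P).1
    · exact (x t).2.1
  irr := by
    rintro (P | t)
    · exact (pd_irr hg P).2.1
    · exact (x t).2.2.1
  inj := by
    rintro (P | t) (P' | t') h
    · exact congrArg Sum.inl (Subtype.ext h)
    · exfalso
      have h1 := (pd_irr hg P).2.2.2
      have h2 := hg.large _ t'.2
      have h3 := (x t').2.2.2
      change P.1 = (x t').1 at h
      rw [← h] at h3
      omega
    · exfalso
      have h1 := (pd_irr hg P').2.2.2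
      have h2 := hg.large _ t.2
      have h3 := (x t).2.2.2
      change (x t).1 = P'.1 at h
      rw [h] at h3
      omega
    · exact congrArg Sum.inr (SmK.x_inj x h)
  ne := by
    rintro (P | t) i h
    · refine hg.notdvd (d.ell i) (mem_badP.2 ⟨i, rfl⟩) ?_
      rw [← h]
      exact (pd_irr hg P).2.2.1
    · have h1 := hN (d.ell i) (mem_badP.2 ⟨i, rfl⟩)
      have h2 := hg.large _ t.2
      have h3 := (x t).2.2.2
      change (x t).1 = d.ell i at h
      rw [h] at h3
      omega

theorem prod_vecG (hg : SmK.IsGrid (badP d) N0 n g) (x : SmK.Pts k g.2) :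
    ∏ j, vecG g x j = SmK.ev g x := by
  rw [Fintype.prod_sum_type]
  unfold SmK.ev vecG
  simp only [Sum.elim_inl, Sum.elim_inr]
  congr 1
  refine Eq.trans ?_ (SmK.prod_primesOf hg.monic hg.sqf)
  exact Finset.prod_coe_sort (primesOf g.1) (fun P => P)

theorem symEq_iff [Finite k] (h2 : (2 : k) ≠ 0) (hN : ∀ P ∈ badP d, P.natDegree < N0)
    (hg : SmK.IsGrid (badP d) N0 n g) (x x' : SmK.Pts k g.2) :
    SymEq d (vecG g x) (vecG g x') ↔ patG d g x = patG d g x' := by
  have hp := pvec_vecG hN hg x
  have hp' := pvec_vecG hN hg x'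
  have hdeg : ∀ j, (vecG g x j).natDegree = (vecG g x' j).natDegree := by
    rintro (P | t)
    · rfl
    · exact (x t).2.2.2.trans (x' t).2.2.2.symm
  constructor
  · intro h
    refine Prod.ext (funext fun t => funext fun y => ?_) (funext fun q => ?_)
    · rcases y with i | P
      · exact h.ell (Sum.inr t) i
      · exact h.sym (Sum.inr t) (Sum.inl P)
    · exact h.sym (Sum.inr q.1.2) (Sum.inr q.1.1)
  · intro h
    have h1 : ∀ t y, leg (x t).1 (fixG d g y) = leg (x' t).1 (fixG d g y) := fun t y =>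
      congrFun (congrFun (congrArg Prod.fst h) t) y
    have h3 : ∀ s t : g.2, s < t → leg (x t).1 (x s).1 = leg (x' t).1 (x' s).1 := fun s t hst =>
      congrFun (congrArg Prod.snd h) ⟨(s, t), hst⟩
    have hrec : ∀ i j, i ≠ j → leg (vecG g x j) (vecG g x i) = leg (vecG g x' j) (vecG g x' i) →
        leg (vecG g x i) (vecG g x j) = leg (vecG g x' i) (vecG g x' j) := by
      intro i j hij h4
      rw [BJ.leg_recip h2 (hp.irr i) (hp.monic i) (hp.irr j) (hp.monic j) (hp.inj.ne hij),
        BJ.leg_recip h2 (hp'.irr i) (hp'.monic i) (hp'.irr j) (hp'.monic j) (hp'.inj.ne hij), h4,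
        hdeg, hdeg]
    refine ⟨hdeg, ?_, ?_⟩
    · rintro (P | t) i
      · rfl
      · exact h1 t (Sum.inl i)
    · rintro (P | t) (P' | t')
      · rfl
      · exact hrec _ _ (by simp) (h1 t' (Sum.inr P))
      · exact h1 t (Sum.inr P')
      · rcases lt_trichotomy t t' with h4 | h4 | h4
        · exact hrec _ _ (fun h5 => h4.ne (Sum.inr_injective h5)) (h3 t t' h4)
        · subst h4
          rw [BJ.leg_self, BJ.leg_self]
        · exact h3 t' t h4

theorem card_pairs (ι : Type) [Fintype ι] [LinearOrder ι] :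
    Nat.card {p : ι × ι // p.1 < p.2} = (Fintype.card ι).choose 2 := by
  classical
  rw [Nat.card_eq_fintype_card, Fintype.card_subtype]
  have := Finset.card_powersetCard 2 (Finset.univ : Finset ι)
  rw [Finset.card_univ] at this
  rw [← this]
  refine Finset.card_bij (fun p _ => {p.1, p.2}) ?_ ?_ ?_
  · rintro ⟨a, b⟩ hab
    simp only [Finset.mem_filter, Finset.mem_univ, true_and] at hab
    rw [Finset.mem_powersetCard]
    exact ⟨Finset.subset_univ _, Finset.card_pair hab.ne⟩
  · rintro ⟨a, b⟩ hab ⟨a', b'⟩ hab' hh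
    simp only [Finset.mem_filter, Finset.mem_univ, true_and] at hab hab'
    have h1 : a ∈ ({a', b'} : Finset ι) := by rw [← hh]; simp
    have h2 : b ∈ ({a', b'} : Finset ι) := by rw [← hh]; simp
    simp only [Finset.mem_insert, Finset.mem_singleton] at h1 h2
    rcases h1 with rfl | rfl
    · rcases h2 with rfl | rfl
      · exact absurd hab (lt_irrefl _)
      · rfl
    · rcases h2 with rfl | rfl
      · exact absurd hab' hab.not_gt
      · exact absurd hab (lt_irrefl _)
  · intro s hs
    rw [Finset.mem_powersetCard] at hs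
    obtain ⟨a, b, hab, rfl⟩ := Finset.card_eq_two.1 hs.2
    rcases lt_or_gt_of_ne hab with h1 | h1
    · exact ⟨(a, b), by simpa using h1, rfl⟩
    · exact ⟨(b, a), by simpa using h1, Finset.pair_comm b a⟩

/-- The number of patterns. -/
theorem card_PatG (d : TwData k) (g : k[X] × Finset ℕ) :
    Nat.card (PatG d g) = 2 ^ (g.2.card * (d.h + Nat.card (PD g.1)) + g.2.card.choose 2) := by
  have h1 : Nat.card (FG d g) = d.h + Nat.card (PD g.1) := by
    rw [Nat.card_sum, Nat.card_eq_fintype_card (α := Fin d.h), Fintype.card_fin]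
  have h3 : Nat.card g.2 = g.2.card := by
    rw [Nat.card_eq_fintype_card, Fintype.card_coe]
  rw [Nat.card_prod, Nat.card_fun, Nat.card_fun, Nat.card_fun, Nat.card_zmod, card_pairs, h1,
    h3, Fintype.card_coe, ← pow_mul, ← pow_add, mul_comm g.2.card]

end vec

end Pool.Agent.Sm
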