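import Pool.Agent.Lib.Sm.L.Kummer

/-!
SMITH, block L4. From `#Sel_(2^i) ≤ B 2^i` for all `i`: the rank is at most one, and if it is one then
`Sha[2^∞]` is finite.
-/

set_option autoImplicit false

open Polynomial WeierstrassCurve Pool.Agent.BSDFF Pool.Agent.BSDFF.MW

namespace Pool.Agent.Sm.L

section

variable {k : Type} [Field k] [Finite k]
variable (W : WeierstrassCurve (RatFunc k)) [W.IsElliptic]
variable (Ω : Type) [Field Ω] [Algebra (RatFunc k) Ω] [IsGalois (RatFunc k) Ω]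

open scoped Classical in
private theorem rank_key {B r : ℕ} (hfin : ∀ i : ℕ, Finite (Sel k Ω W (2 ^ i)))
    (hB : ∀ i : ℕ, Nat.card (Sel k Ω W (2 ^ i)) ≤ B * 2 ^ (r * i))
    (hdiv : ∀ (i : ℕ) (P : Pts Ω W), ∃ Q, 2 ^ i • Q = P) (i : ℕ) (hi : 1 ≤ i) :
    Finite (Gn (Sha k Ω W) (2 ^ i)) ∧
      (2 ^ i) ^ algebraicRank W * Nat.card (Gn (Sha k Ω W) (2 ^ i)) ≤ B * 2 ^ (r * i) := by
  have h0 := card_sel k Ω W (2 ^ i) (hdiv i)
  have hne : Nat.card (Sel k Ω W (2 ^ i)) ≠ 0 := by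
    have := hfin i
    exact Nat.card_pos.ne'
  rw [h0] at hne
  have h1 : (nG W.toAffine.Point (2 ^ i)).index ≠ 0 := left_ne_zero_of_mul hne
  have h2 : Nat.card (Gn (Sha k Ω W) (2 ^ i)) ≠ 0 := right_ne_zero_of_mul hne
  have h3 := index_eq W (n := 2 ^ i) (by
    calc 2 = 2 ^ 1 := rfl
      _ ≤ 2 ^ i := Nat.pow_le_pow_right (by norm_num) hi) h1
  refine ⟨Nat.finite_of_card_ne_zero h2, ?_⟩
  have h4 := hB i
  rw [h0, h3] at h4
  have h5 : 1 ≤ Nat.card (Gn W.toAffine.Point (2 ^ i)) := by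
    rw [h3] at h1
    exact Nat.one_le_iff_ne_zero.mpr (right_ne_zero_of_mul h1)
  calc (2 ^ i) ^ algebraicRank W * Nat.card (Gn (Sha k Ω W) (2 ^ i))
      ≤ (2 ^ i) ^ algebraicRank W * Nat.card (Gn W.toAffine.Point (2 ^ i)) *
        Nat.card (Gn (Sha k Ω W) (2 ^ i)) :=
        Nat.mul_le_mul_right _ (Nat.le_mul_of_pos_right _ h5)
    _ ≤ B * 2 ^ (r * i) := h4

open scoped Classical in
/-- `W(K)` is finitely generated as soon as `Sel_2` is finite. -/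
theorem finite_points (hfin : Finite (Sel k Ω W (2 ^ 1)))
    (hdiv : ∀ P : Pts Ω W, ∃ Q, 2 ^ 1 • Q = P) : Module.Finite ℤ W.toAffine.Point := by
  have h0 := card_sel k Ω W (2 ^ 1) hdiv
  have hne : Nat.card (Sel k Ω W (2 ^ 1)) ≠ 0 := Nat.card_pos.ne'
  rw [h0] at hne
  exact module_finite W (n := 2 ^ 1) (by norm_num) (left_ne_zero_of_mul hne)

theorem rank_le {B r : ℕ} (hfin : ∀ i : ℕ, Finite (Sel k Ω W (2 ^ i)))
    (hB : ∀ i : ℕ, Nat.card (Sel k Ω W (2 ^ i)) ≤ B * 2 ^ (r * i))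
    (hdiv : ∀ (i : ℕ) (P : Pts Ω W), ∃ Q, 2 ^ i • Q = P) : algebraicRank W ≤ r := by
  by_contra hr
  obtain ⟨hf, h⟩ := rank_key W Ω hfin hB hdiv (B + 1) (Nat.le_add_left 1 B)
  have h1 : 1 ≤ Nat.card (Gn (Sha k Ω W) (2 ^ (B + 1))) := Nat.card_pos
  have h2 : (2 ^ (B + 1)) ^ (r + 1) ≤ B * 2 ^ (r * (B + 1)) := by
    calc (2 ^ (B + 1)) ^ (r + 1) ≤ (2 ^ (B + 1)) ^ algebraicRank W :=
          Nat.pow_le_pow_right (Nat.two_pow_pos _) (by omega)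
      _ ≤ (2 ^ (B + 1)) ^ algebraicRank W * Nat.card (Gn (Sha k Ω W) (2 ^ (B + 1))) :=
          Nat.le_mul_of_pos_right _ h1
      _ ≤ _ := h
  rw [pow_succ', ← pow_mul 2 (B + 1) r, mul_comm (B + 1) r] at h2
  have h3 := Nat.le_of_mul_le_mul_right h2 (Nat.two_pow_pos _)
  have h4 : B + 1 < 2 ^ (B + 1) := Nat.lt_two_pow_self
  omega

theorem finite_sha2 {B r : ℕ} (hfin : ∀ i : ℕ, Finite (Sel k Ω W (2 ^ i)))
    (hB : ∀ i : ℕ, Nat.card (Sel k Ω W (2 ^ i)) ≤ B * 2 ^ (r * i))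
    (hdiv : ∀ (i : ℕ) (P : Pts Ω W), ∃ Q, 2 ^ i • Q = P) (hr : algebraicRank W = r) :
    Finite (Sha2 k Ω W) := by
  by_contra hinf
  rw [not_finite_iff_infinite] at hinf
  obtain ⟨s, hs⟩ := Infinite.exists_subset_card_eq (Sha2 k Ω W) (B + 1)
  have hx : ∀ x : Sha2 k Ω W, ∃ i : ℕ, 2 ^ i • (x : Sha k Ω W) = 0 := fun x => x.2
  choose e he using hx
  have hN : ∀ x ∈ s, 2 ^ (1 + ∑ y ∈ s, e y) • (x : Sha k Ω W) = 0 := by
    intro x hxs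
    have h1 : e x ≤ ∑ y ∈ s, e y := Finset.single_le_sum (fun _ _ => Nat.zero_le _) hxs
    obtain ⟨m, hm⟩ := Nat.exists_eq_add_of_le (h1.trans (Nat.le_add_left _ 1))
    rw [hm, pow_add, mul_nsmul, he x, nsmul_zero]
  obtain ⟨hf, h⟩ := rank_key W Ω hfin hB hdiv (1 + ∑ y ∈ s, e y) (Nat.le_add_right 1 _)
  rw [hr, ← pow_mul, mul_comm (1 + ∑ y ∈ s, e y) r, mul_comm] at h
  have h2 := Nat.le_of_mul_le_mul_right h (Nat.two_pow_pos _)
  have h3 : s.card ≤ Nat.card (Gn (Sha k Ω W) (2 ^ (1 + ∑ y ∈ s, e y))) := by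
    rw [← Nat.card_eq_finsetCard s]
    refine Nat.card_le_card_of_injective
      (fun x : {x // x ∈ s} => ⟨((x : Sha2 k Ω W) : Sha k Ω W), hN x.1 x.2⟩) ?_
    intro x y hxy
    apply Subtype.ext
    apply Subtype.ext
    exact congrArg (fun z : Gn (Sha k Ω W) (2 ^ (1 + ∑ y ∈ s, e y)) => (z : Sha k Ω W)) hxy
  omega

end

end Pool.Agent.Sm.L
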