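import Pool.Agent.Lib.MP_48b749_nt.Defs
import Pool.Agent.Lib.SM.E.Half

/-!
SMITH over `F_q(t)`, final statement: definitions.

`K` is a field with a subfield `k` of constants, `Ω` a separable closure of `K`, `W` an elliptic
curve over `K`. `Sel k Ω W n` is the `n`-Selmer group of `W`: the classes of the continuous crossed
homomorphisms `ψ : Gal(Ω/K) → W(Ω)[n]` which are coboundaries with values in `W(Ω)` on the
decomposition group of every place of `Ω`.
-/

set_option autoImplicit false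

open Polynomial WeierstrassCurve Pool.Agent.BSDFF Pool.Agent

namespace Pool.Agent.Sm.L

open scoped Classical in
/-- The group `W(Ω)`. -/
abbrev Pts {K : Type} [Field K] (Ω : Type) [Field Ω] [Algebra K Ω] (W : WeierstrassCurve K) :
    Type := (W.baseChange Ω).toAffine.Point

/-- The elements of an abelian group whose order is a power of `2`. -/
def twoPow (A : Type) [AddCommGroup A] : AddSubgroup A where
  carrier := {x | ∃ i : ℕ, 2 ^ i • x = 0}
  zero_mem' := ⟨0, nsmul_zero _⟩
  add_mem' := by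
    rintro a b ⟨i, hi⟩ ⟨j, hj⟩
    refine ⟨i + j, ?_⟩
    have h1 : 2 ^ (i + j) • a = 0 := by rw [pow_add, mul_nsmul, hi, nsmul_zero]
    have h2 : 2 ^ (i + j) • b = 0 := by rw [pow_add, mul_comm, mul_nsmul, hj, nsmul_zero]
    rw [nsmul_add, h1, h2, add_zero]
  neg_mem' := by
    rintro a ⟨i, hi⟩
    exact ⟨i, by rw [neg_nsmul, hi, neg_zero]⟩

section sel

variable (k : Type) {K : Type} (Ω : Type) [Field k] [Field K] [Field Ω] [Algebra k K] [Algebra K Ω]
variable (W : WeierstrassCurve K)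

open scoped Classical in
noncomputable instance : AddCommGroup (Pts Ω W) :=
  inferInstanceAs (AddCommGroup (W.baseChange Ω).toAffine.Point)

open scoped Classical in
/-- The action of the Galois group on `W(Ω)`. -/
noncomputable def gal (s : Ω ≃ₐ[K] Ω) : Pts Ω W →+ Pts Ω W :=
  Affine.Point.map (W' := W) s.toAlgHom

/-- The continuous crossed homomorphisms `Gal(Ω/K) → W(Ω)[n]` which are coboundaries in `W(Ω)` at
every place, that is, on the decomposition group of every nontrivial valuation ring of `Ω` which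
contains `k`. -/
structure IsSel (n : ℕ) (ψ : (Ω ≃ₐ[K] Ω) → Pts Ω W) : Prop where
  cocycle : ∀ s t, ψ (s * t) = ψ s + gal Ω W s (ψ t)
  tors : ∀ s, n • ψ s = 0
  cont : ∃ L : IntermediateField K Ω, FiniteDimensional K L ∧
    ∀ s t : Ω ≃ₐ[K] Ω, (∀ x ∈ L, s x = t x) → ψ s = ψ t
  loc : ∀ w : ValuationSubring Ω, w ≠ ⊤ → (∀ c : k, algebraMap K Ω (algebraMap k K c) ∈ w) →
    ∃ Q : Pts Ω W, ∀ s ∈ w.decompositionSubgroup K, ψ s = gal Ω W s Q - Q

/-- The group of these crossed homomorphisms. -/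
noncomputable def ZSel (n : ℕ) : AddSubgroup ((Ω ≃ₐ[K] Ω) → Pts Ω W) where
  carrier := {ψ | IsSel k Ω W n ψ}
  zero_mem' := ⟨fun s t => by simp, fun s => by simp, ⟨⊥, inferInstance, fun _ _ _ => rfl⟩,
    fun w _ _ => ⟨0, fun s _ => by simp⟩⟩
  add_mem' {a b} ha hb := by
    refine ⟨fun s t => ?_, fun s => ?_, ?_, fun w h h' => ?_⟩
    · simp only [Pi.add_apply, ha.cocycle, hb.cocycle, map_add]
      abel
    · rw [Pi.add_apply, smul_add, ha.tors, hb.tors, add_zero]
    · obtain ⟨L, hL, h1⟩ := ha.cont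
      obtain ⟨L', hL', h2⟩ := hb.cont
      refine ⟨L ⊔ L', IntermediateField.finiteDimensional_sup L L', fun s t h => ?_⟩
      rw [Pi.add_apply, Pi.add_apply, h1 s t fun x hx => h x (le_sup_left (a := L) (b := L') hx),
        h2 s t fun x hx => h x (le_sup_right (a := L) (b := L') hx)]
    · obtain ⟨Q, hQ⟩ := ha.loc w h h'
      obtain ⟨Q', hQ'⟩ := hb.loc w h h'
      refine ⟨Q + Q', fun s hs => ?_⟩
      rw [Pi.add_apply, hQ s hs, hQ' s hs, map_add]
      abel
  neg_mem' {a} ha := by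
    refine ⟨fun s t => ?_, fun s => ?_, ?_, fun w h h' => ?_⟩
    · simp only [Pi.neg_apply, ha.cocycle, map_neg]
      abel
    · rw [Pi.neg_apply, smul_neg, ha.tors, neg_zero]
    · obtain ⟨L, hL, h1⟩ := ha.cont
      exact ⟨L, hL, fun s t h => by rw [Pi.neg_apply, Pi.neg_apply, h1 s t h]⟩
    · obtain ⟨Q, hQ⟩ := ha.loc w h h'
      refine ⟨-Q, fun s hs => ?_⟩
      rw [Pi.neg_apply, hQ s hs, map_neg]
      abel

/-- The coboundaries of the points of `W(Ω)[n]`. -/
noncomputable def BSel (n : ℕ) : AddSubgroup ((Ω ≃ₐ[K] Ω) → Pts Ω W) where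
  carrier := {ψ | ∃ T : Pts Ω W, n • T = 0 ∧ ∀ s, ψ s = gal Ω W s T - T}
  zero_mem' := ⟨0, by simp, fun s => by simp⟩
  add_mem' := by
    rintro a b ⟨T, hT, h⟩ ⟨T', hT', h'⟩
    refine ⟨T + T', by rw [smul_add, hT, hT', add_zero], fun s => ?_⟩
    rw [Pi.add_apply, h, h', map_add]
    abel
  neg_mem' := by
    rintro a ⟨T, hT, h⟩
    refine ⟨-T, by rw [smul_neg, hT, neg_zero], fun s => ?_⟩
    rw [Pi.neg_apply, h, map_neg]
    abel

/-- The `n`-Selmer group of `W`. -/
abbrev Sel (n : ℕ) : Type := ZSel k Ω W n ⧸ (BSel Ω W n).addSubgroupOf (ZSel k Ω W n)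

/-- The continuous crossed homomorphisms `Gal(Ω/K) → W(Ω)` which are coboundaries at every place. -/
structure IsSha (ψ : (Ω ≃ₐ[K] Ω) → Pts Ω W) : Prop where
  cocycle : ∀ s t, ψ (s * t) = ψ s + gal Ω W s (ψ t)
  cont : ∃ L : IntermediateField K Ω, FiniteDimensional K L ∧
    ∀ s t : Ω ≃ₐ[K] Ω, (∀ x ∈ L, s x = t x) → ψ s = ψ t
  loc : ∀ w : ValuationSubring Ω, w ≠ ⊤ → (∀ c : k, algebraMap K Ω (algebraMap k K c) ∈ w) →
    ∃ Q : Pts Ω W, ∀ s ∈ w.decompositionSubgroup K, ψ s = gal Ω W s Q - Q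

/-- The group of these crossed homomorphisms. -/
noncomputable def ZSha : AddSubgroup ((Ω ≃ₐ[K] Ω) → Pts Ω W) where
  carrier := {ψ | IsSha k Ω W ψ}
  zero_mem' := ⟨fun s t => by simp, ⟨⊥, inferInstance, fun _ _ _ => rfl⟩,
    fun w _ _ => ⟨0, fun s _ => by simp⟩⟩
  add_mem' {a b} ha hb := by
    refine ⟨fun s t => ?_, ?_, fun w h h' => ?_⟩
    · simp only [Pi.add_apply, ha.cocycle, hb.cocycle, map_add]
      abel
    · obtain ⟨L, hL, h1⟩ := ha.cont
      obtain ⟨L', hL', h2⟩ := hb.cont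
      refine ⟨L ⊔ L', IntermediateField.finiteDimensional_sup L L', fun s t h => ?_⟩
      rw [Pi.add_apply, Pi.add_apply, h1 s t fun x hx => h x (le_sup_left (a := L) (b := L') hx),
        h2 s t fun x hx => h x (le_sup_right (a := L) (b := L') hx)]
    · obtain ⟨Q, hQ⟩ := ha.loc w h h'
      obtain ⟨Q', hQ'⟩ := hb.loc w h h'
      refine ⟨Q + Q', fun s hs => ?_⟩
      rw [Pi.add_apply, hQ s hs, hQ' s hs, map_add]
      abel
  neg_mem' {a} ha := by
    refine ⟨fun s t => ?_, ?_, fun w h h' => ?_⟩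
    · simp only [Pi.neg_apply, ha.cocycle, map_neg]
      abel
    · obtain ⟨L, hL, h1⟩ := ha.cont
      exact ⟨L, hL, fun s t h => by rw [Pi.neg_apply, Pi.neg_apply, h1 s t h]⟩
    · obtain ⟨Q, hQ⟩ := ha.loc w h h'
      refine ⟨-Q, fun s hs => ?_⟩
      rw [Pi.neg_apply, hQ s hs, map_neg]
      abel

/-- The coboundaries. -/
noncomputable def BSha : AddSubgroup ((Ω ≃ₐ[K] Ω) → Pts Ω W) where
  carrier := {ψ | ∃ T : Pts Ω W, ∀ s, ψ s = gal Ω W s T - T}
  zero_mem' := ⟨0, fun s => by simp⟩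
  add_mem' := by
    rintro a b ⟨T, h⟩ ⟨T', h'⟩
    refine ⟨T + T', fun s => ?_⟩
    rw [Pi.add_apply, h, h', map_add]
    abel
  neg_mem' := by
    rintro a ⟨T, h⟩
    refine ⟨-T, fun s => ?_⟩
    rw [Pi.neg_apply, h, map_neg]
    abel

/-- The Tate-Shafarevich group of `W`. -/
abbrev Sha : Type := ZSha k Ω W ⧸ (BSha Ω W).addSubgroupOf (ZSha k Ω W)

/-- The `2`-power torsion of the Tate-Shafarevich group. -/
noncomputable def Sha2 : AddSubgroup (Sha k Ω W) := twoPow (Sha k Ω W)

end sel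

section final

variable (k : Type) {K : Type} [Field k] [Field K] [Algebra k K]

/-- The `2`-power Selmer group of `W` has corank `r`: up to a constant factor the `2 ^ i`-Selmer
group has `2 ^ (r i)` elements. -/
def HasCorank (Ω : Type) [Field Ω] [Algebra K Ω] (W : WeierstrassCurve K) (r : ℕ) : Prop :=
  ∃ B : ℕ, ∀ i, Nat.card (Sel k Ω W (2 ^ i)) ≤ B * 2 ^ (r * i) ∧
    2 ^ (r * i) ≤ B * Nat.card (Sel k Ω W (2 ^ i))

open scoped Classical in
/-- The conclusions for one curve `W`, in terms of a separable closure `Ω` of `K`: the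
`2 ^ i`-Selmer groups are finite, that of level `j` has less than `4 ^ j` elements, the group
`W (K)` is finitely generated, the `2`-power Selmer group has corank `r ≤ 1`, the rank of `W (K)` is
at most `r`, and if it is `r` then the `2`-power torsion of the Tate-Shafarevich group is finite. -/
structure GoodOn (Ω : Type) [Field Ω] [Algebra K Ω] (W : WeierstrassCurve K) (j : ℕ) : Prop where
  fin : ∀ i, Finite (Sel k Ω W (2 ^ i))
  lt : Nat.card (Sel k Ω W (2 ^ j)) < 4 ^ j
  fg : Module.Finite ℤ W.toAffine.Point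
  corank : ∃ r, r ≤ 1 ∧ HasCorank k Ω W r ∧ algebraicRank W ≤ r ∧
    (algebraicRank W = r → Finite (Sha2 k Ω W))

/-- The conclusions for one curve. -/
def GoodC (W : WeierstrassCurve K) (j : ℕ) : Prop := GoodOn k (SeparableClosure K) W j

open scoped Classical in
/-- Corank `0`, rank `0` and finite `2`-power torsion of the Tate-Shafarevich group, in terms of a
separable closure `Ω` of `K`. -/
def Rank0On (Ω : Type) [Field Ω] [Algebra K Ω] (W : WeierstrassCurve K) : Prop :=
  HasCorank k Ω W 0 ∧ algebraicRank W = 0 ∧ Finite (Sha2 k Ω W)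

open scoped Classical in
/-- Corank `1` and rank at most `1`, in terms of a separable closure `Ω` of `K`. -/
def Corank1On (Ω : Type) [Field Ω] [Algebra K Ω] (W : WeierstrassCurve K) : Prop :=
  HasCorank k Ω W 1 ∧ algebraicRank W ≤ 1

/-- The curve `W` has Selmer corank `0`, rank `0` and a finite `2`-power torsion of its
Tate-Shafarevich group. -/
def Rank0C (W : WeierstrassCurve K) : Prop := Rank0On k (SeparableClosure K) W

/-- The curve `W` has Selmer corank `1` and rank at most `1`. -/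
def Corank1C (W : WeierstrassCurve K) : Prop := Corank1On k (SeparableClosure K) W

end final

section twist

variable {k : Type} [Field k]

/-- The curve `y ^ 2 = x (x - a) (x - b)` over `k (t)`. -/
noncomputable abbrev crv2 (a b : k[X]) : WeierstrassCurve (RatFunc k) :=
  SmithE.crv 0 (algebraMap k[X] (RatFunc k) a) (algebraMap k[X] (RatFunc k) b)

/-- The conclusions for the quadratic twist `y ^ 2 = x (x - D α) (x - D β)` by `D` of the curve
`y ^ 2 = x (x - α) (x - β)`. -/
def Good (α β : k[X]) (j : ℕ) (D : k[X]) : Prop := GoodC k (crv2 (D * α) (D * β)) j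

/-- `y ^ 2 = x (x - α) (x - β)` is an elliptic curve without cyclic isogenies of degree `4`:
none of `α β`, `α (α - β)`, `β (β - α)` is a constant times a square. -/
structure No4 (α β : k[X]) : Prop where
  n0 : ∀ (c : k) (f : k[X]), α * β ≠ C c * f ^ 2
  n1 : ∀ (c : k) (f : k[X]), α * (α - β) ≠ C c * f ^ 2
  n2 : ∀ (c : k) (f : k[X]), β * (β - α) ≠ C c * f ^ 2

/-- The twist by `D` has Selmer corank `0`, rank `0` and a finite `2`-power torsion of its
Tate-Shafarevich group. -/
def Rank0 (α β D : k[X]) : Prop := Rank0C k (crv2 (D * α) (D * β))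

/-- The twist by `D` has Selmer corank `1` and rank at most `1`. -/
def Corank1 (α β D : k[X]) : Prop := Corank1C k (crv2 (D * α) (D * β))

/-- `y ^ 2 = x (x - a) (x - b)` has multiplicative reduction at the irreducible polynomial `l`: after
division of `a` and `b` by an even power of `l` not both are divisible by `l`, but `a`, `b` or
`a - b` is. -/
def MultAt (l a b : k[X]) : Prop :=
  ∃ m : ℕ, l ^ (2 * m) ∣ a ∧ l ^ (2 * m) ∣ b ∧ ¬ (l ^ (2 * m + 1) ∣ a ∧ l ^ (2 * m + 1) ∣ b) ∧
    (l ^ (2 * m + 1) ∣ a ∨ l ^ (2 * m + 1) ∣ b ∨ l ^ (2 * m + 1) ∣ a - b)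

/-- `y ^ 2 = x (x - D α) (x - D β)` has multiplicative reduction at some irreducible polynomial. -/
def MultD (α β D : k[X]) : Prop := ∃ l : k[X], Irreducible l ∧ MultAt l (D * α) (D * β)

end twist

end Pool.Agent.Sm.L
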