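import Pool.Agent.Lib.Sm.L.Pat

/-!
SMITH, block L: the explicit Selmer group in codes over `J`: invariance under `SymEq`, and transfer
from `Typ` (codes over the primes of `D`).
-/

set_option autoImplicit false

open Polynomial

namespace Pool.Agent.Sm

open Pool.Agent.BSDP.R (primesOf)

variable {k : Type} [Field k] {d : TwData k} {J : Type} [Fintype J]

theorem condJ_symEq [Finite k] (h2 : (2 : k) ≠ 0) {p p' : J → k[X]} (hp : PVec d p)
    (hp' : PVec d p') (h : SymEq d p p') (c : CodeJ d J) (j : J) :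
    condJ d p c j = condJ d p' c j := by
  unfold condJ
  have hu : leg (p j) (C d.u) = leg (p' j) (C d.u) := by
    rw [BJ.leg_C_nonsq h2 (hp.irr j) (hp.monic j) d.u_nonsq,
      BJ.leg_C_nonsq h2 (hp'.irr j) (hp'.monic j) d.u_nonsq, h.deg j]
  simp only [hu, h.ell, h.sym]

theorem selpJ_symEq [Finite k] (h2 : (2 : k) ≠ 0) {p p' : J → k[X]} (hp : PVec d p)
    (hp' : PVec d p') (h : SymEq d p p') : SelpJ d p = SelpJ d p' := by
  ext c
  simp only [SelpJ]
  exact forall_congr' fun j => by rw [condJ_symEq h2 hp hp' h]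

/-- The codes over `J` are independent modulo the codes of the 2-torsion. -/
def IndepJ (d : TwData k) {J : Type} {r : ℕ} (c : Fin r → CodeJ d J) : Prop :=
  ∀ (α : Fin r → ZMod 2) (w : V1), ∑ l, α l • c l = kapJ d J w → α = 0

/-- (T1) and (T2) in codes over `J`. -/
structure TypJ (d : TwData k) {J : Type} [Fintype J] (p : J → k[X]) (R kk N0 : ℕ) : Prop where
  small : Nat.card (SelpJ d p) ≤ 2 ^ R
  generic : ∀ (r : ℕ) (c : Fin r → CodeJ d J), (∀ i, c i ∈ SelpJ d p) → IndepJ d c →
    ∀ w : Fin r → V1, kk ≤ Nat.card {j : J // N0 ≤ (p j).natDegree ∧ 4 ∣ (p j).natDegree ∧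
      ∀ i, (c i).2.2 j = w i}

/-- The primes of `∏ j, p j`. -/
theorem primesOf_pvec {p : J → k[X]} (hp : PVec d p) {P : k[X]} :
    P ∈ primesOf (∏ j, p j) ↔ ∃ j, p j = P := by
  classical
  have h1 : ∏ j, p j = ∏ P ∈ Finset.univ.image p, P := by
    rw [Finset.prod_image fun i _ j _ h => hp.inj h]
  rw [h1, SmK.primesOf_prod]
  · simp
  · intro P hP
    obtain ⟨j, _, rfl⟩ := Finset.mem_image.1 hP
    exact ⟨hp.monic j, hp.irr j⟩

/-- The bijection between the primes of `D` and `J`. -/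
noncomputable def eqJ {p : J → k[X]} (hp : PVec d p) : PD (∏ j, p j) ≃ J :=
  (Equiv.ofBijective (fun j => (⟨p j, (primesOf_pvec hp).2 ⟨j, rfl⟩⟩ : PD (∏ j, p j)))
    ⟨fun _ _ h => hp.inj (congrArg Subtype.val h), fun P => by
      obtain ⟨j, hj⟩ := (primesOf_pvec hp).1 P.2
      exact ⟨j, Subtype.ext hj⟩⟩).symm

theorem eqJ_spec {p : J → k[X]} (hp : PVec d p) (P : PD (∏ j, p j)) : p (eqJ hp P) = P.1 := by
  have h := (eqJ hp).symm_apply_apply P
  exact congrArg Subtype.val h

/-- Reindexing of the codes. -/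
noncomputable def toC {p : J → k[X]} (hp : PVec d p) : CodeJ d J ≃ Code d (∏ j, p j) where
  toFun c := (c.1, c.2.1, fun P => c.2.2 (eqJ hp P))
  invFun c := (c.1, c.2.1, fun j => c.2.2 ((eqJ hp).symm j))
  left_inv c := by simp
  right_inv c := by simp

theorem cond_toC {p : J → k[X]} (hp : PVec d p) (c : CodeJ d J) (P : PD (∏ j, p j)) :
    cond d (∏ j, p j) (toC hp c) P = condJ d p c (eqJ hp P) := by
  unfold cond condJ
  rw [eqJ_spec hp P]
  congr 1
  rw [← (eqJ hp).sum_comp]
  exact Finset.sum_congr rfl fun Q _ => by rw [eqJ_spec hp Q]; rfl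

theorem toC_mem {p : J → k[X]} (hp : PVec d p) (c : CodeJ d J) :
    toC hp c ∈ Selp d (∏ j, p j) ↔ c ∈ SelpJ d p := by
  change (∀ P, cond d (∏ j, p j) (toC hp c) P = 0) ↔ ∀ j, condJ d p c j = 0
  simp only [cond_toC]
  exact (eqJ hp).forall_congr_left.trans (by simp)

theorem typJ_of_typ {p : J → k[X]} (hp : PVec d p) {R kk N : ℕ}
    (h : Typ d (∏ j, p j) R kk 2 N) : TypJ d p R kk N where
  small := by
    refine le_trans (le_of_eq ?_) h.small
    exact Nat.card_congr ((toC hp).subtypeEquiv fun c => (toC_mem hp c).symm)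
  generic r c hc hi w := by
    have h1 := h.generic r (fun i => toC hp (c i)) (fun i => (toC_mem hp _).2 (hc i)) (by
      rintro α ⟨w, hw⟩
      refine hi α w ?_
      apply (toC hp).injective
      have h3 : toC hp (∑ l, α l • c l) = ∑ l, α l • toC hp (c l) := by
        refine Prod.ext ?_ (Prod.ext ?_ ?_)
        · simp [toC, Prod.fst_sum]
        · simp [toC, Prod.fst_sum, Prod.snd_sum]
        · simp only [toC, Equiv.coe_fn_mk, Prod.snd_sum]
          funext P
          simp [Finset.sum_apply]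
      rw [h3, hw]
      rfl) w
    refine le_trans h1 (le_of_eq ?_)
    refine Nat.card_congr ((eqJ hp).subtypeEquiv fun P => ?_)
    rw [eqJ_spec hp P]
    rfl

theorem TypJ.of_symEq [Finite k] (h2 : (2 : k) ≠ 0) {p p' : J → k[X]} (hp : PVec d p)
    (hp' : PVec d p') (h : SymEq d p p') {R kk N : ℕ} (ht : TypJ d p R kk N) :
    TypJ d p' R kk N where
  small := by rw [← selpJ_symEq h2 hp hp' h]; exact ht.small
  generic r c hc hi w := by
    have h1 := ht.generic r c (fun i => by rw [selpJ_symEq h2 hp hp' h]; exact hc i) hi w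
    simpa only [h.deg] using h1

end Pool.Agent.Sm
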